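import Pool.Agent.Lib.MP_68dca0_co.Geo

namespace Pool.Agent.Lib.MP_68dca0_co

open Set

variable {φ : P →L[ℝ] ℝ} {u v : P} {S : Set P} {d : ℝ}

/-- the terminals are far apart and joined inside their strip -/
structure Q0 (φ : P →L[ℝ] ℝ) (d : ℝ) (u v : P) (S : Set P) : Prop where
  nd : Nd u v S
  far : d ≤ |φ u - φ v|
  path : JoinedIn (insert u (insert v S) ∩ {p | min (φ u) (φ v) ≤ φ p ∧ φ p ≤ max (φ u) (φ v)}) u v

lemma Q0.symm (h : Q0 φ d u v S) : Q0 φ d v u S :=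
  ⟨h.nd.symm, by rw [abs_sub_comm]; exact h.far, by
    rw [insert_comm, min_comm, max_comm]; exact h.path.symm⟩

lemma Q0.neg (h : Q0 φ d u v S) : Q0 (-φ) d u v S :=
  ⟨h.nd, by rw [neg_apply, neg_apply, neg_sub_neg, abs_sub_comm]; exact h.far, h.path.mono (inter_subset_inter_right _ (by
    rintro p ⟨h1, h2⟩
    simp only [neg_apply, mem_ofPred_eq, min_neg_neg, max_neg_neg]
    constructor <;> linarith))⟩

lemma Q0.below (h : Q0 φ d u v S) {t : ℝ} (hu : φ u ≤ t) (hv : φ v ≤ t) {T : Set P}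
    (hT : insert v S ⊆ T) : JoinedIn (insert u T ∩ {p | φ p ≤ t}) u v :=
  h.path.mono (inter_subset_inter (insert_subset_insert hT) fun _ hp => hp.2.trans (max_le hu hv))

lemma Q0.above (h : Q0 φ d u v S) {t : ℝ} (hu : t ≤ φ u) (hv : t ≤ φ v) {T : Set P}
    (hT : insert v S ⊆ T) : JoinedIn (insert u T ∩ {p | t ≤ φ p}) u v :=
  h.path.mono (inter_subset_inter (insert_subset_insert hT) fun _ hp => (le_min hu hv).trans hp.1)

/-- complete five-fold skeleton all of whose edges are long -/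
def Sk (φ : P →L[ℝ] ℝ) (d : ℝ) : ℕ → P → P → Set P → Prop
  | 0, u, v, S => Q0 φ d u v S
  | i + 1, u, v, S => Q0 φ d u v S ∧ ∃ (z : Fin 5 → P) (S1 S2 : Fin 5 → Set P),
      (∀ j, Cp u v (z j) (S1 j) (S2 j) ∧ Sk φ d i u (z j) (S1 j) ∧ Sk φ d i (z j) v (S2 j) ∧
        insert (z j) (S1 j ∪ S2 j) ⊆ S) ∧
      ∀ j k, j ≠ k → Disjoint (insert (z j) (S1 j ∪ S2 j)) (insert (z k) (S1 k ∪ S2 k))

lemma Sk.q0 {i : ℕ} (h : Sk φ d i u v S) : Q0 φ d u v S := by
  cases i with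
  | zero => exact h
  | succ i => exact h.1

lemma Sk.symm {i : ℕ} : ∀ {u v : P} {S : Set P}, Sk φ d i u v S → Sk φ d i v u S := by
  induction i with
  | zero => exact fun h => Q0.symm h
  | succ i ih =>
    rintro u v S ⟨h0, z, S1, S2, h1, h2⟩
    refine ⟨h0.symm, z, S2, S1, fun j => ⟨(h1 j).1.symm, ih (h1 j).2.2.1, ih (h1 j).2.1, ?_⟩,
      fun j k h => ?_⟩
    · rw [union_comm]; exact (h1 j).2.2.2
    · rw [union_comm (S2 j), union_comm (S2 k)]; exact h2 j k h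

lemma Sk.neg {i : ℕ} : ∀ {u v : P} {S : Set P}, Sk φ d i u v S → Sk (-φ) d i u v S := by
  induction i with
  | zero => exact fun h => Q0.neg h
  | succ i ih =>
    rintro u v S ⟨h0, z, S1, S2, h1, h2⟩
    exact ⟨h0.neg, z, S1, S2, fun j => ⟨(h1 j).1, ih (h1 j).2.1, ih (h1 j).2.2.1, (h1 j).2.2.2⟩, h2⟩

lemma exists_below (hφ : Fn φ) {z : Fin 3 → P} {S1 S2 : Fin 3 → Set P}
    (h1 : ∀ j, Cp u v (z j) (S1 j) (S2 j) ∧ Q0 φ d u (z j) (S1 j) ∧ Q0 φ d (z j) v (S2 j))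
    (h2 : ∀ j k, j ≠ k → Disjoint (insert (z j) (S1 j ∪ S2 j)) (insert (z k) (S1 k ∪ S2 k)))
    (hv : φ v ≤ φ u) (hz : ∀ j, φ (z j) ≤ φ u) :
    ∃ j, ∀ q ∈ insert (z j) (S1 j ∪ S2 j), φ q ≤ φ u := by
  by_contra h
  push Not at h
  choose q hq using h
  exact three_top hφ (t := φ u) (fun j => (h1 j).1.bl) h2 (fun j => mem_insert _ _)
    (fun j => (h1 j).2.1.below le_rfl (hz j) (insert_subset_insert subset_union_left))
    (fun j => (h1 j).2.2.symm.below hv (hz j) (insert_subset_insert subset_union_right))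
    (fun j => ⟨(hq j).1, (hq j).2.le⟩)

lemma three_of_five (p : Fin 5 → Prop) :
    ∃ f : Fin 3 → Fin 5, Function.Injective f ∧ ((∀ j, p (f j)) ∨ ∀ j, ¬ p (f j)) := by
  classical
  have key : ∀ b : Fin 5 → Bool, ∃ f : Fin 3 → Fin 5, Function.Injective f ∧
      ((∀ j, b (f j) = true) ∨ ∀ j, b (f j) = false) := by decide +kernel
  simpa using key (fun j => decide (p j))

lemma side_aux (hφ : Fn φ) {i : ℕ} (h : Sk φ d (i + 2) u v S) (hv : φ v ≤ φ u) :
    ∃ w S', Sk φ d i u w S' ∧ insert w S' ⊆ S ∧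
      ((∀ q ∈ insert w S', φ q ≤ φ u) ∨ ∀ q ∈ insert w S', φ u ≤ φ q) := by
  obtain ⟨-, z, S1, S2, h1, h2⟩ := h
  obtain ⟨f, hf, h3 | h3⟩ := three_of_five (fun j => φ (z j) ≤ φ u)
  · obtain ⟨j, hj⟩ := exists_below hφ (z := z ∘ f) (S1 := S1 ∘ f) (S2 := S2 ∘ f)
      (fun j => ⟨(h1 _).1, (h1 _).2.1.q0, (h1 _).2.2.1.q0⟩) (fun j k h => h2 _ _ (hf.ne h)) hv h3
    obtain ⟨-, w, T1, T2, h4, -⟩ := (h1 (f j)).2.1
    have h5 : insert (w 0) (T1 0) ⊆ insert (z (f j)) (S1 (f j) ∪ S2 (f j)) :=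
      ((insert_subset_insert subset_union_left).trans (h4 0).2.2.2).trans
        (subset_union_left.trans (subset_insert _ _))
    exact ⟨w 0, T1 0, (h4 0).2.1, h5.trans (h1 _).2.2.2, Or.inl fun q hq => hj q (h5 hq)⟩
  · simp only [not_le] at h3
    choose w T1 T2 h4 h5 using fun j => (h1 (f j)).2.1.2
    have sub : ∀ j k, insert (w j k) (T1 j k ∪ T2 j k) ⊆ insert (z (f j)) (S1 (f j) ∪ S2 (f j)) :=
      fun j k => (h4 j k).2.2.2.trans (subset_union_left.trans (subset_insert _ _))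
    by_cases h6 : ∃ j, ∀ k, φ u ≤ φ (w j k)
    · obtain ⟨j, h6⟩ := h6
      obtain ⟨k, hk⟩ := exists_below hφ.neg (z := w j ∘ Fin.castLE (by norm_num))
        (S1 := T1 j ∘ Fin.castLE (by norm_num)) (S2 := T2 j ∘ Fin.castLE (by norm_num))
        (fun k => ⟨(h4 j _).1, (h4 j _).2.1.q0.neg, (h4 j _).2.2.1.q0.neg⟩)
        (fun k l h => h5 j _ _ ((Fin.castLE_injective _).ne h)) (by simpa using (h3 j).le)
        (fun k => by simpa using h6 _)
      refine ⟨_, _, (h4 j (Fin.castLE (by norm_num) k)).2.1,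
        ((insert_subset_insert subset_union_left).trans (sub _ _)).trans (h1 _).2.2.2,
        Or.inr fun q hq => ?_⟩
      simpa using hk q (insert_subset_insert subset_union_left hq)
    · exfalso
      push Not at h6
      choose k hk using h6
      exact three_block hφ (K := fun j => insert (z (f j)) (S1 (f j) ∪ S2 (f j)))
        (fun j => (h1 _).1.bl) (fun j k h => h2 _ _ (hf.ne h)) (z := z ∘ f) (w := fun j => w j (k j))
        (fun j => ⟨mem_insert _ _, h3 j⟩) (fun j => sub j (k j) (mem_insert _ _))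
        (fun j => (h1 _).2.1.q0.above le_rfl (h3 j).le (insert_subset_insert subset_union_left))
        (fun j => (h4 j _).2.1.q0.below le_rfl (hk j).le
          ((insert_subset_insert subset_union_left).trans (sub _ _)))

lemma side (hφ : Fn φ) {i : ℕ} (h : Sk φ d (i + 2) u v S) :
    ∃ w S', Sk φ d i u w S' ∧ insert w S' ⊆ S ∧
      ((∀ q ∈ insert w S', φ q ≤ φ u) ∨ ∀ q ∈ insert w S', φ u ≤ φ q) := by
  rcases le_total (φ v) (φ u) with h1 | h1
  · exact side_aux hφ h h1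
  · obtain ⟨w, S', h2, h3, h4⟩ := side_aux hφ.neg h.neg (by simpa using h1)
    refine ⟨w, S', by simpa using h2.neg, h3, ?_⟩
    simpa using h4.symm

lemma Sk.range (hφ : Fn φ) (i : ℕ) : ∀ {u v : P} {S : Set P} {B T : ℝ}, Sk φ d (3 * i) u v S →
    (∀ q ∈ insert u (insert v S), B ≤ φ q ∧ φ q ≤ T) → B + (i + 1) * d ≤ T := by
  induction i with
  | zero =>
    intro u v S B T h hr
    have h1 := h.q0.far
    have h2 := hr u (by simp)
    have h3 := hr v (by simp)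
    rcases abs_cases (φ u - φ v) with h4 | h4 <;> simp <;> linarith
  | succ i ih =>
    intro u v S B T h hr
    have key : ∀ x y S', Sk φ d (3 * i + 2) x y S' → insert x S' ⊆ insert u (insert v S) →
        B + d ≤ φ x → φ x + d ≤ T → B + ((i + 1 : ℕ) + 1) * d ≤ T := by
      intro x y S' h1 h2 h3 h4
      obtain ⟨w, S'', h5, h6, h7⟩ := side hφ h1
      have h8 : insert x (insert w S'') ⊆ insert u (insert v S) := (insert_subset_insert h6).trans h2
      push_cast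
      rcases h7 with h7 | h7
      · have := ih (B := B) (T := φ x) h5 (fun q hq => ⟨(hr q (h8 hq)).1, by
          rcases hq with rfl | hq
          · exact le_rfl
          · exact h7 q hq⟩)
        linarith
      · have := ih (B := φ x) (T := T) h5 (fun q hq => ⟨by
          rcases hq with rfl | hq
          · exact le_rfl
          · exact h7 q hq, (hr q (h8 hq)).2⟩)
        linarith
    obtain ⟨h0, z, S1, S2, h1, -⟩ := h
    obtain ⟨-, h2, h3, h4⟩ := h1 0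
    have s0 : insert (z 0) (S1 0 ∪ S2 0) ⊆ insert u (insert v S) :=
      h4.trans ((subset_insert _ _).trans (subset_insert _ _))
    have s1 : S1 0 ⊆ insert u (insert v S) := (subset_union_left.trans (subset_insert _ _)).trans s0
    have s2 : S2 0 ⊆ insert u (insert v S) := (subset_union_right.trans (subset_insert _ _)).trans s0
    have ku := key u _ _ h2 (insert_subset (by simp) s1)
    have kv := key v _ _ h3.symm (insert_subset (by simp) s2)
    have kz := key (z 0) _ _ h3 (insert_subset (s0 (mem_insert _ _)) s2)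
    have f1 := h0.far
    have f2 := h2.q0.far
    have f3 := h3.q0.far
    have r1 := hr u (by simp)
    have r2 := hr v (by simp)
    have r3 := hr (z 0) (s0 (mem_insert _ _))
    rcases abs_cases (φ u - φ v) with a1 | a1 <;> rcases abs_cases (φ u - φ (z 0)) with a2 | a2 <;>
      rcases abs_cases (φ (z 0) - φ v) with a3 | a3 <;>
      first
        | exact ku (by linarith) (by linarith)
        | exact kv (by linarith) (by linarith)
        | exact kz (by linarith) (by linarith)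

/-- shapes of rooted 2-trees -/
inductive Sh : Type
  | leaf : Sh
  | add : Sh → Sh → Sh → Sh

def Sh.size : Sh → ℕ
  | .leaf => 0
  | .add l r t => l.size + r.size + t.size + 1

/-- planar drawings of a shape -/
def Draw : Sh → P → P → Set P → Prop
  | .leaf, u, v, S => Nd u v S
  | .add l r t, u, v, S => ∃ z S1 S2 S3, Draw l u z S1 ∧ Draw r z v S2 ∧ Draw t u v S3 ∧
      v ∉ S1 ∧ u ∉ S2 ∧ Disjoint (insert z (S1 ∪ S2)) S3 ∧ S = insert z (S1 ∪ S2) ∪ S3

lemma Draw.nd {t : Sh} : ∀ {u v : P} {S : Set P}, Draw t u v S → Nd u v S := by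
  induction t with
  | leaf => exact id
  | add l r t i1 i2 i3 =>
    rintro u v S ⟨z, S1, S2, S3, h1, h2, h3, h4, h5, -, rfl⟩
    exact (Cp.nd ⟨i1 h1, i2 h2, (i3 h3).ne, h4, h5⟩).union (i3 h3)

def rep (l r t : Sh) : ℕ → Sh
  | 0 => t
  | k + 1 => .add l r (rep l r t k)

lemma size_rep (l r t : Sh) (k : ℕ) : (rep l r t k).size = k * (l.size + r.size + 1) + t.size := by
  induction k with
  | zero => simp [rep]
  | succ k ih => simp only [rep, Sh.size, ih]; ring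

lemma Draw.rep {l r t : Sh} (k : ℕ) : ∀ {S : Set P}, Draw (rep l r t k) u v S →
    ∃ (z : ℕ → P) (S1 S2 : ℕ → Set P) (S3 : Set P),
      (∀ j < k, Cp u v (z j) (S1 j) (S2 j) ∧ Draw l u (z j) (S1 j) ∧ Draw r (z j) v (S2 j) ∧
        insert (z j) (S1 j ∪ S2 j) ⊆ S) ∧
      (∀ i < k, ∀ j < k, i ≠ j → Disjoint (insert (z i) (S1 i ∪ S2 i)) (insert (z j) (S1 j ∪ S2 j))) ∧
      Draw t u v S3 ∧ S3 ⊆ S := by
  induction k with
  | zero => exact fun h => ⟨fun _ => u, fun _ => ∅, fun _ => ∅, _, by simp, by simp, h, Subset.rfl⟩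
  | succ k ih =>
    rintro S ⟨z0, T1, T2, T3, h1, h2, h3, h4, h5, h6, rfl⟩
    obtain ⟨z, S1, S2, S3, g1, g2, g3, g4⟩ := ih h3
    refine ⟨fun j => if j < k then z j else z0, fun j => if j < k then S1 j else T1,
      fun j => if j < k then S2 j else T2, S3, fun j _ => ?_, fun i hi j hj hij => ?_, g3,
      g4.trans subset_union_right⟩
    · by_cases h : j < k
      · simp only [h, if_true]
        exact ⟨(g1 j h).1, (g1 j h).2.1, (g1 j h).2.2.1, (g1 j h).2.2.2.trans subset_union_right⟩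
      · simp only [h, if_false]
        exact ⟨⟨h1.nd, h2.nd, h3.nd.ne, h4, h5⟩, h1, h2, subset_union_left⟩
    · by_cases a : i < k <;> by_cases b : j < k <;> simp only [a, b, if_true, if_false]
      · exact g2 i a j b hij
      · exact (h6.mono_right (g1 i a).2.2.2).symm
      · exact h6.mono_right (g1 j b).2.2.2
      · omega

/-- every drawing of the shape has extent at least `d` in every integral direction -/
def Ext (t : Sh) (d : ℕ) : Prop :=
  ∀ (φ : P →L[ℝ] ℝ) (u v : P) (S : Set P) (B T : ℤ), Fn φ → Draw t u v S →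
    (∀ q ∈ insert u (insert v S), B ≤ φ q ∧ φ q ≤ T) → B + d ≤ T

lemma Ext.q0 {t : Sh} {d H : ℕ} (ht : Ext t d) (hφ : Fn φ) {B T : ℤ} (hH : T ≤ B + H)
    (h : Draw (rep t .leaf .leaf (2 * H + 1)) u v S)
    (hr : ∀ q ∈ insert u (insert v S), B ≤ φ q ∧ φ q ≤ T) : Q0 φ d u v S := by
  classical
  obtain ⟨z, S1, S2, S3, g1, g2, -⟩ := h.rep
  obtain ⟨a, ha⟩ := hφ.int u h.nd.lu
  obtain ⟨b, hb⟩ := hφ.int v h.nd.lv
  have r1 := hr u (by simp)
  have r2 := hr v (by simp)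
  rw [ha] at r1
  rw [hb] at r2
  have r1' : B ≤ a ∧ a ≤ T := by exact_mod_cast r1
  have r2' : B ≤ b ∧ b ≤ T := by exact_mod_cast r2
  have e1 : ((T - max a b).toNat : ℝ) = T - max a b := by
    exact_mod_cast Int.toNat_of_nonneg (by omega : 0 ≤ T - max a b)
  have e2 : ((min a b - B).toNat : ℝ) = min a b - B := by
    exact_mod_cast Int.toNat_of_nonneg (by omega : 0 ≤ min a b - B)
  have h1 := count_strip hφ (u := u) (v := v) (c := max a b) (c' := min a b)
    (by rw [ha]; simp) (by rw [hb]; simp) (D := (T - max a b).toNat) (D' := (min a b - B).toNat)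
    (s := Finset.range (2 * H + 1)) (K := fun j => insert (z j) (S1 j ∪ S2 j))
    (fun j hj => (g1 j (Finset.mem_range.1 hj)).1.bl)
    (fun i hi j hj => g2 i (Finset.mem_range.1 hi) j (Finset.mem_range.1 hj)) (fun j hj q hq => by
      have := hr q (mem_insert_of_mem _ (mem_insert_of_mem _ ((g1 j (Finset.mem_range.1 hj)).2.2.2 hq)))
      rw [e1, e2]
      push_cast
      constructor <;> linarith)
  rw [Finset.card_range] at h1
  obtain ⟨j, hj⟩ := Finset.card_pos.1 (show 0 < ((Finset.range (2 * H + 1)).filter (fun j =>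
    ∀ q ∈ insert (z j) (S1 j ∪ S2 j), ((min a b : ℤ) : ℝ) ≤ φ q ∧ φ q ≤ (max a b : ℤ))).card by omega)
  obtain ⟨hj, h2⟩ := Finset.mem_filter.1 hj
  obtain ⟨c1, c2, -, c4⟩ := g1 j (Finset.mem_range.1 hj)
  have h3 := ht φ u (z j) (S1 j) (min a b) (max a b) hφ c2 (by
    rintro q (rfl | hq)
    · rw [ha]; simp
    · exact h2 q (insert_subset_insert subset_union_left hq))
  refine ⟨h.nd, ?_, c1.nd.joined.mono (subset_inter (insert_subset_insert (insert_subset_insert c4)) ?_)⟩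
  · rw [ha, hb]
    have : (d : ℤ) ≤ |a - b| := by rcases abs_cases (a - b) with h | h <;> omega
    exact_mod_cast this
  · rintro q (rfl | rfl | hq)
    · simp
    · simp
    · simpa [ha, hb] using h2 q hq

def skT (W : Sh) : ℕ → Sh
  | 0 => W
  | i + 1 => rep (skT W i) (skT W i) W 5

lemma sk_of_draw {W : Sh} {R : Set P}
    (hW : ∀ u v S, Draw W u v S → insert u (insert v S) ⊆ R → Q0 φ d u v S) (i : ℕ) :
    ∀ u v S, Draw (skT W i) u v S → insert u (insert v S) ⊆ R → Sk φ d i u v S := by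
  induction i with
  | zero => exact hW
  | succ i ih =>
    intro u v S h hR
    obtain ⟨z, S1, S2, S3, g1, g2, g3, g4⟩ := Draw.rep 5 h
    have h0 := hW u v S3 g3 ((insert_subset_insert (insert_subset_insert g4)).trans hR)
    have hS : S ⊆ R := ((subset_insert _ _).trans (subset_insert _ _)).trans hR
    refine ⟨⟨h.nd, h0.far, h0.path.mono
      (inter_subset_inter_left _ (insert_subset_insert (insert_subset_insert g4)))⟩,
      fun j => z j, fun j => S1 j, fun j => S2 j, fun j => ?_,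
      fun j k hjk => g2 j j.2 k k.2 (Fin.val_injective.ne hjk)⟩
    obtain ⟨c1, c2, c3, c4⟩ := g1 j j.2
    refine ⟨c1, ih _ _ _ c2 (insert_subset (hR (by simp))
      (((insert_subset_insert subset_union_left).trans c4).trans hS)), ih _ _ _ c3 ?_, c4⟩
    rw [insert_comm]
    exact insert_subset (hR (by simp)) (((insert_subset_insert subset_union_right).trans c4).trans hS)

lemma Ext.step {t : Sh} {d : ℕ} (ht : Ext t d) (i : ℕ) :
    Ext (skT (rep t .leaf .leaf (2 * ((i + 1) * d) + 1)) (3 * i)) ((i + 1) * d) := by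
  intro φ u v S B T hφ h hr
  by_contra h1
  have h2 := sk_of_draw (R := {q | B ≤ φ q ∧ φ q ≤ T}) (fun u v S h hr =>
    ht.q0 hφ (B := B) (T := T) (by omega) h hr) _ u v S h hr
  have h3 := h2.range hφ i hr
  apply h1
  exact_mod_cast h3

lemma ext_base : Ext (rep .leaf .leaf .leaf 3) 1 := by
  intro φ u v S B T hφ h hr
  by_contra h1
  have h2 : (T : ℝ) ≤ B := by exact_mod_cast (by omega : T ≤ B)
  obtain ⟨z, S1, S2, S3, g1, g2, -⟩ := h.rep
  have h3 : ∀ j ∈ Finset.range 3, ∀ q ∈ insert (z j) (S1 j ∪ S2 j), B ≤ φ q ∧ φ q ≤ T :=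
    fun j hj q hq => hr q (mem_insert_of_mem _ (mem_insert_of_mem _
      ((g1 j (Finset.mem_range.1 hj)).2.2.2 hq)))
  have := card_le_two hφ (u := u) (v := v) (t := T) (s := Finset.range 3)
    (K := fun j => insert (z j) (S1 j ∪ S2 j)) (fun j hj => (g1 j (Finset.mem_range.1 hj)).1.bl)
    (fun i hi j hj => g2 i (Finset.mem_range.1 hi) j (Finset.mem_range.1 hj))
    (hr u (by simp)).2 (hr v (by simp)).2 (fun j hj q hq => (h3 j hj q hq).2)
    (fun j hj => ⟨z j, mem_insert _ _, h2.trans (h3 j hj _ (mem_insert _ _)).1⟩)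
  simp at this

/-- the hard instances -/
def hard (i : ℕ) : ℕ → Sh
  | 0 => rep .leaf .leaf .leaf 3
  | j + 1 => skT (rep (hard i j) .leaf .leaf (2 * ((i + 1) * (i + 1) ^ j) + 1)) (3 * i)

lemma ext_hard (i j : ℕ) : Ext (hard i j) ((i + 1) ^ j) := by
  induction j with
  | zero => exact ext_base
  | succ j ih => rw [pow_succ']; exact ih.step i

lemma size_skT (W : Sh) (i : ℕ) :
    W.size ≤ (skT W i).size ∧ (skT W i).size + 1 ≤ 11 ^ i * (W.size + 1) := by
  induction i with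
  | zero => simp [skT]
  | succ i ih =>
    simp only [skT, size_rep, pow_succ]
    constructor
    · omega
    · nlinarith [ih.1, ih.2]

/-- triangular numbers -/
def tri : ℕ → ℕ
  | 0 => 0
  | j + 1 => tri j + (j + 1)

lemma two_tri (j : ℕ) : 2 * tri j = j * (j + 1) := by
  induction j with
  | zero => rfl
  | succ j ih => simp only [tri]; nlinarith

lemma size_hard (i j : ℕ) : (hard i j).size + 1 ≤ 4 * (4 * 11 ^ (3 * i)) ^ j * (i + 1) ^ tri j := by
  induction j with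
  | zero => simp [hard, size_rep, Sh.size, tri]
  | succ j ih =>
    refine (size_skT _ _).2.trans ?_
    rw [size_rep]
    simp only [Sh.size, tri]
    have h1 : 1 ≤ (i + 1) * (i + 1) ^ j := Nat.pos_of_ne_zero (by positivity)
    calc _ ≤ 11 ^ (3 * i) * (4 * ((i + 1) * (i + 1) ^ j) * ((hard i j).size + 1)) := by
          apply Nat.mul_le_mul_left
          nlinarith
      _ ≤ 11 ^ (3 * i) * (4 * ((i + 1) * (i + 1) ^ j) *
          (4 * (4 * 11 ^ (3 * i)) ^ j * (i + 1) ^ tri j)) := by gcongr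
      _ = _ := by ring

lemma count_rect_aux {ι : Type*} {K : ι → Set P} {s : Finset ι} {ψ : P →L[ℝ] ℝ} {W H : ℕ} {B C : ℤ}
    (i1 : ∀ p, lat p → ∃ k : ℤ, φ p = k) (i2 : ∀ p, lat p → ∃ k : ℤ, ψ p = k)
    (e1 : ∃ e, φ e = 1 ∧ ψ e = 0) (e2 : ∃ e, φ e = 0 ∧ ψ e = 1) (lu : lat u) (lv : lat v)
    (hK : ∀ i ∈ s, Bl u v (K i)) (hd : ∀ i ∈ s, ∀ j ∈ s, i ≠ j → Disjoint (K i) (K j))
    (hu : (B ≤ φ u ∧ φ u ≤ φ v ∧ φ v ≤ B + W) ∧ C ≤ ψ u ∧ ψ u ≤ ψ v ∧ ψ v ≤ C + H)
    (hr : ∀ i ∈ s, ∀ q ∈ K i, (B ≤ φ q ∧ φ q ≤ B + W) ∧ C ≤ ψ q ∧ ψ q ≤ C + H) :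
    s.card ≤ 4 * (W + H) + 2 := by
  classical
  obtain ⟨a, ha⟩ := i1 u lu
  obtain ⟨b, hb⟩ := i1 v lv
  obtain ⟨a', ha'⟩ := i2 u lu
  obtain ⟨b', hb'⟩ := i2 v lv
  have hu' := hu
  rw [ha, hb, ha', hb'] at hu'
  have hz : (B ≤ a ∧ a ≤ b ∧ b ≤ B + W) ∧ C ≤ a' ∧ a' ≤ b' ∧ b' ≤ C + H := by exact_mod_cast hu'
  obtain ⟨D1, d1⟩ := Int.eq_ofNat_of_zero_le (by omega : 0 ≤ B + W - b)
  obtain ⟨D2, d2⟩ := Int.eq_ofNat_of_zero_le (by omega : 0 ≤ a - B)
  obtain ⟨D3, d3⟩ := Int.eq_ofNat_of_zero_le (by omega : 0 ≤ C + H - b')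
  obtain ⟨D4, d4⟩ := Int.eq_ofNat_of_zero_le (by omega : 0 ≤ a' - C)
  obtain ⟨w, d5⟩ := Int.eq_ofNat_of_zero_le (by omega : 0 ≤ b - a)
  obtain ⟨h, d6⟩ := Int.eq_ofNat_of_zero_le (by omega : 0 ≤ b' - a')
  have d1' : (B : ℝ) + W - b = D1 := by exact_mod_cast d1
  have d2' : (a : ℝ) - B = D2 := by exact_mod_cast d2
  have d3' : (C : ℝ) + H - b' = D3 := by exact_mod_cast d3
  have d4' : (a' : ℝ) - C = D4 := by exact_mod_cast d4
  have d5' : (b : ℝ) - a = w := by exact_mod_cast d5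
  have d6' : (b' : ℝ) - a' = h := by exact_mod_cast d6
  have h1 := count_strip (φ := φ) ⟨i1, e1.imp fun _ h => h.1⟩ (u := u) (v := v) (c := b) (c' := a)
    (by constructor <;> linarith [hu.1.2.1]) (by constructor <;> linarith [hu.1.2.1]) (D := D1) (D' := D2)
    hK hd (fun i hi q hq => by
      have := (hr i hi q hq).1
      constructor <;> linarith)
  set s1 := s.filter (fun i => ∀ q ∈ K i, (a : ℝ) ≤ φ q ∧ φ q ≤ b) with hs1
  have m1 : ∀ i ∈ s1, i ∈ s := fun i hi => (Finset.mem_filter.1 hi).1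
  have h2 := count_strip (φ := ψ) ⟨i2, e2.imp fun _ h => h.2⟩ (u := u) (v := v) (c := b') (c' := a')
    (by constructor <;> linarith [hu.2.2.1]) (by constructor <;> linarith [hu.2.2.1]) (D := D3) (D' := D4)
    (s := s1) (fun i hi => hK i (m1 i hi)) (fun i hi j hj => hd i (m1 i hi) j (m1 j hj))
    (fun i hi q hq => by
      have := (hr i (m1 i hi) q hq).2
      constructor <;> linarith)
  set s2 := s1.filter (fun i => ∀ q ∈ K i, (a' : ℝ) ≤ ψ q ∧ ψ q ≤ b') with hs2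
  have m2 : ∀ i ∈ s2, i ∈ s1 := fun i hi => (Finset.mem_filter.1 hi).1
  have h3 := count_box h w φ ψ s2 i1 i2 e1 e2 lu (by linarith) (by linarith)
    (fun i hi => hK i (m1 i (m2 i hi))) (fun i hi j hj => hd i (m1 i (m2 i hi)) j (m1 j (m2 j hj)))
    (fun i hi q hq => by
      rw [ha, hb, ha', hb']
      exact ⟨(Finset.mem_filter.1 (m2 i hi)).2 q hq, (Finset.mem_filter.1 hi).2 q hq⟩)
  omega

lemma count_rect {ι : Type*} {K : ι → Set P} {s : Finset ι} {W H : ℕ} {B C : ℤ}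
    (lu : lat u) (lv : lat v)
    (hK : ∀ i ∈ s, Bl u v (K i)) (hd : ∀ i ∈ s, ∀ j ∈ s, i ≠ j → Disjoint (K i) (K j))
    (hu : (B ≤ u.1 ∧ u.1 ≤ B + W) ∧ C ≤ u.2 ∧ u.2 ≤ C + H)
    (hv : (B ≤ v.1 ∧ v.1 ≤ B + W) ∧ C ≤ v.2 ∧ v.2 ≤ C + H)
    (hr : ∀ i ∈ s, ∀ q ∈ K i, (B ≤ q.1 ∧ q.1 ≤ B + W) ∧ C ≤ q.2 ∧ q.2 ≤ C + H) :
    s.card ≤ 4 * (W + H) + 2 := by
  have key : ∀ (x y : ℝ) (B W : ℤ), (B ≤ x ∧ x ≤ B + W) → (B ≤ y ∧ y ≤ B + W) →
      ∃ σ B' : ℤ, σ * σ = 1 ∧ σ * x ≤ σ * y ∧ ∀ z : ℝ, (B ≤ z ∧ z ≤ B + W) →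
        B' ≤ σ * z ∧ σ * z ≤ B' + W := by
    intro x y B W _ _
    rcases le_total x y with h | h
    · exact ⟨1, B, by simp, by simpa using h, by simp⟩
    · refine ⟨-1, -B - W, by simp, by simpa using h, fun z hz => ?_⟩
      push_cast
      constructor <;> linarith [hz.1, hz.2]
  obtain ⟨σ, B', s1, s2, s3⟩ := key u.1 v.1 B W hu.1 hv.1
  obtain ⟨τ, C', t1, t2, t3⟩ := key u.2 v.2 C H hu.2 hv.2
  have s1' : (σ : ℝ) * σ = 1 := by exact_mod_cast s1
  have t1' : (τ : ℝ) * τ = 1 := by exact_mod_cast t1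
  refine count_rect_aux (φ := (σ : ℝ) • ContinuousLinearMap.fst ℝ ℝ ℝ)
    (ψ := (τ : ℝ) • ContinuousLinearMap.snd ℝ ℝ ℝ) (B := B') (C := C') ?_ ?_
    ⟨(σ, 0), by simpa using s1', by simp⟩ ⟨(0, τ), by simp, by simpa using t1'⟩ lu lv hK hd
    ⟨⟨(s3 _ hu.1).1, s2, (s3 _ hv.1).2⟩, (t3 _ hu.2).1, t2, (t3 _ hv.2).2⟩
    (fun i hi q hq => ⟨s3 _ (hr i hi q hq).1, t3 _ (hr i hi q hq).2⟩)
  · rintro p ⟨a, b, rfl⟩
    exact ⟨σ * a, by simp⟩
  · rintro p ⟨a, b, rfl⟩
    exact ⟨τ * b, by simp⟩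

/-- area lower bound for drawings of shapes -/
theorem area_lower {t : Sh} {d m W H : ℕ} (ht : Ext t d) (hd : 1 ≤ d) {B C : ℤ}
    (h : Draw (rep .leaf .leaf t m) u v S)
    (hr : ∀ q ∈ insert u (insert v S), (B ≤ q.1 ∧ q.1 ≤ B + W) ∧ C ≤ q.2 ∧ q.2 ≤ C + H) :
    d * m ≤ 10 * (W * H) := by
  obtain ⟨z, S1, S2, S3, g1, g2, g3, g4⟩ := h.rep
  have h1 := count_rect (s := Finset.range m) (K := fun j => insert (z j) (S1 j ∪ S2 j))
    h.nd.lu h.nd.lv (fun j hj => (g1 j (Finset.mem_range.1 hj)).1.bl)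
    (fun i hi j hj => g2 i (Finset.mem_range.1 hi) j (Finset.mem_range.1 hj))
    (hr u (by simp)) (hr v (by simp)) (fun j hj q hq => hr q (mem_insert_of_mem _ (mem_insert_of_mem _
      ((g1 j (Finset.mem_range.1 hj)).2.2.2 hq))))
  rw [Finset.card_range] at h1
  have h2 := ht (ContinuousLinearMap.fst ℝ ℝ ℝ) u v S3 B (B + W)
    ⟨by rintro p ⟨a, b, rfl⟩; exact ⟨a, rfl⟩, (1, 0), rfl⟩ g3 (fun q hq => by
      simpa using (hr q (insert_subset_insert (insert_subset_insert g4) hq)).1)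
  have h3 := ht (ContinuousLinearMap.snd ℝ ℝ ℝ) u v S3 C (C + H)
    ⟨by rintro p ⟨a, b, rfl⟩; exact ⟨b, rfl⟩, (0, 1), rfl⟩ g3 (fun q hq => by
      simpa using (hr q (insert_subset_insert (insert_subset_insert g4) hq)).2)
  have h4 : d ≤ W := by omega
  have h5 : d ≤ H := by omega
  nlinarith [Nat.mul_le_mul_left d h1, Nat.mul_le_mul_right W h5, Nat.mul_le_mul_right H h4,
    Nat.mul_le_mul h4 (hd.trans h5)]

end Pool.Agent.Lib.MP_68dca0_co
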