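import Pool.Agent.Lib.MP_68dca0_co.Tree
import Pool.Agent.Lib.MP_68dca0_co.Skel

namespace Pool.Agent.Lib.MP_68dca0_co

open Set

lemma pt_injective : Function.Injective pt := by
  intro p q h
  simp only [pt, Prod.mk.injEq, Int.cast_inj] at h
  exact Prod.ext h.1 h.2

lemma lat_pt (p : ℤ × ℤ) : lat (pt p) := ⟨p.1, p.2, rfl⟩

lemma segment_avoid {a b q : P} (hq : q ∈ segment ℝ a b) (h : q ≠ b) :
    segment ℝ q a ⊆ segment ℝ a b \ {b} := by
  intro x hx
  refine ⟨(convex_segment a b).segment_subset hq (left_mem_segment _ _ _) hx, fun e => h ?_⟩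
  rw [mem_singleton_iff] at e
  subst e
  rw [segment_symm] at hx
  exact (Wbtw.swap_right_iff (R := ℝ) (mem_segment_iff_wbtw.1 hq)).1 (mem_segment_iff_wbtw.1 hx)

lemma nd_chain {c : ℕ → ℤ × ℤ} {k : ℕ} (h : IsSimple c k) (hne : c 0 ≠ c k) :
    Nd (pt (c 0)) (pt (c k)) (curve c k \ {pt (c 0), pt (c k)}) := by
  have hk : 0 < k := Nat.pos_of_ne_zero fun e => hne (e ▸ rfl)
  have sub : ∀ i < k, seg c i ⊆ curve c k := fun i hi x hx => ⟨i, hi, hx⟩
  have l1 : ∀ i, i + 1 < k → pt (c k) ∉ seg c i := by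
    intro i hi h1
    have h2 : pt (c k) ∈ seg c (k - 1) := by
      rw [seg, show k - 1 + 1 = k by omega]; exact right_mem_segment _ _ _
    have h3 := (h.2 i (k - 1) (by omega) (by omega) _ ⟨h1, h2⟩).2
    apply h.1 (k - 1) (by omega)
    rw [show k - 1 + 1 = k by omega]
    exact (pt_injective h3).symm
  have l2 : ∀ i, 0 < i → i < k → pt (c 0) ∉ seg c i := by
    intro i h0 hi h1
    obtain ⟨rfl, h3⟩ := h.2 0 i h0 hi _ ⟨left_mem_segment _ _ _, h1⟩
    exact h.1 0 hk (pt_injective h3)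
  have j1 : ∀ i < k, ∀ q ∈ seg c i, q ≠ pt (c k) →
      JoinedIn (curve c k \ {pt (c k)}) q (pt (c 0)) := by
    have step : ∀ i < k, ∀ q ∈ seg c i, q ≠ pt (c k) →
        JoinedIn (curve c k \ {pt (c k)}) q (pt (c i)) := by
      intro i hi q hq h1
      rcases eq_or_lt_of_le (show i + 1 ≤ k from hi) with e | e
      · subst e
        exact JoinedIn.of_segment_subset ((segment_avoid hq h1).trans
          (sdiff_subset_sdiff_left (sub _ hi)))
      · exact JoinedIn.of_segment_subset (((convex_segment _ _).segment_subset hq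
          (left_mem_segment _ _ _)).trans fun x hx => ⟨sub _ hi hx, fun e' => l1 _ e (e' ▸ hx)⟩)
    intro i
    induction i with
    | zero => exact step 0
    | succ i ih =>
      intro hi q hq h1
      exact (step _ hi q hq h1).trans (ih (by omega) (pt (c (i + 1))) (right_mem_segment _ _ _)
        fun e => l1 i hi (e ▸ right_mem_segment _ _ _))
  have j2 : ∀ m i, i + m + 1 = k → ∀ q ∈ seg c i, q ≠ pt (c 0) →
      JoinedIn (curve c k \ {pt (c 0)}) q (pt (c k)) := by
    have step : ∀ i < k, ∀ q ∈ seg c i, q ≠ pt (c 0) →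
        JoinedIn (curve c k \ {pt (c 0)}) q (pt (c (i + 1))) := by
      intro i hi q hq h1
      rcases Nat.eq_zero_or_pos i with rfl | e
      · refine JoinedIn.of_segment_subset ((segment_avoid (by rw [segment_symm]; exact hq) h1).trans
          (sdiff_subset_sdiff_left ?_))
        rw [segment_symm]; exact sub 0 hi
      · exact JoinedIn.of_segment_subset (((convex_segment _ _).segment_subset hq
          (right_mem_segment _ _ _)).trans fun x hx => ⟨sub _ hi hx, fun e' => l2 _ e hi (e' ▸ hx)⟩)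
    intro m
    induction m with
    | zero => intro i hi q hq h1; exact hi ▸ step i (by omega) q hq h1
    | succ m ih =>
      intro i hi q hq h1
      exact (step i (by omega) q hq h1).trans (ih (i + 1) (by omega) _ (left_mem_segment _ _ _)
        fun e => l2 (i + 1) (by omega) (by omega) (e ▸ left_mem_segment _ _ _))
  refine ⟨lat_pt _, lat_pt _, pt_injective.ne hne, by simp, by simp, ?_, ?_, ?_, ?_⟩
  · rintro q ⟨⟨i, hi, hq⟩, h1⟩
    refine (j1 i hi q hq fun e => h1 (Or.inr e)).mono fun x hx => ?_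
    by_cases e : x = pt (c 0)
    · exact Or.inl e
    · exact Or.inr ⟨hx.1, fun h => h.elim e hx.2⟩
  · rintro q ⟨⟨i, hi, hq⟩, h1⟩
    refine (j2 (k - i - 1) i (by omega) q hq fun e => h1 (Or.inl e)).mono fun x hx => ?_
    by_cases e : x = pt (c k)
    · exact Or.inl e
    · exact Or.inr ⟨hx.1, fun h => h.elim hx.2 e⟩
  · have h1 : pt (c 0) ≠ pt (c 1) := pt_injective.ne (h.1 0 hk)
    have h2 : midpoint ℝ (pt (c 0)) (pt (c 1)) ∈ seg c 0 := midpoint_mem_segment _ _
    refine ⟨_, sub 0 hk h2, ?_⟩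
    rintro (e | e)
    · exact h1 ((midpoint_eq_left_iff ℝ).1 e)
    · rcases eq_or_lt_of_le (show 0 + 1 ≤ k from hk) with e' | e'
      · subst e'
        exact h1 ((midpoint_eq_right_iff ℝ).1 e)
      · exact l1 0 e' (e ▸ h2)
  · rintro φ q ⟨⟨i, hi, a, b, ha, hb, hab, rfl⟩, -⟩
    have key : ∀ p ∈ curve c k, p ∈ insert (pt (c 0)) (insert (pt (c k))
        (curve c k \ {pt (c 0), pt (c k)})) := by
      intro p hp
      simp only [mem_insert_iff, mem_sdiff, mem_singleton_iff]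
      tauto
    simp only [map_add, map_smul, smul_eq_mul]
    obtain rfl : b = 1 - a := by linarith
    rcases le_total (φ (pt (c i))) (φ (pt (c (i + 1)))) with h1 | h1
    · exact ⟨_, key _ (sub i hi (right_mem_segment _ _ _)), lat_pt _, by nlinarith⟩
    · exact ⟨_, key _ (sub i hi (left_mem_segment _ _ _)), lat_pt _, by nlinarith⟩

variable {V : Type}

def LT.shape : LT V → Sh
  | .leaf => .leaf
  | .add _ l r t => .add l.shape r.shape t.shape

lemma exists_label (s : Sh) : ∀ L : List V, L.length = s.size → ∃ t : LT V, t.shape = s ∧ t.verts = L := by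
  induction s with
  | leaf => intro L h; exact ⟨.leaf, rfl, (List.length_eq_zero_iff.1 h).symm⟩
  | add l r t i1 i2 i3 =>
    intro L h
    cases L with
    | nil => simp [Sh.size] at h
    | cons z L =>
      simp only [Sh.size, List.length_cons] at h
      obtain ⟨l', a1, a2⟩ := i1 (L.take l.size) (by simp; omega)
      obtain ⟨r', b1, b2⟩ := i2 ((L.drop l.size).take r.size) (by simp; omega)
      obtain ⟨t', c1, c2⟩ := i3 ((L.drop l.size).drop r.size) (by simp; omega)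
      exact ⟨.add z l' r' t', by simp [LT.shape, a1, b1, c1], by
        simp only [LT.verts, a2, b2, c2, List.take_append_drop]⟩

lemma draw_of_arcs {pos : V → P} (hinj : Function.Injective pos) {arc : Sym2 V → Set P}
    {E : Set (Sym2 V)} (h1 : ∀ a b, s(a, b) ∈ E → Nd (pos a) (pos b) (arc s(a, b)))
    (h2 : ∀ e ∈ E, ∀ w, pos w ∉ arc e) (h3 : ∀ e ∈ E, ∀ f ∈ E, e ≠ f → Disjoint (arc e) (arc f))
    (t : LT V) : ∀ u v, (u :: v :: t.verts).Nodup → (∀ e ∈ t.em u v, e ∈ E) →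
      Draw t.shape (pos u) (pos v) {q | (∃ e ∈ t.em u v, q ∈ arc e) ∨ ∃ w ∈ t.verts, q = pos w} := by
  induction t with
  | leaf =>
    intro u v _ h
    simpa [LT.shape, Draw, LT.em, LT.eo, LT.verts] using h1 u v (h _ (by simp [LT.em]))
  | add z l r t i1 i2 i3 =>
    intro u v hn hE
    obtain ⟨n1, n2, n3, n4, n5, n6, n7, n8⟩ := LT.nodup_add hn
    simp only [LT.em_add, Multiset.mem_add] at hE
    refine ⟨pos z, _, _, _, i1 u z n1 (fun e h => hE e (Or.inl (Or.inl h))),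
      i2 z v n2 (fun e h => hE e (Or.inl (Or.inr h))), i3 u v n3 (fun e h => hE e (Or.inr h)),
      ?_, ?_, ?_, ?_⟩
    · rintro (⟨e, he, h⟩ | ⟨w, hw, h⟩)
      · exact h2 e (hE e (Or.inl (Or.inl he))) v h
      · exact n4 (hinj h ▸ hw)
    · rintro (⟨e, he, h⟩ | ⟨w, hw, h⟩)
      · exact h2 e (hE e (Or.inl (Or.inr he))) u h
      · exact n5 (hinj h ▸ hw)
    · simp only [List.nodup_cons, List.mem_cons] at n1 n2 n3
      have key : ∀ e, (e ∈ l.em u z ∨ e ∈ r.em z v) → e ∉ t.em u v := by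
        intro e he h
        have m := LT.mem_em h
        simp only [LT.em, Multiset.mem_cons] at he
        rcases he with (rfl | he) | rfl | he
        · have := m z (by simp); grind
        · obtain ⟨w, hw, h4⟩ := (LT.mem_eo he).2
          have := m w hw
          have := n7 w h4
          grind
        · have := m z (by simp); grind
        · obtain ⟨w, hw, h4⟩ := (LT.mem_eo he).2
          have := m w hw
          have := n8 w h4
          grind
      have key2 : ∀ q, ((∃ e, (e ∈ l.em u z ∨ e ∈ r.em z v) ∧ q ∈ arc e) ∨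
          ∃ w, w ∉ t.verts ∧ q = pos w) →
          q ∉ {q | (∃ e ∈ t.em u v, q ∈ arc e) ∨ ∃ w ∈ t.verts, q = pos w} := by
        rintro q (⟨e, he, h⟩ | ⟨w, hw, rfl⟩) (⟨f, hf, h'⟩ | ⟨w', hw', h'⟩)
        · exact Set.disjoint_left.1 (h3 e (hE e (Or.inl he)) f (hE f (Or.inr hf))
            fun e' => key e he (e' ▸ hf)) h h'
        · exact h2 e (hE e (Or.inl he)) w' (h' ▸ h)
        · exact h2 f (hE f (Or.inr hf)) w h'
        · exact hw (hinj h' ▸ hw')
      rw [Set.disjoint_left]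
      rintro q (rfl | (⟨e, he, h⟩ | ⟨w, hw, h⟩) | ⟨e, he, h⟩ | ⟨w, hw, h⟩)
      · exact key2 _ (Or.inr ⟨z, n6, rfl⟩)
      · exact key2 _ (Or.inl ⟨e, Or.inl he, h⟩)
      · exact key2 _ (Or.inr ⟨w, (n7 w hw).2, h⟩)
      · exact key2 _ (Or.inl ⟨e, Or.inr he, h⟩)
      · exact key2 _ (Or.inr ⟨w, n8 w hw, h⟩)
    · ext q
      simp only [LT.em_add, LT.verts, Multiset.mem_add, List.mem_cons, List.mem_append, mem_union,
        mem_insert_iff, mem_ofPred_eq]
      constructor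
      · rintro (⟨e, (he | he) | he, h⟩ | ⟨w, rfl | hw | hw | hw, h⟩)
        · exact Or.inl (Or.inr (Or.inl (Or.inl ⟨e, he, h⟩)))
        · exact Or.inl (Or.inr (Or.inr (Or.inl ⟨e, he, h⟩)))
        · exact Or.inr (Or.inl ⟨e, he, h⟩)
        · exact Or.inl (Or.inl h)
        · exact Or.inl (Or.inr (Or.inl (Or.inr ⟨w, hw, h⟩)))
        · exact Or.inl (Or.inr (Or.inr (Or.inr ⟨w, hw, h⟩)))
        · exact Or.inr (Or.inr ⟨w, hw, h⟩)
      · rintro ((h | (⟨e, he, h⟩ | ⟨w, hw, h⟩) | ⟨e, he, h⟩ | ⟨w, hw, h⟩) | ⟨e, he, h⟩ | ⟨w, hw, h⟩)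
        · exact Or.inr ⟨z, Or.inl rfl, h⟩
        · exact Or.inl ⟨e, Or.inl (Or.inl he), h⟩
        · exact Or.inr ⟨w, Or.inr (Or.inl hw), h⟩
        · exact Or.inl ⟨e, Or.inl (Or.inr he), h⟩
        · exact Or.inr ⟨w, Or.inr (Or.inr (Or.inl hw)), h⟩
        · exact Or.inl ⟨e, Or.inr he, h⟩
        · exact Or.inr ⟨w, Or.inr (Or.inr (Or.inr hw)), h⟩

theorem graph_lower {s : Sh} {d m n : ℕ} (hs : Ext s d) (hd : 1 ≤ d) (hn : n = m + s.size + 2) :
    ∃ G : SimpleGraph (Fin n), ¬ HasK4Minor G ∧ ∀ W H, HasDrawing G W H → d * m ≤ 10 * (W * H) := by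
  obtain ⟨u, v, L, hL⟩ : ∃ u v L, List.finRange n = u :: v :: L := by
    have h := List.length_finRange (n := n)
    match h1 : List.finRange n with
    | [] => rw [h1] at h; simp at h; omega
    | [_] => rw [h1] at h; simp at h; omega
    | u :: v :: L => exact ⟨u, v, L, rfl⟩
  obtain ⟨t, ht1, ht2⟩ := exists_label (rep .leaf .leaf s m) L (by
    have h := List.length_finRange (n := n)
    rw [hL] at h
    simp only [List.length_cons] at h
    simp only [size_rep, Sh.size]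
    omega)
  have nd : (u :: v :: t.verts).Nodup := by rw [ht2, ← hL]; exact List.nodup_finRange n
  refine ⟨t.graph u v, LT.not_minor nd (fun x => by rw [ht2, ← hL]; exact List.mem_finRange x), ?_⟩
  rintro W H ⟨pos, c, k, h1, h2, h3, h4⟩
  let arc : Sym2 (Fin n) → Set P := fun e =>
    {q | ∃ a b, a < b ∧ e = s(a, b) ∧ q ∈ curve (c a b) (k a b) ∧ q ≠ pt (pos a) ∧ q ≠ pt (pos b)}
  have adj : ∀ a b, s(a, b) ∈ t.em u v → (t.graph u v).Adj a b := fun a b h =>
    (SimpleGraph.fromEdgeSet_adj _).2 ⟨h, LT.ne_of_mem nd h⟩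
  have key : ∀ a b, a < b → s(a, b) ∈ t.em u v → Nd (pt (pos a)) (pt (pos b)) (arc s(a, b)) := by
    intro a b hab h
    obtain ⟨e1, e2, e3, -⟩ := h3 a b hab (adj a b h)
    have := nd_chain e3 (by rw [e1, e2]; exact h1.ne hab.ne)
    rw [e1, e2] at this
    have e4 : arc s(a, b) = curve (c a b) (k a b) \ {pt (pos a), pt (pos b)} := by
      ext q
      constructor
      · rintro ⟨a', b', g1, g2, g3, g4, g5⟩
        rcases Sym2.eq_iff.1 g2 with ⟨rfl, rfl⟩ | ⟨rfl, rfl⟩
        · exact ⟨g3, fun h => h.elim g4 g5⟩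
        · exact absurd g1 hab.not_gt
      · rintro ⟨g1, g2⟩
        exact ⟨a, b, hab, rfl, g1, fun e => g2 (Or.inl e), fun e => g2 (Or.inr e)⟩
    rwa [e4]
  have nov : ∀ e ∈ {e | e ∈ t.em u v}, ∀ w, pt (pos w) ∉ arc e := by
    rintro e he w ⟨a, b, g1, rfl, g3, g4, g5⟩
    rcases (h3 a b g1 (adj a b he)).2.2.2.2 w g3 with rfl | rfl
    · exact g4 rfl
    · exact g5 rfl
  have D := draw_of_arcs (pos := fun w => pt (pos w)) (pt_injective.comp h1) (arc := arc)
    (E := {e | e ∈ t.em u v}) (fun a b h => by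
      rcases lt_or_gt_of_ne (LT.ne_of_mem nd h) with g | g
      · exact key a b g h
      · rw [Sym2.eq_swap] at h ⊢
        exact (key b a g h).symm) nov (fun e he f hf hef => by
      rw [Set.disjoint_left]
      intro q hq ⟨a', b', g1', g2', g3', _⟩
      obtain ⟨a, b, g1, g2, g3, _⟩ := id hq
      subst g2 g2'
      obtain ⟨w, rfl⟩ := h4 a b a' b' g1 (adj _ _ he) g1' (adj _ _ hf)
        (fun e => hef (by rw [Prod.mk.injEq] at e; rw [e.1, e.2])) q ⟨g3, g3'⟩
      exact nov _ he w hq) t u v nd (fun _ h => h)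
  rw [ht1] at D
  have box : ∀ p : ℤ × ℤ, p ∈ Set.Icc (0 : ℤ) W ×ˢ Set.Icc (0 : ℤ) H →
      pt p ∈ Set.Icc (0 : ℝ) W ×ˢ Set.Icc (0 : ℝ) H := by
    rintro p ⟨⟨g1, g2⟩, g3, g4⟩
    simp only [pt, mem_prod, mem_Icc]
    exact_mod_cast (⟨⟨g1, g2⟩, g3, g4⟩ : (0 ≤ p.1 ∧ p.1 ≤ W) ∧ 0 ≤ p.2 ∧ p.2 ≤ H)
  refine area_lower hs hd (B := 0) (C := 0) D fun q hq => ?_
  have : q ∈ Set.Icc (0 : ℝ) W ×ˢ Set.Icc (0 : ℝ) H := by
    rcases hq with rfl | rfl | ⟨e, he, a, b, g1, rfl, ⟨i, hi, g3⟩, -⟩ | ⟨w, -, rfl⟩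
    · exact box _ (h2 _)
    · exact box _ (h2 _)
    · have g4 := (h3 a b g1 (adj a b he)).2.2.2.1
      exact ((convex_Icc _ _).prod (convex_Icc _ _)).segment_subset (box _ (g4 i hi.le))
        (box _ (g4 (i + 1) hi)) g3
    · exact box _ (h2 _)
  simpa only [Int.cast_zero, zero_add, mem_prod, mem_Icc] using this

end Pool.Agent.Lib.MP_68dca0_co
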