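import Pool.Agent.Lib.MP_68dca0_co.Conv
import Pool.Agent.Lib.MP_68dca0_co.Bridge

namespace Pool.Agent.Lib.MP_68dca0_co

open Filter Real

lemma le_tri (j : ℕ) : j ≤ tri j := by
  cases j with
  | zero => exact le_rfl
  | succ j => simp [tri]

lemma sInf_le_of_all {n N H : ℕ} (hA : All (Fin n) N H) (h1 : 1 ≤ H) (h2 : 2 ≤ n) (h3 : n ≤ N)
    {G : SimpleGraph (Fin n)} (hG : ¬ HasK4Minor G) :
    ∃ a ∈ {a : ℕ | ∃ W H : ℕ, HasDrawing G W H ∧ a = W * H}, a ≤ 6 * n * H := by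
  obtain ⟨W, h4, h5⟩ := graph_upper hA h1 h2 h3 hG
  exact ⟨_, ⟨W, _, h5, rfl⟩, by nlinarith⟩

lemma area_upper {n b J : ℕ} (h2 : 2 ≤ n) (h3 : n ≤ 2 ^ (b * tri J)) :
    polyArea n ≤ 6 * n * (4 * J * b + 1 + 2 ^ b) ^ J := by
  refine ciSup_le' fun G => ?_
  obtain ⟨a, h4, h5⟩ := sInf_le_of_all (H := (4 * J * b + 1 + 2 ^ b) ^ J)
    (by exact_mod_cast all_levels b J J le_rfl) (Nat.pos_of_ne_zero (by positivity)) h2 h3 G.2
  exact (Nat.sInf_le h4).trans h5

lemma area_lower' {n i j : ℕ} (h : 16 * (4 * 11 ^ (3 * i)) ^ j * (i + 1) ^ tri j ≤ n) :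
    (i + 1) ^ j * n ≤ 20 * polyArea n := by
  have h1 : 4 * ((hard i j).size + 1) ≤ n := by linarith [size_hard i j]
  obtain ⟨G, g1, g2⟩ := graph_lower (ext_hard i j) (Nat.pos_of_ne_zero (by positivity))
    (m := n - (hard i j).size - 2) (n := n) (by omega)
  obtain ⟨a, h4, -⟩ := sInf_le_of_all (H := (4 * n * 1 + 1 + 2 ^ 1) ^ n)
    (by exact_mod_cast all_levels 1 n n le_rfl) (Nat.pos_of_ne_zero (by positivity)) (by omega)
    (Nat.lt_two_pow_self.le.trans (Nat.pow_le_pow_right two_pos (by simpa using le_tri n))) g1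
  obtain ⟨W, H, h5, h6⟩ := Nat.sInf_mem ⟨a, h4⟩
  have h7 := g2 W H h5
  have h8 : sInf {a : ℕ | ∃ W H : ℕ, HasDrawing G W H ∧ a = W * H} ≤ polyArea n :=
    le_ciSup (f := fun G : {G : SimpleGraph (Fin n) // ¬ HasK4Minor G} =>
      sInf {a : ℕ | ∃ W H : ℕ, HasDrawing G.1 W H ∧ a = W * H}) (Finite.bddAbove_range _) ⟨G, g1⟩
  have h9 : n ≤ 2 * (n - (hard i j).size - 2) := by omega
  nlinarith [Nat.mul_le_mul_left ((i + 1) ^ j) h9]

lemma exists_between (g : ℕ → ℕ) (hg : ∀ K, K ≤ g K) (K0 : ℕ) :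
    ∀ᶠ n in atTop, ∃ K, K0 ≤ K ∧ g K < n ∧ n ≤ g (K + 1) := by
  classical
  filter_upwards [eventually_gt_atTop (g K0)] with n hn
  have ex : ∃ K, K0 ≤ K ∧ n ≤ g (K + 1) := ⟨n, by have := hg K0; omega, by have := hg (n + 1); omega⟩
  refine ⟨Nat.find ex, (Nat.find_spec ex).1, ?_, (Nat.find_spec ex).2⟩
  rcases (Nat.find_spec ex).1.eq_or_lt with e | e
  · rwa [← e]
  · have := Nat.find_min ex (m := Nat.find ex - 1) (by omega)
    rw [show Nat.find ex - 1 + 1 = Nat.find ex by omega] at this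
    omega

lemma ev_log {δ : ℝ} (hδ : 0 < δ) (C : ℝ) : ∀ᶠ x : ℝ in atTop, logb 2 x + C ≤ δ * x := by
  have h1 := (isLittleO_logb_id_atTop (b := 2)).bound (half_pos hδ)
  filter_upwards [h1, eventually_ge_atTop (2 * C / δ), eventually_ge_atTop 0] with x h2 h3 h4
  rw [div_le_iff₀ hδ] at h3
  simp only [norm_eq_abs, id, abs_of_nonneg h4] at h2
  linarith [le_abs_self (logb 2 x)]

lemma ev_nat {δ : ℝ} (hδ : 0 < δ) (C : ℝ) : ∃ K0 : ℕ, ∀ K : ℕ, K0 ≤ K → 102 ≤ logb 2 (K : ℝ) ∧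
    logb 2 (logb 2 (K : ℝ)) + C ≤ δ * logb 2 (K : ℝ) ∧ 2 * logb 2 (K : ℝ) + 7 ≤ K := by
  have h1 : Tendsto (fun K : ℕ => logb 2 (K : ℝ)) atTop atTop :=
    (tendsto_logb_atTop one_lt_two).comp tendsto_natCast_atTop_atTop
  refine eventually_atTop.1 ((h1.eventually_ge_atTop 102).and ((h1.eventually (ev_log hδ C)).and ?_))
  filter_upwards [tendsto_natCast_atTop_atTop.eventually (ev_log (δ := 1 / 2) (by norm_num) (7 / 2))]
    with K h
  linarith

lemma phi_mono {x y : ℝ} (h1 : 1 ≤ x) (h : x ≤ y) : x * logb 2 x ≤ y * logb 2 y :=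
  mul_le_mul h (logb_le_logb_of_le one_lt_two (by linarith) h) (logb_nonneg one_lt_two h1)
    (by linarith)

theorem upper_asym {ε : ℝ} (hε : 0 < ε) : ∀ᶠ n : ℕ in atTop,
    (polyArea n : ℝ) ≤ n * 2 ^ ((1 + ε) * √(logb 2 n * logb 2 (logb 2 n))) := by
  obtain ⟨K0, hK0⟩ := ev_nat hε (6 + ε)
  filter_upwards [exists_between (fun K => 2 ^ (Nat.log 2 K * tri K)) (fun K => by
    rcases Nat.lt_or_ge K 2 with h | h
    · exact le_trans (by omega) (Nat.one_le_two_pow)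
    · exact Nat.lt_two_pow_self.le.trans (Nat.pow_le_pow_right two_pos
        ((le_tri K).trans (Nat.le_mul_of_pos_left _ (Nat.log_pos one_lt_two h))))) K0,
    eventually_ge_atTop 2] with n ⟨K, h1, h2, h3⟩ hn
  obtain ⟨k1, k2, k3⟩ := hK0 K h1
  set x := logb 2 (K : ℝ) with hx
  have K1 : (211 : ℝ) ≤ K := by linarith
  have hKx : (2 : ℝ) ^ x = K := rpow_logb two_pos (by norm_num) (by linarith)
  have b1 : x - 1 ≤ Nat.log 2 K := by
    have e1 : (K : ℝ) < 2 ^ (Nat.log 2 K + 1) := by exact_mod_cast Nat.lt_pow_succ_log_self one_lt_two K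
    rw [← hKx, ← rpow_natCast, rpow_lt_rpow_left_iff one_lt_two] at e1
    push_cast at e1
    linarith
  have b2 : (2 : ℝ) ^ Nat.log 2 (K + 1) ≤ K + 1 := by
    exact_mod_cast Nat.pow_log_le_self 2 (Nat.succ_ne_zero K)
  have b3 : (Nat.log 2 (K + 1) : ℝ) ≤ x + 1 := by
    rw [← rpow_le_rpow_left_iff one_lt_two, rpow_natCast, rpow_add two_pos, hKx, rpow_one]
    linarith
  have t1 : (K : ℝ) ^ 2 / 2 ≤ tri K := by
    have : (2 * tri K : ℝ) = K * (K + 1) := by exact_mod_cast two_tri K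
    nlinarith
  have L1 : (x - 1) * (K ^ 2 / 2) ≤ logb 2 n := by
    rw [le_logb_iff_rpow_le one_lt_two (by exact_mod_cast (by omega : 0 < n))]
    refine le_trans (rpow_le_rpow_of_exponent_le one_le_two
      (mul_le_mul b1 t1 (by positivity) (by positivity))) ?_
    rw [← Nat.cast_mul, rpow_natCast]
    exact_mod_cast h2.le
  have L2 : 2 * x - 1 ≤ logb 2 ((x - 1) * (K ^ 2 / 2)) := by
    rw [le_logb_iff_rpow_le one_lt_two (by have : 0 < x - 1 := by linarith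
                                           positivity), rpow_sub two_pos, mul_comm 2 x,
      rpow_mul zero_le_two, hKx, rpow_one, rpow_two]
    nlinarith [sq_nonneg (K : ℝ)]
  have L3 : K * (x - 1) ≤ √(logb 2 n * logb 2 (logb 2 n)) := by
    refine le_sqrt_of_sq_le (le_trans ?_ (phi_mono (by nlinarith) L1))
    have : (x - 1) * (K ^ 2 / 2) * (2 * x - 1) ≤ (x - 1) * (K ^ 2 / 2) *
      logb 2 ((x - 1) * (K ^ 2 / 2)) := mul_le_mul_of_nonneg_left L2 (by nlinarith)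
    nlinarith [mul_nonneg (sq_nonneg (K : ℝ)) (show 0 ≤ x - 1 by linarith)]
  have l0 : 0 ≤ logb 2 x := logb_nonneg one_lt_two (by linarith)
  have l1 : logb 2 x ≤ x := by
    rw [logb_le_iff_le_rpow one_lt_two (by linarith), hKx]; linarith
  have F1 : (4 * (K + 1) * Nat.log 2 (K + 1) + 1 + 2 ^ Nat.log 2 (K + 1) : ℝ) ≤
      2 ^ (4 + x + logb 2 x) := by
    rw [rpow_add two_pos, rpow_add two_pos, hKx, rpow_logb two_pos (by norm_num) (by linarith)]
    norm_num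
    nlinarith
  calc (polyArea n : ℝ) ≤ 6 * n * (4 * (K + 1) * Nat.log 2 (K + 1) + 1 + 2 ^ Nat.log 2 (K + 1)) ^ (K + 1) := by
        exact_mod_cast area_upper hn h3
    _ ≤ 2 ^ (3 : ℝ) * n * (2 ^ (4 + x + logb 2 x)) ^ (K + 1) := by
        gcongr; norm_num
    _ = n * 2 ^ (3 + (4 + x + logb 2 x) * (K + 1)) := by
        rw [← rpow_natCast, ← rpow_mul zero_le_two, rpow_add two_pos 3]; push_cast; ring
    _ ≤ _ := by
        gcongr
        · exact one_le_two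
        · nlinarith

theorem lower_asym {ε : ℝ} (hε : 0 < ε) : ∀ᶠ n : ℕ in atTop,
    n * 2 ^ ((1 - ε) * √(logb 2 n * logb 2 (logb 2 n))) ≤ (polyArea n : ℝ) := by
  obtain ⟨K0, hK0⟩ := ev_nat hε 103
  filter_upwards [exists_between (fun J => 16 * (4 * 11 ^ (3 * J)) ^ (J + 1) * (J + 1) ^ tri (J + 1))
    (fun J => le_trans (Nat.le_succ J) ((Nat.le_self_pow (by simp [tri]) _).trans
      (Nat.le_mul_of_pos_left _ (by positivity)))) K0,
    eventually_ge_atTop 2] with n ⟨J, h1, h2, h3⟩ hn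
  have h4 := area_lower' h2.le
  obtain ⟨k1, k2, k3⟩ := hK0 (J + 1) (by omega)
  generalize J + 1 = K at h3 h4 k1 k2 k3
  set y := logb 2 (K : ℝ) with hy
  have K1 : (211 : ℝ) ≤ K := by linarith
  have hKy : (2 : ℝ) ^ y = K := rpow_logb two_pos (by norm_num) (by linarith)
  have l0 : 0 ≤ logb 2 y := logb_nonneg one_lt_two (by linarith)
  have n0 : (0 : ℝ) < n := by exact_mod_cast (by omega : 0 < n)
  have t1 : (2 * tri (K + 1) : ℝ) = (K + 1) * (K + 1 + 1) := by exact_mod_cast two_tri (K + 1)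
  have L1 : logb 2 n ≤ K ^ 2 * ((y + 102) / 2) := by
    rw [logb_le_iff_le_rpow one_lt_two n0]
    have e1 : ((4 * 11 ^ (3 * K) : ℕ) : ℝ) ≤ 2 ^ (11 * ((K : ℝ) + 1)) := by
      have : 4 * 11 ^ (3 * K) ≤ 2 ^ (11 * (K + 1)) := by
        rw [pow_mul, mul_add, pow_add, pow_mul, mul_comm]
        exact Nat.mul_le_mul (Nat.pow_le_pow_left (by norm_num) K) (by norm_num)
      exact_mod_cast this
    have e2 : ((K + 1 : ℕ) : ℝ) ≤ 2 ^ (y + 1) := by
      rw [rpow_add two_pos, hKy, rpow_one]; push_cast; linarith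
    calc (n : ℝ) ≤ 16 * ((4 * 11 ^ (3 * K) : ℕ) : ℝ) ^ (K + 1) * ((K + 1 : ℕ) : ℝ) ^ tri (K + 1) := by
          exact_mod_cast h3
      _ ≤ 2 ^ (4 : ℝ) * (2 ^ (11 * ((K : ℝ) + 1))) ^ (K + 1) * (2 ^ (y + 1)) ^ tri (K + 1) := by
          gcongr; norm_num
      _ = 2 ^ (4 + 11 * ((K : ℝ) + 1) * (K + 1) + (y + 1) * tri (K + 1)) := by
          rw [← rpow_natCast, ← rpow_natCast, ← rpow_mul zero_le_two, ← rpow_mul zero_le_two,
            ← rpow_add two_pos, ← rpow_add two_pos]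
          push_cast; ring_nf
      _ ≤ _ := by
          refine rpow_le_rpow_of_exponent_le one_le_two ?_
          have : (tri (K + 1) : ℝ) ≤ (K ^ 2 + 5 * K) / 2 := by nlinarith
          have : (y + 1) * tri (K + 1) ≤ (y + 1) * ((K ^ 2 + 5 * K) / 2) :=
            mul_le_mul_of_nonneg_left this (by linarith)
          nlinarith
  have L2 : logb 2 (K ^ 2 * ((y + 102) / 2)) ≤ 2 * y + logb 2 y := by
    rw [logb_le_iff_le_rpow one_lt_two (by positivity), rpow_add two_pos, mul_comm 2 y,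
      rpow_mul zero_le_two, hKy, rpow_two, rpow_logb two_pos (by norm_num) (by linarith)]
    nlinarith [sq_nonneg (K : ℝ)]
  have L0 : 1 ≤ logb 2 n := by
    rw [le_logb_iff_rpow_le one_lt_two n0, rpow_one]; exact_mod_cast hn
  have L3 : √(logb 2 n * logb 2 (logb 2 n)) ≤ K * (y + 102 + logb 2 y) := by
    refine sqrt_le_iff.2 ⟨by positivity, (phi_mono L0 L1).trans ?_⟩
    have := mul_le_mul_of_nonneg_left L2 (show (0 : ℝ) ≤ K ^ 2 * ((y + 102) / 2) by positivity)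
    have e : (y + 102) / 2 * (2 * y + logb 2 y) ≤ (y + 102 + logb 2 y) ^ 2 := by nlinarith
    nlinarith [mul_le_mul_of_nonneg_left e (sq_nonneg (K : ℝ))]
  have L4 : (1 - ε) * √(logb 2 n * logb 2 (logb 2 n)) ≤ y * K - 5 := by
    have s0 := sqrt_nonneg (logb 2 n * logb 2 (logb 2 n))
    rcases le_total ε 1 with e | e
    · have := mul_le_mul_of_nonneg_left L3 (show 0 ≤ 1 - ε by linarith)
      have e2 : (1 - ε) * (y + 102 + logb 2 y) ≤ y - 1 := by nlinarith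
      nlinarith [mul_le_mul_of_nonneg_left e2 (show (0 : ℝ) ≤ K by linarith)]
    · nlinarith
  have h5 : (K : ℝ) ^ K * n ≤ 20 * polyArea n := by exact_mod_cast h4
  have h6 := rpow_le_rpow_of_exponent_le one_le_two L4
  rw [rpow_sub two_pos, rpow_mul zero_le_two y, hKy, rpow_natCast] at h6
  norm_num at h6
  have h7 : (0 : ℝ) ≤ polyArea n := Nat.cast_nonneg _
  nlinarith [mul_le_mul_of_nonneg_left h6 n0.le]

end Pool.Agent.Lib.MP_68dca0_co
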