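import Pool.Agent.Lib.MP_68dca0_co.Upper

namespace Pool.Agent.Lib.MP_68dca0_co

lemma val_idx {V : Type} {ρ : V → ℤ} {L : List (Sym2 V)} (h : Val ρ [] [] L) {c : ℕ}
    (hc : c < L.length) : Col ρ (fun w => (∃ j ≤ c, ∃ h : j < L.length, w ∈ L[j]) ∧
      ∃ k, c ≤ k ∧ ∃ h : k < L.length, w ∈ L[k]) L[c] := by
  refine (h (L.take c) L[c] (L.drop (c + 1)) (by simp)).mono ?_
  rintro w ⟨⟨j, h1, h2, h3⟩, k, h4, h5, h6⟩
  constructor
  · rcases h1.eq_or_lt with rfl | h1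
    · exact Or.inr (Or.inl h3)
    · exact Or.inr (Or.inr ⟨L[j], List.mem_take_iff_getElem.2 ⟨j, by omega, rfl⟩, h3⟩)
  · rcases h4.eq_or_lt with rfl | h4
    · exact Or.inr (Or.inl h6)
    · refine Or.inr (Or.inr ⟨L[k], List.mem_drop_iff_getElem.2 ⟨k - (c + 1), by omega, ?_⟩, h6⟩)
      congr 1; omega

lemma mem_seg {p q : ℤ × ℤ} {x : ℝ × ℝ} (h : x ∈ segment ℝ (pt p) (pt q)) :
    ∃ τ : ℝ, 0 ≤ τ ∧ τ ≤ 1 ∧ x.1 = (1 - τ) * p.1 + τ * q.1 ∧ x.2 = (1 - τ) * p.2 + τ * q.2 := by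
  obtain ⟨a, b, ha, hb, hab, rfl⟩ := h
  obtain rfl : a = 1 - b := by linarith
  exact ⟨b, hb, by linarith, by simp [pt], by simp [pt]⟩

/-- the chain with two bends -/
def chain (p q : ℤ × ℤ) (i σ : ℤ) : ℕ → ℤ × ℤ
  | 0 => p
  | 1 => (i, p.2 + σ)
  | 2 => (i, q.2 - σ)
  | _ => q

lemma chain_simple {x y a b i σ : ℤ} (h : (σ = 1 ∧ a < b) ∨ (σ = -1 ∧ b < a)) :
    IsSimple (chain (x, 3 * a) (y, 3 * b) i σ) 3 := by
  have h' : ((σ : ℝ) = 1 ∧ (a : ℝ) + 1 ≤ b) ∨ ((σ : ℝ) = -1 ∧ (b : ℝ) + 1 ≤ a) := by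
    exact_mod_cast h
  constructor
  · intro j hj
    interval_cases j <;> simp [chain] <;> omega
  · intro j k hjk hk q ⟨h1, h2⟩
    obtain ⟨s, s0, s1, s2, s3⟩ := mem_seg h1
    obtain ⟨t, t0, t1, t2, t3⟩ := mem_seg h2
    interval_cases k <;> interval_cases j <;> simp only [chain] at s2 s3 t2 t3 ⊢ <;>
      push_cast at s2 s3 t2 t3
    · have e : s = 1 := by rcases h' with ⟨e, h⟩ | ⟨e, h⟩ <;> rw [e] at s3 t3 <;> nlinarith
      subst e
      exact ⟨trivial, Prod.ext (by simp [pt, s2]) (by simp [pt, s3])⟩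
    · exfalso
      rcases h' with ⟨e, h⟩ | ⟨e, h⟩ <;> rw [e] at s3 t3 <;> nlinarith
    · have e : t = 0 := by rcases h' with ⟨e, h⟩ | ⟨e, h⟩ <;> rw [e] at s3 t3 <;> nlinarith
      subst e
      exact ⟨trivial, Prod.ext (by simp [pt, t2]) (by simp [pt, t3])⟩

lemma chain_curve {x y i : ℕ} {a b σ : ℤ} (h : (σ = 1 ∧ a < b) ∨ (σ = -1 ∧ b < a)) {q : ℝ × ℝ}
    (hq : q ∈ curve (chain (x, 3 * a) (y, 3 * b) i σ) 3) :
    (∃ τ : ℝ, 0 ≤ τ ∧ τ ≤ 1 ∧ q.1 = (1 - τ) * x + τ * i ∧ |q.2 - 3 * a| = τ) ∨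
    (∃ τ : ℝ, 0 ≤ τ ∧ τ ≤ 1 ∧ q.1 = (1 - τ) * y + τ * i ∧ |q.2 - 3 * b| = τ) ∨
    (q.1 = i ∧ ((3 * a + 1 ≤ q.2 ∧ q.2 ≤ 3 * b - 1) ∨ (3 * b + 1 ≤ q.2 ∧ q.2 ≤ 3 * a - 1))) := by
  have h' : ((σ : ℝ) = 1 ∧ (a : ℝ) + 1 ≤ b) ∨ ((σ : ℝ) = -1 ∧ (b : ℝ) + 1 ≤ a) := by
    exact_mod_cast h
  obtain ⟨j, hj, h1⟩ := hq
  obtain ⟨s, s0, s1, s2, s3⟩ := mem_seg h1
  interval_cases j <;> simp only [chain] at s2 s3 <;> push_cast at s2 s3
  · refine Or.inl ⟨s, s0, s1, s2, ?_⟩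
    rcases h' with ⟨e, h⟩ | ⟨e, h⟩ <;> rw [e] at s3
    · rw [abs_of_nonneg] <;> linarith
    · rw [abs_of_nonpos] <;> linarith
  · refine Or.inr (Or.inr ⟨by linarith, ?_⟩)
    rcases h' with ⟨e, h⟩ | ⟨e, h⟩ <;> rw [e] at s3
    · left; constructor <;> nlinarith
    · right; constructor <;> nlinarith
  · refine Or.inr (Or.inl ⟨1 - s, by linarith, by linarith, by linarith, ?_⟩)
    rcases h' with ⟨e, h⟩ | ⟨e, h⟩ <;> rw [e] at s3
    · rw [abs_of_nonpos] <;> linarith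
    · rw [abs_of_nonneg] <;> linarith

lemma drawing_of_val {n : ℕ} {G : SimpleGraph (Fin n)} {ρ : Fin n → ℤ} {H : ℕ}
    (hρ : ∀ w, 0 ≤ ρ w ∧ ρ w ≤ H) {L : List (Sym2 (Fin n))} (h : Val ρ [] [] L)
    (h1 : ∀ w, ∃ e ∈ L, w ∈ e) (h2 : ∀ u v, G.Adj u v → s(u, v) ∈ L) :
    HasDrawing G L.length (3 * H) := by
  let In : Fin n → ℕ → Prop := fun w j => ∃ h : j < L.length, w ∈ L[j]
  have h3 : ∀ w, ∃ j, In w j := fun w => by
    obtain ⟨e, he, hw⟩ := h1 w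
    obtain ⟨j, hj, rfl⟩ := List.getElem_of_mem he
    exact ⟨j, hj, hw⟩
  choose x hx using h3
  have h4 : ∀ u v, ∃ i, G.Adj u v → ∃ h : i < L.length, L[i] = s(u, v) := fun u v => by
    by_cases e : G.Adj u v
    · obtain ⟨j, hj, e⟩ := List.getElem_of_mem (h2 u v e)
      exact ⟨j, fun _ => ⟨hj, e⟩⟩
    · exact ⟨0, fun e' => absurd e' e⟩
  choose col hcol using h4
  let Bar : Fin n → ℝ → Prop := fun w y => ∃ j k : ℕ, In w j ∧ In w k ∧ j ≤ y ∧ y ≤ k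
  have F1 : ∀ w w' y, Bar w y → Bar w' y → ρ w = ρ w' → w = w' := by
    rintro w w' y ⟨j, k, a1, a2, a3, a4⟩ ⟨j', k', b1, b2, b3, b4⟩
    have e1 : j ≤ k := by exact_mod_cast a3.trans a4
    have e2 : j ≤ k' := by exact_mod_cast a3.trans b4
    have e3 : j' ≤ k := by exact_mod_cast b3.trans a4
    have e4 : j' ≤ k' := by exact_mod_cast b3.trans b4
    exact (val_idx h (c := max j j') (max_lt a1.1 b1.1)).1 w w' ⟨⟨j, by omega, a1⟩, k, by omega, a2⟩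
      ⟨⟨j', by omega, b1⟩, k', by omega, b2⟩
  have F2 : ∀ u v, G.Adj u v → ∀ w, Bar w (col u v) →
      (ρ u < ρ w → ρ v ≤ ρ w) ∧ (ρ v < ρ w → ρ u ≤ ρ w) := by
    rintro u v huv w ⟨j, k, a1, a2, a3, a4⟩
    obtain ⟨c1, c2⟩ := hcol u v huv
    have e1 : j ≤ col u v := by exact_mod_cast a3
    have e2 : col u v ≤ k := by exact_mod_cast a4
    exact ⟨(val_idx h c1).2 u v c2 w ⟨⟨j, e1, a1⟩, k, e2, a2⟩,
      (val_idx h c1).2 v u (c2.trans Sym2.eq_swap) w ⟨⟨j, e1, a1⟩, k, e2, a2⟩⟩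
  have I1 : ∀ u v, G.Adj u v → In u (col u v) ∧ In v (col u v) := fun u v huv => by
    obtain ⟨c1, c2⟩ := hcol u v huv
    exact ⟨⟨c1, by simp [c2]⟩, ⟨c1, by simp [c2]⟩⟩
  have B0 : ∀ w j, In w j → Bar w j := fun w j h => ⟨j, j, h, h, le_rfl, le_rfl⟩
  have sg : ∀ u v, G.Adj u v → ((if ρ u < ρ v then 1 else -1 : ℤ) = 1 ∧ ρ u < ρ v) ∨
      ((if ρ u < ρ v then 1 else -1 : ℤ) = -1 ∧ ρ v < ρ u) := fun u v huv => by
    have : ρ u ≠ ρ v := fun e => huv.ne (F1 u v _ (B0 _ _ (I1 u v huv).1) (B0 _ _ (I1 u v huv).2) e)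
    split_ifs <;> omega
  let Fan : Fin n → ℕ → ℝ × ℝ → Prop := fun a i q =>
    ∃ τ : ℝ, 0 ≤ τ ∧ τ ≤ 1 ∧ q.1 = (1 - τ) * x a + τ * i ∧ |q.2 - 3 * ρ a| = τ
  have fb : ∀ a i q, In a i → Fan a i q → Bar a q.1 := by
    rintro a i q hi ⟨τ, t0, t1, t2, -⟩
    rcases le_total (x a : ℝ) i with e | e
    · exact ⟨x a, i, hx a, hi, by nlinarith, by nlinarith⟩
    · exact ⟨i, x a, hi, hx a, by nlinarith, by nlinarith⟩
  have ff : ∀ a i a' i' q, In a i → In a' i' → Fan a i q → Fan a' i' q → a = a' := by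
    intro a i a' i' q hi hi' f1 f2
    refine F1 a a' _ (fb _ _ _ hi f1) (fb _ _ _ hi' f2) ?_
    obtain ⟨τ, -, t1, -, t2⟩ := f1
    obtain ⟨τ', -, t1', -, t2'⟩ := f2
    have e1 := abs_le.1 (t2.le.trans t1)
    have e2 := abs_le.1 (t2'.le.trans t1')
    have e3 : 3 * ρ a ≤ 3 * ρ a' + 2 := by
      have : 3 * (ρ a : ℝ) ≤ 3 * ρ a' + 2 := by linarith
      exact_mod_cast this
    have e4 : 3 * ρ a' ≤ 3 * ρ a + 2 := by
      have : 3 * (ρ a' : ℝ) ≤ 3 * ρ a + 2 := by linarith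
      exact_mod_cast this
    omega
  have ff2 : ∀ a i a' i' q, In a i → In a' i' → Fan a i q → Fan a' i' q → i ≠ i' →
      q = pt (x a, 3 * ρ a) := by
    intro a i a' i' q hi hi' f1 f2 hne
    obtain rfl := ff a i a' i' q hi hi' f1 f2
    obtain ⟨τ, -, -, t1, t2⟩ := f1
    obtain ⟨τ', -, -, t1', t2'⟩ := f2
    obtain rfl : τ = τ' := t2.symm.trans t2'
    have e1 : τ * ((i : ℝ) - i') = 0 := by linarith
    have e2 : τ = 0 := (mul_eq_zero.1 e1).resolve_right (sub_ne_zero.2 (by exact_mod_cast hne))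
    subst e2
    exact Prod.ext (by simp [pt, t1]) (by simpa [pt, sub_eq_zero] using t2)
  have fv0 : ∀ a b i, In a i → In b i → (∀ w, Bar w i → ρ a < ρ w → ρ b ≤ ρ w) →
      ∀ w j (q : ℝ × ℝ), In w j → Fan w j q → q.1 = i → 3 * ρ a + 1 ≤ q.2 → q.2 ≤ 3 * ρ b - 1 →
        j = i ∧ 1 ≤ |q.2 - 3 * ρ w| := by
    intro a b i ha hb hF w j q hw f e1 e2 e3
    have b1 := fb _ _ _ hw f
    rw [e1] at b1
    obtain ⟨τ, t0, t1, t2, t3⟩ := f
    have e4 := abs_le.1 (t3.le.trans t1)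
    have e5 : ρ a ≤ ρ w := by
      have : (ρ a : ℝ) ≤ ρ w := by linarith
      exact_mod_cast this
    have e6 : ρ w ≤ ρ b := by
      have : (ρ w : ℝ) ≤ ρ b := by linarith
      exact_mod_cast this
    have e7 : τ = 1 := by
      refine le_antisymm t1 ?_
      rw [← t3, le_abs]
      rcases e5.eq_or_lt with e | e
      · left; rw [← e]; linarith
      · right; rw [le_antisymm e6 (hF w b1 e)]; linarith
    subst e7
    refine ⟨?_, t3.ge⟩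
    have : (j : ℝ) = i := by linarith
    exact_mod_cast this
  have fv : ∀ u v, G.Adj u v → ∀ w j (q : ℝ × ℝ), In w j → Fan w j q → q.1 = col u v →
      ((3 * ρ u + 1 ≤ q.2 ∧ q.2 ≤ 3 * ρ v - 1) ∨ (3 * ρ v + 1 ≤ q.2 ∧ q.2 ≤ 3 * ρ u - 1)) →
        j = col u v ∧ 1 ≤ |q.2 - 3 * ρ w| := by
    intro u v huv w j q hw f e1 e2
    rcases e2 with e2 | e2
    · exact fv0 u v _ (I1 u v huv).1 (I1 u v huv).2 (fun w hw => (F2 u v huv w hw).1) w j q hw f e1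
        e2.1 e2.2
    · exact fv0 v u _ (I1 u v huv).2 (I1 u v huv).1 (fun w hw => (F2 u v huv w hw).2) w j q hw f e1
        e2.1 e2.2
  have f0 : ∀ w, Fan w (x w) (pt (x w, 3 * ρ w)) := fun w => ⟨0, le_rfl, zero_le_one, by simp [pt],
    by simp [pt]⟩
  have bx : ∀ w, ((x w : ℤ), 3 * ρ w) ∈ Set.Icc (0 : ℤ) L.length ×ˢ Set.Icc (0 : ℤ) (3 * H : ℕ) := by
    intro w
    have := (hx w).1
    have := hρ w
    simp only [Set.mem_prod, Set.mem_Icc]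
    omega
  refine ⟨fun w => (x w, 3 * ρ w), fun u v => chain (x u, 3 * ρ u) (x v, 3 * ρ v) (col u v)
    (if ρ u < ρ v then 1 else -1), fun _ _ => 3, fun w w' e => ?_, bx,
    fun u v _ huv => ⟨rfl, rfl, chain_simple (sg u v huv), fun i hi => ?_, fun w hw => ?_⟩,
    fun u v u' v' l1 a1 l2 a2 hne q ⟨q1, q2⟩ => ?_⟩
  · exact ff w _ w' _ _ (hx w) (hx w') (f0 w) (by simp only at e; rw [e]; exact f0 w')
  · have e1 := (hcol u v huv).1
    have e2 := hρ u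
    have e3 := hρ v
    have e4 := sg u v huv
    interval_cases i
    · exact bx u
    · simp only [chain, Set.mem_prod, Set.mem_Icc]; omega
    · simp only [chain, Set.mem_prod, Set.mem_Icc]; omega
    · exact bx v
  · rcases chain_curve (sg u v huv) hw with e | e | e
    · exact Or.inl (ff w _ u _ _ (hx w) (I1 u v huv).1 (f0 w) e)
    · exact Or.inr (ff w _ v _ _ (hx w) (I1 u v huv).2 (f0 w) e)
    · have := (fv u v huv w _ _ (hx w) (f0 w) e.1 e.2).2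
      simp [pt] at this
      linarith
  · have hc : col u v ≠ col u' v' := by
      intro e
      obtain ⟨c1, c2⟩ := hcol u v a1
      obtain ⟨c3, c4⟩ := hcol u' v' a2
      simp only [e] at c2
      rw [c2, Sym2.eq_iff] at c4
      rcases c4 with ⟨rfl, rfl⟩ | ⟨rfl, rfl⟩
      · exact hne rfl
      · exact absurd l1 l2.not_gt
    have g1 := I1 u v a1
    have g2 := I1 u' v' a2
    rcases chain_curve (sg u v a1) q1 with e | e | e <;>
      rcases chain_curve (sg u' v' a2) q2 with e' | e' | e'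
    · exact ⟨u, ff2 u _ u' _ q g1.1 g2.1 e e' hc⟩
    · exact ⟨u, ff2 u _ v' _ q g1.1 g2.2 e e' hc⟩
    · exact absurd (fv u' v' a2 u _ q g1.1 e e'.1 e'.2).1 hc
    · exact ⟨v, ff2 v _ u' _ q g1.2 g2.1 e e' hc⟩
    · exact ⟨v, ff2 v _ v' _ q g1.2 g2.2 e e' hc⟩
    · exact absurd (fv u' v' a2 v _ q g1.2 e e'.1 e'.2).1 hc
    · exact absurd (fv u v a1 u' _ q g2.1 e' e.1 e.2).1 hc.symm
    · exact absurd (fv u v a1 v' _ q g2.2 e' e.1 e.2).1 hc.symm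
    · exact absurd (by exact_mod_cast e.1.symm.trans e'.1) hc

theorem graph_upper {n N H : ℕ} (hA : All (Fin n) N H) (h1 : 1 ≤ H) (h2 : 2 ≤ n) (h3 : n ≤ N)
    {G : SimpleGraph (Fin n)} (hG : ¬ HasK4Minor G) : ∃ W ≤ 2 * n, HasDrawing G W (3 * H) := by
  obtain ⟨u, v, t, g1, g2, g3⟩ := exists_tree (n - 2) G Finset.univ (by simp; omega)
    (by rwa [Finset.coe_univ, ← hasK4Minor_iff])
  have e1 : (u :: v :: t.verts).length ≤ n := by simpa using g1.length_le_card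
  simp only [List.length_cons] at e1
  have huv : u ≠ v := by simp only [List.nodup_cons, List.mem_cons] at g1; tauto
  obtain ⟨a1, ρ, a2, a3, L, a4, a5⟩ := ((hA t (by omega)).em (by exact_mod_cast h1)
    (ρ0 := fun w => if w = u then 0 else H) g1 (by simp [huv.symm]) (lo := 0) (hi := H)
    (by simp [huv.symm]) (by simp [huv.symm])).mono (X' := []) (Y' := []) (by simp) (by simp)
    (fun _ h => h) (fun _ => Iff.rfl) le_rfl le_rfl
  refine ⟨L.length, ?_, drawing_of_val (fun w => ?_) a5 (fun w => ?_) fun x y h => ?_⟩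
  · have := congrArg Multiset.card a4
    simp only [Multiset.coe_card, LT.em, Multiset.card_cons, LT.card_eo] at this
    omega
  · by_cases e : w ∈ t.verts
    · have := a3 w e
      omega
    · simp only [a2 w e]
      split_ifs <;> omega
  · obtain ⟨y, hy⟩ := t.covered u v w ((g2 w).1 (Finset.mem_univ _))
    exact ⟨s(w, y), by rwa [← Multiset.mem_coe, a4], by simp⟩
  · rw [← Multiset.mem_coe, a4]
    exact g3 x (Finset.mem_univ _) y (Finset.mem_univ _) h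

end Pool.Agent.Lib.MP_68dca0_co
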