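import Mathlib

namespace Pool.Agent.Lib.MP_68dca0_co

/-- `G` has a `K_4` minor: four disjoint connected, pairwise adjacent branch sets -/
def HasK4Minor {V : Type*} (G : SimpleGraph V) : Prop :=
  ∃ B : Fin 4 → Set V, (∀ i, (G.induce (B i)).Connected) ∧
    ∀ i j, i ≠ j → Disjoint (B i) (B j) ∧ ∃ x ∈ B i, ∃ y ∈ B j, G.Adj x y

/-- a grid point as a point of the plane -/
def pt (p : ℤ × ℤ) : ℝ × ℝ := (p.1, p.2)

/-- the `i`-th segment of the polygonal chain `c 0, c 1, ...` -/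
def seg (c : ℕ → ℤ × ℤ) (i : ℕ) : Set (ℝ × ℝ) := segment ℝ (pt (c i)) (pt (c (i + 1)))

/-- the point set of the chain `c 0, ..., c k` -/
def curve (c : ℕ → ℤ × ℤ) (k : ℕ) : Set (ℝ × ℝ) := {x | ∃ i < k, x ∈ seg c i}

/-- the chain `c 0, ..., c k` does not meet itself -/
def IsSimple (c : ℕ → ℤ × ℤ) (k : ℕ) : Prop :=
  (∀ i < k, c i ≠ c (i + 1)) ∧
    ∀ i j, i < j → j < k → ∀ x ∈ seg c i ∩ seg c j, j = i + 1 ∧ x = pt (c j)

/-- `G` has a poly-line grid drawing inside the rectangle `[0, W] × [0, H]` -/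
def HasDrawing {n : ℕ} (G : SimpleGraph (Fin n)) (W H : ℕ) : Prop :=
  ∃ (pos : Fin n → ℤ × ℤ) (c : Fin n → Fin n → ℕ → ℤ × ℤ) (k : Fin n → Fin n → ℕ),
    Function.Injective pos ∧ (∀ v, pos v ∈ Set.Icc (0 : ℤ) W ×ˢ Set.Icc (0 : ℤ) H) ∧
    (∀ u v, u < v → G.Adj u v →
      c u v 0 = pos u ∧ c u v (k u v) = pos v ∧ IsSimple (c u v) (k u v) ∧
      (∀ i ≤ k u v, c u v i ∈ Set.Icc (0 : ℤ) W ×ˢ Set.Icc (0 : ℤ) H) ∧
      ∀ w, pt (pos w) ∈ curve (c u v) (k u v) → w = u ∨ w = v) ∧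
    ∀ u v u' v', u < v → G.Adj u v → u' < v' → G.Adj u' v' → (u, v) ≠ (u', v') →
      ∀ x ∈ curve (c u v) (k u v) ∩ curve (c u' v') (k u' v'), ∃ w, x = pt (pos w)

/-- worst-case minimum area of a poly-line grid drawing of an `n`-vertex series-parallel graph -/
noncomputable def polyArea (n : ℕ) : ℕ :=
  ⨆ G : {G : SimpleGraph (Fin n) // ¬ HasK4Minor G},
    sInf {a : ℕ | ∃ W H : ℕ, HasDrawing G.1 W H ∧ a = W * H}

end Pool.Agent.Lib.MP_68dca0_co
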