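import Pool.Agent.Lib.MP_68dca0_co.K33

namespace Pool.Agent.Lib.MP_68dca0_co

open Set

abbrev P := ℝ × ℝ

/-- lattice points -/
def lat (p : P) : Prop := ∃ a b : ℤ, p = ((a : ℝ), (b : ℝ))

/-- non-zero integral linear functionals -/
structure Fn (φ : P →L[ℝ] ℝ) : Prop where
  int : ∀ p, lat p → ∃ k : ℤ, φ p = k
  surj : ∃ e, φ e = 1

lemma Fn.neg {φ : P →L[ℝ] ℝ} (h : Fn φ) : Fn (-φ) where
  int p hp := by
    obtain ⟨k, hk⟩ := h.int p hp
    exact ⟨-k, by simp [hk]⟩
  surj := by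
    obtain ⟨e, he⟩ := h.surj
    exact ⟨-e, by simp [he]⟩

/-- the drawing of the inside of a two-terminal graph -/
structure Nd (u v : P) (S : Set P) : Prop where
  lu : lat u
  lv : lat v
  ne : u ≠ v
  nu : u ∉ S
  nv : v ∉ S
  ju : ∀ q ∈ S, JoinedIn (insert u S) q u
  jv : ∀ q ∈ S, JoinedIn (insert v S) q v
  nonempty : S.Nonempty
  top : ∀ φ : P →L[ℝ] ℝ, ∀ q ∈ S, ∃ a ∈ insert u (insert v S), lat a ∧ φ q ≤ φ a

lemma Nd.symm {u v : P} {S : Set P} (h : Nd u v S) : Nd v u S :=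
  ⟨h.lv, h.lu, h.ne.symm, h.nv, h.nu, h.jv, h.ju, h.nonempty, fun φ q hq => by
    rw [insert_comm]; exact h.top φ q hq⟩

lemma Nd.joined {u v : P} {S : Set P} (h : Nd u v S) : JoinedIn (insert u (insert v S)) u v := by
  obtain ⟨q, hq⟩ := h.nonempty
  exact ((h.ju q hq).symm.mono (insert_subset_insert (subset_insert _ _))).trans
    ((h.jv q hq).mono (subset_insert _ _))

lemma Nd.union {u v : P} {S S' : Set P} (h : Nd u v S) (h' : Nd u v S') : Nd u v (S ∪ S') := by
  refine ⟨h.lu, h.lv, h.ne, by simp [h.nu, h'.nu], by simp [h.nv, h'.nv], ?_, ?_,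
    h.nonempty.inl, ?_⟩
  · rintro q (hq | hq)
    · exact (h.ju q hq).mono (insert_subset_insert subset_union_left)
    · exact (h'.ju q hq).mono (insert_subset_insert subset_union_right)
  · rintro q (hq | hq)
    · exact (h.jv q hq).mono (insert_subset_insert subset_union_left)
    · exact (h'.jv q hq).mono (insert_subset_insert subset_union_right)
  · rintro φ q (hq | hq)
    · obtain ⟨a, ha, h1⟩ := h.top φ q hq
      exact ⟨a, insert_subset_insert (insert_subset_insert subset_union_left) ha, h1⟩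
    · obtain ⟨a, ha, h1⟩ := h'.top φ q hq
      exact ⟨a, insert_subset_insert (insert_subset_insert subset_union_right) ha, h1⟩

/-- a series composition -/
structure Cp (u v z : P) (S1 S2 : Set P) : Prop where
  n1 : Nd u z S1
  n2 : Nd z v S2
  ne : u ≠ v
  v1 : v ∉ S1
  u2 : u ∉ S2

lemma Cp.symm {u v z : P} {S1 S2 : Set P} (h : Cp u v z S1 S2) : Cp v u z S2 S1 :=
  ⟨h.n2.symm, h.n1.symm, h.ne.symm, h.u2, h.v1⟩

lemma Cp.jz {u v z : P} {S1 S2 : Set P} (h : Cp u v z S1 S2) :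
    ∀ q ∈ insert z (S1 ∪ S2), JoinedIn (insert z (S1 ∪ S2)) q z := by
  rintro q (rfl | hq | hq)
  · exact JoinedIn.refl (mem_insert _ _)
  · exact (h.n1.jv q hq).mono (insert_subset_insert subset_union_left)
  · exact (h.n2.ju q hq).mono (insert_subset_insert subset_union_right)

lemma Cp.nd {u v z : P} {S1 S2 : Set P} (h : Cp u v z S1 S2) : Nd u v (insert z (S1 ∪ S2)) := by
  refine ⟨h.n1.lu, h.n2.lv, h.ne, by simp [h.n1.ne, h.n1.nu, h.u2],
    by simp [h.n2.ne.symm, h.n2.nv, h.v1], fun q hq => ?_, fun q hq => ?_, insert_nonempty _ _, ?_⟩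
  · exact ((h.jz q hq).mono (subset_insert _ _)).trans (h.n1.joined.symm.mono
      (insert_subset_insert (insert_subset_insert subset_union_left)))
  · refine ((h.jz q hq).mono (subset_insert _ _)).trans (h.n2.joined.mono ?_)
    rw [insert_comm]
    exact insert_subset_insert (insert_subset_insert subset_union_right)
  · rintro φ q (rfl | hq | hq)
    · exact ⟨q, by simp, h.n1.lv, le_rfl⟩
    · obtain ⟨a, ha, h1⟩ := h.n1.top φ q hq
      refine ⟨a, ?_, h1⟩
      simp only [mem_insert_iff, mem_union] at ha ⊢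
      tauto
    · obtain ⟨a, ha, h1⟩ := h.n2.top φ q hq
      refine ⟨a, ?_, h1⟩
      simp only [mem_insert_iff, mem_union] at ha ⊢
      tauto

/-- a connected block between two terminals -/
structure Bl (u v : P) (K : Set P) : Prop where
  nd : Nd u v K
  conn : ∀ p ∈ K, ∀ q ∈ K, JoinedIn K p q

lemma Cp.bl {u v z : P} {S1 S2 : Set P} (h : Cp u v z S1 S2) : Bl u v (insert z (S1 ∪ S2)) :=
  ⟨h.nd, fun p hp q hq => (h.jz p hp).trans (h.jz q hq).symm⟩

variable {φ : P →L[ℝ] ℝ} {u v : P}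

/-- three blocks whose main paths lie below a line cannot all reach it -/
lemma three_top (hφ : Fn φ) {t : ℝ} {K : Fin 3 → Set P} (hK : ∀ i, Bl u v (K i))
    (hd : ∀ i j, i ≠ j → Disjoint (K i) (K j)) {z q : Fin 3 → P} (hz : ∀ i, z i ∈ K i)
    (hu : ∀ i, JoinedIn (insert u (K i) ∩ {p | φ p ≤ t}) u (z i))
    (hv : ∀ i, JoinedIn (insert v (K i) ∩ {p | φ p ≤ t}) v (z i))
    (hq : ∀ i, q i ∈ K i ∧ t ≤ φ (q i)) : False := by
  obtain ⟨e, he⟩ := hφ.surj
  have hne := (hK 0).nd.ne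
  have ho : φ ((t + 1) • e) = t + 1 := by simp [he]
  have key : ∀ i j, i ≠ j → Disjoint (insert u (K i) ∩ {p | φ p ≤ t}) (insert v (K j) ∩ {p | φ p ≤ t}) := by
    intro i j h
    rw [Set.disjoint_left]
    rintro p ⟨rfl | h1, -⟩ ⟨h2 | h2, -⟩
    · exact hne h2
    · exact (hK j).nd.nu h2
    · exact (hK i).nd.nv (h2 ▸ h1)
    · exact Set.disjoint_left.1 (hd i j h) h1 h2
  have key2 : ∀ w, (∀ i, w ∉ K i) → ∀ i j, i ≠ j →
      Disjoint (insert w (K i) ∩ {p | φ p ≤ t}) (K j ∪ {p | t < φ p}) := by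
    intro w hw i j h
    rw [Set.disjoint_left]
    rintro p ⟨rfl | h1, h3⟩ (h2 | h2)
    · exact hw j h2
    · exact not_lt.2 (show φ _ ≤ t from h3) (show t < φ _ from h2)
    · exact Set.disjoint_left.1 (hd i j h) h1 h2
    · exact not_lt.2 (show φ _ ≤ t from h3) (show t < φ _ from h2)
  refine k33 ![u, v, (t + 1) • e] z
    ![fun i => insert u (K i) ∩ {p | φ p ≤ t}, fun i => insert v (K i) ∩ {p | φ p ≤ t},
      fun i => K i ∪ {p | t < φ p}] ?_ ?_
  · intro i j
    fin_cases i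
    · exact hu j
    · exact hv j
    · refine JoinedIn.trans (y := q j) (JoinedIn.of_segment_subset ?_)
        (((hK j).conn _ (hq j).1 _ (hz j)).mono subset_union_left)
      rintro p ⟨a, b, ha, hb, hab, rfl⟩
      rcases ha.eq_or_lt with h | h
      · left
        have : b = 1 := by linarith
        simp [← h, this, (hq j).1]
      · right
        simp only [Fin.reduceFinMk, Matrix.cons_val, mem_ofPred_eq, map_add, map_smul, smul_eq_mul, he]
        have := (hq j).2
        obtain rfl : b = 1 - a := by linarith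
        nlinarith
  · intro i j k l hik hjl
    have u0 : ∀ i, u ∉ K i := fun i => (hK i).nd.nu
    have v0 : ∀ i, v ∉ K i := fun i => (hK i).nd.nv
    fin_cases i <;> fin_cases k
    · exact absurd rfl hik
    · exact key j l hjl
    · exact key2 u u0 j l hjl
    · exact (key l j hjl.symm).symm
    · exact absurd rfl hik
    · exact key2 v v0 j l hjl
    · exact (key2 u u0 l j hjl.symm).symm
    · exact (key2 v v0 l j hjl.symm).symm
    · exact absurd rfl hik

/-- three blocks cannot all leave `u` both upwards and downwards -/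
lemma three_block (hφ : Fn φ) {K : Fin 3 → Set P} (hK : ∀ i, Bl u v (K i))
    (hd : ∀ i j, i ≠ j → Disjoint (K i) (K j)) {z w : Fin 3 → P} (hz : ∀ i, z i ∈ K i ∧ φ u < φ (z i))
    (hw : ∀ i, w i ∈ K i) (h1 : ∀ i, JoinedIn (insert u (K i) ∩ {p | φ u ≤ φ p}) u (z i))
    (h2 : ∀ i, JoinedIn (insert u (K i) ∩ {p | φ p ≤ φ u}) u (w i)) : False := by
  obtain ⟨e, he⟩ := hφ.surj
  have hne := (hK 0).nd.ne
  have u0 : ∀ i, u ∉ K i := fun i => (hK i).nd.nu
  have v0 : ∀ i, v ∉ K i := fun i => (hK i).nd.nv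
  choose α hα using h1
  choose τ hτ using fun i => (hK i).conn _ (hw i) _ (hz i).1
  choose β hβ using fun i => ((hK i).nd.jv _ (hz i).1).symm
  have sep : ∀ i j, i ≠ j → Disjoint (insert u (K i)) (insert v (K j)) := by
    intro i j h
    rw [Set.disjoint_left]
    rintro p (rfl | h1) (h2 | h2)
    · exact hne h2
    · exact u0 j h2
    · exact v0 i (h2 ▸ h1)
    · exact Set.disjoint_left.1 (hd i j h) h1 h2
  have h3 : ∀ i j, ∃ ε > 0, i ≠ j → Metric.thickening ε (range (α i)) ⊆ (range (τ j) ∪ range (β j))ᶜ := by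
    intro i j
    by_cases h : i = j
    · exact ⟨1, one_pos, fun h' => absurd h h'⟩
    obtain ⟨ε, hε, h4⟩ := (isCompact_range (α i).continuous).exists_thickening_subset_open
      (((isCompact_range (τ j).continuous).union (isCompact_range (β j).continuous)).isClosed.isOpen_compl)
      (by
        rintro _ ⟨s, rfl⟩ (⟨t, h5⟩ | ⟨t, h5⟩)
        · exact Set.disjoint_left.1 (sep i j h) (hα i s).1 (h5 ▸ mem_insert_of_mem _ (hτ j t))
        · exact Set.disjoint_left.1 (sep i j h) (hα i s).1 (h5 ▸ hβ j t))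
    exact ⟨ε, hε, fun _ => h4⟩
  choose ε hε h3 using h3
  obtain ⟨⟨i0, j0⟩, -, hm⟩ := Finset.exists_min_image (Finset.univ : Finset (Fin 3 × Fin 3))
    (fun p => ε p.1 p.2) Finset.univ_nonempty
  set η := ε i0 j0 with hη
  have hη0 : 0 < η := hε _ _
  have h4 : ∀ i j, i ≠ j → Metric.thickening η (range (α i)) ⊆ (range (τ j) ∪ range (β j))ᶜ :=
    fun i j h => (Metric.thickening_mono (hm (i, j) (Finset.mem_univ _)) _).trans (h3 i j h)
  set c := η / (‖e‖ + 1) with hc
  have hc0 : 0 < c := by positivity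
  have hce : ‖c • e‖ < η := by
    rw [norm_smul, Real.norm_of_nonneg hc0.le, hc, div_mul_eq_mul_div, div_lt_iff₀ (by positivity)]
    nlinarith
  have k1 : ∀ i j, i ≠ j → Disjoint (Metric.thickening η (range (α i)) ∩ {p | φ u < φ p})
      ((insert u (K j) ∩ {p | φ p ≤ φ u}) ∪ range (τ j)) := by
    intro i j h
    rw [Set.disjoint_left]
    rintro p ⟨h5, h6⟩ (h7 | h7)
    · exact not_lt.2 (show φ p ≤ φ u from h7.2) (show φ u < φ p from h6)
    · exact h4 i j h h5 (Or.inl h7)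
  have k2 : ∀ i j, i ≠ j → Disjoint (Metric.thickening η (range (α i)) ∩ {p | φ u < φ p})
      (range (β j)) := by
    intro i j h
    rw [Set.disjoint_left]
    rintro p ⟨h5, -⟩ h7
    exact h4 i j h h5 (Or.inr h7)
  have k3 : ∀ i j, i ≠ j → Disjoint ((insert u (K i) ∩ {p | φ p ≤ φ u}) ∪ range (τ i))
      (range (β j)) := by
    intro i j h
    refine (sep i j h).mono ?_ ?_
    · rintro p (h5 | ⟨t, rfl⟩)
      · exact h5.1
      · exact mem_insert_of_mem _ (hτ i t)
    · rintro p ⟨t, rfl⟩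
      exact hβ j t
  refine k33 ![u + c • e, u, v] z
    ![fun i => Metric.thickening η (range (α i)) ∩ {p | φ u < φ p},
      fun i => (insert u (K i) ∩ {p | φ p ≤ φ u}) ∪ range (τ i), fun i => range (β i)] ?_ ?_
  · intro i j
    fin_cases i
    · refine JoinedIn.trans (y := z j + c • e)
        ⟨(α j).map (f := fun p => p + c • e) (by fun_prop), fun s => ⟨?_, ?_⟩⟩
        (JoinedIn.of_segment_subset ?_)
      · refine Metric.mem_thickening_iff.2 ⟨α j s, ⟨s, rfl⟩, ?_⟩
        change dist (α j s + c • e) (α j s) < η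
        simpa [dist_eq_norm] using hce
      · have := (hα j s).2
        change φ u < φ (α j s + c • e)
        simp only [mem_ofPred_eq] at this
        simp only [map_add, map_smul, he, smul_eq_mul]
        linarith
      · rintro p ⟨a, b, ha, hb, hab, rfl⟩
        obtain rfl : b = 1 - a := by linarith
        have e1 : a • (z j + c • e) + (1 - a) • z j = z j + a • c • e := by module
        rw [e1]
        refine ⟨Metric.mem_thickening_iff.2 ⟨z j, ⟨1, by simp⟩, ?_⟩, ?_⟩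
        · rw [dist_eq_norm, add_sub_cancel_left, norm_smul, Real.norm_of_nonneg ha]
          nlinarith [norm_nonneg (c • e)]
        · have := (hz j).2
          simp only [mem_ofPred_eq, map_add, map_smul, he, smul_eq_mul]
          nlinarith
    · exact ((h2 j).mono subset_union_left).trans ⟨τ j, fun t => Or.inr ⟨t, rfl⟩⟩
    · exact ⟨β j, fun t => ⟨t, rfl⟩⟩
  · intro i j k l hik hjl
    fin_cases i <;> fin_cases k
    · exact absurd rfl hik
    · exact k1 j l hjl
    · exact k2 j l hjl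
    · exact (k1 l j hjl.symm).symm
    · exact absurd rfl hik
    · exact k3 j l hjl
    · exact (k2 l j hjl.symm).symm
    · exact (k3 l j hjl.symm).symm
    · exact absurd rfl hik

section Count

variable {ι : Type*} {K : ι → Set P}

lemma card_le_two (hφ : Fn φ) {t : ℝ} {s : Finset ι} (hK : ∀ i ∈ s, Bl u v (K i))
    (hd : ∀ i ∈ s, ∀ j ∈ s, i ≠ j → Disjoint (K i) (K j)) (hu : φ u ≤ t) (hv : φ v ≤ t)
    (h1 : ∀ i ∈ s, ∀ q ∈ K i, φ q ≤ t) (h2 : ∀ i ∈ s, ∃ q ∈ K i, t ≤ φ q) : s.card ≤ 2 := by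
  by_contra h
  obtain ⟨a, ha, b, hb, c, hc, hab, hac, hbc⟩ := Finset.two_lt_card.1 (not_le.1 h)
  have hf : ∀ i : Fin 3, ![a, b, c] i ∈ s := by intro i; fin_cases i <;> assumption
  have hi : ∀ i j : Fin 3, i ≠ j → ![a, b, c] i ≠ ![a, b, c] j := by
    intro i j h
    fin_cases i <;> fin_cases j <;> simp_all [eq_comm]
  choose q hq using fun i => h2 _ (hf i)
  refine three_top hφ (t := t) (K := fun i => K (![a, b, c] i)) (fun i => hK _ (hf i))
    (fun i j h => hd _ (hf i) _ (hf j) (hi i j h)) (fun i => (hq i).1) (fun i => ?_) (fun i => ?_) hq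
  · refine ((hK _ (hf i)).nd.ju _ (hq i).1).symm.mono (subset_inter Subset.rfl ?_)
    rintro p (rfl | hp)
    · exact hu
    · exact h1 _ (hf i) p hp
  · refine ((hK _ (hf i)).nd.jv _ (hq i).1).symm.mono (subset_inter Subset.rfl ?_)
    rintro p (rfl | hp)
    · exact hv
    · exact h1 _ (hf i) p hp

lemma count_top (hφ : Fn φ) {c : ℤ} (hu : φ u ≤ c) (hv : φ v ≤ c) (D : ℕ) : ∀ {s : Finset ι},
    (∀ i ∈ s, Bl u v (K i)) → (∀ i ∈ s, ∀ j ∈ s, i ≠ j → Disjoint (K i) (K j)) →
    (∀ i ∈ s, ∀ q ∈ K i, φ q ≤ c + D) → (∀ i ∈ s, ∃ q ∈ K i, c < φ q) → s.card ≤ 2 * D := by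
  classical
  induction D with
  | zero =>
    intro s _ _ h1 h2
    rw [mul_zero, Nat.le_zero, Finset.card_eq_zero, Finset.eq_empty_iff_forall_notMem]
    intro i hi
    obtain ⟨q, hq, h3⟩ := h2 i hi
    have := h1 i hi q hq
    simp only [Nat.cast_zero, add_zero] at this
    linarith
  | succ D ih =>
    intro s hK hd h1 h2
    have hD : (0 : ℝ) ≤ D := Nat.cast_nonneg D
    rw [← Finset.card_filter_add_card_filter_not (fun i => ∀ q ∈ K i, φ q ≤ c + D)]
    have e1 := ih (s := s.filter (fun i => ∀ q ∈ K i, φ q ≤ c + D))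
      (fun i hi => hK i (Finset.mem_filter.1 hi).1)
      (fun i hi j hj => hd i (Finset.mem_filter.1 hi).1 j (Finset.mem_filter.1 hj).1)
      (fun i hi => (Finset.mem_filter.1 hi).2) (fun i hi => h2 i (Finset.mem_filter.1 hi).1)
    have e2 := card_le_two hφ (t := c + (D + 1 : ℕ)) (s := s.filter (fun i => ¬ ∀ q ∈ K i, φ q ≤ c + D))
      (fun i hi => hK i (Finset.mem_filter.1 hi).1)
      (fun i hi j hj => hd i (Finset.mem_filter.1 hi).1 j (Finset.mem_filter.1 hj).1)
      (by push_cast; linarith) (by push_cast; linarith)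
      (fun i hi => h1 i (Finset.mem_filter.1 hi).1) (fun i hi => by
        obtain ⟨hi, h3⟩ := Finset.mem_filter.1 hi
        push Not at h3
        obtain ⟨q, hq, h3⟩ := h3
        obtain ⟨a, ha, h4, h5⟩ := (hK i hi).nd.top φ q hq
        obtain ⟨k, hk⟩ := hφ.int a h4
        have h6 : c + (D : ℤ) < k := by
          have : (c : ℝ) + D < k := by linarith
          exact_mod_cast this
        have h7 : (c : ℝ) + (D + 1 : ℕ) ≤ k := by exact_mod_cast (by push_cast; omega : c + ((D + 1 : ℕ) : ℤ) ≤ k)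
        rcases ha with rfl | rfl | ha
        · linarith
        · linarith
        · exact ⟨a, ha, by linarith⟩)
    omega

open Classical in
lemma count_strip (hφ : Fn φ) {c c' : ℤ} (hu : c' ≤ φ u ∧ φ u ≤ c) (hv : c' ≤ φ v ∧ φ v ≤ c)
    {D D' : ℕ} {s : Finset ι} (hK : ∀ i ∈ s, Bl u v (K i))
    (hd : ∀ i ∈ s, ∀ j ∈ s, i ≠ j → Disjoint (K i) (K j))
    (h : ∀ i ∈ s, ∀ q ∈ K i, c' - D' ≤ φ q ∧ φ q ≤ c + D) :
    s.card ≤ (s.filter (fun i => ∀ q ∈ K i, c' ≤ φ q ∧ φ q ≤ c)).card + 2 * D + 2 * D' := by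
  have e1 := count_top hφ hu.2 hv.2 D (s := s.filter (fun i => ∃ q ∈ K i, c < φ q))
    (fun i hi => hK i (Finset.mem_filter.1 hi).1)
    (fun i hi j hj => hd i (Finset.mem_filter.1 hi).1 j (Finset.mem_filter.1 hj).1)
    (fun i hi q hq => (h i (Finset.mem_filter.1 hi).1 q hq).2) (fun i hi => (Finset.mem_filter.1 hi).2)
  have e2 := count_top hφ.neg (u := u) (v := v) (c := -c') (by simpa using hu.1) (by simpa using hv.1) D'
    (s := s.filter (fun i => ∃ q ∈ K i, φ q < c'))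
    (fun i hi => hK i (Finset.mem_filter.1 hi).1)
    (fun i hi j hj => hd i (Finset.mem_filter.1 hi).1 j (Finset.mem_filter.1 hj).1)
    (fun i hi q hq => by
      have := (h i (Finset.mem_filter.1 hi).1 q hq).1
      simp only [neg_apply, Int.cast_neg]
      linarith)
    (fun i hi => by simpa using (Finset.mem_filter.1 hi).2)
  have e3 : s ⊆ (s.filter (fun i => ∀ q ∈ K i, c' ≤ φ q ∧ φ q ≤ c) ∪
      s.filter (fun i => ∃ q ∈ K i, c < φ q)) ∪ s.filter (fun i => ∃ q ∈ K i, φ q < c') := by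
    intro i hi
    simp only [Finset.mem_union, Finset.mem_filter, hi, true_and]
    by_contra h1
    push Not at h1
    obtain ⟨⟨⟨q, hq, h2⟩, h3⟩, h4⟩ := h1
    exact not_lt.2 (h3 q hq) (h2 (h4 q hq))
  have e4 := (Finset.card_le_card e3).trans ((Finset.card_union_le _ _).trans
    (Nat.add_le_add_right (Finset.card_union_le _ _) _))
  omega

/-- internally disjoint blocks inside the box spanned by the terminals -/
lemma count_box (h : ℕ) : ∀ (w : ℕ) (φ ψ : P →L[ℝ] ℝ) (s : Finset ι),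
    (∀ p, lat p → ∃ k : ℤ, φ p = k) → (∀ p, lat p → ∃ k : ℤ, ψ p = k) →
    (∃ e, φ e = 1 ∧ ψ e = 0) → (∃ e, φ e = 0 ∧ ψ e = 1) → lat u → φ v = φ u + w → ψ v = ψ u + h →
    (∀ i ∈ s, Bl u v (K i)) → (∀ i ∈ s, ∀ j ∈ s, i ≠ j → Disjoint (K i) (K j)) →
    (∀ i ∈ s, ∀ q ∈ K i, (φ u ≤ φ q ∧ φ q ≤ φ v) ∧ ψ u ≤ ψ q ∧ ψ q ≤ ψ v) →
    s.card ≤ 4 * (w + h) + 2 := by
  classical
  induction h using Nat.strong_induction_on with
  | _ h ih =>
  rintro w φ ψ s i1 i2 ⟨e, e1, e2⟩ ⟨e', e1', e2'⟩ hu hw hh hK hd hb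
  rcases Nat.eq_zero_or_pos h with rfl | h0
  · have := card_le_two (φ := ψ) ⟨i2, e', e2'⟩ (t := ψ u) hK hd le_rfl (by simp [hh])
      (fun i hi q hq => by have := (hb i hi q hq).2.2; simpa [hh] using this)
      (fun i hi => by
        obtain ⟨q, hq⟩ := (hK i hi).nd.nonempty
        exact ⟨q, hq, (hb i hi q hq).2.1⟩)
    omega
  set k := w / h with hk
  set r := w % h with hr
  have hwr : (w : ℝ) = h * k + r := by exact_mod_cast (Nat.div_add_mod w h).symm
  have hwr' : w = h * k + r := (Nat.div_add_mod w h).symm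
  set χ : P →L[ℝ] ℝ := φ - (k : ℝ) • ψ with hχ
  have χa : ∀ p, χ p = φ p - k * ψ p := fun p => by simp [hχ]
  have i3 : ∀ p, lat p → ∃ m : ℤ, χ p = m := by
    intro p hp
    obtain ⟨a, ha⟩ := i1 p hp
    obtain ⟨b, hb⟩ := i2 p hp
    exact ⟨a - k * b, by rw [χa, ha, hb]; push_cast; ring⟩
  obtain ⟨c, hc⟩ := i3 u hu
  have hv : χ v = χ u + r := by rw [χa, χa, hw, hh, hwr]; ring
  have r0 : (0 : ℝ) ≤ r := Nat.cast_nonneg _
  have k0 : (0 : ℝ) ≤ k := Nat.cast_nonneg _
  have h1 := count_strip (φ := χ) ⟨i3, e, by simp [χa, e1, e2]⟩ (u := u) (v := v) (c := c + r) (c' := c)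
    (by push_cast; constructor <;> linarith) (by push_cast; constructor <;> linarith)
    (D := h * k) (D' := h * k) hK hd (fun i hi q hq => by
      obtain ⟨⟨b1, b2⟩, b3, b4⟩ := hb i hi q hq
      rw [χa] at hc ⊢
      push_cast
      constructor <;> nlinarith)
  have h2 := ih r (Nat.mod_lt _ h0) h ψ χ
    (s.filter (fun i => ∀ q ∈ K i, (c : ℝ) ≤ χ q ∧ χ q ≤ ((c + r : ℤ) : ℝ))) i2 i3
    ⟨e' + (k : ℝ) • e, by simp [e2, e2'], by simp [χa, e1, e2, e1', e2']⟩ ⟨e, e2, by simp [χa, e1, e2]⟩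
    hu hh hv (fun i hi => hK i (Finset.mem_filter.1 hi).1)
    (fun i hi j hj => hd i (Finset.mem_filter.1 hi).1 j (Finset.mem_filter.1 hj).1)
    (fun i hi q hq => by
      obtain ⟨hi, h3⟩ := Finset.mem_filter.1 hi
      refine ⟨(hb i hi q hq).2, ?_⟩
      have := h3 q hq
      push_cast at this
      constructor <;> linarith)
  omega

end Count

end Pool.Agent.Lib.MP_68dca0_co
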