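import Mathlib

namespace Pool.Agent.Lib.MP_68dca0_co

open Complex
open scoped Real

/-- `z` is the total variation of a continuous logarithm along `γ` -/
def IsVar (γ : unitInterval → ℂ) (z : ℂ) : Prop :=
  ∃ L : unitInterval → ℂ, Continuous L ∧ (∀ a, exp (L a) = γ a) ∧ z = L 1 - L 0

lemma IsVar.unique {γ : unitInterval → ℂ} {z z' : ℂ} (h : IsVar γ z) (h' : IsVar γ z') :
    z = z' := by
  obtain ⟨L, hL, h1, rfl⟩ := h
  obtain ⟨L', hL', h1', rfl⟩ := h'
  have := isCoveringMap_exp.eq_of_comp_eq (g₁ := L) (g₂ := fun a => L' a + (L 0 - L' 0)) hL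
    (hL'.add continuous_const) (by
      ext a
      simp only [Function.comp_apply]
      rw [exp_add, exp_sub, h1, h1', h1, h1', div_self (h1 0 ▸ exp_ne_zero _), mul_one]) 0
    (by simp)
  have := congrFun this 1
  rw [this]; ring

lemma exists_isVar {γ : unitInterval → ℂ} (hγ : Continuous γ) (h0 : ∀ a, γ a ≠ 0) :
    ∃ n : ℤ, IsVar γ (log (γ 1) - log (γ 0) + n * (2 * π * I)) := by
  obtain ⟨L, h1, h2⟩ := isCoveringMap_exp.exists_path_lifts
    (⟨fun a => ⟨γ a, h0 a⟩, hγ.subtype_mk _⟩ : C(unitInterval, {z : ℂ // z ≠ 0})) (log (γ 0))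
    (Subtype.ext (exp_log (h0 0)).symm)
  have h3 : ∀ a, exp (L a) = γ a := fun a => congrArg Subtype.val (congrFun h1 a)
  obtain ⟨n, hn⟩ := exp_eq_exp_iff_exists_int.mp ((h3 1).trans (exp_log (h0 1)).symm)
  exact ⟨n, L, L.continuous, h3, by rw [hn, h2]; ring⟩

lemma exists_lift_sq {F : unitInterval × unitInterval → ℂ} (hF : Continuous F) (h0 : ∀ a, F a ≠ 0) :
    ∃ L : unitInterval × unitInterval → ℂ, Continuous L ∧ ∀ a, exp (L a) = F a := by
  obtain ⟨n, L0, hL0, h1, -⟩ := exists_isVar (γ := fun t => F (0, t)) (by fun_prop) (fun a => h0 _)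
  let H : C(unitInterval × unitInterval, {z : ℂ // z ≠ 0}) := ⟨fun a => ⟨F a, h0 a⟩, hF.subtype_mk _⟩
  have h2 : ∀ a, H (0, a) = (fun z : ℂ => (⟨_, z.exp_ne_zero⟩ : {z : ℂ // z ≠ 0}))
      ((⟨L0, hL0⟩ : C(unitInterval, ℂ)) a) := fun a => Subtype.ext (h1 a).symm
  refine ⟨isCoveringMap_exp.liftHomotopy H ⟨L0, hL0⟩ h2, ContinuousMap.continuous _, fun a => ?_⟩
  exact congrArg Subtype.val (congrFun (isCoveringMap_exp.liftHomotopy_lifts H ⟨L0, hL0⟩ h2) a)

lemma var_square {γ σ : unitInterval → ℂ} (hγ : Continuous γ) (hσ : Continuous σ)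
    (h : ∀ s t, γ s ≠ σ t) {z1 z2 z3 z4 : ℂ} (h1 : IsVar (fun s => γ s - σ 0) z1)
    (h2 : IsVar (fun t => σ t - γ 1) z2) (h3 : IsVar (fun t => σ t - γ 0) z3)
    (h4 : IsVar (fun s => γ s - σ 1) z4) : z1 + z2 = z3 + z4 := by
  obtain ⟨L, hL, e⟩ := exists_lift_sq (F := fun a => γ a.1 - σ a.2) (by fun_prop)
    (fun a => sub_ne_zero.2 (h _ _))
  have e1 := h1.unique ⟨fun s => L (s, 0), by fun_prop, fun s => e _, rfl⟩
  have e4 := h4.unique ⟨fun s => L (s, 1), by fun_prop, fun s => e _, rfl⟩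
  have e2 := h2.unique ⟨fun t => L (1, t) + π * I, by fun_prop, fun t => by
    rw [exp_add, e, exp_pi_mul_I]; ring, rfl⟩
  have e3 := h3.unique ⟨fun t => L (0, t) + π * I, by fun_prop, fun t => by
    rw [exp_add, e, exp_pi_mul_I]; ring, rfl⟩
  rw [e1, e2, e3, e4]; ring

lemma log_swap (p q : ℂ) : ∃ n : ℤ, p ≠ q → log (p - q) = log (q - p) + π * I + n * (2 * π * I) := by
  by_cases h : p = q
  · exact ⟨0, fun h' => absurd h h'⟩
  obtain ⟨n, hn⟩ := exp_eq_exp_iff_exists_int.mp (show exp (log (p - q)) = exp (log (q - p) + π * I) by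
    rw [exp_add, exp_log (sub_ne_zero.2 h), exp_log (sub_ne_zero.2 (Ne.symm h)), exp_pi_mul_I]; ring)
  exact ⟨n, fun _ => hn⟩

lemma k33_complex (a b : Fin 3 → ℂ) (γ : Fin 3 → Fin 3 → unitInterval → ℂ)
    (hc : ∀ i j, Continuous (γ i j)) (h0 : ∀ i j, γ i j 0 = a i) (h1 : ∀ i j, γ i j 1 = b j)
    (hd : ∀ i j k l, i ≠ k → j ≠ l → ∀ s t, γ i j s ≠ γ k l t) : False := by
  choose n hn using log_swap
  have hN : ∀ i j (w : ℂ), ∃ m : ℤ, (∀ s, γ i j s ≠ w) →
      IsVar (fun s => γ i j s - w) (log (b j - w) - log (a i - w) + m * (2 * π * I)) := by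
    intro i j w
    by_cases h : ∀ s, γ i j s ≠ w
    · obtain ⟨m, hm⟩ := exists_isVar (γ := fun s => γ i j s - w) (by have := hc i j; fun_prop)
        (fun s => sub_ne_zero.2 (h s))
      rw [h0, h1] at hm
      exact ⟨m, fun _ => hm⟩
    · exact ⟨0, fun h' => absurd h' h⟩
  choose N hN using hN
  have anti : ∀ p q : ℂ, p ≠ q → n p q + n q p + 1 = 0 := by
    intro p q h
    have e1 := hn p q h
    have e2 := hn q p h.symm
    have e3 : ((n p q + n q p + 1 : ℤ) : ℂ) * (2 * π * I) = 0 := by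
      push_cast; linear_combination -e1 - e2
    exact_mod_cast (mul_eq_zero.1 e3).resolve_right two_pi_I_ne_zero
  have rel : ∀ i j k l, i ≠ k → j ≠ l → n (b j) (a k) - n (a i) (a k) + n (b l) (b j) - n (b l) (a i)
      + N i j (a k) + N k l (b j) - N k l (a i) - N i j (b l) = 0 := by
    intro i j k l hik hjl
    have d := hd i j k l hik hjl
    have v := var_square (hc i j) (hc k l) d
      (by rw [h0]; exact hN i j (a k) (fun s => h0 k l ▸ d s 0))
      (by rw [h1]; exact hN k l (b j) (fun s => h1 i j ▸ (d 1 s).symm))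
      (by rw [h0]; exact hN k l (a i) (fun s => h0 i j ▸ (d 0 s).symm))
      (by rw [h1]; exact hN i j (b l) (fun s => h1 k l ▸ d s 1))
    have e1 := hn (b j) (a k) (by rw [← h1 i j, ← h0 k l]; exact d _ _)
    have e2 := hn (a i) (a k) (by rw [← h0 i j, ← h0 k l]; exact d _ _)
    have e3 := hn (b l) (b j) (by rw [← h1 i j, ← h1 k l]; exact (d _ _).symm)
    have e4 := hn (b l) (a i) (by rw [← h0 i j, ← h1 k l]; exact (d _ _).symm)
    have e5 : ((n (b j) (a k) - n (a i) (a k) + n (b l) (b j) - n (b l) (a i)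
      + N i j (a k) + N k l (b j) - N k l (a i) - N i j (b l) : ℤ) : ℂ) * (2 * π * I) = 0 := by
      push_cast; linear_combination v - e1 + e2 - e3 + e4
    exact_mod_cast (mul_eq_zero.1 e5).resolve_right two_pi_I_ne_zero
  have hb : ∀ j l, j ≠ l → b j ≠ b l := fun j l h => by
    rw [← h1 0 j, ← h1 1 l]; exact hd 0 j 1 l (by decide) h _ _
  have b1 := anti _ _ (hb 0 1 (by decide))
  have b2 := anti _ _ (hb 0 2 (by decide))
  have b3 := anti _ _ (hb 1 2 (by decide))
  have r1 := rel 0 0 1 1 (by decide) (by decide)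
  have r2 := rel 0 0 1 2 (by decide) (by decide)
  have r3 := rel 0 1 1 0 (by decide) (by decide)
  have r4 := rel 0 1 1 2 (by decide) (by decide)
  have r5 := rel 0 2 1 0 (by decide) (by decide)
  have r6 := rel 0 2 1 1 (by decide) (by decide)
  have r7 := rel 0 0 2 1 (by decide) (by decide)
  have r8 := rel 0 0 2 2 (by decide) (by decide)
  have r9 := rel 0 1 2 0 (by decide) (by decide)
  have r10 := rel 0 1 2 2 (by decide) (by decide)
  have r11 := rel 0 2 2 0 (by decide) (by decide)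
  have r12 := rel 0 2 2 1 (by decide) (by decide)
  have r13 := rel 1 0 2 1 (by decide) (by decide)
  have r14 := rel 1 0 2 2 (by decide) (by decide)
  have r15 := rel 1 1 2 0 (by decide) (by decide)
  have r16 := rel 1 1 2 2 (by decide) (by decide)
  have r17 := rel 1 2 2 0 (by decide) (by decide)
  have r18 := rel 1 2 2 1 (by decide) (by decide)
  omega

/-- weak non-planarity of `K_{3,3}`: two independent edges must meet -/
theorem k33 (a b : Fin 3 → ℝ × ℝ) (S : Fin 3 → Fin 3 → Set (ℝ × ℝ))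
    (hJ : ∀ i j, JoinedIn (S i j) (a i) (b j))
    (hD : ∀ i j k l, i ≠ k → j ≠ l → Disjoint (S i j) (S k l)) : False := by
  choose γ hγ using hJ
  refine k33_complex (fun i => equivRealProdCLM.symm (a i)) (fun j => equivRealProdCLM.symm (b j))
    (fun i j s => equivRealProdCLM.symm (γ i j s)) (fun i j => by fun_prop) (fun i j => by simp)
    (fun i j => by simp) fun i j k l hik hjl s t h => ?_
  have h1 := equivRealProdCLM.symm.injective h
  exact Set.disjoint_left.1 (hD i j k l hik hjl) (hγ i j s) (h1 ▸ hγ k l t)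

end Pool.Agent.Lib.MP_68dca0_co
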