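import Pool.Agent.Lib.MP_68dca0_co.Defs

namespace Pool.Agent.Lib.MP_68dca0_co

open Set Relation

variable {V : Type*} {G : SimpleGraph V}

lemma rtg_lift {α β : Type*} {r : α → α → Prop} {p : β → β → Prop} (f : α → β) {a b : α}
    (hab : ReflTransGen r a b) (h : ∀ a b, r a b → ReflTransGen p (f a) (f b)) :
    ReflTransGen p (f a) (f b) := by
  induction hab with
  | refl => exact ReflTransGen.refl
  | tail _ h1 ih => exact ih.trans (h _ _ h1)

lemma rtg_symm {α : Type*} {r : α → α → Prop} {a b : α} (hab : ReflTransGen r a b)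
    (h : ∀ a b, r a b → r b a) : ReflTransGen r b a := by
  induction hab with
  | refl => exact ReflTransGen.refl
  | tail _ h1 ih => exact ih.head (h _ _ h1)

/-- a `K_4` model inside the vertex set `S` -/
def Model (G : SimpleGraph V) (S : Set V) : Prop :=
  ∃ B : Fin 4 → Set V, (∀ i, B i ⊆ S) ∧ (∀ i, (B i).Nonempty) ∧
    (∀ i, ∀ x ∈ B i, ∀ y ∈ B i, ReflTransGen (fun a b => a ∈ B i ∧ b ∈ B i ∧ G.Adj a b) x y) ∧
    ∀ i j, i ≠ j → Disjoint (B i) (B j) ∧ ∃ x ∈ B i, ∃ y ∈ B j, G.Adj x y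

lemma hasK4Minor_iff : HasK4Minor G ↔ Model G univ := by
  constructor
  · rintro ⟨B, h1, h2⟩
    refine ⟨B, fun _ => subset_univ _, fun i => ?_, fun i x hx y hy => ?_, h2⟩
    · obtain ⟨x⟩ := (h1 i).nonempty
      exact ⟨x, x.2⟩
    · have := (SimpleGraph.reachable_iff_reflTransGen _ _).1 ((h1 i).preconnected ⟨x, hx⟩ ⟨y, hy⟩)
      exact rtg_lift Subtype.val this (fun a b h => ReflTransGen.single ⟨a.2, b.2, h⟩)
  · rintro ⟨B, -, h1, h2, h3⟩
    refine ⟨B, fun i => ?_, h3⟩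
    have := (h1 i).to_subtype
    refine ⟨fun x y => ?_⟩
    obtain ⟨x, hx⟩ := x
    obtain ⟨y, hy⟩ := y
    have h := h2 i x hx y hy
    induction h with
    | refl => rfl
    | tail _ h4 ih => exact (ih h4.1).trans (SimpleGraph.Adj.reachable h4.2.2)

lemma Model.mono {S T : Set V} (h : Model G S) (hST : S ⊆ T) : Model G T := by
  obtain ⟨B, h1, h2⟩ := h
  exact ⟨B, fun i => (h1 i).trans hST, h2⟩

lemma not_model_pair (u v : V) : ¬ Model G {u, v} := by
  rintro ⟨B, h1, h2, -, h3⟩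
  choose x hx using h2
  have h4 : ∀ i j, i ≠ j → x i ≠ x j := fun i j h e =>
    Set.disjoint_left.1 (h3 i j h).1 (hx i) (e ▸ hx j)
  have e0 := h1 0 (hx 0)
  have e1 := h1 1 (hx 1)
  have e2 := h1 2 (hx 2)
  have n1 := h4 0 1 (by decide)
  have n2 := h4 0 2 (by decide)
  have n3 := h4 1 2 (by decide)
  simp only [mem_insert_iff, mem_singleton_iff] at e0 e1 e2
  grind

lemma Model.elim {S : Set V} (h : Model G S) {w a b : V} (hab : G.Adj a b)
    (hw : ∀ x ∈ S, G.Adj w x → x = a ∨ x = b) : Model G (S \ {w}) := by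
  classical
  obtain ⟨B, h1, h2, h3, h4⟩ := h
  by_cases h5 : ∀ i, w ∉ B i
  · exact ⟨B, fun i x hx => ⟨h1 i hx, fun e => h5 i (e ▸ hx)⟩, h2, h3, h4⟩
  push Not at h5
  obtain ⟨i0, hi0⟩ := h5
  have only : ∀ i, w ∈ B i → i = i0 := fun i hi => by
    by_contra h; exact Set.disjoint_left.1 (h4 i i0 h).1 hi hi0
  obtain ⟨c, hc, hwc⟩ : ∃ c ∈ B i0, G.Adj w c := by
    by_contra h6
    push Not at h6
    have h7 : ∀ x ∈ B i0, x = w := fun x hx => by
      rcases (h3 i0 w hi0 x hx).cases_head with h | ⟨y, h, -⟩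
      · exact h.symm
      · exact absurd h.2.2 (h6 y h.2.1)
    have h8 : ∀ j, j ≠ i0 → a ∈ B j ∨ b ∈ B j := by
      intro j hj
      obtain ⟨x, hx, y, hy, h9⟩ := (h4 i0 j hj.symm).2
      rw [h7 x hx] at h9
      rcases hw y (h1 j hy) h9 with rfl | rfl
      · exact Or.inl hy
      · exact Or.inr hy
    have h9 : ∀ x i j, x ∈ B i → x ∈ B j → i = j := fun x i j hi hj => by
      by_contra h; exact Set.disjoint_left.1 (h4 i j h).1 hi hj
    have n : ∀ i : Fin 4, i + 1 ≠ i ∧ i + 2 ≠ i ∧ i + 3 ≠ i ∧ i + 1 ≠ i + 2 ∧ i + 1 ≠ i + 3 ∧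
      i + 2 ≠ i + 3 := by decide
    obtain ⟨m1, m2, m3, n1, n2, n3⟩ := n i0
    have e1 := h8 _ m1
    have e2 := h8 _ m2
    have e3 := h8 _ m3
    rcases e1 with e1 | e1 <;> rcases e2 with e2 | e2 <;> rcases e3 with e3 | e3 <;>
      first
        | exact n1 (h9 _ _ _ e1 e2)
        | exact n2 (h9 _ _ _ e1 e3)
        | exact n3 (h9 _ _ _ e2 e3)
  have key : ∀ y ∈ S, G.Adj w y → y = c ∨ G.Adj c y := by
    intro y hy h6
    rcases hw c (h1 _ hc) hwc with rfl | rfl <;> rcases hw y hy h6 with rfl | rfl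
    · exact Or.inl rfl
    · exact Or.inr hab
    · exact Or.inr hab.symm
    · exact Or.inl rfl
  have hcw : c ≠ w := hwc.ne.symm
  refine ⟨fun i => B i \ {w}, fun i => sdiff_subset_sdiff_left (h1 i), fun i => ?_,
    fun i x hx y hy => ?_, fun i j hij => ⟨(h4 i j hij).1.mono sdiff_subset sdiff_subset, ?_⟩⟩
  · obtain ⟨x, hx⟩ := h2 i
    by_cases h : x = w
    · exact ⟨c, only i (h ▸ hx) ▸ hc, hcw⟩
    · exact ⟨x, hx, h⟩
  · have := rtg_lift (p := fun a b => a ∈ B i \ {w} ∧ b ∈ B i \ {w} ∧ G.Adj a b)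
      (fun x => if x = w then c else x) (h3 i x hx.1 y hy.1) (fun p q ⟨hp, hq, hpq⟩ => by
        by_cases e1 : p = w
        · subst e1
          have e2 := only i hp
          subst e2
          rw [if_pos rfl, if_neg hpq.ne.symm]
          rcases key q (h1 _ hq) hpq with rfl | h
          · exact ReflTransGen.refl
          · exact ReflTransGen.single ⟨⟨hc, hcw⟩, ⟨hq, hpq.ne.symm⟩, h⟩
        · by_cases e2 : q = w
          · subst e2
            have e3 := only i hq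
            subst e3
            rw [if_pos rfl, if_neg e1]
            rcases key p (h1 _ hp) hpq.symm with rfl | h
            · exact ReflTransGen.refl
            · exact ReflTransGen.single ⟨⟨hp, e1⟩, ⟨hc, hcw⟩, h.symm⟩
          · rw [if_neg e1, if_neg e2]
            exact ReflTransGen.single ⟨⟨hp, e1⟩, ⟨hq, e2⟩, hpq⟩)
    rwa [if_neg (show ¬ x = w from hx.2), if_neg (show ¬ y = w from hy.2)] at this
  · obtain ⟨hd, x, hx, y, hy, hxy⟩ := h4 i j hij
    by_cases e1 : x = w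
    · subst e1
      have e2 := only i hx
      subst e2
      rcases key y (h1 _ hy) hxy with rfl | h
      · exact absurd hy (Set.disjoint_left.1 hd hc)
      · exact ⟨c, ⟨hc, hcw⟩, y, ⟨hy, hxy.ne.symm⟩, h⟩
    · by_cases e2 : y = w
      · subst e2
        have e3 := only j hy
        subst e3
        rcases key x (h1 _ hx) hxy.symm with rfl | h
        · exact absurd hc (Set.disjoint_left.1 hd hx)
        · exact ⟨x, ⟨hx, e1⟩, c, ⟨hc, hcw⟩, h.symm⟩
      · exact ⟨x, ⟨hx, e1⟩, y, ⟨hy, e2⟩, hxy⟩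

lemma Model.contract {S : Set V} {w a b : V} (h : Model (G ⊔ SimpleGraph.edge a b) (S \ {w}))
    (hw : w ∈ S) (ha : G.Adj w a) (hb : G.Adj w b) : Model G S := by
  classical
  obtain ⟨B, h1, h2, h3, h4⟩ := h
  have nw : ∀ i, w ∉ B i := fun i hi => (h1 i hi).2 rfl
  have adj : ∀ x y, (G ⊔ SimpleGraph.edge a b).Adj x y → G.Adj x y ∨ (x = a ∧ y = b) ∨ (x = b ∧ y = a) := by
    intro x y h
    rcases h with h | h
    · exact Or.inl h
    · exact Or.inr ((SimpleGraph.edge_adj _ _ _ _).1 h).1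
  refine ⟨fun i => B i ∪ {x | x = w ∧ a ∈ B i}, fun i => ?_, fun i => (h2 i).inl, fun i => ?_,
    fun i j hij => ⟨?_, ?_⟩⟩
  · rintro x (hx | ⟨rfl, -⟩)
    · exact (h1 i hx).1
    · exact hw
  · have k1 : ∀ x ∈ B i, ∀ y ∈ B i, ReflTransGen (fun p q => p ∈ B i ∪ {x | x = w ∧ a ∈ B i} ∧
        q ∈ B i ∪ {x | x = w ∧ a ∈ B i} ∧ G.Adj p q) x y := fun x hx y hy =>
      rtg_lift id (h3 i x hx y hy) (fun p q ⟨hp, hq, hpq⟩ => by
        rcases adj p q hpq with h | ⟨rfl, rfl⟩ | ⟨rfl, rfl⟩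
        · exact ReflTransGen.single ⟨Or.inl hp, Or.inl hq, h⟩
        · exact (ReflTransGen.single ⟨Or.inl hp, Or.inr ⟨rfl, hp⟩, ha.symm⟩).tail
            ⟨Or.inr ⟨rfl, hp⟩, Or.inl hq, hb⟩
        · exact (ReflTransGen.single ⟨Or.inl hp, Or.inr ⟨rfl, hq⟩, hb.symm⟩).tail
            ⟨Or.inr ⟨rfl, hq⟩, Or.inl hq, ha⟩)
    rintro x (hx | ⟨rfl, hx⟩) y (hy | ⟨rfl, hy⟩)
    · exact k1 x hx y hy
    · exact (k1 x hx a hy).tail ⟨Or.inl hy, Or.inr ⟨rfl, hy⟩, ha.symm⟩
    · exact (k1 a hx y hy).head ⟨Or.inr ⟨rfl, hx⟩, Or.inl hx, ha⟩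
    · exact ReflTransGen.refl
  · rw [Set.disjoint_left]
    rintro x (hx | ⟨rfl, hx⟩) (hy | ⟨e, hy⟩)
    · exact Set.disjoint_left.1 (h4 i j hij).1 hx hy
    · exact nw i (e ▸ hx)
    · exact nw j hy
    · exact Set.disjoint_left.1 (h4 i j hij).1 hx hy
  · obtain ⟨-, x, hx, y, hy, hxy⟩ := h4 i j hij
    rcases adj x y hxy with h | ⟨rfl, rfl⟩ | ⟨rfl, rfl⟩
    · exact ⟨x, Or.inl hx, y, Or.inl hy, h⟩
    · exact ⟨w, Or.inr ⟨rfl, hx⟩, y, Or.inl hy, hb⟩
    · exact ⟨x, Or.inl hx, w, Or.inr ⟨rfl, hy⟩, hb.symm⟩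

/-- paths of length `k` inside `S` -/
structure IsPath (G : SimpleGraph V) (S : Set V) (f : ℕ → V) (k : ℕ) : Prop where
  inj : ∀ s ≤ k, ∀ t ≤ k, f s = f t → s = t
  mem : ∀ t ≤ k, f t ∈ S
  adj : ∀ t < k, G.Adj (f t) (f (t + 1))

lemma IsPath.conn {S : Set V} {f : ℕ → V} {k : ℕ} (h : IsPath G S f k) {p q : ℕ} (hq : q ≤ k) :
    ∀ x ∈ f '' Icc p q, ∀ y ∈ f '' Icc p q,
      ReflTransGen (fun a b => a ∈ f '' Icc p q ∧ b ∈ f '' Icc p q ∧ G.Adj a b) x y := by
  have key : ∀ t, p ≤ t → t ≤ q →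
      ReflTransGen (fun a b => a ∈ f '' Icc p q ∧ b ∈ f '' Icc p q ∧ G.Adj a b) (f p) (f t) := by
    intro t h1
    induction t, h1 using Nat.le_induction with
    | base => exact fun _ => ReflTransGen.refl
    | succ t h1 ih =>
      intro h2
      exact (ih (by omega)).tail ⟨⟨t, ⟨h1, by omega⟩, rfl⟩, ⟨t + 1, ⟨by omega, h2⟩, rfl⟩,
        h.adj t (by omega)⟩
  rintro _ ⟨s, hs, rfl⟩ _ ⟨t, ht, rfl⟩
  exact (rtg_symm (key s hs.1 hs.2) (fun a b h => ⟨h.2.1, h.1, h.2.2.symm⟩)).trans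
    (key t ht.1 ht.2)

/-- Dirac: minimum degree three forces a `K_4` minor -/
lemma dirac {S : Finset V} (hS : S.Nonempty)
    (h : ∀ w ∈ S, ∀ a b, ∃ x ∈ S, G.Adj w x ∧ x ≠ a ∧ x ≠ b) : Model G S := by
  classical
  obtain ⟨v0, hv0⟩ := hS
  have bd : ∀ k, (∃ f, IsPath G S f k) → k ≤ S.card := by
    rintro k ⟨f, hf⟩
    have := Finset.card_le_card_of_injOn (s := Finset.range (k + 1)) (t := S) f
      (fun t ht => hf.mem t (by simpa [Nat.lt_succ_iff] using ht))
      (fun s hs t ht => hf.inj s (by simpa [Nat.lt_succ_iff] using hs) t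
        (by simpa [Nat.lt_succ_iff] using ht))
    rw [Finset.card_range] at this
    omega
  have h0 : ∃ f, IsPath G S f 0 := ⟨fun _ => v0, by omega, fun _ _ => hv0, by omega⟩
  set k := Nat.findGreatest (fun k => ∃ f, IsPath G S f k) S.card with hk
  have hk1 : ∃ f, IsPath G S f k := Nat.findGreatest_spec (P := fun k => ∃ f, IsPath G S f k)
    (Nat.zero_le _) h0
  have long : ∀ f, IsPath G S f k → ∀ x ∈ S, G.Adj (f 0) x → ∃ j ≤ k, j ≠ 0 ∧ f j = x := by
    intro f hf x hx hadj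
    by_contra h1
    push Not at h1
    have h2 : ∀ j ≤ k, f j ≠ x := fun j hj => by
      rcases eq_or_ne j 0 with rfl | h
      · exact hadj.ne
      · exact h1 j hj h
    have h3 : ∃ g, IsPath G S g (k + 1) := by
      refine ⟨fun t => Nat.casesOn t x f, fun s hs t ht e => ?_, fun t ht => ?_, fun t ht => ?_⟩
      · cases s <;> cases t
        · rfl
        · exact absurd e.symm (h2 _ (by omega))
        · exact absurd e (h2 _ (by omega))
        · exact congrArg _ (hf.inj _ (by omega) _ (by omega) e)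
      · cases t
        · exact hx
        · exact hf.mem _ (by omega)
      · cases t
        · exact hadj.symm
        · exact hf.adj _ (by omega)
    have := Nat.le_findGreatest (P := fun k => ∃ f, IsPath G S f k) (bd _ h3) h3
    omega
  have ex : ∃ i, ∃ f j, IsPath G S f k ∧ 1 < i ∧ i < j ∧ j ≤ k ∧ G.Adj (f 0) (f i) ∧
      G.Adj (f 0) (f j) := by
    obtain ⟨f, hf⟩ := hk1
    obtain ⟨x, hx, a1, a2, -⟩ := h _ (hf.mem 0 (Nat.zero_le _)) (f 1) (f 1)
    obtain ⟨y, hy, b1, b2, b3⟩ := h _ (hf.mem 0 (Nat.zero_le _)) (f 1) x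
    obtain ⟨i, i1, i2, rfl⟩ := long f hf x hx a1
    obtain ⟨j, j1, j2, rfl⟩ := long f hf y hy b1
    have n1 : i ≠ 1 := fun e => a2 (e ▸ rfl)
    have n2 : j ≠ 1 := fun e => b2 (e ▸ rfl)
    have n3 : j ≠ i := fun e => b3 (e ▸ rfl)
    rcases lt_or_gt_of_ne n3 with h1 | h1
    · exact ⟨j, f, i, hf, by omega, h1, i1, b1, a1⟩
    · exact ⟨i, f, j, hf, by omega, h1, j1, a1, b1⟩
  obtain ⟨f, j, hf, i1, i2, i3, a1, a2⟩ := Nat.find_spec ex
  have hmin := fun m => Nat.find_min ex (m := m)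
  set i := Nat.find ex
  let g : ℕ → V := fun t => if t < i then f (i - 1 - t) else f t
  have hg : IsPath G S g k := by
    refine ⟨fun s hs t ht e => ?_, fun t ht => ?_, fun t ht => ?_⟩
    · simp only [g] at e
      split_ifs at e <;> have := hf.inj _ (by omega) _ (by omega) e <;> omega
    · simp only [g]
      split_ifs <;> exact hf.mem _ (by omega)
    · simp only [g]
      split_ifs with e1 e2 e2
      · have := (hf.adj (i - 1 - (t + 1)) (by omega)).symm
        rwa [show i - 1 - (t + 1) + 1 = i - 1 - t by omega] at this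
      · rwa [show i - 1 - t = 0 by omega, show t + 1 = i by omega]
      · omega
      · exact hf.adj t ht
  have g0 : g 0 = f (i - 1) := by simp [g, show 0 < i by omega]
  have gi : ∀ t, i ≤ t → g t = f t := fun t ht => by simp [g, show ¬ t < i by omega]
  have a3 : G.Adj (f (i - 1)) (f i) := by
    have := hf.adj (i - 1) (by omega)
    rwa [show i - 1 + 1 = i by omega] at this
  obtain ⟨x, hx, b1, b2, b3⟩ := h _ (hg.mem 0 (Nat.zero_le _)) (g 1) (g i)
  obtain ⟨l, l1, l2, rfl⟩ := long g hg x hx b1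
  have n1 : l ≠ 1 := fun e => b2 (e ▸ rfl)
  have n2 : l ≠ i := fun e => b3 (e ▸ rfl)
  rcases lt_or_gt_of_ne n2 with h1 | h1
  · exact absurd ⟨g, i, hg, by omega, h1, by omega, b1, by rw [g0, gi i le_rfl]; exact a3⟩ (hmin l h1)
  rw [g0, gi l h1.le] at b1
  set m := min l j with hm
  let lo : Fin 4 → ℕ := ![0, i - 1, i, m]
  let hi : Fin 4 → ℕ := ![i - 2, i - 1, m - 1, k]
  have hik : ∀ a, hi a ≤ k := by intro a; fin_cases a <;> simp [hi] <;> omega
  have a4 : G.Adj (f (i - 2)) (f (i - 1)) := by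
    have := hf.adj (i - 2) (by omega)
    rwa [show i - 2 + 1 = i - 1 by omega] at this
  have a5 : G.Adj (f (m - 1)) (f m) := by
    have := hf.adj (m - 1) (by omega)
    rwa [show m - 1 + 1 = m by omega] at this
  have main : ∀ a b : Fin 4, a < b → hi a < lo b ∧
      ∃ s ∈ Icc (lo a) (hi a), ∃ t ∈ Icc (lo b) (hi b), G.Adj (f s) (f t) := by
    intro a b hab
    fin_cases a <;> fin_cases b <;> simp only [lo, hi, mem_Icc] <;> simp at hab ⊢
    · exact ⟨by omega, i - 2, le_rfl, i - 1, by omega, a4⟩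
    · exact ⟨by omega, 0, by omega, i, by omega, a1⟩
    · exact ⟨by omega, 0, by omega, j, by omega, a2⟩
    · exact ⟨by omega, i - 1, by omega, i, by omega, a3⟩
    · exact ⟨by omega, i - 1, by omega, l, by omega, b1⟩
    · exact ⟨by omega, m - 1, by omega, m, by omega, a5⟩
  have main2 : ∀ a b : Fin 4, a < b → Disjoint (f '' Icc (lo a) (hi a)) (f '' Icc (lo b) (hi b)) ∧
      ∃ x ∈ f '' Icc (lo a) (hi a), ∃ y ∈ f '' Icc (lo b) (hi b), G.Adj x y := by
    intro a b hab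
    obtain ⟨e1, s, hs, t, ht, e2⟩ := main a b hab
    refine ⟨?_, _, ⟨s, hs, rfl⟩, _, ⟨t, ht, rfl⟩, e2⟩
    rw [Set.disjoint_left]
    rintro _ ⟨p, hp, rfl⟩ ⟨q, hq, e⟩
    have := hf.inj q (hq.2.trans (hik _)) p (hp.2.trans (hik _)) e
    have := hp.2
    have := hq.1
    omega
  refine ⟨fun a => f '' Icc (lo a) (hi a), ?_, fun a => Nonempty.image _ (nonempty_Icc.2 ?_),
    fun a => hf.conn (hik a), fun a b hab => ?_⟩
  · rintro a _ ⟨t, ht, rfl⟩
    exact hf.mem t (ht.2.trans (hik a))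
  · fin_cases a <;> simp [lo, hi] <;> omega
  · rcases lt_or_gt_of_ne hab with h2 | h2
    · exact main2 a b h2
    · obtain ⟨e1, x, hx, y, hy, e2⟩ := main2 b a h2
      exact ⟨e1.symm, y, hy, x, hx, e2.symm⟩

end Pool.Agent.Lib.MP_68dca0_co
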