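import Mathlib

namespace Pool.Agent.Lib.MP_68dca0_co

/-- clamp -/
noncomputable def cl (T t : ℝ) : ℝ := max (-T) (min t T)

/-- odd part of the credit function -/
noncomputable def h0 (t : ℝ) : ℝ :=
  2 / 5 * t + 1 / 10 * cl 9 t + 1 / 2 * cl (5 / 2) t + 2 * cl (2 / 5) t

noncomputable def hh (t : ℝ) : ℝ := h0 t + if 0 < t then 1 else 0

lemma cl_mono (T : ℝ) : Monotone (cl T) := fun _ _ h =>
  max_le_max le_rfl (min_le_min h le_rfl)

lemma cl_neg {T : ℝ} (hT : 0 ≤ T) (t : ℝ) : cl T (-t) = -cl T t := by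
  simp only [cl, max_def, min_def]; split_ifs <;> linarith

lemma cl_nonneg {T t : ℝ} (hT : 0 ≤ T) (ht : 0 ≤ t) : cl T t = min t T := by
  simp only [cl, max_def, min_def]; split_ifs <;> linarith

lemma cl_abs {T : ℝ} (hT : 0 ≤ T) (t : ℝ) : -T ≤ cl T t ∧ cl T t ≤ T := by
  simp only [cl, max_def, min_def]; split_ifs <;> constructor <;> linarith

lemma h0_mono : Monotone h0 := fun a b h => by
  have := cl_mono 9 h
  have := cl_mono (5 / 2) h
  have := cl_mono (2 / 5) h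
  simp only [h0]; linarith

lemma h0_neg (t : ℝ) : h0 (-t) = -h0 t := by
  simp only [h0, cl_neg (show (0 : ℝ) ≤ 9 by norm_num), cl_neg (show (0 : ℝ) ≤ 5 / 2 by norm_num),
    cl_neg (show (0 : ℝ) ≤ 2 / 5 by norm_num)]
  ring

lemma hh_mono : Monotone hh := fun a b h => by
  have := h0_mono h
  simp only [hh]; split_ifs <;> linarith

lemma hh_total (a b : ℝ) : hh b - hh a ≤ 2 / 5 * (b - a) + 69 / 10 := by
  have := cl_abs (show (0 : ℝ) ≤ 9 by norm_num) a
  have := cl_abs (show (0 : ℝ) ≤ 9 by norm_num) b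
  have := cl_abs (show (0 : ℝ) ≤ 5 / 2 by norm_num) a
  have := cl_abs (show (0 : ℝ) ≤ 5 / 2 by norm_num) b
  have := cl_abs (show (0 : ℝ) ≤ 2 / 5 by norm_num) a
  have := cl_abs (show (0 : ℝ) ≤ 2 / 5 by norm_num) b
  simp only [hh, h0]; split_ifs <;> linarith

lemma core_lin {α B p : ℝ} (h0' : 0 ≤ α) (h1 : α ≤ B) (p3 : p ≤ 3 * (B - α))
    (p1 : p ≤ B - α ∨ α ≤ 1 / 8 * B) (p2 : p ≤ 1 / 2 * (B - α) ∨ α ≤ 2197 / 4096 * B)
    (p4 : p ≤ 2 / 5 * (B - α) ∨ α ≤ 1331 / 1728 * B) : min 1 p ≤ h0 B - h0 α := by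
  have hB : 0 ≤ B := h0'.trans h1
  simp only [h0, cl_nonneg (show (0 : ℝ) ≤ 9 by norm_num) hB,
    cl_nonneg (show (0 : ℝ) ≤ 5 / 2 by norm_num) hB, cl_nonneg (show (0 : ℝ) ≤ 2 / 5 by norm_num) hB,
    cl_nonneg (show (0 : ℝ) ≤ 9 by norm_num) h0',
    cl_nonneg (show (0 : ℝ) ≤ 5 / 2 by norm_num) h0', cl_nonneg (show (0 : ℝ) ≤ 2 / 5 by norm_num) h0']
  have m1 := min_le_left 1 p
  have m2 := min_le_right 1 p
  generalize min 1 p = q at *
  simp only [min_def]
  rcases p1 with p1 | p1 <;> rcases p2 with p2 | p2 <;> rcases p4 with p4 | p4 <;>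
    split_ifs <;> linarith

lemma core {a x y : ℝ} (ha : 0 < a) (hx : 0 ≤ x) (h : x ≤ y) :
    min 1 (a * (y - x) * (3 * y ^ 2 - 3 * x * y + x ^ 2)) ≤ h0 (a * y ^ 3) - h0 (a * x ^ 3) := by
  have hy : 0 ≤ y := hx.trans h
  have e : a * y ^ 3 - a * x ^ 3 = a * (y - x) * (x ^ 2 + x * y + y ^ 2) := by ring
  have hd : 0 ≤ a * (y - x) := mul_nonneg ha.le (by linarith)
  have key : ∀ k : ℝ, 3 * y ^ 2 - 3 * x * y + x ^ 2 ≤ k * (x ^ 2 + x * y + y ^ 2) →
      a * (y - x) * (3 * y ^ 2 - 3 * x * y + x ^ 2) ≤ k * (a * y ^ 3 - a * x ^ 3) := by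
    intro k hk
    rw [e]; nlinarith [mul_le_mul_of_nonneg_left hk hd]
  have key2 : ∀ q : ℝ, x ≤ q * y → a * x ^ 3 ≤ q ^ 3 * (a * y ^ 3) := by
    intro q hq
    have := pow_le_pow_left₀ hx hq 3
    nlinarith [mul_le_mul_of_nonneg_left this ha.le]
  refine core_lin (by positivity) (by gcongr) (key 3 (by nlinarith [mul_nonneg hx hy])) ?_ ?_ ?_
  · rcases le_total x (1 / 2 * y) with g | g
    · exact Or.inr (by have := key2 _ g; norm_num at this ⊢; linarith)
    · exact Or.inl (by have := key 1 (by nlinarith); linarith)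
  · rcases le_total x (13 / 16 * y) with g | g
    · exact Or.inr (by have := key2 _ g; norm_num at this ⊢; linarith)
    · exact Or.inl (key _ (by nlinarith [mul_nonneg (sub_nonneg.2 g) (sub_nonneg.2 h), mul_nonneg (sub_nonneg.2 g) hy]))
  · rcases le_total x (11 / 12 * y) with g | g
    · exact Or.inr (by have := key2 _ g; norm_num at this ⊢; linarith)
    · exact Or.inl (key _ (by nlinarith [mul_nonneg (sub_nonneg.2 g) (sub_nonneg.2 h), mul_nonneg (sub_nonneg.2 g) hy]))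

lemma credit {a x y : ℝ} (ha : 0 < a) (h : x ≤ y) :
    min 1 (a * (y - x) * (3 * y ^ 2 - 3 * x * y + x ^ 2)) ≤ hh (a * y ^ 3) - hh (a * x ^ 3) ∧
    min 1 (a * (y - x) * (3 * x ^ 2 - 3 * x * y + y ^ 2)) ≤ hh (a * y ^ 3) - hh (a * x ^ 3) := by
  have hd : 0 ≤ a * (y - x) := mul_nonneg ha.le (by linarith)
  have pos : ∀ z : ℝ, 0 < a * z ^ 3 ↔ 0 < z := fun z => by
    rw [mul_pos_iff_of_pos_left ha]; exact Odd.pow_pos_iff (by decide)
  by_cases hx : 0 < x
  · have hy : 0 < y := hx.trans_le h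
    have := core ha hx.le h
    simp only [hh, pos, hx, hy, if_true]
    refine ⟨by linarith, le_trans (min_le_min le_rfl ?_) (by linarith)⟩
    exact mul_le_mul_of_nonneg_left (by nlinarith) hd
  by_cases hy : 0 < y
  · have : h0 (a * x ^ 3) ≤ h0 (a * y ^ 3) := h0_mono (mul_le_mul_of_nonneg_left
      ((Odd.strictMono_pow (by decide : Odd 3)).monotone h) ha.le)
    simp only [hh, pos, hx, hy, if_true, if_false]
    exact ⟨by linarith [min_le_left 1 (a * (y - x) * (3 * y ^ 2 - 3 * x * y + x ^ 2))],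
      by linarith [min_le_left 1 (a * (y - x) * (3 * x ^ 2 - 3 * x * y + y ^ 2))]⟩
  · have := core (x := -y) (y := -x) ha (by linarith) (by linarith)
    rw [show a * (-x) ^ 3 = -(a * x ^ 3) by ring, show a * (-y) ^ 3 = -(a * y ^ 3) by ring, h0_neg,
      h0_neg, show a * (-x - -y) * (3 * (-x) ^ 2 - 3 * -y * -x + (-y) ^ 2) =
        a * (y - x) * (3 * x ^ 2 - 3 * x * y + y ^ 2) by ring] at this
    simp only [hh, pos, hx, hy, if_false]
    refine ⟨le_trans (min_le_min le_rfl ?_) (by linarith), by linarith⟩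
    exact mul_le_mul_of_nonneg_left (by nlinarith) hd

/-- the quadratic form of a child seen from its own vertex -/
def qc (x y : ℝ) : ℝ := 3 * x ^ 2 - 3 * x * y + y ^ 2

lemma exists_G_pos {D U V : ℝ} (hD : 0 < D) (h : U ≤ V) : ∃ G : ℝ → ℝ, Monotone G ∧
    G 1 - G 0 ≤ 2 / 5 * (D * (U ^ 2 + U * V + V ^ 2)) + 69 / 10 ∧ ∀ s t, s ≤ t →
      min 1 (D * (t - s) * qc ((1 - s) * U + s * V) ((1 - t) * U + t * V)) ≤ G t - G s ∧
      min 1 (D * (t - s) * qc ((1 - t) * U + t * V) ((1 - s) * U + s * V)) ≤ G t - G s := by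
  rcases h.eq_or_lt with rfl | h
  · refine ⟨fun t => 6 / 5 * D * U ^ 2 * t, fun a b hab => ?_, by nlinarith, fun s t hst => ?_⟩
    · exact mul_le_mul_of_nonneg_left hab (by positivity)
    · have : 0 ≤ D * (t - s) * U ^ 2 := by have := sub_nonneg.2 hst; positivity
      simp only [qc]
      constructor <;> exact (min_le_right _ _).trans (by nlinarith)
  · have hs : 0 < V - U := by linarith
    have ha : 0 < D / (V - U) := by positivity
    have mono : ∀ s t : ℝ, s ≤ t → (1 - s) * U + s * V ≤ (1 - t) * U + t * V := fun s t hst => by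
      nlinarith
    refine ⟨fun t => hh (D / (V - U) * ((1 - t) * U + t * V) ^ 3), fun a b hab => hh_mono ?_, ?_,
      fun s t hst => ?_⟩
    · exact mul_le_mul_of_nonneg_left ((Odd.strictMono_pow (by decide : Odd 3)).monotone
        (mono a b hab)) ha.le
    · refine (hh_total _ _).trans (le_of_eq ?_)
      field_simp
      ring
    · have := credit ha (mono s t hst)
      have e : D / (V - U) * ((1 - t) * U + t * V - ((1 - s) * U + s * V)) = D * (t - s) := by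
        field_simp
        ring
      rw [e] at this
      simp only [qc]
      refine ⟨?_, ?_⟩
      · exact this.2
      · convert this.1 using 3; ring

lemma exists_G {D : ℝ} (U V : ℝ) (hD : 0 < D) : ∃ G : ℝ → ℝ, Monotone G ∧
    G 1 - G 0 ≤ 2 / 5 * (D * (U ^ 2 + U * V + V ^ 2)) + 69 / 10 ∧ ∀ s t,
      min 1 (D * |t - s| * qc ((1 - s) * U + s * V) ((1 - t) * U + t * V)) ≤ |G t - G s| := by
  have main : ∀ U V : ℝ, U ≤ V → ∃ G : ℝ → ℝ, Monotone G ∧
      G 1 - G 0 ≤ 2 / 5 * (D * (U ^ 2 + U * V + V ^ 2)) + 69 / 10 ∧ ∀ s t,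
      min 1 (D * |t - s| * qc ((1 - s) * U + s * V) ((1 - t) * U + t * V)) ≤ |G t - G s| := by
    intro U V h
    obtain ⟨G, h1, h2, h3⟩ := exists_G_pos hD h
    refine ⟨G, h1, h2, fun s t => ?_⟩
    rcases le_total s t with g | g
    · rw [abs_of_nonneg (sub_nonneg.2 g)]
      exact (h3 s t g).1.trans (le_abs_self _)
    · rw [abs_sub_comm t s, abs_of_nonneg (sub_nonneg.2 g), abs_sub_comm]
      exact (h3 t s g).2.trans (le_abs_self _)
  rcases le_total U V with h | h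
  · exact main U V h
  · obtain ⟨G, h1, h2, h3⟩ := main (-U) (-V) (by linarith)
    refine ⟨G, h1, by convert h2 using 3; ring, fun s t => ?_⟩
    convert h3 s t using 3
    simp only [qc]; ring

/-- radial monotonicity -/
lemma radial {ρ σ x y : ℝ} (h1 : 0 ≤ ρ) (h2 : ρ ≤ 1) (h3 : σ ≤ 1) :
    ρ * σ * qc (ρ * x) (σ * y) ≤ qc x y := by
  simp only [qc]
  have a1 : σ * (3 * (ρ * x) ^ 2 - 3 * (ρ * x) * (σ * y) + (σ * y) ^ 2) ≤
      3 * (ρ * x) ^ 2 - 3 * (ρ * x) * y + y ^ 2 := by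
    have : 0 ≤ (1 - σ) * (3 * (ρ * x - (1 + σ) * y / 2) ^ 2 + (1 - σ) ^ 2 * y ^ 2 / 4) :=
      mul_nonneg (by linarith) (by positivity)
    nlinarith
  have a2 : ρ * (3 * (ρ * x) ^ 2 - 3 * (ρ * x) * y + y ^ 2) ≤ 3 * x ^ 2 - 3 * x * y + y ^ 2 := by
    have : 0 ≤ (1 - ρ) * ((y - 3 * (1 + ρ) * x / 2) ^ 2 + 3 / 4 * (1 - ρ) ^ 2 * x ^ 2) :=
      mul_nonneg (by linarith) (by positivity)
    nlinarith
  nlinarith [mul_le_mul_of_nonneg_left a1 h1]

/-- disjoint intervals -/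
lemma card_le_of_intervals {ι : Type*} {G : ℝ → ℝ} (hG : Monotone G) (lo hi : ι → ℝ) (a : ℝ)
    (s : Finset ι) : ∀ b : ℝ, a ≤ b → (∀ i ∈ s, a ≤ lo i ∧ hi i ≤ b ∧ 1 ≤ G (hi i) - G (lo i)) →
    (∀ i ∈ s, ∀ j ∈ s, i ≠ j → hi i ≤ lo j ∨ hi j ≤ lo i) → (s.card : ℝ) ≤ G b - G a := by
  classical
  induction s using Finset.induction_on_max_value lo with
  | empty => intro b hab _ _; simpa using hG hab
  | insert i s hi' hmax ih =>
    intro b hab h1 h2
    obtain ⟨g1, g2, g3⟩ := h1 i (by simp)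
    have lt : lo i < hi i := by
      by_contra g
      have := hG (not_lt.1 g)
      linarith
    have := ih (lo i) g1 (fun j hj => ⟨(h1 j (by simp [hj])).1, ?_, (h1 j (by simp [hj])).2.2⟩)
      (fun j hj k hk => h2 j (by simp [hj]) k (by simp [hk]))
    · rw [Finset.card_insert_of_notMem hi']
      push_cast
      linarith [hG g2]
    · rcases h2 i (by simp) j (by simp [hj]) (fun e => hi' (e ▸ hj)) with g | g
      · linarith [hmax j hj]
      · exact g

end Pool.Agent.Lib.MP_68dca0_co
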