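import Pool.Agent.Lib.MP_68dca0_co.Defs

namespace Pool.Agent.Lib.MP_68dca0_co

/-- `G` has a straight-line grid drawing inside the rectangle `[0, W] × [0, H]` -/
def HasStraight {n : ℕ} (G : SimpleGraph (Fin n)) (W H : ℕ) : Prop :=
  ∃ pos : Fin n → ℤ × ℤ, Function.Injective pos ∧
    (∀ v, pos v ∈ Set.Icc (0 : ℤ) W ×ˢ Set.Icc (0 : ℤ) H) ∧
    (∀ u v w, G.Adj u v → pt (pos w) ∈ segment ℝ (pt (pos u)) (pt (pos v)) → w = u ∨ w = v) ∧
    ∀ u v u' v', G.Adj u v → G.Adj u' v' → u ≠ u' → u ≠ v' → v ≠ u' → v ≠ v' →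
      Disjoint (segment ℝ (pt (pos u)) (pt (pos v))) (segment ℝ (pt (pos u')) (pt (pos v')))

end Pool.Agent.Lib.MP_68dca0_co
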