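import Mathlib

namespace Pool.Agent.Lib.MP_68dca0_co

open Set

/-- determinant -/
def dt (u v : ℝ × ℝ) : ℝ := u.1 * v.2 - u.2 * v.1

lemma dt_swap (u v : ℝ × ℝ) : dt u v = -dt v u := by simp only [dt]; ring

lemma mem_seg {A B Z : ℝ × ℝ} {s t : ℝ} (hs : 0 ≤ s) (ht : 0 ≤ t) (h : s + t = 1)
    (h1 : Z.1 = s * A.1 + t * B.1) (h2 : Z.2 = s * A.2 + t * B.2) : Z ∈ segment ℝ A B :=
  ⟨s, t, hs, ht, h, Prod.ext (by simp [h1]) (by simp [h2])⟩

/-- strictly inside the triangle `0 A B` -/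
structure Ins (A B X : ℝ × ℝ) : Prop where
  p1 : 0 < dt A X
  p2 : 0 < dt X B
  p3 : dt A X + dt X B < dt A B

lemma ray {A B Y : ℝ × ℝ} (h1 : 0 < dt A Y) (h2 : 0 < dt Y B) (h3 : 0 < dt A B)
    (h : Disjoint (segment ℝ 0 Y) (segment ℝ A B)) : Ins A B Y := by
  refine ⟨h1, h2, ?_⟩
  by_contra g
  push Not at g
  have hS : 0 < dt A Y + dt Y B := by linarith
  have h' : ∀ z, z ∈ segment ℝ 0 Y → z ∉ segment ℝ A B := fun z hz => Set.disjoint_left.1 h hz
  refine h' ((dt A B / (dt A Y + dt Y B)) • Y)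
    (mem_seg (s := 1 - dt A B / (dt A Y + dt Y B)) (t := dt A B / (dt A Y + dt Y B))
      (by rw [sub_nonneg, div_le_one hS]; exact g) (by positivity) (by ring) (by simp) (by simp))
    (mem_seg (s := dt Y B / (dt A Y + dt Y B)) (t := dt A Y / (dt A Y + dt Y B))
      (by positivity) (by positivity) (by field_simp; ring) ?_ ?_)
  · simp only [Prod.smul_fst, smul_eq_mul]; field_simp; simp only [dt]; ring
  · simp only [Prod.smul_snd, smul_eq_mul]; field_simp; simp only [dt]; ring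

lemma barrier {A B X Y : ℝ × ℝ} (h : Ins A B X) (d1 : Disjoint (segment ℝ X Y) (segment ℝ 0 A))
    (d2 : Disjoint (segment ℝ X Y) (segment ℝ 0 B)) (d3 : Disjoint (segment ℝ X Y) (segment ℝ A B)) :
    Ins A B Y := by
  obtain ⟨p1, p2, p3⟩ := h
  have hD : 0 < dt A B := by linarith
  let Z : ℝ → ℝ × ℝ := fun t => ((1 - t) * X.1 + t * Y.1, (1 - t) * X.2 + t * Y.2)
  let m : ℝ → ℝ := fun t => min (min (dt A (Z t)) (dt (Z t) B)) (dt A B - dt A (Z t) - dt (Z t) B)
  have hm : Continuous m := by simp only [m, Z, dt]; fun_prop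
  have z0 : Z 0 = X := by simp [Z]
  have z1 : Z 1 = Y := by simp [Z]
  by_contra g
  have m1 : m 1 ≤ 0 := by
    by_contra g'
    simp only [m, z1, not_le, lt_min_iff] at g'
    exact g ⟨g'.1.1, g'.1.2, by linarith [g'.2]⟩
  have m0 : 0 ≤ m 0 := by
    simp only [m, z0, le_min_iff]
    exact ⟨⟨p1.le, p2.le⟩, by linarith⟩
  obtain ⟨t, ht, e⟩ := intermediate_value_Icc' zero_le_one hm.continuousOn ⟨m1, m0⟩
  have hZ : Z t ∈ segment ℝ X Y :=
    mem_seg (s := 1 - t) (t := t) (by linarith [ht.2]) ht.1 (by ring) rfl rfl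
  have q : 0 ≤ dt A (Z t) ∧ 0 ≤ dt (Z t) B ∧ dt A (Z t) + dt (Z t) B ≤ dt A B := by
    have := e.ge
    simp only [m, le_min_iff] at this
    exact ⟨this.1.1, this.1.2, by linarith [this.2]⟩
  have q' : dt A (Z t) = 0 ∨ dt (Z t) B = 0 ∨ dt A (Z t) + dt (Z t) B = dt A B := by
    simp only [m, min_def] at e
    split_ifs at e
    · exact Or.inl e
    · exact Or.inr (Or.inr (by linarith))
    · exact Or.inr (Or.inl e)
    · exact Or.inr (Or.inr (by linarith))
  generalize Z t = W at *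
  obtain ⟨q1, q2, q3⟩ := q
  have i1 : W.1 = dt W B / dt A B * A.1 + dt A W / dt A B * B.1 := by
    field_simp; simp only [dt]; ring
  have i2 : W.2 = dt W B / dt A B * A.2 + dt A W / dt A B * B.2 := by
    field_simp; simp only [dt]; ring
  rcases q' with q' | q' | q'
  · refine Set.disjoint_left.1 d1 hZ (mem_seg (s := 1 - dt W B / dt A B) (t := dt W B / dt A B)
      (by rw [sub_nonneg, div_le_one hD]; linarith) (by positivity) (by ring) ?_ ?_)
    · rw [i1, q']; simp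
    · rw [i2, q']; simp
  · refine Set.disjoint_left.1 d2 hZ (mem_seg (s := 1 - dt A W / dt A B) (t := dt A W / dt A B)
      (by rw [sub_nonneg, div_le_one hD]; linarith) (by positivity) (by ring) ?_ ?_)
    · rw [i1, q']; simp
    · rw [i2, q']; simp
  · exact Set.disjoint_left.1 d3 hZ (mem_seg (s := dt W B / dt A B) (t := dt A W / dt A B)
      (by positivity) (by positivity) (by field_simp; linarith) i1 i2)

lemma same_dir {A B : ℝ × ℝ} (h1 : 0 < A.2) (h2 : 0 < B.2) (h : dt A B = 0) :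
    A ∈ segment ℝ 0 B ∨ B ∈ segment ℝ 0 A := by
  simp only [dt] at h
  rcases le_total A.2 B.2 with g | g
  · refine Or.inl (mem_seg (s := 1 - A.2 / B.2) (t := A.2 / B.2)
      (by rw [sub_nonneg, div_le_one h2]; exact g) (by positivity) (by ring) ?_ ?_)
    · simp only [Prod.fst_zero]; field_simp; linarith
    · simp only [Prod.snd_zero]; field_simp; ring
  · refine Or.inr (mem_seg (s := 1 - B.2 / A.2) (t := B.2 / A.2)
      (by rw [sub_nonneg, div_le_one h1]; exact g) (by positivity) (by ring) ?_ ?_)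
    · simp only [Prod.fst_zero]; field_simp; linarith
    · simp only [Prod.snd_zero]; field_simp; ring

lemma collinear3 {Q A B : ℝ × ℝ} (h : dt (A - Q) (B - Q) = 0) :
    A ∈ segment ℝ Q B ∨ B ∈ segment ℝ Q A ∨ Q ∈ segment ℝ A B := by
  by_cases e : A = Q
  · exact Or.inl (e ▸ left_mem_segment _ _ _)
  obtain ⟨t, t1, t2⟩ : ∃ t : ℝ, B.1 - Q.1 = t * (A.1 - Q.1) ∧ B.2 - Q.2 = t * (A.2 - Q.2) := by
    simp only [dt, Prod.fst_sub, Prod.snd_sub] at h
    by_cases e1 : A.1 - Q.1 = 0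
    · have e2 : A.2 - Q.2 ≠ 0 := fun e2 => e (Prod.ext (by linarith) (by linarith))
      refine ⟨(B.2 - Q.2) / (A.2 - Q.2), ?_, by field_simp⟩
      rw [e1] at h ⊢
      have : (A.2 - Q.2) * (B.1 - Q.1) = 0 := by linarith
      simpa [e2] using this
    · exact ⟨(B.1 - Q.1) / (A.1 - Q.1), by field_simp, by field_simp; linarith⟩
  rcases le_total 1 t with g | g
  · have : 0 < t := by linarith
    refine Or.inl (mem_seg (s := 1 - 1 / t) (t := 1 / t)
      (by rw [sub_nonneg, div_le_one this]; exact g) (by positivity) (by ring) ?_ ?_) <;>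
      field_simp <;> linarith
  rcases le_total 0 t with g' | g'
  · exact Or.inr (Or.inl (mem_seg (s := 1 - t) (t := t) (by linarith) g' (by ring)
      (by linarith) (by linarith)))
  · have : 0 < 1 - t := by linarith
    refine Or.inr (Or.inr (mem_seg (s := -t / (1 - t)) (t := 1 / (1 - t))
      (div_nonneg (by linarith) this.le) (by positivity) (by field_simp; ring) ?_ ?_)) <;>
      field_simp <;> linarith

variable {V : Type*} {G : SimpleGraph V}

/-- plane straight-line drawings -/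
structure Pl (G : SimpleGraph V) (f : V → ℝ × ℝ) : Prop where
  ind : ∀ a b c d, G.Adj a b → G.Adj c d → a ≠ c → a ≠ d → b ≠ c → b ≠ d →
    Disjoint (segment ℝ (f a) (f b)) (segment ℝ (f c) (f d))
  off : ∀ a b w, G.Adj a b → f w ∈ segment ℝ (f a) (f b) → w = a ∨ w = b

lemma Pl.transfer {f g : V → ℝ × ℝ} (h : Pl G f) (O u w : ℝ × ℝ)
    (e : ∀ v, f v = O + (g v).1 • u + (g v).2 • w) : Pl G g := by
  have key : ∀ a b z, z ∈ segment ℝ (g a) (g b) → O + z.1 • u + z.2 • w ∈ segment ℝ (f a) (f b) := by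
    rintro a b z ⟨s, t, hs, ht, hst, rfl⟩
    refine ⟨s, t, hs, ht, hst, ?_⟩
    obtain rfl : t = 1 - s := by linarith
    rw [e a, e b]
    ext <;> simp <;> ring
  refine ⟨fun a b c d h1 h2 n1 n2 n3 n4 => Set.disjoint_left.2 fun z z1 z2 =>
    Set.disjoint_left.1 (h.ind a b c d h1 h2 n1 n2 n3 n4) (key _ _ _ z1) (key _ _ _ z2),
    fun a b v h1 h2 => h.off a b v h1 ?_⟩
  rw [e v]; exact key _ _ _ h2

lemma Pl.nondeg {f : V → ℝ × ℝ} (h : Pl G f) {q p c : V} (h1 : G.Adj q p) (h2 : G.Adj q c)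
    (h3 : G.Adj p c) : dt (f p - f q) (f c - f q) ≠ 0 := by
  intro e
  have := h1.ne
  have := h2.ne
  have := h3.ne
  rcases collinear3 e with g | g | g
  · have := h.off _ _ _ h2 g; grind
  · have := h.off _ _ _ h1 g; grind
  · have := h.off _ _ _ h3 g; grind

section normal

variable {g : V → ℝ × ℝ} {q p m : V}

lemma child_ins (h : Pl G g) (hq : g q = 0) (hp : g p = (1, 0)) (hm : g m = (0, 1))
    (qm : G.Adj q m) (pm : G.Adj p m) (qp : G.Adj q p) {c : V} (qc : G.Adj q c) (pc : G.Adj p c)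
    (cm : c ≠ m) (b0 : 0 < (g c).2) (b1 : (g c).2 ≤ 1) : Ins (g p) (g m) (g c) := by
  rcases lt_trichotomy 0 (g c).1 with a | a | a
  · refine ray (by simpa [hp, dt] using b0) (by simpa [hm, dt] using a) (by simp [hp, hm, dt]) ?_
    rw [← hq]
    exact h.ind _ _ _ _ qc pm qp.ne qm.ne pc.ne.symm cm
  · have := h.off q m c qm (by
      rw [hq, hm]
      exact mem_seg (s := 1 - (g c).2) (t := (g c).2) (by linarith) b0.le (by ring) (by simp [← a])
        (by simp))
    have := qc.ne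
    grind
  · have := (ray (A := g p) (B := g c) (Y := g m) (by simp [hp, hm, dt]) (by simpa [hm, dt] using a)
      (by simpa [hp, dt] using b0) (by
        rw [← hq]; exact h.ind _ _ _ _ qm pc qp.ne qc.ne pm.ne.symm cm.symm)).p3
    simp only [hp, hm, dt] at this
    linarith

lemma move_ins (h : Pl G g) (hq : g q = 0) {a b x y : V} (qa : G.Adj q a) (qb : G.Adj q b)
    (ab : G.Adj a b) (xy : G.Adj x y) (n1 : x ≠ q) (n2 : x ≠ a) (n3 : x ≠ b) (n4 : y ≠ q)
    (n5 : y ≠ a) (n6 : y ≠ b) (hx : Ins (g a) (g b) (g x)) : Ins (g a) (g b) (g y) := by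
  refine barrier hx ?_ ?_ (h.ind _ _ _ _ xy ab n2 n3 n5 n6)
  · rw [← hq]; exact h.ind _ _ _ _ xy qa n1 n2 n4 n5
  · rw [← hq]; exact h.ind _ _ _ _ xy qb n1 n3 n4 n6

lemma dt_ne (h : Pl G g) (hq : g q = 0) {a b : V} (qa : G.Adj q a) (qb : G.Adj q b) (ab : a ≠ b)
    (h1 : 0 < (g a).2) (h2 : 0 < (g b).2) : dt (g a) (g b) ≠ 0 := by
  intro e
  have := qa.ne
  have := qb.ne
  rcases same_dir h1 h2 e with g' | g'
  · have := h.off _ _ a qb (by rw [hq]; exact g'); grind
  · have := h.off _ _ b qa (by rw [hq]; exact g'); grind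

/-- `x` is a grandchild: adjacent to `c` and `q` -/
structure Gc (G : SimpleGraph V) (g : V → ℝ × ℝ) (q p c x : V) : Prop where
  qx : G.Adj q x
  cx : G.Adj c x
  xp : x ≠ p
  b0 : 0 < (g x).2

lemma order (h : Pl G g) (hq : g q = 0) (hp : g p = (1, 0)) (qp : G.Adj q p) {c d x y : V}
    (qc : G.Adj q c) (pc : G.Adj p c) (qd : G.Adj q d) (pd : G.Adj p d) (cd : c ≠ d)
    (bc : 0 < (g c).2) (bd : 0 < (g d).2) (lt : 0 < dt (g c) (g d))
    (hx : Gc G g q p c x) (hy : Gc G g q p d y) (xd : x ≠ d) (yc : y ≠ c) (xy : x ≠ y) :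
    0 < dt (g x) (g d) ∧ 0 < dt (g c) (g y) ∧ 0 ≤ dt (g x) (g y) := by
  have dp : ∀ z : V, dt (g p) (g z) = (g z).2 := fun z => by simp [hp, dt]
  have i1 : Ins (g p) (g d) (g c) := ray (by rwa [dp]) lt (by rwa [dp])
    (by rw [← hq]; exact h.ind _ _ _ _ qc pd qp.ne qd.ne pc.ne.symm cd)
  have i2 : Ins (g p) (g d) (g x) := move_ins h hq qp qd pd hx.cx qc.ne.symm pc.ne.symm cd
    hx.qx.ne.symm hx.xp xd i1
  have i3 : 0 < dt (g c) (g y) := by
    rcases lt_trichotomy 0 (dt (g c) (g y)) with a | a | a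
    · exact a
    · exact absurd a.symm (dt_ne h hq qc hy.qx yc.symm bc hy.b0)
    · have j1 : Ins (g p) (g c) (g y) := ray (by rw [dp]; exact hy.b0) (by rw [dt_swap]; linarith)
        (by rwa [dp]) (by rw [← hq]; exact h.ind _ _ _ _ hy.qx pc qp.ne qc.ne hy.xp yc)
      have j2 := (move_ins h hq qp qc pc hy.cx.symm hy.qx.ne.symm hy.xp yc qd.ne.symm pd.ne.symm
        cd.symm j1).p2
      rw [dt_swap] at j2
      linarith
  refine ⟨i2.p2, i3, ?_⟩
  by_contra a
  push Not at a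
  have a' : 0 < dt (g y) (g x) := by rw [dt_swap]; linarith
  have j0 : 0 < dt (g c) (g x) := by
    have e : dt (g c) (g x) * (g y).2 = dt (g y) (g x) * (g c).2 + dt (g c) (g y) * (g x).2 := by
      simp only [dt]; ring
    have : 0 < dt (g c) (g x) * (g y).2 := by
      rw [e]; have := hx.b0; positivity
    exact (mul_pos_iff_of_pos_right hy.b0).1 this
  have j1 : Ins (g c) (g x) (g y) := ray i3 a' j0
    (by rw [← hq]; exact h.ind _ _ _ _ hy.qx hx.cx qc.ne hx.qx.ne yc xy.symm)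
  have j2 := (move_ins h hq qc hx.qx hx.cx hy.cx.symm hy.qx.ne.symm yc xy.symm qd.ne.symm cd.symm
    xd.symm j1).p2
  rw [dt_swap] at j2
  linarith [i2.p2]

end normal

end Pool.Agent.Lib.MP_68dca0_co
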