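import Pool.Agent.Lib.MP_68dca0_co.StSide
import Pool.Agent.Lib.MP_68dca0_co.StDefs
import Pool.Agent.Lib.MP_68dca0_co.Bridge

namespace Pool.Agent.Lib.MP_68dca0_co

open Set

section abstract

variable {V : Type*} {G : SimpleGraph V} {f : V → ℝ × ℝ}

lemma one_le_pot (h : Pl G f) (hl : ∀ v, lat (f v)) {q p c : V} (h1 : G.Adj q p) (h2 : G.Adj q c)
    (h3 : G.Adj p c) : 1 ≤ pot f q p c := by
  have nz := h.nondeg h1 h2 h3
  obtain ⟨a, b, e1⟩ := hl q
  obtain ⟨a', b', e2⟩ := hl p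
  obtain ⟨a'', b'', e3⟩ := hl c
  simp only [pot, cr, dt, e1, e2, e3, Prod.fst_sub, Prod.snd_sub] at nz ⊢
  have nz' : (a' - a) * (b'' - b) - (b' - b) * (a'' - a) ≠ 0 := by exact_mod_cast nz
  have g1 : 1 ≤ |(a' - a) * (b'' - b) - (b' - b) * (a'' - a)| := Int.one_le_abs nz'
  have g2 : 1 ≤ (b' - b) ^ 2 + (b' - b) * (b'' - b) + (b'' - b) ^ 2 := by
    by_contra g
    have u1 : b' - b = 0 := by nlinarith [sq_nonneg (b' - b + 2 * (b'' - b)), sq_nonneg (b' - b)]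
    have u2 : b'' - b = 0 := by nlinarith [sq_nonneg (b'' - b + 2 * (b' - b)), sq_nonneg (b'' - b)]
    exact nz' (by rw [u1, u2]; ring)
  have := one_le_mul_of_one_le_of_one_le g1 g2
  exact_mod_cast this

lemma pot_le {W H : ℝ} (hb : ∀ v, (0 ≤ (f v).1 ∧ (f v).1 ≤ W) ∧ 0 ≤ (f v).2 ∧ (f v).2 ≤ H)
    (q p c : V) : pot f q p c ≤ 6 * W * H ^ 3 := by
  obtain ⟨⟨a1, a2⟩, a3, a4⟩ := hb q
  obtain ⟨⟨b1, b2⟩, b3, b4⟩ := hb p
  obtain ⟨⟨c1, c2⟩, c3, c4⟩ := hb c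
  have hW : 0 ≤ W := a1.trans a2
  have hH : 0 ≤ H := a3.trans a4
  have x1 : |(f p).1 - (f q).1| ≤ W := abs_le.2 ⟨by linarith, by linarith⟩
  have x2 : |(f c).1 - (f q).1| ≤ W := abs_le.2 ⟨by linarith, by linarith⟩
  have y1 : |(f p).2 - (f q).2| ≤ H := abs_le.2 ⟨by linarith, by linarith⟩
  have y2 : |(f c).2 - (f q).2| ≤ H := abs_le.2 ⟨by linarith, by linarith⟩
  have g1 : |cr f q p c| ≤ 2 * W * H := by
    simp only [cr, dt, Prod.fst_sub, Prod.snd_sub]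
    refine (abs_sub _ _).trans ?_
    rw [abs_mul, abs_mul]
    have := mul_le_mul x1 y2 (abs_nonneg _) hW
    have := mul_le_mul y1 x2 (abs_nonneg _) hH
    linarith
  have g2 : ((f p).2 - (f q).2) ^ 2 + ((f p).2 - (f q).2) * ((f c).2 - (f q).2) +
      ((f c).2 - (f q).2) ^ 2 ≤ 3 * H ^ 2 := by
    have s1 := sq_le_sq' (abs_le.1 y1).1 (abs_le.1 y1).2
    have s2 := sq_le_sq' (abs_le.1 y2).1 (abs_le.1 y2).2
    nlinarith [sq_nonneg ((f p).2 - (f q).2 - ((f c).2 - (f q).2))]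
  calc pot f q p c ≤ |cr f q p c| * (3 * H ^ 2) := mul_le_mul_of_nonneg_left g2 (abs_nonneg _)
    _ ≤ 2 * W * H * (3 * H ^ 2) := mul_le_mul_of_nonneg_right g1 (by positivity)
    _ = _ := by ring

lemma tree_big (h : Pl G f) (hl : ∀ v, lat (f v)) (par : V → V) (rk : V → ℕ) (ok : ℕ → V → Prop)
    (h1 : ∀ j v, ok j v → G.Adj v (par v) ∧ rk (par v) < rk v)
    (h2 : ∀ j v, ok j v → ∃ S : Finset V, S.card = 64 ∧ ∀ c ∈ S,
      (par c = v ∧ rk v < rk c ∧ G.Adj v c ∧ G.Adj (par v) c) ∧ ∀ i, j = i + 1 → ok i c) (j : ℕ) :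
    ∀ v, ok j v → ∃ x y, (par x = v ∧ rk v < rk x ∧ G.Adj v x ∧ G.Adj (par v) x) ∧
      (par y = v ∧ rk v < rk y ∧ G.Adj v y ∧ G.Adj (par v) y) ∧ Big f (120 ^ j) v (par v) x y := by
  induction j with
  | zero =>
    intro v hv
    obtain ⟨S, s1, s2⟩ := h2 0 v hv
    obtain ⟨c, hc⟩ : S.Nonempty := Finset.card_pos.1 (by omega)
    have := (s2 c hc).1
    exact ⟨c, c, this, this, Or.inl (by
      simpa using one_le_pot h hl (h1 0 v hv).1 this.2.2.1 this.2.2.2)⟩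
  | succ j ih =>
    intro v hv
    obtain ⟨S, s1, s2⟩ := h2 _ v hv
    obtain ⟨x, hx, y, hy, hb⟩ := step_big h (h1 _ v hv).1 s1 (fun c hc => (s2 c hc).1.2.2)
      (K := fun c x => par x = c ∧ rk c < rk x ∧ G.Adj c x ∧ G.Adj (par c) x) (fun c hc x hx => by
        obtain ⟨⟨a1, a2, a3, a4⟩, -⟩ := s2 c hc
        obtain ⟨b1, b2, b3, b4⟩ := hx
        refine ⟨a1 ▸ b4, b3, fun e => ?_, fun e => a3.ne ((s2 x e).1.1.symm.trans b1)⟩
        have := (h1 _ v hv).2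
        rw [← e] at this
        omega) (fun c d x hc hd => hc.1.symm.trans hd.1) (φ := 120 ^ j) (by positivity)
      (fun c hc => by
        obtain ⟨x, y, g1, g2, g3⟩ := ih c ((s2 c hc).2 j rfl)
        rw [(s2 c hc).1.1] at g3
        exact ⟨x, y, g1, g2, g3⟩)
    exact ⟨x, y, (s2 x hx).1, (s2 y hy).1, by rwa [pow_succ']⟩

lemma nd_seg {a b : ℝ × ℝ} (la : lat a) (lb : lat b) (hne : a ≠ b) :
    Nd a b (segment ℝ a b \ {a, b}) := by
  obtain ⟨x, y, rfl⟩ := la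
  obtain ⟨x', y', rfl⟩ := lb
  have := nd_chain (c := fun i => if i = 0 then (x, y) else (x', y')) (k := 1)
    ⟨fun i hi => by
      obtain rfl : i = 0 := by omega
      simp only [if_true, zero_add, one_ne_zero, if_false]
      intro e
      rw [Prod.mk.injEq] at e
      exact hne (by rw [e.1, e.2]), fun i j _ _ => by omega⟩ (by
      simp only [if_true, one_ne_zero, if_false]
      intro e
      rw [Prod.mk.injEq] at e
      exact hne (by rw [e.1, e.2]))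
  simpa [curve, seg, pt] using this

lemma seg_share {u a b x : ℝ × ℝ} (h1 : x ∈ segment ℝ u a) (h2 : x ∈ segment ℝ u b) (h : x ≠ u) :
    a ∈ segment ℝ u b ∨ b ∈ segment ℝ u a := by
  obtain ⟨s, t, hs, ht, hst, rfl⟩ := h1
  obtain ⟨s', t', hs', ht', hst', e⟩ := h2
  obtain rfl : s = 1 - t := by linarith
  obtain rfl : s' = 1 - t' := by linarith
  have t0 : 0 < t := lt_of_le_of_ne ht (by rintro rfl; simp at h)
  have t0' : 0 < t' := lt_of_le_of_ne ht' (by rintro rfl; rw [← e] at h; simp at h)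
  have e1 := congrArg Prod.fst e
  have e2 := congrArg Prod.snd e
  simp only [Prod.fst_add, Prod.snd_add, Prod.smul_fst, Prod.smul_snd, smul_eq_mul] at e1 e2
  rcases le_total t' t with g | g
  · exact Or.inl (mem_seg (s := 1 - t' / t) (t := t' / t) (by rw [sub_nonneg, div_le_one t0]; exact g)
      (by positivity) (by ring) (by field_simp; linarith) (by field_simp; linarith))
  · exact Or.inr (mem_seg (s := 1 - t / t') (t := t / t') (by rw [sub_nonneg, div_le_one t0']; exact g)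
      (by positivity) (by ring) (by field_simp; linarith) (by field_simp; linarith))

lemma fan (h : Pl G f) (hl : ∀ v, lat (f v)) (hi : Function.Injective f) {W H : ℕ}
    (hb : ∀ v, (0 ≤ (f v).1 ∧ (f v).1 ≤ W) ∧ 0 ≤ (f v).2 ∧ (f v).2 ≤ H) {u v : V} (uv : G.Adj u v)
    (S : Finset V) (hS : ∀ z ∈ S, G.Adj u z ∧ G.Adj z v) : S.card ≤ 4 * (W + H) + 2 := by
  have off : ∀ a b w, G.Adj a b → f w ∉ segment ℝ (f a) (f b) \ {f a, f b} := by
    rintro a b w hab ⟨g1, g2⟩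
    rcases h.off a b w hab g1 with rfl | rfl <;> simp at g2
  have box : ∀ a b, ∀ q ∈ segment ℝ (f a) (f b), (0 ≤ q.1 ∧ q.1 ≤ W) ∧ 0 ≤ q.2 ∧ q.2 ≤ H := by
    intro a b q hq
    have := ((convex_Icc (0 : ℝ) W).prod (convex_Icc (0 : ℝ) H)).segment_subset
      (x := f a) (y := f b) (hb a) (hb b) hq
    exact this
  refine count_rect (u := f u) (v := f v) (B := 0) (C := 0) (K := fun z => insert (f z)
    ((segment ℝ (f u) (f z) \ {f u, f z}) ∪ (segment ℝ (f z) (f v) \ {f z, f v}))) (hl u) (hl v)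
    (fun z hz => Cp.bl ⟨nd_seg (hl u) (hl z) (hi.ne (hS z hz).1.ne),
      nd_seg (hl z) (hl v) (hi.ne (hS z hz).2.ne), hi.ne uv.ne, off _ _ _ (hS z hz).1,
      off _ _ _ (hS z hz).2⟩) ?_ (by simpa using hb u) (by simpa using hb v) ?_
  · intro z hz w hw zw
    obtain ⟨z1, z2⟩ := hS z hz
    obtain ⟨w1, w2⟩ := hS w hw
    rw [Set.disjoint_left]
    rintro x (rfl | g | g) (g' | g' | g')
    · exact zw (hi g')
    · exact off _ _ _ w1 g'
    · exact off _ _ _ w2 g'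
    · exact off _ _ _ z1 (g' ▸ g)
    · have := z1.ne
      have := w1.ne
      rcases seg_share g.1 g'.1 (fun e => g.2 (Or.inl e)) with k | k
      · have := h.off _ _ _ w1 k; grind
      · have := h.off _ _ _ z1 k; grind
    · exact Set.disjoint_left.1 (h.ind _ _ _ _ z1 w2 w1.ne uv.ne zw z2.ne) g.1 g'.1
    · exact off _ _ _ z2 (g' ▸ g)
    · exact Set.disjoint_left.1 (h.ind _ _ _ _ w1 z2 z1.ne uv.ne zw.symm w2.ne) g'.1 g.1
    · have := z2.ne
      have := w2.ne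
      have k1 := g.1
      have k2 := g'.1
      rw [segment_symm] at k1 k2
      rcases seg_share k1 k2 (fun e => g.2 (Or.inr e)) with k | k
      · have := h.off _ _ _ w2.symm k; grind
      · have := h.off _ _ _ z2.symm k; grind
  · rintro z hz q (rfl | g | g)
    · simpa using hb z
    · simpa using box _ _ q g.1
    · simpa using box _ _ q g.1

end abstract

/-- parent function -/
def pa (N v : ℕ) : ℕ := if v ≤ 1 then 0 else if v < N then (v - 2) / 64 + 1 else 1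

lemma pa_le (N v : ℕ) : pa N v ≤ v := by
  simp only [pa]; split_ifs <;> omega

def par (N : ℕ) {n : ℕ} (v : Fin n) : Fin n := ⟨pa N v, (pa_le N v).trans_lt v.2⟩

def gr (N n : ℕ) : SimpleGraph (Fin n) :=
  SimpleGraph.fromRel fun a b => b = par N a ∨ b = par N (par N a)

lemma pa_lt (N : ℕ) {v : ℕ} (h : 1 ≤ v) : pa N v < v := by
  simp only [pa]; split_ifs <;> omega

lemma adj_par {N n : ℕ} {v : Fin n} (h : 1 ≤ v.1) : (gr N n).Adj v (par N v) :=
  (SimpleGraph.fromRel_adj _ _ _).2 ⟨fun e => (pa_lt N h).ne' (congrArg Fin.val e), Or.inl (Or.inl rfl)⟩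

lemma adj_par2 {N n : ℕ} {v : Fin n} (h : 1 ≤ v.1) : (gr N n).Adj v (par N (par N v)) :=
  (SimpleGraph.fromRel_adj _ _ _).2 ⟨fun e => ((pa_le N _).trans_lt (pa_lt N h)).ne'
    (congrArg Fin.val e), Or.inl (Or.inr rfl)⟩

lemma gr_not_minor (N n : ℕ) (hn : 2 ≤ n) : ¬ HasK4Minor (gr N n) := by
  have key : ∀ k, ¬ Model (gr N n) {v | v.1 < k + 2} := by
    intro k
    induction k with
    | zero =>
      refine fun h => not_model_pair (⟨0, by omega⟩ : Fin n) ⟨1, by omega⟩ (h.mono fun v hv => ?_)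
      simp only [mem_ofPred_eq, mem_insert_iff, mem_singleton_iff, Fin.ext_iff] at hv ⊢
      omega
    | succ k ih =>
      intro h
      by_cases hk : k + 2 < n
      · have h1 : 1 ≤ (par N (⟨k + 2, hk⟩ : Fin n)).1 := by
          simp only [par, pa]; split_ifs <;> omega
        refine ih ((h.elim (w := ⟨k + 2, hk⟩) (adj_par h1) fun x hx hadj => ?_).mono fun v hv => ?_)
        · obtain ⟨g1, g2 | g2⟩ := (SimpleGraph.fromRel_adj _ _ _).1 hadj
          · exact g2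
          · exfalso
            have g3 : (⟨k + 2, hk⟩ : Fin n).1 ≤ x.1 := by
              rcases g2 with g2 | g2 <;> rw [g2]
              · exact pa_le _ _
              · exact (pa_le _ _).trans (pa_le _ _)
            simp only [mem_ofPred_eq, ne_eq, Fin.ext_iff] at hx g1 g3
            omega
        · simp only [mem_sdiff, mem_ofPred_eq, mem_singleton_iff, Fin.ext_iff] at hv ⊢
          omega
      · exact ih (h.mono fun v _ => by have := v.2; simp only [mem_ofPred_eq]; omega)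
  rw [hasK4Minor_iff]
  exact fun h => key n (h.mono fun v _ => by have := v.2; simp only [mem_ofPred_eq]; omega)

lemma gr_pot {j n : ℕ} (hn : 2 * 64 ^ (j + 1) ≤ n) {f : Fin n → ℝ × ℝ}
    (h : Pl (gr (2 * 64 ^ (j + 1)) n) f) (hl : ∀ v, lat (f v)) {W H : ℝ}
    (hb : ∀ v, (0 ≤ (f v).1 ∧ (f v).1 ≤ W) ∧ 0 ≤ (f v).2 ∧ (f v).2 ≤ H) :
    120 ^ j ≤ 12 * W * H ^ 3 := by
  set N := 2 * 64 ^ (j + 1) with hN
  have h2 : 2 ≤ n := le_trans (by have := Nat.one_le_pow (j + 1) 64 (by norm_num); omega) hn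
  obtain ⟨x, y, -, -, g⟩ := tree_big h hl (par N) Fin.val
    (fun i v => 1 ≤ v.1 ∧ (v.1 + 1) * 64 ^ (i + 1) ≤ N)
    (fun i v hv => ⟨adj_par hv.1, pa_lt N hv.1⟩) (fun i v hv => by
      obtain ⟨v1, v2⟩ := hv
      have p1 := Nat.one_le_pow i 64 (by norm_num)
      have v3 : (v.1 + 1) * 64 ≤ N := le_trans (by rw [pow_succ']; nlinarith) v2
      refine ⟨Finset.univ.map ⟨fun a : Fin 64 => (⟨64 * (v.1 - 1) + 2 + a.1, by omega⟩ : Fin n),
        fun a b e => by simp only [Fin.mk.injEq] at e; omega⟩, by simp, fun c hc => ?_⟩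
      obtain ⟨a, -, ha⟩ := Finset.mem_map.1 hc
      have c1 : c.1 = 64 * (v.1 - 1) + 2 + a.1 := by rw [← ha]; rfl
      have e : par N c = v := by
        ext; simp only [par, pa]; split_ifs <;> omega
      refine ⟨⟨e, by omega, ?_, ?_⟩, fun k hk => ⟨by omega, ?_⟩⟩
      · have := adj_par (N := N) (v := c) (by omega)
        rw [e] at this; exact this.symm
      · have := adj_par2 (N := N) (v := c) (by omega)
        rw [e] at this; exact this.symm
      · subst hk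
        refine le_trans ?_ v2
        rw [pow_succ' 64 (k + 1), ← mul_assoc]
        exact Nat.mul_le_mul_right _ (by omega)) j ⟨1, by omega⟩ ⟨le_rfl, le_of_eq hN.symm⟩
  have a1 := pot_le hb ⟨1, by omega⟩ (par N ⟨1, by omega⟩) x
  have a2 := pot_le hb ⟨1, by omega⟩ (par N ⟨1, by omega⟩) y
  have a3 := pot_nonneg f ⟨1, by omega⟩ (par N ⟨1, by omega⟩) y
  rcases g with g | ⟨-, g⟩ <;> linarith

lemma gr_fan {N n : ℕ} (hN : 2 ≤ N) (hn : N ≤ n) {f : Fin n → ℝ × ℝ} (h : Pl (gr N n) f)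
    (hl : ∀ v, lat (f v)) (hi : Function.Injective f) {W H : ℕ}
    (hb : ∀ v, (0 ≤ (f v).1 ∧ (f v).1 ≤ W) ∧ 0 ≤ (f v).2 ∧ (f v).2 ≤ H) :
    n - N ≤ 4 * (W + H) + 2 := by
  have := fan h hl hi hb (u := ⟨1, by omega⟩) (v := par N ⟨1, by omega⟩) (adj_par le_rfl)
    (Finset.univ.map ⟨fun a : Fin (n - N) => (⟨N + a.1, by omega⟩ : Fin n),
      fun a b e => by simp only [Fin.mk.injEq] at e; omega⟩) (fun z hz => by
      obtain ⟨a, -, ha⟩ := Finset.mem_map.1 hz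
      have c1 : z.1 = N + a.1 := by rw [← ha]; rfl
      have e : par N z = ⟨1, by omega⟩ := by
        ext; simp only [par, pa]; split_ifs <;> omega
      constructor
      · have := adj_par (N := N) (v := z) (by omega)
        rw [e] at this; exact this.symm
      · have := adj_par2 (N := N) (v := z) (by omega)
        rwa [e] at this)
  simpa using this

lemma gr_lower {j n W H : ℕ} (hn : 4 * 64 ^ (j + 1) ≤ n) (h : HasStraight (gr (2 * 64 ^ (j + 1)) n) W H) :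
    (n : ℝ) ^ 2 * 120 ^ j ≤ 12 * 17 ^ 2 * (W * H) ^ 3 := by
  obtain ⟨pos, h1, h2, h3, h4⟩ := h
  have p1 : 64 ≤ 64 ^ (j + 1) := Nat.le_self_pow (by omega) 64
  have pl : Pl (gr (2 * 64 ^ (j + 1)) n) (fun v => pt (pos v)) := ⟨h4, h3⟩
  have hb : ∀ v, (0 ≤ (pt (pos v)).1 ∧ (pt (pos v)).1 ≤ W) ∧ 0 ≤ (pt (pos v)).2 ∧ (pt (pos v)).2 ≤ H := by
    intro v
    obtain ⟨⟨g1, g2⟩, g3, g4⟩ := h2 v
    simp only [pt]
    exact_mod_cast (⟨⟨g1, g2⟩, g3, g4⟩ : (0 ≤ (pos v).1 ∧ (pos v).1 ≤ W) ∧ 0 ≤ (pos v).2 ∧ (pos v).2 ≤ H)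
  have a1 := gr_fan (by omega) (by omega) pl (fun v => lat_pt _) (pt_injective.comp h1) hb
  have a2 := gr_pot (by omega) pl (fun v => lat_pt _) hb
  have pl' : Pl (gr (2 * 64 ^ (j + 1)) n) (fun v => pt (pos v).swap) :=
    pl.transfer 0 (0, 1) (1, 0) (fun v => by ext <;> simp [pt])
  have a3 := gr_pot (W := H) (H := W) (by omega) pl' (fun v => lat_pt _) (fun v => ⟨(hb v).2, (hb v).1⟩)
  rcases le_total H W with g | g
  · have : (n : ℝ) ≤ 17 * W := by exact_mod_cast (by omega : n ≤ 17 * W)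
    calc (n : ℝ) ^ 2 * 120 ^ j ≤ (17 * W) ^ 2 * (12 * W * H ^ 3) := by gcongr
      _ = _ := by ring
  · have : (n : ℝ) ≤ 17 * H := by exact_mod_cast (by omega : n ≤ 17 * H)
    calc (n : ℝ) ^ 2 * 120 ^ j ≤ (17 * H) ^ 2 * (12 * H * W ^ 3) := by gcongr
      _ = _ := by ring

theorem straight_lower : ∃ c : ℝ, 0 < c ∧ ∀ n ≥ 256, ∃ G : SimpleGraph (Fin n), ¬ HasK4Minor G ∧
    ∀ W H : ℕ, HasStraight G W H → c * (n : ℝ) ^ (21 / 20 : ℝ) ≤ W * H := by
  refine ⟨1 / 2 ^ 11, by positivity, fun n hn => ?_⟩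
  obtain ⟨j, h1, h2⟩ : ∃ j, 4 * 64 ^ (j + 1) ≤ n ∧ n < 4 * 64 ^ (j + 2) := by
    have a := Nat.pow_log_le_self 64 (show n / 4 ≠ 0 by omega)
    have b := Nat.lt_pow_succ_log_self (show 1 < 64 by norm_num) (n / 4)
    have c : 1 ≤ Nat.log 64 (n / 4) := Nat.le_log_of_pow_le (by norm_num) (by omega)
    obtain ⟨j, hj⟩ : ∃ j, Nat.log 64 (n / 4) = j + 1 := ⟨_, (Nat.sub_add_cancel c).symm⟩
    rw [hj] at a b
    exact ⟨j, by omega, by change n / 4 < 64 ^ (j + 2) at b; omega⟩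
  refine ⟨gr (2 * 64 ^ (j + 1)) n, gr_not_minor _ _ (by omega), fun W H h => ?_⟩
  have a := gr_lower h1 h
  have n0 : (0 : ℝ) ≤ n := n.cast_nonneg
  refine le_of_pow_le_pow_left₀ (n := 60) (by norm_num) (by positivity) ?_
  have e1 : ((n : ℝ) ^ (21 / 20 : ℝ)) ^ 60 = n ^ 63 := by
    rw [← Real.rpow_natCast, ← Real.rpow_mul n0, ← Real.rpow_natCast]; norm_num
  have b1 : (n : ℝ) ^ 23 ≤ (4 * 64 ^ 2) ^ 23 * (120 ^ j) ^ 20 := by
    have b2 : (n : ℝ) ≤ 4 * 64 ^ 2 * 64 ^ j := by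
      have : (n : ℝ) ≤ 4 * 64 ^ (j + 2) := by exact_mod_cast h2.le
      linarith [pow_add (64 : ℝ) j 2]
    have b3 : ((64 : ℝ) ^ j) ^ 23 ≤ (120 ^ j) ^ 20 := by
      rw [← pow_mul, ← pow_mul, mul_comm j, mul_comm j, pow_mul, pow_mul]
      exact pow_le_pow_left₀ (by positivity) (by norm_num) j
    calc (n : ℝ) ^ 23 ≤ (4 * 64 ^ 2 * 64 ^ j) ^ 23 := pow_le_pow_left₀ n0 b2 23
      _ = (4 * 64 ^ 2) ^ 23 * (64 ^ j) ^ 23 := mul_pow _ _ _
      _ ≤ _ := by gcongr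
  have a20 := pow_le_pow_left₀ (by positivity) a 20
  rw [mul_pow, e1]
  rw [mul_pow, mul_pow (12 * 17 ^ 2 : ℝ), ← pow_mul, ← pow_mul (W * H : ℝ)] at a20
  generalize ((120 : ℝ) ^ j) ^ 20 = X at *
  generalize ((W : ℝ) * H) ^ 60 = Y at *
  have b4 : (n : ℝ) ^ 63 ≤ (4 * 64 ^ 2) ^ 23 * (n ^ (2 * 20) * X) := by
    calc (n : ℝ) ^ 63 = n ^ (2 * 20) * n ^ 23 := by ring
      _ ≤ n ^ (2 * 20) * ((4 * 64 ^ 2) ^ 23 * X) := by gcongr
      _ = _ := by ring
  have b5 : (n : ℝ) ^ 63 ≤ (4 * 64 ^ 2) ^ 23 * ((12 * 17 ^ 2) ^ 20 * Y) := b4.trans (by gcongr)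
  have Y0 : 0 ≤ Y := by nlinarith [pow_nonneg n0 63]
  nlinarith

end Pool.Agent.Lib.MP_68dca0_co
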