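import Pool.Agent.Lib.MP_68dca0_co.StGeo
import Pool.Agent.Lib.MP_68dca0_co.StCredit

namespace Pool.Agent.Lib.MP_68dca0_co

open Set

variable {V : Type*} {G : SimpleGraph V} {f : V → ℝ × ℝ}

def cr (f : V → ℝ × ℝ) (q p c : V) : ℝ := dt (f p - f q) (f c - f q)

/-- twelve times the second moment of the triangle about the horizontal line through `q` -/
def pot (f : V → ℝ × ℝ) (q p c : V) : ℝ :=
  |cr f q p c| * (((f p).2 - (f q).2) ^ 2 + ((f p).2 - (f q).2) * ((f c).2 - (f q).2) +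
    ((f c).2 - (f q).2) ^ 2)

lemma pot_nonneg (f : V → ℝ × ℝ) (q p c : V) : 0 ≤ pot f q p c := by
  refine mul_nonneg (abs_nonneg _) ?_
  nlinarith [sq_nonneg ((f p).2 - (f q).2 + ((f c).2 - (f q).2)),
    sq_nonneg ((f p).2 - (f q).2), sq_nonneg ((f c).2 - (f q).2)]

def Big (f : V → ℝ × ℝ) (φ : ℝ) (q p x y : V) : Prop :=
  φ ≤ pot f q p x ∨ (cr f q p x * cr f q p y < 0 ∧ φ ≤ pot f q p x + pot f q p y)

lemma abs_le_span {F : ℝ → ℝ} (hF : Monotone F) (s t u : ℝ) :
    |F t - F s| ≤ F (max s (max t u)) - F (min s (min t u)) := by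
  have a1 := hF (le_max_left s (max t u))
  have a2 := hF ((le_max_left t u).trans (le_max_right s (max t u)))
  have a3 := hF (min_le_left s (min t u))
  have a4 := hF ((min_le_right s (min t u)).trans (min_le_left t u))
  rw [abs_le]; constructor <;> linarith

lemma abs_add_le_span {F : ℝ → ℝ} (hF : Monotone F) {s t u : ℝ} (h : (t - s) * (u - s) < 0) :
    |F t - F s| + |F u - F s| ≤ F (max s (max t u)) - F (min s (min t u)) := by
  have a2 := hF ((le_max_left t u).trans (le_max_right s (max t u)))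
  have a2' := hF ((le_max_right t u).trans (le_max_right s (max t u)))
  have a4 := hF ((min_le_right s (min t u)).trans (min_le_left t u))
  have a4' := hF ((min_le_right s (min t u)).trans (min_le_right t u))
  rcases mul_neg_iff.1 h with ⟨g1, g2⟩ | ⟨g1, g2⟩
  · rw [abs_of_nonneg (sub_nonneg.2 (hF (by linarith))), abs_of_nonpos (sub_nonpos.2 (hF (by linarith)))]
    linarith
  · rw [abs_of_nonpos (sub_nonpos.2 (hF (by linarith))), abs_of_nonneg (sub_nonneg.2 (hF (by linarith)))]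
    linarith

lemma side_count (h : Pl G f) {q p : V} (qp : G.Adj q p) {S : Finset V} (hne : S.Nonempty)
    (hS : ∀ c ∈ S, G.Adj q c ∧ G.Adj p c) (sgn : ∀ c ∈ S, ∀ d ∈ S, 0 < cr f q p c * cr f q p d)
    {K : V → V → Prop} (hK : ∀ c ∈ S, ∀ x, K c x → G.Adj q x ∧ G.Adj c x ∧ x ≠ p ∧ x ∉ S)
    (hK2 : ∀ c d x, K c x → K d x → c = d) {φ : ℝ} (hφ : 0 < φ)
    (hB : ∀ c ∈ S, ∃ x y, K c x ∧ K c y ∧ Big f φ c q x y) :
    ∃ m ∈ S, (S.card : ℝ) - 1 ≤ 2 / 5 * (pot f q p m / φ) + 69 / 10 := by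
  classical
  obtain ⟨m, hm, hmax⟩ := S.exists_max_image (fun c => |cr f q p c|) hne
  refine ⟨m, hm, ?_⟩
  set D := cr f q p m with hD
  have D0 : D ≠ 0 := fun e => by
    have := sgn m hm m hm
    rw [← hD, e] at this
    simp at this
  let g : V → ℝ × ℝ := fun v => (dt (f v - f q) (f m - f q) / D, cr f q p v / D)
  have e : ∀ v, f v = f q + (g v).1 • (f p - f q) + (g v).2 • (f m - f q) := fun v => by
    ext <;> simp only [g, Prod.fst_add, Prod.snd_add, Prod.smul_fst, Prod.smul_snd, smul_eq_mul] <;>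
      field_simp <;> simp only [hD, cr, dt, Prod.fst_sub, Prod.snd_sub] <;> ring
  have hg : Pl G g := h.transfer _ _ _ e
  have gq : g q = 0 := by ext <;> simp [g, cr, dt]
  have gp : g p = (1, 0) := by
    ext
    · exact div_self D0
    · simp only [g, cr, dt]; rw [div_eq_zero_iff]; left; ring
  have gm : g m = (0, 1) := by
    ext
    · simp only [g, dt]; rw [div_eq_zero_iff]; left; ring
    · exact div_self D0
  have b01 : ∀ c ∈ S, 0 < (g c).2 ∧ (g c).2 ≤ 1 := fun c hc => by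
    have h1 : 0 < cr f q p c / D := by
      have := sgn c hc m hm
      rw [← hD] at this
      exact div_pos_iff.2 (mul_pos_iff.1 this)
    refine ⟨h1, (le_abs_self _).trans ?_⟩
    simp only [g]
    rw [abs_div, div_le_one (abs_pos.2 D0)]
    exact hmax c hc
  have insC : ∀ c ∈ S.erase m, Ins (g p) (g m) (g c) := fun c hc => by
    obtain ⟨c1, c2⟩ := Finset.mem_erase.1 hc
    exact child_ins hg gq gp gm (hS m hm).1 (hS m hm).2 qp (hS c c2).1 (hS c c2).2 c1 (b01 c c2).1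
      (b01 c c2).2
  have insK : ∀ c ∈ S.erase m, ∀ x, K c x → Ins (g p) (g m) (g x) := fun c hc x hx => by
    obtain ⟨c1, c2⟩ := Finset.mem_erase.1 hc
    obtain ⟨k1, k2, k3, k4⟩ := hK c c2 x hx
    exact move_ins hg gq qp (hS m hm).1 (hS m hm).2 k2 (hS c c2).1.ne.symm (hS c c2).2.ne.symm c1
      k1.ne.symm k3 (fun e => k4 (e ▸ hm)) (insC c hc)
  have ins : ∀ v, Ins (g p) (g m) (g v) → 0 < (g v).1 ∧ 0 < (g v).2 ∧ (g v).1 + (g v).2 < 1 := by
    rintro v ⟨p1, p2, p3⟩
    simp only [gp, gm, dt] at p1 p2 p3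
    exact ⟨by linarith, by linarith, by linarith⟩
  let θ : V → ℝ := fun v => (g v).2 / ((g v).1 + (g v).2)
  set U := (f p).2 - (f q).2 with hU
  set W := (f m).2 - (f q).2 with hW
  have hD' : 0 < |D| / φ := div_pos (abs_pos.2 D0) hφ
  obtain ⟨F, F1, F2, F3⟩ := exists_G U W hD'
  have t01 : ∀ v, Ins (g p) (g m) (g v) → 0 ≤ θ v ∧ θ v ≤ 1 := fun v hv => by
    obtain ⟨a, b, c⟩ := ins v hv
    exact ⟨by positivity, (div_le_one (by linarith)).2 (by linarith)⟩
  have dθ : ∀ v w, Ins (g p) (g m) (g v) → Ins (g p) (g m) (g w) →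
      dt (g v) (g w) = ((g v).1 + (g v).2) * ((g w).1 + (g w).2) * (θ w - θ v) := fun v w hv hw => by
    obtain ⟨a, b, c⟩ := ins v hv
    obtain ⟨a', b', c'⟩ := ins w hw
    simp only [θ, dt]
    field_simp
    ring
  have leθ : ∀ v w, Ins (g p) (g m) (g v) → Ins (g p) (g m) (g w) → 0 ≤ dt (g v) (g w) →
      θ v ≤ θ w := fun v w hv hw h0 => by
    obtain ⟨a, b, c⟩ := ins v hv
    obtain ⟨a', b', c'⟩ := ins w hw
    rw [dθ v w hv hw] at h0
    have := nonneg_of_mul_nonneg_right h0 (by positivity)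
    linarith
  have crθ : ∀ v w, cr f v q w = -D * dt (g v) (g w) := fun v w => by
    have e1 := congrArg Prod.fst (e v)
    have e2 := congrArg Prod.snd (e v)
    have e3 := congrArg Prod.fst (e w)
    have e4 := congrArg Prod.snd (e w)
    simp only [Prod.fst_add, Prod.snd_add, Prod.smul_fst, Prod.smul_snd, smul_eq_mul, Prod.fst_sub,
      Prod.snd_sub] at e1 e2 e3 e4
    simp only [hD, cr, dt, Prod.fst_sub, Prod.snd_sub]
    rw [e1, e2, e3, e4]
    ring
  have yθ : ∀ v, Ins (g p) (g m) (g v) →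
      (f v).2 - (f q).2 = ((g v).1 + (g v).2) * ((1 - θ v) * U + θ v * W) := fun v hv => by
    obtain ⟨a, b, c⟩ := ins v hv
    have e2 := congrArg Prod.snd (e v)
    simp only [Prod.snd_add, Prod.smul_snd, smul_eq_mul, Prod.snd_sub] at e2
    rw [e2]
    simp only [θ]
    field_simp
    ring
  have potθ : ∀ v w, Ins (g p) (g m) (g v) → Ins (g p) (g m) (g w) → pot f v q w / φ ≤
      |D| / φ * |θ w - θ v| * qc ((1 - θ v) * U + θ v * W) ((1 - θ w) * U + θ w * W) := by
    intro v w hv hw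
    obtain ⟨a, b, c⟩ := ins v hv
    obtain ⟨a', b', c'⟩ := ins w hw
    have r := radial (ρ := (g v).1 + (g v).2) (σ := (g w).1 + (g w).2)
      (x := (1 - θ v) * U + θ v * W) (y := (1 - θ w) * U + θ w * W) (by linarith) c.le c'.le
    rw [← yθ v hv, ← yθ w hw] at r
    have e1 : pot f v q w / φ = |D| / φ * |θ w - θ v| * (((g v).1 + (g v).2) * ((g w).1 + (g w).2) *
        qc ((f v).2 - (f q).2) ((f w).2 - (f q).2)) := by
      rw [pot, crθ, dθ v w hv hw, abs_mul, abs_mul, abs_neg,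
        abs_of_pos (show 0 < ((g v).1 + (g v).2) * ((g w).1 + (g w).2) by positivity), qc]
      ring
    rw [e1]
    exact mul_le_mul_of_nonneg_left r (by positivity)
  choose! l r hl hr hb using hB
  have main := card_le_of_intervals F1 (fun c => min (θ c) (min (θ (l c)) (θ (r c))))
    (fun c => max (θ c) (max (θ (l c)) (θ (r c)))) 0 (S.erase m) 1 zero_le_one ?_ ?_
  · rw [Finset.card_erase_of_mem hm, Nat.cast_sub (Finset.card_pos.2 hne)] at main
    refine (by simpa using main : (S.card : ℝ) - 1 ≤ F 1 - F 0).trans (F2.trans (le_of_eq ?_))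
    simp only [pot, ← hD, ← hU, ← hW]
    ring
  · intro c hc
    have c2 := (Finset.mem_erase.1 hc).2
    have i1 := insC c hc
    have i2 := insK c hc _ (hl c c2)
    have i3 := insK c hc _ (hr c c2)
    refine ⟨le_min (t01 _ i1).1 (le_min (t01 _ i2).1 (t01 _ i3).1),
      max_le (t01 _ i1).2 (max_le (t01 _ i2).2 (t01 _ i3).2), ?_⟩
    have q1 := potθ _ _ i1 i2
    have q2 := potθ _ _ i1 i3
    have f1 := F3 (θ c) (θ (l c))
    have f2 := F3 (θ c) (θ (r c))
    have n1 := div_nonneg (pot_nonneg f c q (l c)) hφ.le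
    have n2 := div_nonneg (pot_nonneg f c q (r c)) hφ.le
    rcases hb c c2 with g1 | ⟨g1, g2⟩
    · have := (one_le_div hφ).2 g1
      exact (le_min le_rfl (this.trans q1)).trans (f1.trans (abs_le_span F1 _ _ _))
    · have g3 := (one_le_div hφ).2 g2
      rw [add_div] at g3
      refine le_trans ?_ ((add_le_add f1 f2).trans (abs_add_le_span F1 ?_))
      · simp only [min_def]; split_ifs <;> linarith
      · obtain ⟨a, b, -⟩ := ins _ i1
        obtain ⟨a', b', -⟩ := ins _ i2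
        obtain ⟨a'', b'', -⟩ := ins _ i3
        rw [crθ, crθ, dθ _ _ i1 i2, dθ _ _ i1 i3] at g1
        have hp : 0 < D ^ 2 * (((g c).1 + (g c).2) * ((g (l c)).1 + (g (l c)).2)) *
          (((g c).1 + (g c).2) * ((g (r c)).1 + (g (r c)).2)) := by positivity
        by_contra g4
        have := mul_nonneg hp.le (not_lt.1 g4)
        nlinarith
  · have key : ∀ c ∈ S.erase m, ∀ d ∈ S.erase m, c ≠ d → 0 < dt (g c) (g d) →
        max (θ c) (max (θ (l c)) (θ (r c))) ≤ min (θ d) (min (θ (l d)) (θ (r d))) := by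
      intro c hc d hd cd lt
      have c2 := (Finset.mem_erase.1 hc).2
      have d2 := (Finset.mem_erase.1 hd).2
      have o : ∀ x y, K c x → K d y → θ x ≤ θ d ∧ θ c ≤ θ y ∧ θ x ≤ θ y := fun x y hx hy => by
        obtain ⟨k1, k2, k3, k4⟩ := hK c c2 x hx
        obtain ⟨j1, j2, j3, j4⟩ := hK d d2 y hy
        have i1 := insK c hc x hx
        have i2 := insK d hd y hy
        obtain ⟨o1, o2, o3⟩ := order hg gq gp qp (hS c c2).1 (hS c c2).2 (hS d d2).1 (hS d d2).2 cd
          (b01 c c2).1 (b01 d d2).1 lt ⟨k1, k2, k3, (ins x i1).2.1⟩ ⟨j1, j2, j3, (ins y i2).2.1⟩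
          (fun e => k4 (e ▸ d2)) (fun e => j4 (e ▸ c2)) (fun e => cd (hK2 c d x hx (e ▸ hy)))
        exact ⟨leθ _ _ i1 (insC d hd) o1.le, leθ _ _ (insC c hc) i2 o2.le, leθ _ _ i1 i2 o3⟩
      have o0 := leθ _ _ (insC c hc) (insC d hd) lt.le
      have o1 := o _ _ (hl c c2) (hl d d2)
      have o2 := o _ _ (hl c c2) (hr d d2)
      have o3 := o _ _ (hr c c2) (hl d d2)
      have o4 := o _ _ (hr c c2) (hr d d2)
      simp only [max_le_iff, le_min_iff]
      tauto
    intro c hc d hd cd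
    have c2 := (Finset.mem_erase.1 hc).2
    have d2 := (Finset.mem_erase.1 hd).2
    rcases lt_or_gt_of_ne (dt_ne hg gq (hS c c2).1 (hS d d2).1 cd (b01 c c2).1 (b01 d d2).1) with g1 | g1
    · exact Or.inr (key d hd c hc cd.symm (by rw [dt_swap]; linarith))
    · exact Or.inl (key c hc d hd cd g1)

lemma step_big (h : Pl G f) {q p : V} (qp : G.Adj q p) {S : Finset V} (hc : S.card = 64)
    (hS : ∀ c ∈ S, G.Adj q c ∧ G.Adj p c)
    {K : V → V → Prop} (hK : ∀ c ∈ S, ∀ x, K c x → G.Adj q x ∧ G.Adj c x ∧ x ≠ p ∧ x ∉ S)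
    (hK2 : ∀ c d x, K c x → K d x → c = d) {φ : ℝ} (hφ : 0 < φ)
    (hB : ∀ c ∈ S, ∃ x y, K c x ∧ K c y ∧ Big f φ c q x y) :
    ∃ x ∈ S, ∃ y ∈ S, Big f (120 * φ) q p x y := by
  classical
  have nz : ∀ c ∈ S, cr f q p c ≠ 0 := fun c hc => h.nondeg qp (hS c hc).1 (hS c hc).2
  have sd : ∀ T ⊆ S, T.Nonempty → (∀ c ∈ T, ∀ d ∈ T, 0 < cr f q p c * cr f q p d) →
      ∃ m ∈ T, ((T.card : ℝ) - 1 - 69 / 10) * φ ≤ 2 / 5 * pot f q p m := by
    intro T hT hne sgn
    obtain ⟨m, hm, h1⟩ := side_count h qp hne (fun c hc => hS c (hT hc)) sgn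
      (fun c hc x hx => by
        obtain ⟨k1, k2, k3, k4⟩ := hK c (hT hc) x hx
        exact ⟨k1, k2, k3, fun e => k4 (hT e)⟩) hK2 hφ (fun c hc => hB c (hT hc))
    refine ⟨m, hm, ?_⟩
    rw [← le_div_iff₀ hφ, mul_div_assoc]
    linarith
  have hcard := Finset.card_filter_add_card_filter_not (s := S) (fun c => 0 < cr f q p c)
  set A := S.filter (fun c => 0 < cr f q p c) with hA
  set B := S.filter (fun c => ¬ 0 < cr f q p c) with hB'
  have pA : ∀ c ∈ A, 0 < cr f q p c := fun c hc => (Finset.mem_filter.1 hc).2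
  have pB : ∀ c ∈ B, cr f q p c < 0 := fun c hc =>
    lt_of_le_of_ne (not_lt.1 (Finset.mem_filter.1 hc).2) (nz c (Finset.mem_filter.1 hc).1)
  have sA := fun hne => sd A (Finset.filter_subset _ _) hne
    (fun c hc d hd => mul_pos (pA c hc) (pA d hd))
  have sB := fun hne => sd B (Finset.filter_subset _ _) hne
    (fun c hc d hd => mul_pos_of_neg_of_neg (pB c hc) (pB d hd))
  have hcard' : (A.card : ℝ) + B.card = 64 := by exact_mod_cast hcard.trans hc
  rcases A.eq_empty_or_nonempty with eA | eA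
  · obtain ⟨m, hm, h1⟩ := sB (Finset.card_pos.1 (by simp [eA] at hcard; omega))
    have hm' := (Finset.mem_filter.1 hm).1
    simp only [eA, Finset.card_empty, Nat.cast_zero, zero_add] at hcard'
    rw [hcard'] at h1
    exact ⟨m, hm', m, hm', Or.inl (by linarith)⟩
  rcases B.eq_empty_or_nonempty with eB | eB
  · obtain ⟨m, hm, h1⟩ := sA eA
    have hm' := (Finset.mem_filter.1 hm).1
    simp only [eB, Finset.card_empty, Nat.cast_zero, add_zero] at hcard'
    rw [hcard'] at h1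
    exact ⟨m, hm', m, hm', Or.inl (by linarith)⟩
  obtain ⟨x, hx, h1⟩ := sA eA
  obtain ⟨y, hy, h2⟩ := sB eB
  refine ⟨x, (Finset.mem_filter.1 hx).1, y, (Finset.mem_filter.1 hy).1,
    Or.inr ⟨mul_neg_of_pos_of_neg (pA x hx) (pB y hy), ?_⟩⟩
  obtain e : (B.card : ℝ) = 64 - A.card := by linarith
  rw [e] at h2
  nlinarith

end Pool.Agent.Lib.MP_68dca0_co
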