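import Pool.Agent.Lib.MP_68dca0_co.Minor

namespace Pool.Agent.Lib.MP_68dca0_co

/-- labelled rooted 2-trees -/
inductive LT (V : Type) : Type
  | leaf : LT V
  | add : V → LT V → LT V → LT V → LT V

variable {V : Type}

namespace LT

def verts : LT V → List V
  | .leaf => []
  | .add z l r t => z :: (l.verts ++ (r.verts ++ t.verts))

def eo : LT V → V → V → Multiset (Sym2 V)
  | .leaf, _, _ => 0
  | .add z l r t, u, v => s(u, z) ::ₘ l.eo u z + s(z, v) ::ₘ r.eo z v + t.eo u v

def em (t : LT V) (u v : V) : Multiset (Sym2 V) := s(u, v) ::ₘ t.eo u v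

lemma eo_add (z : V) (l r t : LT V) (u v : V) :
    (add z l r t).eo u v = l.em u z + r.em z v + t.eo u v := rfl

lemma em_add (z : V) (l r t : LT V) (u v : V) :
    (add z l r t).em u v = l.em u z + r.em z v + t.em u v := by
  simp only [em, eo, Multiset.add_cons]

lemma card_eo (t : LT V) : ∀ u v, (t.eo u v).card = 2 * t.verts.length := by
  induction t with
  | leaf => simp [eo, verts]
  | add z l r t i1 i2 i3 => intro u v; simp [eo, verts, i1, i2, i3]; ring

lemma nodup_add {u v z : V} {l r t : LT V} (h : (u :: v :: (add z l r t).verts).Nodup) :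
    (u :: z :: l.verts).Nodup ∧ (z :: v :: r.verts).Nodup ∧ (u :: v :: t.verts).Nodup ∧
    v ∉ l.verts ∧ u ∉ r.verts ∧ z ∉ t.verts ∧ (∀ x ∈ l.verts, x ∉ r.verts ∧ x ∉ t.verts) ∧
    ∀ x ∈ r.verts, x ∉ t.verts := by
  simp only [verts, List.nodup_cons, List.nodup_append, List.mem_cons, List.mem_append] at h ⊢
  grind

lemma mem_eo {t : LT V} : ∀ {u v : V} {e : Sym2 V}, e ∈ t.eo u v →
    (∀ w ∈ e, w = u ∨ w = v ∨ w ∈ t.verts) ∧ ∃ w ∈ e, w ∈ t.verts := by
  induction t with
  | leaf => simp [eo]
  | add z l r t i1 i2 i3 =>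
    intro u v e he
    simp only [eo, Multiset.mem_add, Multiset.mem_cons] at he
    simp only [verts, List.mem_cons, List.mem_append]
    rcases he with ((rfl | he) | rfl | he) | he
    · exact ⟨by simp only [Sym2.mem_iff]; grind, z, by simp, Or.inl rfl⟩
    · have := i1 he; grind
    · exact ⟨by simp only [Sym2.mem_iff]; grind, z, by simp, Or.inl rfl⟩
    · have := i2 he; grind
    · have := i3 he; grind

lemma mem_em {t : LT V} {u v : V} {e : Sym2 V} (h : e ∈ t.em u v) :
    ∀ w ∈ e, w = u ∨ w = v ∨ w ∈ t.verts := by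
  rcases Multiset.mem_cons.1 h with rfl | h
  · simp only [Sym2.mem_iff]; grind
  · exact (mem_eo h).1

lemma covered (t : LT V) : ∀ (u v x : V), x ∈ u :: v :: t.verts → ∃ y, s(x, y) ∈ t.em u v := by
  induction t with
  | leaf =>
    intro u v x hx
    simp only [verts, List.mem_cons, List.not_mem_nil, or_false] at hx
    rcases hx with rfl | rfl
    · exact ⟨v, by simp [em]⟩
    · exact ⟨u, by simp [em]⟩
  | add z l r t i1 i2 i3 =>
    intro u v x hx
    simp only [em_add, Multiset.mem_add]
    simp only [verts, List.mem_cons, List.mem_append] at hx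
    have h1 := i1 u z x
    have h2 := i2 z v x
    have h3 := i3 u v x
    simp only [List.mem_cons] at h1 h2 h3
    grind

lemma ne_of_mem {t : LT V} : ∀ {u v a b : V}, (u :: v :: t.verts).Nodup → s(a, b) ∈ t.em u v →
    a ≠ b := by
  induction t with
  | leaf =>
    intro u v a b h he
    simp only [em, eo, Multiset.mem_cons, Multiset.notMem_zero, or_false, Sym2.eq_iff] at he
    simp only [List.nodup_cons, List.mem_cons] at h
    grind
  | add z l r t i1 i2 i3 =>
    intro u v a b h he
    obtain ⟨h1, h2, h3, -⟩ := nodup_add h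
    simp only [em_add, Multiset.mem_add] at he
    rcases he with (he | he) | he
    · exact i1 h1 he
    · exact i2 h2 he
    · exact i3 h3 he

lemma exists_insert (w a b : V) (t : LT V) : ∀ u v, s(a, b) ∈ t.em u v →
    ∃ t' : LT V, t'.verts.Perm (w :: t.verts) ∧ t'.em u v = s(w, a) ::ₘ s(w, b) ::ₘ t.em u v := by
  induction t with
  | leaf =>
    intro u v he
    simp only [em, eo, Multiset.mem_cons, Multiset.notMem_zero, or_false, Sym2.eq_iff] at he
    refine ⟨add w leaf leaf leaf, by simp [verts], ?_⟩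
    rcases he with ⟨rfl, rfl⟩ | ⟨rfl, rfl⟩ <;>
      simp only [em, eo, Sym2.eq_swap (a := w), ← Multiset.singleton_add] <;> abel
  | add z l r t i1 i2 i3 =>
    intro u v he
    simp only [em_add, Multiset.mem_add] at he
    rcases he with (he | he) | he
    · obtain ⟨l', h1, h2⟩ := i1 u z he
      refine ⟨add z l' r t, ?_, by simp only [em_add, h2, Multiset.cons_add]⟩
      simp only [verts]
      exact ((h1.append_right _).cons z).trans (List.Perm.swap _ _ _)
    · obtain ⟨r', h1, h2⟩ := i2 z v he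
      refine ⟨add z l r' t, ?_, by simp only [em_add, h2, Multiset.cons_add, Multiset.add_cons]⟩
      simp only [verts]
      exact ((((h1.append_right _).append_left _).trans List.perm_middle).cons z).trans
        (List.Perm.swap _ _ _)
    · obtain ⟨t', h1, h2⟩ := i3 u v he
      refine ⟨add z l r t', ?_, by simp only [em_add, h2, Multiset.add_cons]⟩
      simp only [verts]
      exact (((((h1.append_left _).trans List.perm_middle).append_left _).trans
        List.perm_middle).cons z).trans (List.Perm.swap _ _ _)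

lemma model_elim {G : SimpleGraph V} (t : LT V) : ∀ (u v : V) (S : Set V),
    (u :: v :: t.verts).Nodup → (∀ a b, s(a, b) ∈ t.em u v → G.Adj a b) →
    (∀ w ∈ t.verts, ∀ x ∈ S, G.Adj w x → s(w, x) ∈ t.eo u v) → Model G S →
    Model G (S \ {x | x ∈ t.verts}) := by
  induction t with
  | leaf => intro u v S _ _ _ h; simpa [verts] using h
  | add z l r t i1 i2 i3 =>
    intro u v S hn ha hb h
    obtain ⟨n1, n2, n3, n4, n5, n6, n7, n8⟩ := nodup_add hn
    simp only [em_add, Multiset.mem_add] at ha
    simp only [List.nodup_cons, List.mem_cons] at n1 n2 n3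
    have hb' : ∀ w ∈ (add z l r t).verts, ∀ x ∈ S, G.Adj w x →
        (s(w, x) = s(u, z) ∨ s(w, x) ∈ l.eo u z) ∨ (s(w, x) = s(z, v) ∨ s(w, x) ∈ r.eo z v) ∨
          s(w, x) ∈ t.eo u v := by
      intro w hw x hx h1
      simpa only [eo, Multiset.mem_add, Multiset.mem_cons, or_assoc] using hb w hw x hx h1
    simp only [verts, List.mem_cons, List.mem_append, Sym2.eq_iff] at hb'
    have m1 : ∀ w x, s(w, x) ∈ l.eo u z → (w = u ∨ w = z ∨ w ∈ l.verts) ∧
        (w ∈ l.verts ∨ x ∈ l.verts) := fun w x h => by simpa using mem_eo h |>.imp (fun h => h w (by simp)) id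
    have m2 : ∀ w x, s(w, x) ∈ r.eo z v → (w = z ∨ w = v ∨ w ∈ r.verts) ∧
        (w ∈ r.verts ∨ x ∈ r.verts) := fun w x h => by simpa using mem_eo h |>.imp (fun h => h w (by simp)) id
    have m3 : ∀ w x, s(w, x) ∈ t.eo u v → (w = u ∨ w = v ∨ w ∈ t.verts) :=
      fun w x h => (mem_eo h).1 w (by simp)
    have h1 := i1 u z S (nodup_add hn).1 (fun a b h => ha a b (Or.inl (Or.inl h)))
      (fun w hw x hx h1 => by
        have := hb' w (by tauto) x hx h1
        have := m2 w x
        have := m3 w x
        have := n7 w hw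
        grind) h
    have h2 := i2 z v _ (nodup_add hn).2.1 (fun a b h => ha a b (Or.inl (Or.inr h)))
      (fun w hw x hx h1 => by
        have := hb' w (by tauto) x hx.1 h1
        have := m1 w x
        have := m3 w x
        have := n7 w
        have := n8 w hw
        grind) h1
    have h3 := h2.elim (w := z) (a := u) (b := v) (ha u v (Or.inr (by simp [em])))
      (fun x hx h1 => by
        have := hb' z (by tauto) x hx.1.1 h1
        have := m1 z x
        have := m2 z x
        have := m3 z x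
        have e1 : x ∉ l.verts := hx.1.2
        have e2 : x ∉ r.verts := hx.2
        grind)
    have h4 := i3 u v _ (nodup_add hn).2.2.1 (fun a b h => ha a b (Or.inr h))
      (fun w hw x hx h1 => by
        have := hb' w (by tauto) x hx.1.1.1 h1
        have := m1 w x
        have := m2 w x
        have := n7 w
        have := n8 w
        grind) h3
    refine h4.mono fun x hx => ⟨hx.1.1.1.1, ?_⟩
    have e1 : x ∉ l.verts := hx.1.1.1.2
    have e2 : x ∉ r.verts := hx.1.1.2
    have e3 : x ≠ z := hx.1.2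
    have e4 : x ∉ t.verts := hx.2
    simp [verts, e1, e2, e3, e4]

/-- the graph of a 2-tree -/
def graph (t : LT V) (u v : V) : SimpleGraph V := SimpleGraph.fromEdgeSet {e | e ∈ t.em u v}

lemma not_minor {t : LT V} {u v : V} (hn : (u :: v :: t.verts).Nodup)
    (hc : ∀ x, x ∈ u :: v :: t.verts) : ¬ HasK4Minor (t.graph u v) := by
  rw [hasK4Minor_iff]
  intro h
  refine not_model_pair u v ((t.model_elim u v _ hn (fun a b h => ?_) (fun w hw x _ h => ?_) h).mono
    fun x hx => ?_)
  · exact (SimpleGraph.fromEdgeSet_adj _).2 ⟨h, ne_of_mem hn h⟩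
  · have h1 : s(w, x) ∈ t.em u v := ((SimpleGraph.fromEdgeSet_adj _).1 h).1
    simp only [em, Multiset.mem_cons, Sym2.eq_iff] at h1
    simp only [List.nodup_cons, List.mem_cons] at hn
    grind
  · have h1 := hc x
    have h2 : x ∉ t.verts := hx.2
    simp only [List.mem_cons] at h1
    simp only [Set.mem_insert_iff, Set.mem_singleton_iff]
    tauto

end LT

/-- graphs without a `K_4` minor are spanning subgraphs of 2-trees -/
theorem exists_tree (n : ℕ) : ∀ (G : SimpleGraph V) (S : Finset V), S.card = n + 2 → ¬ Model G S →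
    ∃ (u v : V) (t : LT V), (u :: v :: t.verts).Nodup ∧ (∀ x, x ∈ S ↔ x ∈ u :: v :: t.verts) ∧
      ∀ x ∈ S, ∀ y ∈ S, G.Adj x y → s(x, y) ∈ t.em u v := by
  classical
  induction n with
  | zero =>
    intro G S hS _
    obtain ⟨u, v, huv, rfl⟩ := Finset.card_eq_two.1 hS
    refine ⟨u, v, .leaf, by simpa [LT.verts] using huv, by simp [LT.verts], ?_⟩
    intro x hx y hy h
    have := h.ne
    simp only [Finset.mem_insert, Finset.mem_singleton] at hx hy
    simp only [LT.em, LT.eo, Multiset.mem_cons, Sym2.eq_iff]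
    grind
  | succ n ih =>
    intro G S hS hM
    obtain ⟨w, hw, a, b, hab⟩ : ∃ w ∈ S, ∃ a b, ∀ x ∈ S, G.Adj w x → x = a ∨ x = b := by
      by_contra h
      push Not at h
      exact hM (dirac (Finset.card_pos.1 (by omega)) h)
    have hc : (S.erase w).card = n + 2 := by rw [Finset.card_erase_of_mem hw]; omega
    have fin : ∀ (u v : V) (t : LT V) (a b : V), (u :: v :: t.verts).Nodup →
        (∀ x, x ∈ S.erase w ↔ x ∈ u :: v :: t.verts) →
        (∀ x ∈ S.erase w, ∀ y ∈ S.erase w, G.Adj x y → s(x, y) ∈ t.em u v) → s(a, b) ∈ t.em u v →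
        (∀ x ∈ S, G.Adj w x → x = a ∨ x = b) →
        ∃ (u v : V) (t : LT V), (u :: v :: t.verts).Nodup ∧ (∀ x, x ∈ S ↔ x ∈ u :: v :: t.verts) ∧
          ∀ x ∈ S, ∀ y ∈ S, G.Adj x y → s(x, y) ∈ t.em u v := by
      intro u v t a b h1 h2 h3 h4 h5
      obtain ⟨t', p1, p2⟩ := LT.exists_insert w a b t u v h4
      have p3 : (u :: v :: t'.verts).Perm (w :: u :: v :: t.verts) :=
        ((p1.cons v).cons u).trans (((List.Perm.swap _ _ _).cons u).trans (List.Perm.swap _ _ _))
      refine ⟨u, v, t', p3.nodup_iff.2 (List.nodup_cons.2 ⟨by rw [← h2]; simp, h1⟩), fun x => ?_,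
        fun x hx y hy h => ?_⟩
      · rw [p3.mem_iff, List.mem_cons, ← h2, Finset.mem_erase]
        grind
      · rw [p2, Multiset.mem_cons, Multiset.mem_cons]
        by_cases e1 : x = w
        · subst e1
          rcases h5 y hy h with rfl | rfl <;> simp
        by_cases e2 : y = w
        · subst e2
          rcases h5 x hx h.symm with rfl | rfl <;> simp
        exact Or.inr (Or.inr (h3 x (by simp [e1, hx]) y (by simp [e2, hy]) h))
    by_cases h1 : a ≠ b ∧ a ∈ S ∧ b ∈ S ∧ G.Adj w a ∧ G.Adj w b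
    · obtain ⟨h1, h2, h3, h4, h5⟩ := h1
      obtain ⟨u, v, t, g1, g2, g3⟩ := ih (G ⊔ SimpleGraph.edge a b) (S.erase w) hc (fun h =>
        hM (Model.contract (by simpa using h) hw h4 h5))
      exact fin u v t a b g1 g2 (fun x hx y hy h => g3 x hx y hy (Or.inl h))
        (g3 a (by simp [h2, h4.ne.symm]) b (by simp [h3, h5.ne.symm])
          (Or.inr ((SimpleGraph.edge_adj _ _ _ _).2 ⟨Or.inl ⟨rfl, rfl⟩, h1⟩))) hab
    · obtain ⟨u, v, t, g1, g2, g3⟩ := ih G (S.erase w) hc (fun h => hM (h.mono (by simp)))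
      obtain ⟨c, hc1, hc2⟩ : ∃ c ∈ S.erase w, ∀ x ∈ S, G.Adj w x → x = c := by
        by_cases h2 : ∃ c ∈ S, G.Adj w c
        · obtain ⟨c, h2, h3⟩ := h2
          refine ⟨c, by simp [h2, h3.ne.symm], fun x hx h4 => ?_⟩
          have := hab c h2 h3
          have := hab x hx h4
          grind
        · exact ⟨u, (g2 u).2 (by simp), fun x hx h => absurd ⟨x, hx, h⟩ h2⟩
      obtain ⟨y, hy⟩ := t.covered u v c ((g2 c).1 hc1)
      exact fin u v t c y g1 g2 g3 hy (fun x hx h => Or.inl (hc2 x hx h))

end Pool.Agent.Lib.MP_68dca0_co
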