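import Mathlib

namespace Pool.Agent.Lib.MP_68dca0_co.Up

abbrev P2 := ℝ × ℝ

def cr (a b c : P2) : ℝ := (b.1 - a.1) * (c.2 - a.2) - (b.2 - a.2) * (c.1 - a.1)

def Tri (a b c : P2) : Set P2 := {x | 0 < cr a b x ∧ 0 < cr b c x ∧ 0 < cr c a x}

lemma cr_rot (a b c : P2) : cr b c a = cr a b c := by unfold cr; ring
lemma cr_swap (a b c : P2) : cr b a c = - cr a b c := by unfold cr; ring
lemma cr_l (a b : P2) : cr a b a = 0 := by unfold cr; ring
lemma cr_r (a b : P2) : cr a b b = 0 := by unfold cr; ring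

lemma bary (p q w x a b : P2) : (cr q w x + cr w p x + cr p q x) * cr a b x =
    cr q w x * cr a b p + cr w p x * cr a b q + cr p q x * cr a b w := by unfold cr; ring

lemma pos3 {p q w x a b : P2} (hx : x ∈ Tri p q w) (hp : 0 ≤ cr a b p) (hq : 0 ≤ cr a b q)
    (hw : 0 ≤ cr a b w) (h : 0 < cr a b p + cr a b q + cr a b w) : 0 < cr a b x := by
  obtain ⟨h1, h2, h3⟩ := hx
  have k := bary p q w x a b
  have e1 := mul_nonneg h2.le hp
  have e2 := mul_nonneg h3.le hq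
  have e3 := mul_nonneg h1.le hw
  have : 0 < cr q w x * cr a b p + cr w p x * cr a b q + cr p q x * cr a b w := by
    rcases hp.lt_or_eq with h4 | h4
    · have := mul_pos h2 h4; linarith
    rcases hq.lt_or_eq with h5 | h5
    · have := mul_pos h3 h5; linarith
    have := mul_pos h1 (show 0 < cr a b w by linarith); linarith
  rw [← k] at this
  exact (pos_iff_pos_of_mul_pos this).1 (by linarith)

lemma pos2 {p q w x a b : P2} (h1 : 0 < cr p q x) (h2 : 0 ≤ cr q w x) (h3 : 0 ≤ cr w p x)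
    (hp : 0 ≤ cr a b p) (hq : 0 ≤ cr a b q) (hw : 0 < cr a b w) : 0 < cr a b x := by
  have k := bary p q w x a b
  have e1 := mul_nonneg h2 hp
  have e2 := mul_nonneg h3 hq
  have e3 := mul_pos h1 hw
  have : 0 < (cr q w x + cr w p x + cr p q x) * cr a b x := by linarith
  exact (pos_iff_pos_of_mul_pos this).1 (by linarith)

inductive Sh : Type
  | leaf : Sh
  | add : Sh → Sh → Sh → Sh

namespace Sh

def sz : Sh → ℕ
  | leaf => 0
  | add A B C => A.sz + B.sz + C.sz + 1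

def flip : Sh → Sh
  | leaf => leaf
  | add A B C => add B.flip A.flip C.flip

def Small (t : ℝ) : Sh → Prop
  | leaf => True
  | add A B C => (A.sz : ℝ) + B.sz + 1 < t ∧ C.Small t

@[simp] lemma sz_flip (s : Sh) : s.flip.sz = s.sz := by
  induction s with
  | leaf => rfl
  | add A B C i1 i2 i3 => simp only [flip, sz, i1, i2, i3]; omega

@[simp] lemma flip_flip (s : Sh) : s.flip.flip = s := by
  induction s with
  | leaf => rfl
  | add A B C i1 i2 i3 => simp only [flip, i1, i2, i3]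

lemma Small.flip {t : ℝ} {s : Sh} (h : s.Small t) : s.flip.Small t := by
  induction s with
  | leaf => trivial
  | add A B C i1 i2 i3 =>
    refine ⟨?_, i3 h.2⟩
    have := h.1
    simp only [sz_flip]; linarith

end Sh

open Sh

def Lab : Sh → P2 → P2 → Multiset P2 → Multiset (Sym2 P2) → Prop
  | .leaf, _, _, l, E => l = 0 ∧ E = 0
  | .add A B C, u, v, l, E => ∃ z lA EA lB EB lC EC, Lab A u z lA EA ∧ Lab B z v lB EB ∧
      Lab C u v lC EC ∧ l = {z} + lA + lB + lC ∧ E = {s(u, z)} + {s(z, v)} + EA + EB + EC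

lemma Lab.flip {s : Sh} : ∀ {u v l E}, Lab s u v l E → Lab s.flip v u l E := by
  induction s with
  | leaf => intro u v l E h; exact h
  | add A B C i1 i2 i3 =>
    rintro u v l E ⟨z, lA, EA, lB, EB, lC, EC, h1, h2, h3, rfl, rfl⟩
    refine ⟨z, lB, EB, lA, EA, lC, EC, i2 h2, i1 h1, i3 h3, by abel, ?_⟩
    rw [Sym2.eq_swap (a := v), Sym2.eq_swap (a := z) (b := u)]
    abel

lemma Lab.map (f : P2 → P2) {s : Sh} : ∀ {u v l E}, Lab s u v l E →
    Lab s (f u) (f v) (l.map f) (E.map (Sym2.map f)) := by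
  induction s with
  | leaf => rintro u v l E ⟨rfl, rfl⟩; exact ⟨rfl, rfl⟩
  | add A B C i1 i2 i3 =>
    rintro u v l E ⟨z, lA, EA, lB, EB, lC, EC, h1, h2, h3, rfl, rfl⟩
    exact ⟨f z, _, _, _, _, _, _, i1 h1, i2 h2, i3 h3, by simp, by simp⟩

def sg (e : Sym2 P2) : Set P2 := Sym2.lift ⟨fun a b => segment ℝ a b, segment_symm ℝ⟩ e

lemma sg_mk (a b : P2) : sg s(a, b) = segment ℝ a b := rfl

def Good (Γ : Set P2) (P Q : P2) (K : Set P2) (l : Multiset P2) (E : Multiset (Sym2 P2)) : Prop :=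
  l.Nodup ∧ (∀ w ∈ l, w ∈ K ∧ w ∈ Γ) ∧
  (∀ e ∈ E, ∀ x ∈ sg e, x ∈ K ∨ (x ∈ e ∧ (x = P ∨ x = Q))) ∧
  ∀ e ∈ E, ∀ e' ∈ E, ∀ x ∈ sg e, x ∈ sg e' → e = e' ∨ (x ∈ e ∧ x ∈ e')

def D (Γ : Set P2) (s : Sh) (P Q : P2) (K : Set P2) : Prop :=
  ∃ l E, Lab s P Q l E ∧ Good Γ P Q K l E

variable {Γ : Set P2} {s : Sh} {P Q : P2} {K K' : Set P2}

lemma D.leaf : D Γ .leaf P Q K := ⟨0, 0, ⟨rfl, rfl⟩, by simp, by simp, by simp, by simp⟩

lemma D.mono (h : D Γ s P Q K) (hK : K ⊆ K') : D Γ s P Q K' := by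
  obtain ⟨l, E, h0, h1, h2, h3, h4⟩ := h
  exact ⟨l, E, h0, h1, fun w hw => ⟨hK (h2 w hw).1, (h2 w hw).2⟩,
    fun e he x hx => (h3 e he x hx).imp (fun h => hK h) id, h4⟩

lemma D.flip (h : D Γ s P Q K) : D Γ s.flip Q P K := by
  obtain ⟨l, E, h0, h1, h2, h3, h4⟩ := h
  exact ⟨l, E, h0.flip, h1, h2,
    fun e he x hx => (h3 e he x hx).imp id (fun h => ⟨h.1, h.2.symm⟩), h4⟩

lemma D.unflip (h : D Γ s.flip P Q K) : D Γ s Q P K := by simpa using h.flip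

lemma glue {A B C : Sh} {p q w : P2} {KA KB KC : Set P2} (hA : D Γ A p w KA) (hB : D Γ B w q KB)
    (hC : D Γ C p q KC) (hw : w ∈ Γ) (hwK : w ∈ K)
    (h1 : ∀ x ∈ sg s(p, w), (x ∈ K ∨ x = p) ∧ x ∉ KA ∧ x ∉ KB ∧ x ∉ KC ∧ x ≠ q ∧
      (x ∈ sg s(w, q) → x = w))
    (h2 : ∀ x ∈ sg s(w, q), (x ∈ K ∨ x = q) ∧ x ∉ KA ∧ x ∉ KB ∧ x ∉ KC ∧ x ≠ p)
    (h3 : ∀ x, (x ∈ KA → x ∈ K ∧ x ∉ KB ∧ x ∉ KC) ∧ (x ∈ KB → x ∈ K ∧ x ∉ KC) ∧ (x ∈ KC → x ∈ K)) :
    D Γ (.add A B C) p q K := by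
  obtain ⟨lA, EA, a0, a1, a2, a3, a4⟩ := hA
  obtain ⟨lB, EB, b0, b1, b2, b3, b4⟩ := hB
  obtain ⟨lC, EC, c0, c1, c2, c3, c4⟩ := hC
  have kp := h1 p (left_mem_segment ℝ p w)
  have kw := h1 w (right_mem_segment ℝ p w)
  have kw' := h2 w (left_mem_segment ℝ w q)
  have kq := h2 q (right_mem_segment ℝ w q)
  refine ⟨_, _, ⟨w, lA, EA, lB, EB, lC, EC, a0, b0, c0, rfl, rfl⟩, ?_, ?_, ?_, ?_⟩
  · simp only [Multiset.nodup_add, Multiset.nodup_singleton, Multiset.disjoint_left,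
      Multiset.mem_add, Multiset.mem_singleton]
    refine ⟨⟨⟨trivial, a1, ?_⟩, b1, ?_⟩, c1, ?_⟩ <;> grind
  · simp only [Multiset.mem_add, Multiset.mem_singleton]
    grind
  · simp only [Multiset.mem_add, Multiset.mem_singleton]
    rintro e ((((rfl | rfl) | he) | he) | he) x hx
    · have := h1 x hx; simp only [Sym2.mem_iff]; grind
    · have := h2 x hx; simp only [Sym2.mem_iff]; grind
    · have := a3 e he x hx; grind
    · have := b3 e he x hx; grind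
    · have := c3 e he x hx; grind
  · simp only [Multiset.mem_add, Multiset.mem_singleton]
    have k : ∀ e, ((((e = s(p, w) ∨ e = s(w, q)) ∨ e ∈ EA) ∨ e ∈ EB) ∨ e ∈ EC) → ∀ x ∈ sg e,
        (e = s(p, w) ∧ (x = p ∨ x = w → x ∈ e) ∧ x ∉ KA ∧ x ∉ KB ∧ x ∉ KC ∧ x ≠ q ∧
          (x ∈ sg s(w, q) → x = w)) ∨
        (e = s(w, q) ∧ (x = w ∨ x = q → x ∈ e) ∧ x ∉ KA ∧ x ∉ KB ∧ x ∉ KC ∧ x ≠ p) ∨
        (e ∈ EA ∧ (x ∈ KA ∨ (x ∈ e ∧ (x = p ∨ x = w)))) ∨
        (e ∈ EB ∧ (x ∈ KB ∨ (x ∈ e ∧ (x = w ∨ x = q)))) ∨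
        (e ∈ EC ∧ (x ∈ KC ∨ (x ∈ e ∧ (x = p ∨ x = q)))) := by
      rintro e ((((rfl | rfl) | he) | he) | he) x hx
      · have := h1 x hx; simp only [Sym2.mem_iff]; grind
      · have := h2 x hx; simp only [Sym2.mem_iff]; grind
      · have := a3 e he x hx; grind
      · have := b3 e he x hx; grind
      · have := c3 e he x hx; grind
    intro e he e' he' x hx hx'
    have k1 := k e he x hx
    have k2 := k e' he' x hx'
    have k3 := h3 x
    have k4 := fun h h' => a4 e h e' h' x hx hx'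
    have k5 := fun h h' => b4 e h e' h' x hx hx'
    have k6 := fun h h' => c4 e h e' h' x hx hx'
    clear k h1 h2 h3 a4 b4 c4 a3 b3 c3 a2 b2 c2 a1 b1 c1 a0 b0 c0 he he'
    grind

lemma seg_cr {a b x : P2} (h : x ∈ segment ℝ a b) :
    ∃ t, 0 ≤ t ∧ t ≤ 1 ∧ (t = 0 → x = a) ∧ (t = 1 → x = b) ∧
      ∀ c d, cr c d x = (1 - t) * cr c d a + t * cr c d b := by
  obtain ⟨s, t, h1, h2, h3, rfl⟩ := h
  obtain rfl : s = 1 - t := by linarith
  refine ⟨t, h2, by linarith, by rintro rfl; simp, by rintro rfl; simp, fun c d => ?_⟩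
  simp only [cr, Prod.fst_add, Prod.snd_add, Prod.smul_fst, Prod.smul_snd, smul_eq_mul]
  ring

lemma comp {A B C : Sh} {p q w c : P2} {KA : Set P2} (hw : w ∈ Γ) (h0 : 0 < cr p q w)
    (c1 : 0 ≤ cr p q c) (c2 : 0 ≤ cr q w c) (c3 : 0 ≤ cr w p c)
    (hA : D Γ A p w KA) (hB : D Γ B w q (Tri q w c)) (hC : D Γ C p q (Tri p q c))
    (hKA : ∀ x ∈ KA, (x ∈ K ∧ 0 < cr p w x) ∨ x ∈ Tri w p c)
    (hK : ∀ x, 0 < cr p q x → 0 ≤ cr q w x → 0 ≤ cr w p x → x ∈ K) :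
    D Γ (.add A B C) p q K := by
  have o1 : cr q w p = cr p q w := cr_rot _ _ _
  have o2 : cr w p q = cr p q w := by rw [← o1]; exact cr_rot _ _ _
  have fA : ∀ x ∈ Tri w p c, 0 < cr p q x ∧ 0 < cr q w x ∧ 0 < cr w p x := fun x hx =>
    ⟨pos3 hx h0.le (by rw [cr_l]) c1 (by rw [cr_l]; linarith),
      pos3 hx (by rw [cr_r]) (by linarith) c2 (by rw [cr_r]; linarith), hx.1⟩
  have fB : ∀ x ∈ Tri q w c, 0 < cr p q x ∧ 0 < cr q w x ∧ 0 < cr w p x := fun x hx =>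
    ⟨pos3 hx (by rw [cr_r]) h0.le c1 (by rw [cr_r]; linarith), hx.1,
      pos3 hx (by linarith) (by rw [cr_l]) c3 (by rw [cr_l]; linarith)⟩
  have fC : ∀ x ∈ Tri p q c, 0 < cr p q x ∧ 0 < cr q w x ∧ 0 < cr w p x := fun x hx =>
    ⟨hx.1, pos3 hx (by linarith) (by rw [cr_l]) c2 (by rw [cr_l]; linarith),
      pos3 hx (by rw [cr_r]) (by linarith) c3 (by rw [cr_r]; linarith)⟩
  refine glue hA hB hC hw (hK w h0 (by rw [cr_r]) (by rw [cr_l])) (fun x hx => ?_)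
    (fun x hx => ?_) (fun x => ⟨fun h => ?_, fun h => ?_, fun h => ?_⟩)
  · obtain ⟨t, t0, t1, t2, t3, t4⟩ := seg_cr hx
    have e1 := t4 p q
    have e2 := t4 q w
    have e3 := t4 w p
    simp only [cr_l, cr_r, o1, mul_zero, add_zero, zero_add] at e1 e2 e3
    have e4 : 0 ≤ cr q w x := by rw [e2]; exact mul_nonneg (by linarith) h0.le
    refine ⟨?_, fun h => ?_, fun h => ?_, fun h => ?_, ?_, fun h => ?_⟩
    · rcases t0.lt_or_eq with h | h
      · exact Or.inl (hK x (by rw [e1]; positivity) e4 e3.ge)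
      · exact Or.inr (t2 h.symm)
    · rcases hKA x h with h | h
      · have := cr_swap p w x; linarith [h.2]
      · linarith [h.1]
    · linarith [(fB x h).2.2]
    · linarith [(fC x h).2.2]
    · rintro rfl; linarith
    · obtain ⟨t', -, -, -, -, t5⟩ := seg_cr h
      have e5 := t5 q w
      simp only [cr_l, cr_r, mul_zero, add_zero] at e5
      rw [e5] at e2
      rcases mul_eq_zero.1 e2.symm with h | h
      · exact t3 (by linarith)
      · linarith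
  · obtain ⟨t, t0, t1, t2, t3, t4⟩ := seg_cr hx
    have e1 := t4 p q
    have e2 := t4 q w
    have e3 := t4 w p
    simp only [cr_l, cr_r, o2, mul_zero, add_zero, zero_add] at e1 e2 e3
    have e4 : 0 ≤ cr w p x := by rw [e3]; exact mul_nonneg t0 h0.le
    refine ⟨?_, fun h => ?_, fun h => ?_, fun h => ?_, ?_⟩
    · rcases t1.lt_or_eq with h | h
      · exact Or.inl (hK x (by rw [e1]; exact mul_pos (by linarith) h0) e2.ge e4)
      · exact Or.inr (t3 h)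
    · rcases hKA x h with h | h
      · have := cr_swap p w x; linarith [h.2]
      · linarith [(fA x h).2.1]
    · linarith [h.1]
    · linarith [(fC x h).2.1]
    · rintro rfl; linarith
  · rcases hKA x h with h | h
    · have := cr_swap p w x
      exact ⟨h.1, fun h' => by linarith [h.2, (fB x h').2.2], fun h' => by linarith [h.2, (fC x h').2.2]⟩
    · obtain ⟨e1, e2, e3⟩ := fA x h
      refine ⟨hK x e1 e2.le e3.le, fun h' => ?_, fun h' => ?_⟩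
      · have := cr_swap w c x; linarith [h.2.2, h'.2.1]
      · have := cr_swap p c x; linarith [h.2.1, h'.2.2]
  · obtain ⟨e1, e2, e3⟩ := fB x h
    refine ⟨hK x e1 e2.le e3.le, fun h' => ?_⟩
    have := cr_swap q c x; linarith [h.2.2, h'.2.1]
  · obtain ⟨e1, e2, e3⟩ := fC x h
    exact hK x e1 e2.le e3.le

/-- transport -/
def af (e σ t e' t' : ℝ) (p : P2) : P2 := (e * p.1 + σ * p.2 + t, e' * p.2 + t')

lemma D.map (f : P2 → P2) (hf : Function.Injective f)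
    (hs : ∀ a b, ∀ x ∈ segment ℝ (f a) (f b), ∃ y ∈ segment ℝ a b, f y = x)
    (h : D (f ⁻¹' Γ) s P Q K) (hK : ∀ x ∈ K, f x ∈ K') : D Γ s (f P) (f Q) K' := by
  obtain ⟨l, E, h0, h1, h2, h3, h4⟩ := h
  have hs' : ∀ e, ∀ x ∈ sg (Sym2.map f e), ∃ y ∈ sg e, f y = x := by
    intro e; induction e with | _ a b => exact hs a b
  refine ⟨_, _, h0.map f, h1.map hf, ?_, ?_, ?_⟩
  · simp only [Multiset.mem_map]
    rintro _ ⟨w, hw, rfl⟩
    exact ⟨hK w (h2 w hw).1, (h2 w hw).2⟩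
  · simp only [Multiset.mem_map]
    rintro _ ⟨e, he, rfl⟩ x hx
    obtain ⟨y, hy, rfl⟩ := hs' e x hx
    rcases h3 e he y hy with h | h
    · exact Or.inl (hK y h)
    · exact Or.inr ⟨Sym2.mem_map.2 ⟨y, h.1, rfl⟩, h.2.imp (congrArg f) (congrArg f)⟩
  · simp only [Multiset.mem_map]
    rintro _ ⟨e, he, rfl⟩ _ ⟨e', he', rfl⟩ x hx hx'
    obtain ⟨y, hy, rfl⟩ := hs' e x hx
    obtain ⟨y', hy', h⟩ := hs' e' _ hx'
    obtain rfl := hf h
    rcases h4 e he e' he' y' hy hy' with h | h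
    · exact Or.inl (by rw [h])
    · exact Or.inr ⟨Sym2.mem_map.2 ⟨y', h.1, rfl⟩, Sym2.mem_map.2 ⟨y', h.2, rfl⟩⟩

lemma D.af {e σ t e' t' : ℝ} (he : e ≠ 0) (he' : e' ≠ 0)
    (h : D (af e σ t e' t' ⁻¹' Γ) s P Q K) (hK : ∀ x ∈ K, af e σ t e' t' x ∈ K') :
    D Γ s (af e σ t e' t' P) (af e σ t e' t' Q) K' := by
  refine h.map _ (fun a b h => ?_) (fun a b x hx => ?_) hK
  · simp only [Up.af, Prod.mk.injEq] at h
    have h2 : a.2 = b.2 := mul_left_cancel₀ he' (by linarith [h.2])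
    have h1 : a.1 = b.1 := mul_left_cancel₀ he (by have := h.1; rw [h2] at this; linarith)
    exact Prod.ext h1 h2
  · obtain ⟨r, r', h1, h2, h3, rfl⟩ := hx
    refine ⟨_, ⟨r, r', h1, h2, h3, rfl⟩, ?_⟩
    obtain rfl : r = 1 - r' := by linarith
    ext <;> simp [Up.af] <;> ring

lemma cr_af (e σ t e' t' : ℝ) (a b c : P2) :
    cr (af e σ t e' t' a) (af e σ t e' t' b) (af e σ t e' t' c) = e * e' * cr a b c := by
  simp only [cr, af]; ring

def Row (Γ : Set P2) (y : ℝ) : Prop := ∀ X0 : ℝ, ∃ X, X0 ≤ X ∧ X ≤ X0 + 1 ∧ (X, y) ∈ Γ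

def Lat (Γ : Set P2) : Prop := ∀ y0 : ℝ, ∃ y, y0 ≤ y ∧ y ≤ y0 + 1 ∧ Row Γ y

lemma Row.pre {e σ t e' t' y : ℝ} (he : e = 1 ∨ e = -1) (h : Row Γ (e' * y + t')) :
    Row (af e σ t e' t' ⁻¹' Γ) y := by
  intro X0
  rcases he with rfl | rfl
  · obtain ⟨X, h1, h2, h3⟩ := h (X0 + σ * y + t)
    refine ⟨X - σ * y - t, by linarith, by linarith, ?_⟩
    simp only [Set.mem_preimage, af]
    convert h3 using 2; ring
  · obtain ⟨X, h1, h2, h3⟩ := h (-X0 - 1 + σ * y + t)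
    refine ⟨-(X - σ * y - t), by linarith, by linarith, ?_⟩
    simp only [Set.mem_preimage, af]
    convert h3 using 2; ring

lemma Lat.pre {e σ t e' t' : ℝ} (he : e = 1 ∨ e = -1) (he' : e' = 1 ∨ e' = -1) (h : Lat Γ) :
    Lat (af e σ t e' t' ⁻¹' Γ) := by
  intro y0
  rcases he' with rfl | rfl
  · obtain ⟨y, h1, h2, h3⟩ := h (y0 + t')
    exact ⟨y - t', by linarith, by linarith, Row.pre he (by convert h3 using 1; ring)⟩
  · obtain ⟨y, h1, h2, h3⟩ := h (-y0 - 1 + t')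
    exact ⟨-(y - t'), by linarith, by linarith, Row.pre he (by convert h3 using 1; ring)⟩

def N (s : Sh) (E g W : ℝ) : Prop :=
  ∀ Γ, Lat Γ → D Γ s (0, E) (0, 0) (Tri (0, E) (0, 0) (W, g))

def NF (s : Sh) (h g W : ℝ) : Prop :=
  ∀ Γ, Lat Γ → D Γ s (0, 0) (W, h) (Tri (0, 0) (W, h) (0, h + g))

lemma tri_af {e σ t e' t' : ℝ} (h : e * e' = 1) {a b c : P2} : ∀ x ∈ Tri a b c,
    af e σ t e' t' x ∈ Tri (af e σ t e' t' a) (af e σ t e' t' b) (af e σ t e' t' c) := by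
  intro x hx
  simpa only [Tri, Set.mem_ofPred_eq, cr_af, h, one_mul] using hx

lemma tri_af' {e σ t e' t' : ℝ} (h : e * e' = -1) {a b c : P2} : ∀ x ∈ Tri a b c,
    af e σ t e' t' x ∈ Tri (af e σ t e' t' b) (af e σ t e' t' a) (af e σ t e' t' c) := by
  intro x hx
  simp only [Tri, Set.mem_ofPred_eq, cr_af, h, neg_mul, one_mul, ← cr_swap]
  exact ⟨hx.1, hx.2.2, hx.2.1⟩

lemma N.right {E g W : ℝ} {z : P2} (h : N s E g W) (hΓ : Lat Γ) (hE : 0 < E) (h1 : P.2 - Q.2 = E)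
    (h2 : z.2 - Q.2 = g) (h3 : cr P Q z = W * E) : D Γ s P Q (Tri P Q z) := by
  have := (h _ (hΓ.pre (e := 1) (σ := (P.1 - Q.1) / E) (t := Q.1) (e' := 1) (t' := Q.2)
    (Or.inl rfl) (Or.inl rfl))).af one_ne_zero one_ne_zero (tri_af (by norm_num))
  have e1 : af 1 ((P.1 - Q.1) / E) Q.1 1 Q.2 (0, E) = P := by
    ext <;> simp only [af] <;> [field_simp; skip] <;> linarith
  have e2 : af 1 ((P.1 - Q.1) / E) Q.1 1 Q.2 (0, 0) = Q := by ext <;> simp [af]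
  have e3 : af 1 ((P.1 - Q.1) / E) Q.1 1 Q.2 (W, g) = z := by
    subst h1 h2
    unfold cr at h3
    ext <;> simp only [af] <;> [field_simp; skip] <;> linarith
  rwa [e1, e2, e3] at this

lemma N.left {E g W : ℝ} {z : P2} (h : N s E g W) (hΓ : Lat Γ) (hE : 0 < E) (h1 : P.2 - Q.2 = E)
    (h2 : z.2 - Q.2 = g) (h3 : cr Q P z = W * E) : D Γ s P Q (Tri Q P z) := by
  have := (h _ (hΓ.pre (e := -1) (σ := (P.1 - Q.1) / E) (t := Q.1) (e' := 1) (t' := Q.2)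
    (Or.inr rfl) (Or.inl rfl))).af (by norm_num) one_ne_zero (tri_af' (by norm_num))
  have e1 : af (-1) ((P.1 - Q.1) / E) Q.1 1 Q.2 (0, E) = P := by
    ext <;> simp only [af] <;> [field_simp; skip] <;> linarith
  have e2 : af (-1) ((P.1 - Q.1) / E) Q.1 1 Q.2 (0, 0) = Q := by ext <;> simp [af]
  have e3 : af (-1) ((P.1 - Q.1) / E) Q.1 1 Q.2 (W, g) = z := by
    subst h1 h2
    unfold cr at h3
    ext <;> simp only [af] <;> [field_simp; skip] <;> linarith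
  rwa [e1, e2, e3] at this

lemma N.up {E g W : ℝ} (h : N s.flip E (E - g) W) : N s E g W := by
  intro Γ hΓ
  have := (h _ (hΓ.pre (e := 1) (σ := 0) (t := 0) (e' := -1) (t' := E)
    (Or.inl rfl) (Or.inr rfl))).af one_ne_zero (by norm_num) (tri_af' (by norm_num))
  simp only [af] at this
  norm_num at this
  exact this.unflip

lemma NF.gen {h g W : ℝ} {z : P2} (H : NF s h g W) (hΓ : Lat Γ) (hE : 0 < h + g)
    (h1 : P.2 - Q.2 = h) (h2 : z.2 - P.2 = g) (h3 : cr Q P z = W * (h + g)) :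
    D Γ s Q P (Tri Q P z) := by
  have := (H _ (hΓ.pre (e := 1) (σ := (z.1 - Q.1) / (h + g)) (t := Q.1) (e' := 1) (t' := Q.2)
    (Or.inl rfl) (Or.inl rfl))).af one_ne_zero one_ne_zero (tri_af (by norm_num))
  have e1 : af 1 ((z.1 - Q.1) / (h + g)) Q.1 1 Q.2 (0, h + g) = z := by
    ext <;> simp only [af] <;> [field_simp; skip] <;> linarith
  have e2 : af 1 ((z.1 - Q.1) / (h + g)) Q.1 1 Q.2 (0, 0) = Q := by ext <;> simp [af]
  have e3 : af 1 ((z.1 - Q.1) / (h + g)) Q.1 1 Q.2 (W, h) = P := by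
    subst h1 h2
    unfold cr at h3
    ext <;> simp only [af] <;> [field_simp; skip] <;> linarith
  rwa [e1, e2, e3] at this

lemma tri_cut {p q z z' : P2} (h0 : 0 < cr p q z) (h2 : 0 ≤ cr q z z') (h3 : 0 ≤ cr z p z') :
    Tri p q z' ⊆ Tri p q z := fun x hx => by
  have o1 : cr q z p = cr p q z := cr_rot _ _ _
  have o2 : cr z p q = cr p q z := by rw [← o1]; exact cr_rot _ _ _
  exact ⟨hx.1, pos3 hx (by linarith) (by rw [cr_l]) h2 (by rw [cr_l]; linarith),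
    pos3 hx (by rw [cr_r]) (by linarith) h3 (by rw [cr_r]; linarith)⟩

end Pool.Agent.Lib.MP_68dca0_co.Up
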