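import Pool.Agent.Lib.MP_68dca0_co.UpA

namespace Pool.Agent.Lib.MP_68dca0_co.Up

open Real

noncomputable def uu (x : ℝ) : ℝ := 4 * 10 ^ 34 * x ^ (3 / 4 : ℝ)
noncomputable def vv (x : ℝ) : ℝ := 10 ^ 6 * x ^ (6 / 5 : ℝ)

lemma p34 {t c : ℝ} (ht : 0 ≤ t) (hc : 0 < c) : t ^ (3 / 4 : ℝ) ≤ c ^ 3 / 4 + 3 * t / (4 * c) := by
  have h := geom_mean_le_arith_mean2_weighted (w₁ := 3 / 4) (w₂ := 1 / 4) (p₁ := t / c)
    (p₂ := c ^ 3) (by norm_num) (by norm_num) (by positivity) (by positivity) (by norm_num)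
  rw [div_rpow ht hc.le, ← rpow_natCast, ← rpow_mul hc.le] at h
  have : 0 < c ^ (3 / 4 : ℝ) := rpow_pos_of_pos hc _
  norm_num at h
  rw [div_mul_cancel₀ _ this.ne'] at h
  calc _ ≤ _ := h
    _ = _ := by field_simp; ring

lemma p15 {t c : ℝ} (ht : 0 ≤ t) (hc : 0 < c) : t ^ (1 / 5 : ℝ) ≤ 4 * c / 5 + t / (5 * c ^ 4) := by
  have h := geom_mean_le_arith_mean2_weighted (w₁ := 1 / 5) (w₂ := 4 / 5) (p₁ := t / c ^ 4)
    (p₂ := c) (by norm_num) (by norm_num) (by positivity) (by positivity) (by norm_num)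
  rw [div_rpow ht (by positivity), ← rpow_natCast, ← rpow_mul hc.le] at h
  have : 0 < c ^ (4 / 5 : ℝ) := rpow_pos_of_pos hc _
  norm_num at h
  rw [div_mul_cancel₀ _ this.ne'] at h
  calc _ ≤ _ := h
    _ = _ := by field_simp; ring

lemma uu_nonneg {x : ℝ} (h : 0 ≤ x) : 0 ≤ uu x := by unfold uu; positivity
lemma vv_nonneg {x : ℝ} (h : 0 ≤ x) : 0 ≤ vv x := by unfold vv; positivity

lemma uu_mono {x y : ℝ} (h : 0 ≤ x) (hxy : x ≤ y) : uu x ≤ uu y := by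
  unfold uu; gcongr
lemma vv_mono {x y : ℝ} (h : 0 ≤ x) (hxy : x ≤ y) : vv x ≤ vv y := by
  unfold vv; gcongr

lemma uu_le {m t x c U : ℝ} (c0 : 0 < c) (hm : 0 ≤ m) (hx : 0 ≤ x) (ht : 0 ≤ t) (h : m ≤ t * x)
    (hU : c ^ 3 / 4 + 3 * t / (4 * c) ≤ U) : uu m ≤ U * uu x := by
  refine (uu_mono hm h).trans ?_
  have := (p34 ht c0).trans hU
  unfold uu
  rw [mul_rpow ht hx]
  have : 0 ≤ x ^ (3 / 4 : ℝ) := by positivity
  nlinarith

lemma vv_le {m t x c U : ℝ} (c0 : 0 < c) (hm : 0 ≤ m) (hx : 0 ≤ x) (ht : 0 ≤ t) (h : m ≤ t * x)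
    (hU : 4 * c / 5 + t / (5 * c ^ 4) ≤ U) : vv m ≤ t * U * vv x := by
  refine (vv_mono hm h).trans ?_
  have h1 := (p15 ht c0).trans hU
  unfold vv
  rw [mul_rpow ht hx, show (6 / 5 : ℝ) = 1 + 1 / 5 by norm_num, rpow_add' ht (by norm_num), rpow_one]
  have : 0 ≤ x ^ (1 + 1 / 5 : ℝ) := by positivity
  have := mul_le_mul_of_nonneg_left h1 (mul_nonneg ht this)
  nlinarith

lemma vv_add {a b : ℝ} (ha : 0 ≤ a) (hb : 0 ≤ b) : vv a + vv b ≤ vv (a + b) := by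
  have := add_rpow_le_rpow_add ha hb (show (1 : ℝ) ≤ 6 / 5 by norm_num)
  unfold vv; linarith

lemma uu_ge {x : ℝ} (h : 1 ≤ x) : 4 * 10 ^ 34 ≤ uu x := by
  have := one_le_rpow h (show (0 : ℝ) ≤ 3 / 4 by norm_num)
  unfold uu; linarith

lemma vv_ge {x : ℝ} (h : 1 ≤ x) : 10 ^ 6 * x ≤ vv x := by
  have := rpow_le_rpow_of_exponent_le h (show (1 : ℝ) ≤ 6 / 5 by norm_num)
  rw [rpow_one] at this
  unfold vv; linarith

lemma uu_lin {x : ℝ} (h : 1 ≤ x) : uu x ≤ 4 * 10 ^ 34 * x := by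
  have := rpow_le_rpow_of_exponent_le h (show (3 / 4 : ℝ) ≤ 1 by norm_num)
  rw [rpow_one] at this
  unfold uu; linarith

lemma uu_sq {x : ℝ} (h : 1 ≤ x) : 16 * 10 ^ 68 * x ≤ uu x * uu x := by
  have := rpow_le_rpow_of_exponent_le h (show (1 : ℝ) ≤ 3 / 4 + 3 / 4 by norm_num)
  rw [rpow_one, rpow_add (by linarith)] at this
  unfold uu; nlinarith

lemma uu_conc {t x : ℝ} (h0 : 0 < t) (h1 : t ≤ 1) (hx : 0 ≤ x) : t * uu x ≤ uu (t * x) := by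
  have := rpow_le_rpow_of_exponent_ge h0 h1 (show (3 / 4 : ℝ) ≤ 1 by norm_num)
  rw [rpow_one] at this
  unfold uu
  rw [mul_rpow h0.le hx]
  have : 0 ≤ x ^ (3 / 4 : ℝ) := by positivity
  nlinarith

/-- width bound for tiny components -/
lemma vv_tiny {m x : ℝ} (h1 : 1 ≤ m) (h : m ≤ x / 10 ^ 30) :
    5 / 4 * vv m + 2 ≤ 2 / 10 ^ 6 * vv x / x * m := by
  have hx : 0 < x := by linarith
  have := vv_le (c := 1 / 10 ^ 6) (t := m / x) (U := 1 / 10 ^ 6) (m := m) (by norm_num) (by linarith)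
    hx.le (by positivity) (by field_simp; rfl) (by
      have : m / x ≤ 1 / 10 ^ 30 := by rw [div_le_iff₀ hx]; linarith
      norm_num; linarith)
  have h2 := vv_ge h1
  have e : 2 / 10 ^ 6 * vv x / x * m = 2 * (m / x * (1 / 10 ^ 6) * vv x) := by field_simp
  linarith

lemma uu_tiny {m x : ℝ} (h1 : 0 ≤ m) (h : m ≤ x / 10 ^ 30) : uu m ≤ uu x / 10 ^ 4 := by
  have := uu_le (c := 1 / 100) (t := 1 / 10 ^ 30) (U := 1 / 10 ^ 4) (x := x) (by norm_num) h1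
    (by linarith) (by norm_num) (by linarith) (by norm_num)
  linarith

def AT (x g1 g2 W : ℝ) : Prop := uu x ≤ g1 + g2 ∧ vv x ≤ W ∧
  vv x * g1 ≤ W * (g1 + g2 - uu x / 5) ∧ vv x * g2 ≤ W * (g1 + g2 - uu x / 5)

def AF (x h g W : ℝ) : Prop := 0 ≤ h ∧ 1.001 * uu x ≤ g ∧ 1.001 * vv x * g ≤ W * (g - uu x / 5) ∧
  ∀ m, 1 ≤ m → m * g ≤ 20000 * x → 2 * uu m + 2 ≤ h

def IH (n : ℕ) : Prop := ∀ s : Sh, s.sz < n → ∀ x : ℝ, s.sz ≤ x →
  (∀ g1 g2 W, AT x g1 g2 W → N s (g1 + g2) g1 W) ∧ ∀ h g W, AF x h g W → NF s h g W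

def DD (n : ℕ) (Γ : Set P2) (x : ℝ) (a b : P2) (K : Set P2) : Prop :=
  ∀ s : Sh, s.sz < n → s.sz ≤ x → D Γ s a b K

variable {n : ℕ} {Γ : Set P2} {x : ℝ} {P Q z : P2}

lemma DD.symm {K : Set P2} (h : DD n Γ x P Q K) : DD n Γ x Q P K := fun s h1 h2 =>
  (h s.flip (by simpa using h1) (by simpa using h2)).unflip

lemma one_le {A B C : Sh} (h : ((Sh.add A B C).sz : ℝ) ≤ x) : 1 ≤ x := by
  refine le_trans ?_ h
  simp only [Sh.sz]; norm_cast; omega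

lemma AT.mono {g1 g2 W W' : ℝ} (h : AT x g1 g2 W) (hx : 0 ≤ x) (hW : W ≤ W') : AT x g1 g2 W' := by
  obtain ⟨h1, h2, h3, h4⟩ := h
  have := uu_nonneg hx
  have := mul_le_mul_of_nonneg_right hW (show 0 ≤ g1 + g2 - uu x / 5 by linarith)
  exact ⟨h1, by linarith, by linarith, by linarith⟩

lemma IH.Tr {g1 g2 W : ℝ} (ih : IH n) (hΓ : Lat Γ) (h1 : z.2 - Q.2 = g1) (h2 : P.2 - z.2 = g2)
    (h : AT x g1 g2 W) (hW : W * (g1 + g2) ≤ cr P Q z) : DD n Γ x P Q (Tri P Q z) := by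
  intro s s1 s2
  cases s with
  | leaf => exact D.leaf
  | add A B C =>
    have := uu_ge (one_le s2)
    have hE : 0 < g1 + g2 := by linarith [h.1]
    exact ((ih _ s1 x s2).1 g1 g2 (cr P Q z / (g1 + g2)) (h.mono (by linarith [one_le s2])
      (by rwa [le_div_iff₀ hE]))).right hΓ hE (by linarith) h1 (by field_simp)

lemma IH.Tl {g1 g2 W : ℝ} (ih : IH n) (hΓ : Lat Γ) (h1 : z.2 - Q.2 = g1) (h2 : P.2 - z.2 = g2)
    (h : AT x g1 g2 W) (hW : W * (g1 + g2) ≤ cr Q P z) : DD n Γ x P Q (Tri Q P z) := by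
  intro s s1 s2
  cases s with
  | leaf => exact D.leaf
  | add A B C =>
    have := uu_ge (one_le s2)
    have hE : 0 < g1 + g2 := by linarith [h.1]
    exact ((ih _ s1 x s2).1 g1 g2 (cr Q P z / (g1 + g2)) (h.mono (by linarith [one_le s2])
      (by rwa [le_div_iff₀ hE]))).left hΓ hE (by linarith) h1 (by field_simp)

lemma IH.F {h g W : ℝ} (ih : IH n) (hΓ : Lat Γ) (h1 : P.2 - Q.2 = h) (h2 : z.2 - P.2 = g)
    (H : AF x h g W) (hW : W * (h + g) ≤ cr Q P z) : DD n Γ x Q P (Tri Q P z) := by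
  intro s s1 s2
  cases s with
  | leaf => exact D.leaf
  | add A B C =>
    have := uu_ge (one_le s2)
    obtain ⟨a1, a2, a3, a4⟩ := H
    have hE : 0 < h + g := by linarith
    have hW' : W ≤ cr Q P z / (h + g) := by rwa [le_div_iff₀ hE]
    have := mul_le_mul_of_nonneg_right hW' (show 0 ≤ g - uu x / 5 by linarith)
    exact ((ih _ s1 x s2).2 h g (cr Q P z / (h + g)) ⟨a1, a2, by linarith, a4⟩).gen hΓ hE h1 h2
      (by field_simp)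

/-- both gaps large -/
lemma AT.of_gaps {g1 g2 W : ℝ} (hx : 0 ≤ x) (h0 : uu x ≤ g1 + g2) (h1 : uu x / 5 ≤ g1)
    (h2 : uu x / 5 ≤ g2) (h3 : vv x ≤ W) : AT x g1 g2 W := by
  have := uu_nonneg hx
  have := vv_nonneg hx
  exact ⟨h0, h3, mul_le_mul h3 (by linarith) (by linarith) (by linarith),
    mul_le_mul h3 (by linarith) (by linarith) (by linarith)⟩

/-- rearrangement of shapes -/
def Rr (s s' : Sh) : Prop := s.sz = s'.sz ∧ ∀ u v l E, Lab s' u v l E → Lab s u v l E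

lemma Rr.D {s s' : Sh} (h : Rr s s') {K : Set P2} (H : D Γ s' P Q K) : D Γ s P Q K := by
  obtain ⟨l, E, h0, h1⟩ := H
  exact ⟨l, E, h.2 _ _ _ _ h0, h1⟩

lemma Rr.refl (s : Sh) : Rr s s := ⟨rfl, fun _ _ _ _ h => h⟩

lemma Rr.cong {C C' : Sh} (h : Rr C C') (A B : Sh) : Rr (.add A B C) (.add A B C') := by
  refine ⟨by simp only [Sh.sz, h.1], ?_⟩
  rintro u v l E ⟨z, lA, EA, lB, EB, lC, EC, h1, h2, h3, h4⟩
  exact ⟨z, lA, EA, lB, EB, lC, EC, h1, h2, h.2 _ _ _ _ h3, h4⟩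

lemma Rr.swap {C A' B' C' : Sh} (h : Rr C (.add A' B' C')) (A B : Sh) :
    Rr (.add A B C) (.add A' B' (.add A B C')) := by
  refine ⟨by simp only [Sh.sz, h.1]; omega, ?_⟩
  rintro u v l E ⟨z', lA', EA', lB', EB', _, _, h1, h2,
    ⟨z, lA, EA, lB, EB, lC, EC, h3, h4, h5, rfl, rfl⟩, rfl, rfl⟩
  exact ⟨z, lA, EA, lB, EB, _, _, h3, h4,
    h.2 _ _ _ _ ⟨z', lA', EA', lB', EB', lC, EC, h1, h2, h5, rfl, rfl⟩, by abel, by abel⟩

lemma struct (t : ℝ) (s : Sh) : s = .leaf ∨ ∃ A B C, Rr s (.add A B C) ∧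
    ((t ≤ A.sz + B.sz + 1 ∧ A.sz + B.sz + 1 ≤ C.sz) ∨ C.Small t) := by
  induction s with
  | leaf => exact Or.inl rfl
  | add A B C _ _ i3 =>
    right
    rcases i3 with rfl | ⟨A', B', C', h1, h2 | h2⟩
    · exact ⟨A, B, _, Rr.refl _, Or.inr trivial⟩
    · exact ⟨A', B', _, h1.swap A B, Or.inl ⟨h2.1, by simp only [Sh.sz]; omega⟩⟩
    · by_cases e1 : (A.sz : ℝ) + B.sz + 1 < t
      · exact ⟨A', B', _, h1.swap A B, Or.inr ⟨e1, h2⟩⟩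
      by_cases e2 : (A'.sz : ℝ) + B'.sz + 1 < t
      · exact ⟨A, B, _, h1.cong A B, Or.inr ⟨e2, h2⟩⟩
      by_cases e3 : A.sz + B.sz ≤ A'.sz + B'.sz
      · exact ⟨A, B, _, h1.cong A B, Or.inl ⟨not_lt.1 e1, by simp only [Sh.sz]; omega⟩⟩
      · exact ⟨A', B', _, h1.swap A B, Or.inl ⟨not_lt.1 e2, by simp only [Sh.sz]; omega⟩⟩

end Pool.Agent.Lib.MP_68dca0_co.Up
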