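import Pool.Agent.Lib.MP_68dca0_co.UpB

namespace Pool.Agent.Lib.MP_68dca0_co.Up

variable {n : ℕ} {Γ : Set P2}

lemma tri_pos {p q z w : P2} (hw : w ∈ Tri p q z) : 0 < cr p q z := by
  obtain ⟨h1, h2, h3⟩ := hw
  unfold cr at *; linarith

lemma in_tri {p q z w : P2} (hw : w ∈ Tri p q z) :
    ∀ x, 0 < cr p q x → 0 ≤ cr q w x → 0 ≤ cr w p x → x ∈ Tri p q z := fun x h1 h2 h3 => by
  have h0 := tri_pos hw
  have o1 : cr q z p = cr p q z := cr_rot _ _ _
  have o2 : cr z p q = cr p q z := by rw [← o1]; exact cr_rot _ _ _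
  exact ⟨h1, pos2 h1 h2 h3 (by linarith) (by rw [cr_l]) hw.2.1,
    pos2 h1 h2 h3 (by rw [cr_r]) (by linarith) hw.2.2⟩

lemma tri_out {p q z w : P2} (hw : w ∈ Tri p q z) : Tri p w z ⊆ Tri p q z := fun x hx => by
  have h0 := tri_pos hw
  have o1 : cr q z p = cr p q z := cr_rot _ _ _
  exact ⟨pos3 hx (by rw [cr_l]) hw.1.le h0.le (by rw [cr_l]; linarith [hw.1]),
    pos3 hx (by linarith) hw.2.1.le (by rw [cr_r]) (by rw [cr_r]; linarith [hw.2.1]), hx.2.2⟩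

lemma at_row {m g W : ℝ} (m1 : 1 ≤ m) (h : uu m ≤ g) (hW : W = 5 / 4 * vv m) :
    AT m 0 g W ∧ AT m g 0 W := by
  have u0 := uu_nonneg (show 0 ≤ m by linarith)
  have v0 := vv_nonneg (show 0 ≤ m by linarith)
  have e1 := mul_le_mul_of_nonneg_left h v0
  have e2 := mul_nonneg v0 u0
  subst hW
  exact ⟨⟨by linarith, by linarith, by linarith, by linarith⟩,
    by linarith, by linarith, by linarith, by linarith⟩

lemma bulk_row (ih : IH n) (hΓ : Lat Γ) {E y G κ t : ℝ} (hr : Row Γ y) (hG1 : G ≤ y)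
    (hG2 : G ≤ E - y) (hm : ∀ m, 1 ≤ m → m < t → uu m ≤ G ∧ 5 / 4 * vv m + 2 ≤ κ * m) (C : Sh) :
    C.Small t → C.sz ≤ n → ∀ X, κ * C.sz ≤ X → D Γ C (0, E) (0, 0) (Tri (0, E) (0, 0) (X, y)) := by
  induction C with
  | leaf => intro _ _ _ _; exact D.leaf
  | add A B C _ _ i3 =>
    intro hs hn X hX
    simp only [Sh.sz] at hn hX
    push_cast at hX
    have a0 : (0 : ℝ) ≤ A.sz := Nat.cast_nonneg _
    have b0 : (0 : ℝ) ≤ B.sz := Nat.cast_nonneg _
    have c0 : (0 : ℝ) ≤ C.sz := Nat.cast_nonneg _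
    obtain ⟨m, hmd⟩ : ∃ m : ℝ, m = A.sz + B.sz + 1 := ⟨_, rfl⟩
    have m1 : 1 ≤ m := by linarith
    obtain ⟨h1, h2⟩ := hm m m1 (hmd ▸ hs.1)
    have u0 := uu_ge m1
    have v0 := vv_ge m1
    have k0 : 0 < κ := (pos_iff_pos_of_mul_pos (show 0 < κ * m by linarith)).2 (by linarith)
    have k1 := mul_nonneg k0.le c0
    obtain ⟨Xw, w1, w2, w3⟩ := hr (X - 2)
    have e1 : κ * C.sz ≤ Xw - 5 / 4 * vv m := by
      have : κ * m = κ * (A.sz + B.sz + 1) := by rw [hmd]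
      linarith
    have y0 : 0 < y := by linarith
    have y1 : 0 < E - y := by linarith
    have hE : 0 < E := by linarith
    have p1 := mul_pos hE (show 0 < Xw by linarith)
    have p2 := mul_pos y0 (show 0 < X - Xw by linarith)
    have p3 := mul_pos y1 (show 0 < X - Xw by linarith)
    have p4 := mul_nonneg hE.le (show 0 ≤ Xw - 5 / 4 * vv m by linarith)
    have p5 := mul_nonneg y0.le (show 0 ≤ vv m by linarith)
    have p6 := mul_nonneg y1.le (show 0 ≤ vv m by linarith)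
    have hw : (Xw, y) ∈ Tri (0, E) (0, 0) (X, y) := by
      refine ⟨?_, ?_, ?_⟩ <;> simp only [cr] <;> linarith only [p1, p2, p3]
    refine comp (c := (Xw - 5 / 4 * vv m, y)) w3 hw.1 ?_ ?_ ?_
      (ih.Tl (x := m) (g1 := 0) (g2 := E - y) hΓ (by simp) (by simp)
        (at_row m1 (by linarith) rfl).1 (by simp only [cr]; linarith only []) A
        (by omega) (by linarith))
      (ih.Tl (x := m) (g1 := y) (g2 := 0) hΓ (by simp) (by simp)
        (at_row m1 (by linarith) rfl).2 (by simp only [cr]; linarith only []) B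
        (by omega) (by linarith))
      (i3 hs.2 (by omega) _ e1) (fun x hx => Or.inr hx) (in_tri hw) <;>
    simp only [cr] <;> linarith only [p4, p5, p6]

lemma bulk (ih : IH n) {C : Sh} {E g W y0 G κ t : ℝ} (hs : C.Small t) (hn : C.sz ≤ n)
    (hm : ∀ m, 1 ≤ m → m < t → uu m ≤ G ∧ 5 / 4 * vv m + 2 ≤ κ * m) (h0 : 0 ≤ G)
    (h1 : G + 1 ≤ y0) (h2 : y0 ≤ g) (h3 : G ≤ E - y0) (hW : 0 < W)
    (h4 : κ * C.sz * g ≤ W * (y0 - 1)) : N C E g W := by
  intro Γ hΓ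
  obtain ⟨y, y1, y2, y3⟩ := hΓ (y0 - 1)
  have g0 : 0 < g := by linarith
  have hE : 0 < E := by linarith
  refine (bulk_row ih hΓ y3 (by linarith) (by linarith) hm C hs hn (W * y / g) ?_).mono
    (tri_cut ?_ ?_ ?_)
  · rw [le_div_iff₀ g0]; nlinarith
  · simp only [cr]; nlinarith
  · simp only [cr]; field_simp; linarith
  · have : cr (W, g) (0, E) (W * y / g, y) = W * (g - y) * E / g := by
      simp only [cr]; field_simp; ring
    rw [this]
    have : 0 ≤ g - y := by linarith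
    positivity

lemma place {A B C : Sh} {X y E g1 W τ : ℝ} (hw : (X, y) ∈ Γ) (hX : 0 < X) (y0 : 0 < y)
    (y1 : y ≤ g1) (hg : g1 < E) (hXW : X * g1 < y * W) (t0 : 0 ≤ τ) (t1 : τ ≤ 1)
    (hA : D Γ A (0, E) (X, y) (Tri (0, E) (X, y) (W, g1)))
    (hB : D Γ B (X, y) (0, 0) (Tri (0, 0) (X, y) ((1 - τ) * X, y + τ * (E - y))))
    (hC : D Γ C (0, E) (0, 0) (Tri (0, E) (0, 0) ((1 - τ) * X, y + τ * (E - y)))) :
    D Γ (.add A B C) (0, E) (0, 0) (Tri (0, E) (0, 0) (W, g1)) := by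
  have hE : 0 < E := by linarith
  have hW : 0 < W := by nlinarith
  have hXW' : X < W := by nlinarith
  have hin : (X, y) ∈ Tri (0, E) (0, 0) (W, g1) := by
    refine ⟨?_, ?_, ?_⟩ <;> simp only [cr] <;> nlinarith
  have := mul_pos hX hE
  refine comp hw hin.1 ?_ ?_ ?_ hA hB hC (fun x hx => Or.inl ⟨tri_out hin hx, hx.1⟩) (in_tri hin) <;>
    simp only [cr] <;> nlinarith

lemma outer0 {u g1 g2 y s0 bm U : ℝ} (u0 : 0 < u) (hu : u ≤ g1 + g2)
    (h1 : u / 5 ≤ g1) (h2 : u / 5 ≤ g2) (y0 : 0 ≤ y) (y1 : y ≤ s0 * g1)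
    (n3 : s0 * bm ≤ 1 - U) (n4 : 0.2 ≤ bm)
    (n5 : g1 ≤ bm * (g1 + g2) ∨ bm = 0.8) (n1 : 0.2 ≤ U) : U ≤ 1 ∧ U * u ≤ g1 + g2 - y ∧
      (g1 + g2) * (U * u) ≤ 5 * g1 * (g1 + g2 - y) := by
  have g10 : 0 < g1 := by linarith
  have g20 : 0 < g2 := by linarith
  have s00 : 0 ≤ s0 := nonneg_of_mul_nonneg_left (y0.trans y1) g10
  have U1 : U ≤ 1 := by have := mul_nonneg s00 (show 0 ≤ bm by linarith); linarith
  have U0 : 0 ≤ U := by linarith
  have E0 : 0 ≤ g1 + g2 := by linarith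
  have e2 := mul_le_mul_of_nonneg_right n3 E0
  have k1 : U * u ≤ g1 + g2 - y := by
    by_cases h : g1 ≤ bm * (g1 + g2)
    · have e1 := mul_le_mul_of_nonneg_left h s00
      have e3 := mul_le_mul_of_nonneg_left hu U0
      linarith only [e1, e2, e3, y1]
    · obtain rfl : bm = 0.8 := n5.resolve_left h
      have e1 := mul_le_mul_of_nonneg_right n3 g10.le
      have e2 := mul_le_mul_of_nonneg_left h2 U0
      have e3 := mul_nonneg (show 0 ≤ 5 * U - 1 by linarith)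
        (show 0 ≤ 1.25 * g1 - (g1 + g2) by linarith)
      linarith only [e1, e2, e3, y1]
  refine ⟨U1, k1, ?_⟩
  by_cases h : g1 + g2 ≤ 5 * g1
  · exact mul_le_mul h k1 (by positivity) (by linarith)
  · have e0 := mul_le_mul_of_nonneg_right n4 E0
    have e1 := mul_le_mul_of_nonneg_left (show g1 ≤ bm * (g1 + g2) by linarith) s00
    have e3 : U * (g1 + g2) ≤ g1 + g2 - y := by linarith only [e1, e2, y1]
    have := mul_le_mul (show u ≤ 5 * g1 by linarith) e3 (by positivity) (by linarith)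
    linarith only [this]

lemma outer (ih : IH n) (hΓ : Lat Γ) {u xo g1 g2 W X y s0 bm U : ℝ} (u0 : 0 < u) (hu : u ≤ g1 + g2)
    (h1 : u / 5 ≤ g1) (h2 : u / 5 ≤ g2) (y0 : 0 ≤ y) (y1 : y ≤ s0 * g1) (hX : X * g1 ≤ y * W)
    (W0 : 0 ≤ W) (s1 : s0 ≤ 1) (n3 : s0 * bm ≤ 1 - U) (n4 : 0.2 ≤ bm)
    (n5 : g1 ≤ bm * (g1 + g2) ∨ bm = 0.8) (n1 : 0.2 ≤ U) (x0 : 0 ≤ xo) (o1 : uu xo ≤ U * u)
    (o2 : vv xo ≤ (1 - s0) * W) : y ≤ g1 ∧ U * u ≤ g1 + g2 - y ∧
      DD n Γ xo (0, g1 + g2) (X, y) (Tri (0, g1 + g2) (X, y) (W, g1)) := by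
  obtain ⟨U1, k1, k2⟩ := outer0 u0 hu h1 h2 y0 y1 n3 n4 n5 n1
  clear n3 n4 n5
  have g10 : 0 < g1 := by linarith
  have g20 : 0 < g2 := by linarith
  have yg : y ≤ g1 := by have := mul_le_mul_of_nonneg_right s1 g10.le; linarith
  have E0 : 0 < g1 + g2 - y := by linarith
  have Uu : U * u ≤ u := by have := mul_le_mul_of_nonneg_right U1 u0.le; linarith
  have v0 := vv_nonneg x0
  have uo := uu_nonneg x0
  have e4 : (1 - s0) * W ≤ (1 - s0) * W * (g1 + g2) / (g1 + g2 - y) := by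
    rw [le_div_iff₀ E0]
    exact mul_le_mul_of_nonneg_left (by linarith) (by linarith)
  refine ⟨yg, k1, ih.Tr (g1 := g1 - y) (g2 := g2)
    (W := (1 - s0) * W * (g1 + g2) / (g1 + g2 - y)) hΓ
    rfl (by simp) ⟨by linarith, by linarith, ?_, ?_⟩ ?_⟩
  · exact mul_le_mul (by linarith) (by linarith) (by linarith) (by linarith)
  · rw [div_mul_eq_mul_div, le_div_iff₀ E0, mul_assoc, mul_assoc]
    have := mul_le_mul_of_nonneg_left o1 (show 0 ≤ g1 + g2 by linarith)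
    exact mul_le_mul o2 (by linarith only [this, k2]) (by positivity) (by linarith)
  · rw [show g1 - y + g2 = g1 + g2 - y by ring, div_mul_cancel₀ _ E0.ne']
    simp only [cr]
    have e1 := mul_le_mul_of_nonneg_right hX g20.le
    have e2 := mul_le_mul_of_nonneg_left y1 (show 0 ≤ W * (g1 + g2) by positivity)
    refine le_of_mul_le_mul_left ?_ g10
    linarith only [e1, e2]

structure NT (x t g1 g2 W : ℝ) : Prop where
  hu : uu x ≤ g1 + g2
  h1 : uu x / 5 ≤ g1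
  h2 : uu x / 5 ≤ g2
  hW : vv x ≤ W
  ht1 : 20000 * x ≤ t * uu x
  ht2 : t ≤ x / 10 ^ 30
  x1 : 1 ≤ x

lemma NT.symm {x t g1 g2 W : ℝ} (h : NT x t g1 g2 W) : NT x t g2 g1 W :=
  ⟨by linarith [h.hu], h.h2, h.h1, h.hW, h.ht1, h.ht2, h.x1⟩

lemma pick (hΓ : Lat Γ) {u g1 W μ s0 : ℝ} (h1 : u / 5 ≤ g1) (g0 : 0 < g1) (μ0 : 0 ≤ μ)
    (μu : 5000 ≤ μ * u) (σ0 : 0 < s0 - μ / 1000) (W0 : 0 < W) :
    ∃ X y, (X, y) ∈ Γ ∧ 0 < y ∧ y ≤ s0 * g1 ∧ (s0 - μ / 1000) * g1 ≤ y ∧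
      (s0 - μ / 1000) * u / 5 ≤ y ∧ X * g1 < y * W ∧ (s0 - μ / 1000) * W - 2 ≤ X := by
  obtain ⟨y, y1, y2, y3⟩ := hΓ (s0 * g1 - 1)
  obtain ⟨X, X1, X2, X3⟩ := y3 ((s0 - μ / 1000) * W - 2)
  have e1 := mul_le_mul_of_nonneg_left h1 μ0
  have yσ : (s0 - μ / 1000) * g1 ≤ y := by linarith
  have e2 := mul_le_mul_of_nonneg_left h1 σ0.le
  have e3 := mul_le_mul_of_nonneg_right yσ W0.le
  have e4 := mul_lt_mul_of_pos_right (show X < (s0 - μ / 1000) * W by linarith) g0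
  exact ⟨X, y, X3, (mul_pos σ0 g0).trans_le yσ, by linarith, yσ, by linarith, by linarith, X1⟩

lemma sAF {x xi W X y d σ U Ui Vi f : ℝ} (x1 : 1 ≤ x) (hW : vv x ≤ W) (σ0 : 0 < σ)
    (yu : σ * uu x / 5 ≤ y) (k1 : U * uu x ≤ d) (hX : 0.998 * (σ * W) ≤ 0.999 * X)
    (i1 : uu xi ≤ Ui * uu x) (i2 : vv xi ≤ Vi * vv x) (i3 : xi ≤ 1.2 * σ * x)
    (n1 : 0.51 ≤ U) (n2 : 1.001 * Ui ≤ 0.999 * U) (n6 : Ui ≤ 4.995 * U * (1 - f)) (f0 : 0 ≤ f)
    (f1 : f ≤ 1) (n7 : 1.001 * Vi ≤ 0.998 * σ * f) : AF xi y (0.999 * d) (0.999 * X) := by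
  have u0 := uu_ge x1
  have v0 := vv_ge x1
  have uq := uu_sq x1
  generalize uu x = u at *
  generalize vv x = v at *
  have u1 : 0 < u := by linarith only [u0]
  have v1 : 0 ≤ v := by linarith only [v0, x1]
  have Uu := mul_le_mul_of_nonneg_right n1 u1.le
  have σW := mul_nonneg σ0.le (v1.trans hW)
  refine ⟨le_trans (by positivity) yu, ?_, ?_, fun m a b => ?_⟩
  · have := mul_le_mul_of_nonneg_right n2 u1.le
    linarith only [this, i1, k1]
  · have e1 := mul_le_mul_of_nonneg_right n6 u1.le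
    have e2 := mul_le_mul_of_nonneg_right k1 (show 0 ≤ 1 - f by linarith only [f1])
    have e3 := mul_le_mul_of_nonneg_right n7 v1
    have e4 := mul_le_mul_of_nonneg_left hW (show 0 ≤ σ * f by positivity)
    have e5 := mul_le_mul_of_nonneg_right hX f0
    have e6 : 1.001 * vv xi ≤ 0.999 * X * f := by linarith only [e3, e4, e5, i2]
    have e7 : f * (0.999 * d) ≤ 0.999 * d - uu xi / 5 := by linarith only [e1, e2, i1]
    have e8 := mul_le_mul_of_nonneg_right e6 (show 0 ≤ 0.999 * d by linarith only [Uu, k1, u1])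
    have e9 := mul_le_mul_of_nonneg_left e7 (show 0 ≤ 0.999 * X by linarith only [hX, σW])
    linarith only [e8, e9]
  · have e1 := uu_lin a
    have e2 := mul_le_mul_of_nonneg_left (show 0.5 * u ≤ 0.999 * d by linarith only [Uu, k1, u1])
      (show 0 ≤ m by linarith only [a])
    have e3 := mul_le_mul_of_nonneg_left uq σ0.le
    have e4 := mul_le_mul_of_nonneg_right (show 2 * uu m + 2 ≤ 12 * 10 ^ 34 * m by
      linarith only [e1, a]) u1.le
    have e5 := mul_le_mul_of_nonneg_right yu u1.le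
    have e6 : 0 ≤ σ * x := mul_nonneg σ0.le (by linarith only [x1])
    refine le_of_mul_le_mul_right ?_ u1
    linarith only [e2, e3, e4, e5, e6, b, i3]

lemma Sgen (ih : IH n) {O I C : Sh} (hn : (Sh.add O I C).sz ≤ n)
    {x t g1 g2 W μ s0 bm U Ui Vi f : ℝ} (H : NT x t g1 g2 W) (hC : C.Small t)
    (m1 : 0.5 ≤ μ * x) (m2 : 0.999 * t ≤ μ * x) (mC : C.sz ≤ 2.003 * μ * x)
    (o1 : uu O.sz ≤ U * uu x) (o2 : vv O.sz ≤ (1 - s0) * vv x) (i1 : uu I.sz ≤ Ui * uu x)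
    (i2 : vv I.sz ≤ Vi * vv x) (i3 : I.sz ≤ 1.2 * (s0 - μ / 1000) * x)
    (n1 : 0.51 ≤ U) (n2 : 1.001 * Ui ≤ 0.999 * U) (n3 : s0 * bm ≤ 1 - U) (n4 : 0.2 ≤ bm)
    (n5 : g1 ≤ bm * (g1 + g2) ∨ bm = 0.8) (n6 : Ui ≤ 4.995 * U * (1 - f)) (f0 : 0 ≤ f) (f1 : f ≤ 1)
    (n7 : 1.001 * Vi ≤ 0.998 * (s0 - μ / 1000) * f) (n8 : 0.8 * μ ≤ s0 - μ / 1000) (n9 : s0 ≤ 1) :
    N (.add O I C) (g1 + g2) g1 W := by
  intro Γ hΓ
  obtain ⟨hu, h1, h2, hW, ht1, ht2, x1⟩ := H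
  simp only [Sh.sz] at hn
  have u0 := uu_ge x1
  have v0 := vv_ge x1
  have x0 : 0 < x := by linarith only [x1]
  have u1 : 0 < uu x := by linarith only [u0]
  have hb := fun m (a : 1 ≤ m) (b : m < t) =>
    And.intro (uu_tiny (x := x) (m := m) (by linarith only [a]) (by linarith only [b, ht2]))
      (vv_tiny (x := x) a (by linarith only [b, ht2]))
  have μ0 : 0 < μ := (pos_iff_pos_of_mul_pos (show 0 < μ * x by linarith only [m1])).2 x0
  have μu : 19980 ≤ μ * uu x := by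
    have := mul_le_mul_of_nonneg_right m2 u1.le
    refine le_of_mul_le_mul_right ?_ x0
    linarith only [this, ht1]
  have σ0 : 0 < s0 - μ / 1000 := by linarith only [n8, μ0]
  have W0 : 0 < W := by linarith only [hW, v0, x0]
  obtain ⟨X, y, X3, y0, y1, yσ, yu, XW, X1⟩ := pick hΓ h1 (by linarith only [h1, u1]) μ0.le
    (by linarith only [μu]) σ0 W0
  have μW : 500000 ≤ μ * W := by
    have := mul_le_mul_of_nonneg_left (v0.trans hW) μ0.le
    linarith only [this, m1]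
  have σW := mul_le_mul_of_nonneg_right n8 W0.le
  obtain ⟨yg, k1, k2⟩ := outer ih hΓ (xo := O.sz) (X := X) (W := W) u1 hu h1 h2 y0.le
    y1 XW.le W0.le n9 n3 n4 n5 (by linarith only [n1]) (Nat.cast_nonneg _) o1
    (o2.trans (mul_le_mul_of_nonneg_left hW (by linarith only [n9])))
  have Uu := mul_le_mul_of_nonneg_right n1 u1.le
  have X0 : 0 < X := by linarith only [X1, σW, μW]
  refine place (τ := 0.999) X3 X0 y0 yg (by linarith only [h2, u1]) XW (by norm_num) (by norm_num)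
    (k2 O (by omega) le_rfl)
    ((ih.F (x := I.sz) hΓ (by simp) (by simp)
      (sAF x1 hW σ0 yu k1 (show _ ≤ 0.999 * X by linarith only [X1, σW, μW]) i1 i2 i3 n1 n2 n6 f0 f1
        n7) ?_).symm I (by omega) le_rfl)
    (bulk ih (y0 := y + 0.999 * (g1 + g2 - y)) hC (by omega) hb (by positivity)
      (by linarith only [y0, Uu, k1, u0]) le_rfl (by linarith only [Uu, k1, u0])
      (by linarith only [X0]) ?_ Γ hΓ)
  · simp only [cr]
    have e1 := mul_le_mul_of_nonneg_left yg X0.le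
    have e2 := mul_nonneg X0.le (show 0 ≤ g2 by linarith only [h2, u1])
    linarith only [e1, e2]
  · have e1 : 2 / 10 ^ 6 * vv x / x * C.sz ≤ 2 / 10 ^ 6 * vv x / x * (2.003 * μ * x) :=
      mul_le_mul_of_nonneg_left mC (by have := vv_nonneg x0.le
                                       positivity)
    have e2 : 2 / 10 ^ 6 * vv x / x * (2.003 * μ * x) = 2 / 10 ^ 6 * 2.003 * (μ * vv x) := by
      field_simp
    have e3 := mul_le_mul_of_nonneg_left hW μ0.le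
    have e4 : 2 * (2 / 10 ^ 6 * vv x / x * C.sz) ≤ (1 - 0.999) * X := by
      linarith only [e1, e2, e3, X1, σW, μW]
    have e5 := mul_le_mul e4 (show (y + 0.999 * (g1 + g2 - y)) / 2 ≤
      y + 0.999 * (g1 + g2 - y) - 1 by linarith only [y0, Uu, k1, u0])
      (by linarith only [y0, Uu, k1, u0]) (by linarith only [X0])
    linarith only [e5]

end Pool.Agent.Lib.MP_68dca0_co.Up
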