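import Pool.Agent.Lib.MP_68dca0_co.UpC

namespace Pool.Agent.Lib.MP_68dca0_co.Up

variable {n : ℕ}

lemma Sstep0 (ih : IH n) {A B C : Sh} (hn : (Sh.add A B C).sz ≤ n) {x t g1 g2 W μ : ℝ}
    (H : NT x t g1 g2 W) (hC : C.Small t) (μ0 : 0 < μ) (μ1 : μ ≤ 0.5) (mA : A.sz ≤ (1 - μ) * x)
    (mB : B.sz ≤ 1.0011 * μ * x) (mC : C.sz ≤ 2.003 * μ * x) (m1 : 0.5 ≤ μ * x)
    (m2 : 0.999 * t ≤ μ * x) : N (.add A B C) (g1 + g2) g1 W := by
  have a0 : (0 : ℝ) ≤ A.sz := Nat.cast_nonneg _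
  have b0 : (0 : ℝ) ≤ B.sz := Nat.cast_nonneg _
  have x0 : 0 ≤ x := by linarith only [H.x1]
  have v0 := vv_nonneg x0
  have tA : 0 ≤ 1 - μ := by linarith only [μ1]
  have tB : 0 ≤ 1.0011 * μ := by linarith only [μ0]
  by_cases k1 : μ ≤ 0.3
  · exact Sgen ih hn (μ := μ) (s0 := 0.9375 * μ) (bm := 0.8) (U := 1 - 0.75 * μ) (Ui := 0.406)
      (Vi := 1.0011 * μ * 0.7864) (f := 0.895) H hC m1 m2 mC
      (uu_le one_pos a0 x0 tA mA (by linarith only [μ0, k1]))
      ((vv_le (U := 1) one_pos a0 x0 tA mA (by linarith only [μ0, k1])).trans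
        (mul_le_mul_of_nonneg_right (by linarith only [μ0, k1]) v0))
      (uu_le (c := 0.74) (by norm_num) b0 x0 tB mB (by norm_num; linarith only [μ0, k1]))
      (vv_le (c := 0.786) (by norm_num) b0 x0 tB mB (by norm_num; linarith only [μ0, k1]))
      (mB.trans (mul_le_mul_of_nonneg_right (by linarith only [μ0, k1]) x0)) (by linarith only [μ0, k1]) (by linarith only [μ0, k1]) (by linarith only [μ0, k1]) (by norm_num)
      (Or.inr rfl) (by linarith only [μ0, k1]) (by norm_num) (by norm_num) (by linarith only [μ0, k1]) (by linarith only [μ0, k1]) (by linarith only [μ0, k1])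
  by_cases k2 : μ ≤ 0.4
  · have q := mul_nonneg (sub_nonneg.2 k2) (sub_nonneg.2 (not_le.1 k1).le)
    exact Sgen ih hn (μ := μ) (s0 := 1.053375 * μ - 0.02375) (bm := 0.8) (U := 1.019 - 0.8427 * μ)
      (Ui := 0.504) (Vi := 1.0011 * μ * (0.648 + 0.4653 * μ)) (f := 0.852) H hC m1 m2 mC
      (uu_le (c := 0.89) (by norm_num) a0 x0 tA mA (by norm_num; linarith only [k1, k2, q]))
      ((vv_le (U := 1) one_pos a0 x0 tA mA (by linarith only [k1, k2, q])).trans
        (mul_le_mul_of_nonneg_right (by linarith only [k1, k2, q]) v0))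
      (uu_le (c := 0.795) (by norm_num) b0 x0 tB mB (by norm_num; linarith only [k1, k2, q]))
      (vv_le (c := 0.81) (by norm_num) b0 x0 tB mB (by norm_num; linarith only [k1, k2, q]))
      (mB.trans (mul_le_mul_of_nonneg_right (by linarith only [k1, k2, q]) x0)) (by linarith only [k1, k2, q]) (by linarith only [k1, k2, q])
      (by linarith only [k1, k2, q]) (by norm_num) (Or.inr rfl)
      (by linarith only [k1, k2, q]) (by norm_num) (by norm_num) (by linarith only [k1, k2, q]) (by linarith only [k1, k2, q]) (by linarith only [k1, k2, q])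
  have q := mul_nonneg (sub_nonneg.2 μ1) (sub_nonneg.2 (not_le.1 k2).le)
  by_cases k3 : g1 ≤ 0.72 * (g1 + g2)
  · exact Sgen ih hn (μ := μ) (s0 := 1.2 * μ - 0.045) (bm := 0.72) (U := 1.0324 - 0.864 * μ)
      (Ui := 0.1591 + 0.8731 * μ) (Vi := 1.0011 * μ * (0.68 + 0.3836 * μ)) (f := 0.8)
      H hC m1 m2 mC
      (uu_le (c := 0.86) (by norm_num) a0 x0 tA mA (by norm_num; linarith only [μ1, k2, q]))
      ((vv_le (c := 0.89) (U := 0.712 + 0.3188 * (1 - μ)) (by norm_num) a0 x0 tA mA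
        (by norm_num; linarith only [μ1, k2, q])).trans (mul_le_mul_of_nonneg_right (by linarith only [μ1, k2, q]) v0))
      (uu_le (c := 0.86) (by norm_num) b0 x0 tB mB (by norm_num; linarith only [μ1, k2, q]))
      (vv_le (c := 0.85) (by norm_num) b0 x0 tB mB (by norm_num; linarith only [μ1, k2, q]))
      (mB.trans (mul_le_mul_of_nonneg_right (by linarith only [μ1, k2, q]) x0)) (by linarith only [μ1, k2, q]) (by linarith only [μ1, k2, q])
      (by linarith only [μ1, k2, q]) (by norm_num) (Or.inl k3)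
      (by linarith only [μ1, k2, q]) (by norm_num) (by norm_num) (by linarith only [μ1, k2, q]) (by linarith only [μ1, k2, q]) (by linarith only [μ1, k2, q])
  · apply N.up
    rw [show g1 + g2 - g1 = g2 by ring, add_comm]
    exact Sgen ih (O := B.flip) (I := A.flip) (C := C.flip)
      (by simp only [Sh.sz, Sh.sz_flip] at hn ⊢; omega)
      (μ := μ) (s0 := 1.077 - 1.03 * μ) (bm := 0.28) (U := 0.69844 + 0.2884 * μ)
      (Ui := 0.682) (Vi := (1 - μ) * (0.712 + 0.3188 * (1 - μ))) (f := 0.832)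
      H.symm hC.flip m1 m2 (by rwa [Sh.sz_flip])
      (by rw [Sh.sz_flip]; exact uu_le one_pos b0 x0 tB mB (by linarith only [μ1, k2, q]))
      (by rw [Sh.sz_flip]; exact (vv_le (c := 0.85) (U := 0.68 + 0.3836 * μ) (by norm_num) b0 x0
            tB mB (by norm_num; linarith only [μ1, k2, q])).trans (mul_le_mul_of_nonneg_right (by linarith only [μ1, k2, q]) v0))
      (by rw [Sh.sz_flip]
          exact uu_le (c := 0.88) (by norm_num) a0 x0 tA mA (by norm_num; linarith only [μ1, k2, q]))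
      (by rw [Sh.sz_flip]
          exact vv_le (c := 0.89) (by norm_num) a0 x0 tA mA (by norm_num; linarith only [μ1, k2, q]))
      (by rw [Sh.sz_flip]; exact mA.trans (mul_le_mul_of_nonneg_right (by linarith only [μ1, k2, q]) x0))
      (by linarith only [μ1, k2, q]) (by linarith only [μ1, k2, q]) (by linarith only [μ1, k2, q]) (by norm_num) (Or.inl (by linarith only [k3]))
      (by linarith only [μ1, k2, q]) (by norm_num) (by norm_num) (by linarith only [μ1, k2, q]) (by linarith only [μ1, k2, q]) (by linarith only [μ1, k2, q])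

lemma Sstep (ih : IH n) {A B C : Sh} (hn : (Sh.add A B C).sz ≤ n) {x t g1 g2 W : ℝ}
    (H : NT x t g1 g2 W) (hC : C.Small t) (hAB : B.sz ≤ A.sz) (hl : t ≤ B.sz + C.sz + 1)
    (hx : (A.sz : ℝ) + (B.sz + C.sz + 1) ≤ x + (B.sz + C.sz + 1) / 1000) :
    N (.add A B C) (g1 + g2) g1 W := by
  have a0 : (0 : ℝ) ≤ A.sz := Nat.cast_nonneg _
  have b0 : (0 : ℝ) ≤ B.sz := Nat.cast_nonneg _
  have c0 : (0 : ℝ) ≤ C.sz := Nat.cast_nonneg _
  have hAB' : (B.sz : ℝ) ≤ A.sz := by exact_mod_cast hAB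
  have x1 := H.x1
  have ht2 := H.ht2
  by_cases h : x / 2 ≤ A.sz
  · obtain ⟨μ, e⟩ : ∃ μ, μ * x = x - A.sz := ⟨_, div_mul_cancel₀ _ (by linarith)⟩
    exact Sstep0 ih hn H hC (μ := μ)
      ((pos_iff_pos_of_mul_pos (show 0 < μ * x by linarith)).2 (by linarith))
      (le_of_mul_le_mul_right (by linarith) (show 0 < x by linarith)) (by linarith) (by linarith)
      (by linarith) (by linarith) (by linarith)
  · exact Sstep0 ih hn H hC (μ := 0.5) (by norm_num) le_rfl (by linarith) (by linarith)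
      (by linarith) (by linarith) (by linarith)

lemma pk1 {a b μ τ : ℝ} (a0 : 0 ≤ a) (b0 : 0 ≤ b) (ab : a + b ≤ μ) (μ1 : μ ≤ 0.5003)
    (t0 : 0 ≤ τ) (t1 : τ ≤ 0.4753) (ht : τ * (1 - a) = 0.95 * b) :
    (1 - 0.999 * μ) * (1 - 0.1998 * μ) * (1 + τ / 4) ≤ 1 - a - 0.95 * b - 0.0011 * μ := by
  have e1 : 0.95 * b ≤ τ := by nlinarith
  have e2 : (1 - 0.999 * μ) * τ ≤ 0.95 * b - 0.95 * b ^ 2 + 0.0005 * μ := by
    have := mul_le_mul_of_nonneg_right ab t0
    have := mul_le_mul_of_nonneg_left e1 b0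
    have := mul_le_mul_of_nonneg_left t1 (show 0 ≤ μ by linarith)
    nlinarith
  have e3 := mul_le_mul_of_nonneg_left e2 (show 0 ≤ 1 - 0.1998 * μ by linarith)
  have e4 : 0 ≤ μ * (b * (1 - b)) := mul_nonneg (by linarith) (mul_nonneg b0 (by linarith))
  have e5 := mul_nonneg (show 0 ≤ μ - b by linarith) (show 0 ≤ 0.5003 - μ by linarith)
  nlinarith [sq_nonneg (μ - b - 0.25 * μ), sq_nonneg μ, mul_nonneg (show 0 ≤ μ by linarith)
    (show 0 ≤ 0.5003 - μ by linarith)]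

lemma pk2 {a b μ : ℝ} (a0 : 0 ≤ a) (b0 : 0 ≤ b) (ab : a + b ≤ μ) (μ1 : μ ≤ 0.5003) :
    (1 - 0.999 * μ) * (1 - 0.1998 * μ) * (1 - (1 - a - μ / 1000) / 5) ≤
      (1 - a - 0.95 * b - 0.0011 * μ) * (1 - (1 - 0.749 * μ) / 5) := by
  have μ0 : 0 ≤ μ := by linarith
  have e0 : (1 - 0.999 * μ) * (1 - 0.1998 * μ) ≤ 1 - 1.098 * μ := by nlinarith
  have e1 := mul_le_mul_of_nonneg_right e0 (show 0 ≤ 1 - (1 - a - μ / 1000) / 5 by linarith)
  have e2 := mul_le_mul_of_nonneg_right (show 1 - 1.0011 * μ ≤ 1 - a - 0.95 * b - 0.0011 * μ by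
    linarith) (show 0 ≤ 1 - (1 - 0.749 * μ) / 5 by linarith)
  have e3 := mul_le_mul_of_nonneg_left (show a ≤ μ by linarith)
    (show 0 ≤ 1 - 1.098 * μ by linarith)
  nlinarith

lemma pB {xb u W X y E b τ : ℝ} (x0 : 0 ≤ xb) (y0 : 0 < y) (b0 : 0 ≤ b) (W0 : 0 ≤ W)
    (t0 : 0 ≤ τ) (t1 : τ ≤ 0.4753) (Ey : u / 5 ≤ E - y) (u0 : 0 ≤ u) (hy : uu xb ≤ y)
    (uB : uu xb ≤ 0.595 * u) (e2 : vv xb ≤ 0.871 * (b * W)) (e1 : 0.948 * (b * W) ≤ X * τ) :
    AT xb (y + τ * (E - y)) (-(τ * (E - y))) (X * τ * E / y) := by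
  have uB0 := uu_nonneg x0
  have vB0 := vv_nonneg x0
  have d0 : 0 ≤ E - y := by linarith
  have E0 : 0 ≤ E := by linarith
  have tE := mul_nonneg t0 d0
  have tE' := mul_le_mul_of_nonneg_right t1 d0
  have bW := mul_nonneg b0 W0
  have kB : vv xb * (y + τ * (E - y)) ≤ X * τ * E / y * (y - uu xb / 5) := by
    have e3 : 0.871 * ((y + τ * (E - y)) * y) ≤ 0.948 * (E * (y - uu xb / 5)) := by
      have e4 := mul_le_mul_of_nonneg_right tE' y0.le
      by_cases h : y ≤ 0.75 * E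
      · have f1 := mul_le_mul_of_nonneg_left hy E0
        have f2 := mul_le_mul_of_nonneg_right h y0.le
        have f3 := mul_nonneg E0 y0.le
        linarith only [e4, f1, f2, f3]
      · have f1 := mul_le_mul_of_nonneg_left (show uu xb ≤ 2.975 * (E - y) by linarith) E0
        have e5 : 0 ≤ y - 3 * (E - y) := by linarith
        have f2 := mul_nonneg e5 e5
        have f3 := mul_nonneg e5 d0
        have f4 := mul_nonneg d0 d0
        linarith only [e4, f1, f2, f3, f4]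
    rw [div_mul_eq_mul_div, le_div_iff₀ y0]
    have e6 := mul_le_mul_of_nonneg_right e1 (show 0 ≤ E * (y - uu xb / 5) from
      mul_nonneg E0 (by linarith))
    have e7 := mul_le_mul_of_nonneg_right e2 (show 0 ≤ (y + τ * (E - y)) * y from
      mul_nonneg (by linarith) y0.le)
    have e8 := mul_le_mul_of_nonneg_left e3 bW
    linarith only [e6, e7, e8]
  have WB : 0 ≤ X * τ * E / y := div_nonneg (mul_nonneg (by linarith) E0) y0.le
  have f1 := mul_nonneg vB0 tE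
  have f2 := mul_nonneg WB uB0
  have f3 := mul_nonneg WB (show 0 ≤ y - uu xb / 5 by linarith)
  generalize X * τ * E / y = Z at *
  exact ⟨by linarith, le_of_mul_le_mul_right (by linarith only [f1, f2, kB]) y0,
    by linarith only [kB], by linarith only [f1, f3]⟩

lemma pC {xc u W Z y E τ σ V k Uc : ℝ} (x0 : 0 ≤ xc) (W0 : 0 ≤ W) (y0 : 0 ≤ y)
    (t0 : 0 ≤ τ) (t1 : τ ≤ 1) (Ey : u / 5 ≤ E - y) (u0 : 0 ≤ u) (hu : u ≤ E) (yu : σ * u / 5 ≤ y)
    (uC : uu xc ≤ Uc * u) (U1 : Uc ≤ 1) (vC : vv xc ≤ V * W) (V0 : 0 ≤ V) (kX : k * W ≤ Z)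
    (q1 : V * (1 + τ / 4) ≤ k) (q2 : V * (1 - σ / 5) ≤ k * (1 - Uc / 5)) :
    AT xc (y + τ * (E - y)) (E - (y + τ * (E - y))) Z := by
  have uC0 := uu_nonneg x0
  have Vk : V ≤ k := by have := mul_nonneg V0 t0; linarith
  have d0 : 0 ≤ E - y := by linarith
  have tE := mul_nonneg t0 d0
  have tE' := mul_nonneg (sub_nonneg.2 t1) d0
  have uU := mul_le_mul_of_nonneg_right U1 u0
  have VW := mul_le_mul_of_nonneg_right Vk W0
  have VW0 := mul_nonneg V0 W0
  refine ⟨by linarith only [uU, uC, hu], by linarith only [VW, vC, kX], ?_, ?_⟩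
  · have e1 : y + τ * (E - y) ≤ (1 + τ / 4) * (E - u / 5) := by
      have f1 := mul_le_mul_of_nonneg_left Ey (sub_nonneg.2 t1)
      have f2 := mul_le_mul_of_nonneg_left hu t0
      linarith only [f1, f2]
    have e2 := mul_le_mul vC e1 (by linarith) VW0
    have e3 := mul_le_mul_of_nonneg_right q1 (show 0 ≤ W * (E - u / 5) from
      mul_nonneg W0 (by linarith))
    have e4 := mul_le_mul kX (show E - u / 5 ≤ E - uu xc / 5 by linarith) (by linarith)
      (by linarith)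
    linarith only [e2, e3, e4]
  · have e1 : E - (y + τ * (E - y)) ≤ E - σ * u / 5 := by linarith
    have e2 := mul_le_mul vC e1 (by linarith) VW0
    have e3 := mul_le_mul_of_nonneg_right q2 (mul_nonneg W0 u0)
    have e5 := mul_le_mul_of_nonneg_right Vk (mul_nonneg W0 (sub_nonneg.2 hu))
    have e4 := mul_le_mul kX (show E - Uc * u / 5 ≤ E - uu xc / 5 by linarith)
      (by linarith) (by linarith)
    linarith only [e2, e3, e4, e5]

lemma Pgen (ih : IH n) {A B C : Sh} (hn : (Sh.add A B C).sz ≤ n) {x t g1 g2 W a b μ : ℝ}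
    (H : NT x t g1 g2 W)
    (a0 : 0 ≤ a) (b0 : 0 ≤ b) (ab : a + b ≤ μ) (μ1 : μ ≤ 0.5003) (μu : 20000 ≤ μ * uu x)
    (μx : 1 ≤ μ * x) (mA : A.sz ≤ a * x) (mB : B.sz ≤ b * x) (mC : C.sz ≤ (1 - 0.999 * μ) * x)
    (hB : uu B.sz ≤ (1 - a - μ / 1000) * g1) : N (.add A B C) (g1 + g2) g1 W := by
  intro Γ hΓ
  obtain ⟨hu, h1, h2, hW, -, -, x1⟩ := H
  simp only [Sh.sz] at hn
  have x0 : 0 ≤ x := by linarith only [x1]
  have μ0 : 0 ≤ μ := by linarith only [a0, b0, ab, μ1]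
  have u0 := uu_ge x1
  have v0 := vv_ge x1
  have u1 : 0 < uu x := by linarith only [u0]
  have oA := uu_le (c := 0.9) (U := 0.2 + 0.8 * a) (by norm_num) (Nat.cast_nonneg _) x0 a0 mA
    (by norm_num; linarith only [a0, b0, ab, μ1])
  have vA := vv_le (U := 1) one_pos (Nat.cast_nonneg _) x0 a0 mA (by linarith only [a0, b0, ab, μ1])
  have uB := uu_le (c := 0.84) (U := 0.595) (by norm_num) (Nat.cast_nonneg _) x0 b0 mB
    (by norm_num; linarith only [a0, b0, ab, μ1])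
  have vB := vv_le (c := 0.87) (U := 0.871) (by norm_num) (Nat.cast_nonneg _) x0 b0 mB
    (by norm_num; linarith only [a0, b0, ab, μ1])
  have uC := uu_le (U := 1 - 0.749 * μ) one_pos (Nat.cast_nonneg _) x0 (by linarith only [a0, b0, ab, μ1]) mC (by linarith only [a0, b0, ab, μ1])
  have vC := vv_le (U := 1 - 0.1998 * μ) one_pos (Nat.cast_nonneg _) x0 (by linarith only [a0, b0, ab, μ1]) mC (by linarith only [a0, b0, ab, μ1])
  have W0 : 0 < W := by linarith only [hW, v0, x1]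
  obtain ⟨X, y, X3, y0, y1, yσ, yu, XW, X1⟩ := pick hΓ (s0 := 1 - a) h1 (by linarith only [h1, u1])
    μ0 (by linarith only [μu]) (by linarith only [a0, b0, ab, μ1]) W0
  have μW : 1000000 ≤ μ * W := by
    have := mul_le_mul_of_nonneg_left (v0.trans hW) μ0
    linarith only [this, μx]
  have XL : (1 - a - 0.0011 * μ) * W ≤ X := by linarith only [X1, μW]
  have X0 : 0 < X := lt_of_lt_of_le (mul_pos (by linarith only [a0, b0, ab, μ1]) W0) XL
  obtain ⟨yg, -, k2⟩ := outer ih hΓ (xo := A.sz) (X := X) (W := W) (s0 := 1 - a) (bm := 0.8)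
    u1 hu h1 h2 y0.le y1 XW.le W0.le (by linarith only [a0, b0, ab, μ1]) (by linarith only [a0, b0, ab, μ1])
    (by norm_num) (Or.inr rfl) (by linarith only [a0, b0, ab, μ1]) (Nat.cast_nonneg _) oA
    (by have := mul_le_mul_of_nonneg_left hW a0; linarith only [this, vA])
  have a1 : 0 < 1 - a := by linarith only [a0, b0, ab, μ1]
  obtain ⟨τ, ht, t0⟩ : ∃ τ : ℝ, τ * (1 - a) = 0.95 * b ∧ 0 ≤ τ :=
    ⟨0.95 * b / (1 - a), div_mul_cancel₀ _ a1.ne', div_nonneg (by linarith only [a0, b0, ab, μ1]) a1.le⟩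
  have t1 : τ ≤ 0.4753 := le_of_mul_le_mul_right (by linarith only [ht, a0, b0, ab, μ1]) a1
  have t2 : τ ≤ 1.91 * b := by
    have := mul_le_mul_of_nonneg_left (show 0.4997 ≤ 1 - a by linarith only [a0, b0, ab, μ1]) t0
    linarith only [this, ht, b0]
  have t3 : τ ≤ 1 := by linarith only [t1]
  have Ey : uu x / 5 ≤ g1 + g2 - y := by linarith only [h2, yg]
  have V0 : 0 ≤ (1 - 0.999 * μ) * (1 - 0.1998 * μ) := mul_nonneg (by linarith only [a0, b0, ab, μ1]) (by linarith only [a0, b0, ab, μ1])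
  refine place (τ := τ) X3 X0 y0 yg (by linarith only [h2, u1]) XW t0 t3 (k2 A (by omega) le_rfl)
    (ih.Tl hΓ (by simp) (by simp) (pB (X := X) (Nat.cast_nonneg _) y0 b0 W0.le t0 t1 Ey u1.le
      (hB.trans yσ) uB ?_ ?_) ?_ B (by omega) le_rfl)
    (ih.Tr hΓ (by simp) (by simp) (pC (Z := (1 - τ) * X) (Nat.cast_nonneg _) W0.le y0.le t0 t3 Ey
      u1.le hu yu uC (by linarith only [a0, b0, ab, μ1]) (vC.trans (mul_le_mul_of_nonneg_left hW V0)) V0 ?_
      (pk1 a0 b0 ab μ1 t0 t1 ht) (pk2 a0 b0 ab μ1)) (by simp only [cr]; linarith only []) C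
      (by omega) le_rfl)
  · have := mul_le_mul_of_nonneg_left hW b0
    linarith only [this, vB]
  · have f1 := mul_le_mul_of_nonneg_right XL t0
    have f2 := mul_le_mul_of_nonneg_right μ1 t0
    have f3 : 0.948 * b ≤ (1 - a - 0.0011 * μ) * τ := by linarith only [f2, ht, t2, b0]
    have f4 := mul_le_mul_of_nonneg_right f3 W0.le
    linarith only [f1, f4]
  · rw [show y + τ * (g1 + g2 - y) + -(τ * (g1 + g2 - y)) = y by ring, div_mul_cancel₀ _ y0.ne']
    simp only [cr]; linarith only []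
  · have f1 := mul_le_mul_of_nonneg_left XL (sub_nonneg.2 t3)
    have f2 := mul_nonneg t0 μ0
    have f3 : 1 - a - 0.95 * b - 0.0011 * μ ≤ (1 - τ) * (1 - a - 0.0011 * μ) := by
      linarith only [f2, ht]
    have f4 := mul_le_mul_of_nonneg_right f3 W0.le
    linarith only [f1, f4]

lemma pk3 {a b μ : ℝ} (a0 : 0 ≤ a) (b0 : 0 ≤ b) (ab : a + b ≤ μ) (μ1 : μ ≤ 0.5003) :
    (1 - b - μ / 1000) * (0.0858 + 1.0715 * b) + (1 - a - μ / 1000) * (0.0858 + 1.0715 * a)
      ≤ (1 - a - μ / 1000) * (1 - b - μ / 1000) := by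
  have μ0 : 0 ≤ μ := by linarith
  linarith [sq_nonneg (a - b), mul_nonneg μ0 a0, mul_nonneg μ0 b0, sq_nonneg μ,
    sq_nonneg (a + b - 0.5003)]

lemma peel (ih : IH n) {A B C : Sh} (hn : (Sh.add A B C).sz ≤ n) {x t g1 g2 W : ℝ}
    (H : NT x t g1 g2 W) (hl : t ≤ A.sz + B.sz + 1) (hC : A.sz + B.sz + 1 ≤ C.sz)
    (hx : (A.sz + B.sz + 1 : ℝ) + C.sz ≤ x + (A.sz + B.sz + 1) / 1000) :
    N (.add A B C) (g1 + g2) g1 W := by
  have a0 : (0 : ℝ) ≤ A.sz := Nat.cast_nonneg _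
  have b0 : (0 : ℝ) ≤ B.sz := Nat.cast_nonneg _
  have hC' : (A.sz + B.sz + 1 : ℝ) ≤ C.sz := by exact_mod_cast hC
  have x0 : 0 < x := by linarith [H.x1]
  have u0 := uu_nonneg x0.le
  obtain ⟨a, ha⟩ : ∃ a, a * x = A.sz := ⟨_, div_mul_cancel₀ _ x0.ne'⟩
  obtain ⟨b, hb⟩ : ∃ b, b * x = B.sz := ⟨_, div_mul_cancel₀ _ x0.ne'⟩
  obtain ⟨μ, hμ⟩ : ∃ μ, μ * x = A.sz + B.sz + 1 := ⟨_, div_mul_cancel₀ _ x0.ne'⟩
  have a1 : 0 ≤ a := le_of_mul_le_mul_right (by linarith) x0
  have b1 : 0 ≤ b := le_of_mul_le_mul_right (by linarith) x0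
  have ab : a + b ≤ μ := le_of_mul_le_mul_right (by linarith) x0
  have μ1 : μ ≤ 0.5003 := le_of_mul_le_mul_right (by linarith) x0
  have μu : 20000 ≤ μ * uu x := by
    have := mul_le_mul_of_nonneg_right (show t ≤ μ * x by linarith) u0
    exact le_of_mul_le_mul_right (by linarith only [this, H.ht1]) x0
  have μx : 1 ≤ μ * x := by linarith
  have mC : C.sz ≤ (1 - 0.999 * μ) * x := by linarith
  by_cases k1 : uu B.sz ≤ (1 - a - μ / 1000) * g1
  · exact Pgen ih hn H a1 b1 ab μ1 μu μx ha.ge hb.ge mC k1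
  apply N.up
  rw [show g1 + g2 - g1 = g2 by ring, add_comm]
  refine Pgen ih (A := B.flip) (B := A.flip) (C := C.flip) (a := b) (b := a) (μ := μ)
    (by simp only [Sh.sz, Sh.sz_flip] at hn ⊢; omega) H.symm b1 a1
    (by linarith only [ab]) μ1 μu μx (by rw [Sh.sz_flip]; exact hb.ge)
    (by rw [Sh.sz_flip]; exact ha.ge) (by rwa [Sh.sz_flip]) ?_
  rw [Sh.sz_flip]
  by_contra k2
  have uA := uu_le (c := 0.7) (U := 0.0858 + 1.0715 * a) (by norm_num) a0 x0.le a1 ha.ge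
    (by norm_num; linarith only [a1])
  have uB := uu_le (c := 0.7) (U := 0.0858 + 1.0715 * b) (by norm_num) b0 x0.le b1 hb.ge
    (by norm_num; linarith only [b1])
  have s1 : 0 < 1 - a - μ / 1000 := by linarith only [a1, b1, ab, μ1]
  have s2 : 0 < 1 - b - μ / 1000 := by linarith only [a1, b1, ab, μ1]
  have e1 := mul_lt_mul_of_pos_left ((not_le.1 k1).trans_le uB) s2
  have e2 := mul_lt_mul_of_pos_left ((not_le.1 k2).trans_le uA) s1
  have e3 := mul_le_mul_of_nonneg_left H.hu (mul_pos s1 s2).le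
  have e5 := mul_le_mul_of_nonneg_right (pk3 a1 b1 ab μ1) u0
  linarith only [e1, e2, e3, e5]

end Pool.Agent.Lib.MP_68dca0_co.Up
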