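import Pool.Agent.Lib.MP_68dca0_co.UpC

namespace Pool.Agent.Lib.MP_68dca0_co.Up

variable {n : ℕ}

lemma Fgen (ih : IH n) {A B C : Sh} (hn : (Sh.add A B C).sz ≤ n) {h g W ε : ℝ} (h0 : 0 ≤ h)
    (g0 : 0 < g) (ε1 : ε < 1) (εg : 2 ≤ ε * g) (εW : 6 ≤ ε * W) (W0 : 0 < W)
    (H : ∀ G Wt, (1 - ε) * g ≤ G → G ≤ g → (1 - ε) * W ≤ Wt → ∃ s WQ, s ≤ 1 ∧ 0 ≤ WQ ∧
      WQ ≤ s * Wt ∧ AT A.sz (h + (1 - s) * G) (s * G) WQ ∧
      AT B.sz ((1 - s) * G) (s * G) (s * Wt - WQ) ∧ ∀ Γ (c : P2), Lat Γ → c.2 = h + (1 - s) * G →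
        cr (0, 0) (W, h) c = Wt * (h + (1 - s) * G) - h * WQ →
        D Γ C (0, 0) (W, h) (Tri (0, 0) (W, h) c)) : NF (.add A B C) h g W := by
  intro Γ hΓ
  simp only [Sh.sz] at hn
  obtain ⟨d, hd⟩ : ∃ d, d * W = 3 * g := ⟨_, div_mul_cancel₀ _ W0.ne'⟩
  have d0 : 0 < d := (pos_iff_pos_of_mul_pos (show 0 < d * W by linarith)).2 W0
  have d1 : d ≤ ε * g / 2 := by
    have := mul_le_mul_of_nonneg_right εW g0.le
    exact le_of_mul_le_mul_right (by linarith) W0
  obtain ⟨y, y1, y2, y3⟩ := hΓ (h + g - d - 1)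
  obtain ⟨ξ, x1, x2, x3⟩ := y3 1
  obtain ⟨G, rfl⟩ : ∃ G, y = h + G := ⟨y - h, by ring⟩
  have G1 : (1 - ε) * g ≤ G := by linarith
  have G0 : 0 < G := (mul_pos (by linarith) g0).trans_le G1
  have hG : 0 < h + G := by linarith
  have e1 : ξ * h / (h + G) ≤ 2 := by
    rw [div_le_iff₀ hG]
    have := mul_le_mul_of_nonneg_right x2 h0
    linarith
  have Wt1 : (1 - ε) * W ≤ W - ξ * h / (h + G) := by linarith
  obtain ⟨s, WQ, s1, q0, q1, hA, hB, hC⟩ := H G _ G1 (by linarith) Wt1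
  have Wt0 : 0 < W - ξ * h / (h + G) := (mul_pos (by linarith) W0).trans_le Wt1
  have hw : (ξ, h + G) ∈ Tri (0, 0) (W, h) (0, h + g) := by
    have f1 := mul_pos Wt0 hG
    have f2 : ξ * h / (h + G) * (h + G) = ξ * h := by field_simp
    have f3 := mul_le_mul_of_nonneg_right (show d ≤ g - G by linarith) W0.le
    have f4 := mul_le_mul_of_nonneg_right x2 g0.le
    have f5 := mul_pos (show 0 < ξ by linarith) (show 0 < h + g by linarith)
    refine ⟨?_, ?_, ?_⟩ <;> simp only [cr] <;> linarith only [f1, f2, f3, f4, f5, hd, g0]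
  obtain ⟨c, c0, c1, c2, c3⟩ : ∃ c : P2, c.2 = h + (1 - s) * G ∧
      cr (ξ, h + G) (0, 0) c = WQ * (h + G) ∧
      cr (W, h) (ξ, h + G) c = (s * (W - ξ * h / (h + G)) - WQ) * G ∧
      cr (0, 0) (W, h) c = (W - ξ * h / (h + G)) * (h + (1 - s) * G) - h * WQ := by
    refine ⟨(ξ * (h + (1 - s) * G) / (h + G) + WQ, h + (1 - s) * G), rfl, ?_, ?_, ?_⟩ <;>
      simp only [cr] <;> field_simp <;> ring
  generalize W - ξ * h / (h + G) = Wt at *
  refine comp (c := c) x3 hw.1 ?_ ?_ ?_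
    ((ih.Tr hΓ (by rw [c0]; simp) (by rw [c0]; ring) hA (by rw [c1]; linarith only [])).symm A
      (by omega) le_rfl)
    (ih.Tl hΓ (by rw [c0]; simp) (by rw [c0]; ring) hB (by rw [c2]; linarith only []) B
      (by omega) le_rfl) (hC Γ c hΓ c0 c3) (fun x hx => Or.inr hx) (in_tri hw)
  · have f1 := mul_le_mul_of_nonneg_left q1 h0
    have f2 := mul_nonneg (mul_nonneg Wt0.le (sub_nonneg.2 s1)) hG.le
    rw [c3]; linarith only [f1, f2]
  · rw [c2]; exact mul_nonneg (by linarith) G0.le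
  · rw [c1]; exact mul_nonneg q0 hG.le

lemma atr {m ul h G s r : ℝ} (m0 : 0 ≤ m) (h0 : 0 ≤ h) (r1 : 1 ≤ r) (u1 : uu m ≤ ul) (u2 : ul ≤ G)
    (u3 : ul / 5 ≤ (1 - s) * G) (u4 : (1 - s) * G ≤ r * (G - ul / 5)) :
    AT m (h + (1 - s) * G) (s * G) (r * vv m) := by
  have u0 := uu_nonneg m0
  have v0 := vv_nonneg m0
  have e1 := mul_le_mul_of_nonneg_right r1 h0
  have e2 := mul_le_mul_of_nonneg_left u1 (show 0 ≤ r by linarith)
  have e3 := mul_le_mul_of_nonneg_right r1 (show 0 ≤ h + G - uu m / 5 by linarith)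
  have e4 := mul_le_mul_of_nonneg_left (show h + (1 - s) * G ≤ r * (h + G - uu m / 5) by linarith) v0
  have e5 := mul_le_mul_of_nonneg_left (show s * G ≤ r * (h + G - uu m / 5) by linarith) v0
  have e6 := mul_le_mul_of_nonneg_right r1 v0
  exact ⟨by linarith, by linarith only [e6], by linarith only [e4], by linarith only [e5]⟩

lemma AF.pos {x h g W : ℝ} (H : AF x h g W) (x1 : 1 ≤ x) :
    4 * 10 ^ 34 ≤ g ∧ 1.001 * vv x ≤ W ∧ 10 ^ 6 * x ≤ W := by
  obtain ⟨a1, a2, a3, -⟩ := H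
  have u0 := uu_ge x1
  have v0 := vv_ge x1
  have g0 : 0 < g := by linarith
  have e0 := mul_pos (show 0 < vv x by linarith) g0
  have W0 : 0 < W := (pos_iff_pos_of_mul_pos (show 0 < W * (g - uu x / 5) by linarith)).2
    (by linarith)
  have := mul_pos W0 (show 0 < uu x by linarith)
  have e1 : 1.001 * vv x ≤ W := le_of_mul_le_mul_right (by linarith) g0
  exact ⟨by linarith, e1, by linarith⟩

lemma fpC {x xc h g W G Wt μ lam s : ℝ} (H : AF x h g W) (x1 : 1 ≤ x) (μ0 : 0 ≤ μ) (μ1 : μ ≤ 0.5)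
    (c0 : 0 ≤ xc) (mC : xc ≤ (1 - μ) * x) (hl : lam * g = 1.001 * uu x) (l0 : 0 ≤ lam)
    (l1 : lam ≤ 1) (hs : s = μ * (0.9 - 0.16 * lam)) (G1 : (1 - μ / 1000) * g ≤ G)
    (W1 : (1 - μ / 1000) * W ≤ Wt) : AF xc h ((1 - s) * G) ((1 - s) * Wt) := by
  obtain ⟨g0, W0, W0'⟩ := H.pos x1
  obtain ⟨a1, a2, a3, a4⟩ := H
  have x0 : 0 ≤ x := by linarith
  have uC := uu_le (U := 1 - 0.75 * μ) one_pos c0 x0 (by linarith) mC (by linarith)
  have vC := vv_le (U := 1) one_pos c0 x0 (by linarith) mC (by linarith)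
  have u0 := uu_nonneg x0
  have v0 := vv_nonneg c0
  have gp : 0 < g := by linarith only [g0]
  have Wp : 0 < W := by linarith only [W0', x1]
  have ml := mul_nonneg μ0 l0
  have ml' := mul_nonneg μ0 (sub_nonneg.2 l1)
  have s0 : 0 ≤ s := by rw [hs]; linarith only [ml', μ0]
  have s1 : 0 ≤ 1 - s := by rw [hs]; linarith only [ml, μ1]
  obtain ⟨σ, hσ⟩ : ∃ σ, σ = 1 - s - μ / 1000 := ⟨_, rfl⟩
  have σ1 : σ ≤ (1 - s) * (1 - μ / 1000) := by
    have := mul_nonneg s0 μ0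
    linarith only [this, hσ]
  have gC : σ * g ≤ (1 - s) * G := by
    have e1 := mul_le_mul_of_nonneg_left G1 s1
    have e2 := mul_le_mul_of_nonneg_right σ1 gp.le
    linarith only [e1, e2]
  have WC : σ * W ≤ (1 - s) * Wt := by
    have e1 := mul_le_mul_of_nonneg_left W1 s1
    have e2 := mul_le_mul_of_nonneg_right σ1 Wp.le
    linarith only [e1, e2]
  have σ2 : 1 - 0.901 * μ ≤ σ := by rw [hσ, hs]; linarith only [ml]
  have σ3 : lam * (1 - 0.75 * μ) ≤ σ := by
    have := mul_nonneg (sub_nonneg.2 l1) (show 0 ≤ 1 - 0.91 * μ by linarith only [μ1])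
    rw [hσ, hs]; linarith only [this, μ0]
  generalize (1 - s) * G = gc at *
  generalize (1 - s) * Wt = Wc at *
  have k1 : 1.001 * uu xc ≤ gc := by
    have e1 := mul_le_mul_of_nonneg_right σ3 gp.le
    have e2 : lam * g * (1 - 0.75 * μ) = 1.001 * uu x * (1 - 0.75 * μ) := by rw [hl]
    linarith only [e1, e2, gC, uC]
  have uc0 := uu_nonneg c0
  have gc0 : 0 ≤ gc := by linarith only [k1, uc0]
  refine ⟨a1, k1, ?_, fun m b1 b2 => a4 m b1 ?_⟩
  · have e1 : (1 - μ) * (g - uu x / 5) + uu xc / 5 ≤ σ * g := by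
      have f1 := mul_le_mul_of_nonneg_right σ2 gp.le
      have f2 := mul_le_mul_of_nonneg_left a2 μ0
      have f3 := mul_nonneg μ0 u0
      linarith only [f1, f2, f3, uC]
    have e2 := mul_le_mul_of_nonneg_right e1 gc0
    have e3 := mul_le_mul_of_nonneg_right gC uc0
    have e4 : (1 - μ) * (g - uu x / 5) * gc ≤ σ * g * (gc - uu xc / 5) := by
      linarith only [e2, e3]
    have e5 := mul_le_mul_of_nonneg_left e4 Wp.le
    have e6 := mul_le_mul_of_nonneg_right WC (mul_nonneg gp.le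
      (show 0 ≤ gc - uu xc / 5 by linarith only [k1, uc0]))
    have e7 := mul_le_mul_of_nonneg_right a3 (mul_nonneg (show 0 ≤ 1 - μ by linarith only [μ1]) gc0)
    have e8 := mul_le_mul_of_nonneg_right vC (mul_nonneg gp.le gc0)
    refine le_of_mul_le_mul_right ?_ gp
    linarith only [e5, e6, e7, e8]
  · have e1 := mul_le_mul_of_nonneg_right (show 1 - μ ≤ σ by linarith only [σ2, μ0]) gp.le
    have e2 := mul_le_mul_of_nonneg_left (e1.trans gC) (show 0 ≤ m by linarith only [b1])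
    refine le_of_mul_le_mul_right ?_ (show 0 < 1 - μ by linarith only [μ1])
    linarith only [e2, b2, mC]

lemma Fpeel (ih : IH n) {A B C : Sh} (hn : (Sh.add A B C).sz ≤ n) {x h g W : ℝ} (H : AF x h g W)
    (hx : (A.sz + B.sz + 1 : ℝ) + C.sz = x) (hl : 20000 * x / g ≤ A.sz + B.sz + 1)
    (hC : A.sz + B.sz + 1 ≤ C.sz) : NF (.add A B C) h g W := by
  have a0 : (0 : ℝ) ≤ A.sz := Nat.cast_nonneg _
  have b0 : (0 : ℝ) ≤ B.sz := Nat.cast_nonneg _
  have c0 : (0 : ℝ) ≤ C.sz := Nat.cast_nonneg _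
  have hC' : (A.sz + B.sz + 1 : ℝ) ≤ C.sz := by exact_mod_cast hC
  have x1 : 1 ≤ x := by linarith
  have x0 : 0 < x := by linarith
  obtain ⟨g0, W0, W0'⟩ := H.pos x1
  have gp : 0 < g := by linarith only [g0]
  have Wp : 0 < W := by linarith only [W0', x1]
  obtain ⟨μ, hμ⟩ : ∃ μ, μ * x = A.sz + B.sz + 1 := ⟨_, div_mul_cancel₀ _ x0.ne'⟩
  have μ0 : 0 ≤ μ := le_of_mul_le_mul_right (by linarith) x0
  have μ1 : μ ≤ 0.5 := le_of_mul_le_mul_right (by linarith) x0
  have μg : 20000 ≤ μ * g := by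
    rw [div_le_iff₀ gp, ← hμ] at hl
    exact le_of_mul_le_mul_right (by linarith only [hl]) x0
  have μW := mul_le_mul_of_nonneg_left W0' μ0
  refine Fgen ih hn (ε := μ / 1000) H.1 gp (by linarith only [μ1]) (by linarith only [μg])
    (by linarith only [μW, hμ, a0, b0]) Wp fun G Wt G1 G2 W1 => ?_
  obtain ⟨lam, hl⟩ : ∃ lam, lam * g = 1.001 * uu x := ⟨_, div_mul_cancel₀ _ gp.ne'⟩
  have u0 := uu_nonneg x0.le
  have v0 := vv_nonneg x0.le
  have l0 : 0 ≤ lam := le_of_mul_le_mul_right (by linarith only [hl, u0]) gp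
  have l1 : lam ≤ 1 := le_of_mul_le_mul_right (by linarith only [hl, H.2.1]) gp
  obtain ⟨s, hs⟩ : ∃ s, s = μ * (0.9 - 0.16 * lam) := ⟨_, rfl⟩
  have kC := fpC H x1 μ0 μ1 c0 (by linarith only [hμ, hx]) hl l0 l1 hs G1 W1
  obtain ⟨a1, a2, a3, -⟩ := H
  have ml := mul_nonneg μ0 l0
  have ml' := mul_nonneg μ0 (sub_nonneg.2 l1)
  have s0 : 0.74 * μ ≤ s := by rw [hs]; linarith only [ml']
  have s1 : s ≤ 0.45 := by rw [hs]; linarith only [ml, μ1]
  have m1 : 1 ≤ μ * x := by linarith only [hμ, a0, b0]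
  have m0 : 0 ≤ μ * x := by linarith only [m1]
  have ul := uu_le (c := 0.84) (U := 0.595) (by norm_num) m0 x0.le μ0 le_rfl
    (by norm_num; linarith only [μ1])
  have vl := vv_le (c := 0.87) (U := 0.871) (by norm_num) m0 x0.le μ0 le_rfl
    (by norm_num; linarith only [μ1])
  have vl' := vv_le (c := 0.75) (U := 0.6 + 0.6322 * μ) (by norm_num) m0 x0.le μ0 le_rfl
    (by norm_num; linarith only [μ0])
  have vp : 0 < vv (μ * x) := by linarith only [vv_ge m1, m1]
  have μg' := mul_le_mul_of_nonneg_right μ1 gp.le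
  have μW' := mul_le_mul_of_nonneg_right μ1 Wp.le
  have G3 : 0.9995 * g ≤ G := by linarith only [G1, μg']
  have W3 : 0.9995 * W ≤ Wt := by linarith only [W1, μW']
  have Gp : 0 < G := by linarith only [G3, gp]
  obtain ⟨r, hr⟩ : ∃ r, r * vv (μ * x) = s * Wt := ⟨_, div_mul_cancel₀ _ vp.ne'⟩
  have r1 : 1 ≤ r := by
    refine le_of_mul_le_mul_right ?_ vp
    have e1 : 1.001 * 1.001 * vv x ≤ W * (1.001 - lam / 5) := by
      have : W * (lam * g) = W * (1.001 * uu x) := by rw [hl]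
      exact le_of_mul_le_mul_right (by linarith only [this, a3]) gp
    have e2 := mul_le_mul_of_nonneg_left e1 μ0
    have e3 := mul_le_mul_of_nonneg_left W3 (show 0 ≤ s by linarith only [s0, μ0])
    have e4 := mul_nonneg ml Wp.le
    have e5 := mul_nonneg μ0 Wp.le
    rw [hr]
    rw [hs] at e3 ⊢
    linarith only [e2, e3, e4, e5, vl]
  have r2 : (1 - s) * G ≤ r * (G - uu (μ * x) / 5) := by
    refine le_of_mul_le_mul_right ?_ vp
    have e1 : (g - uu x / 5) * G ≤ (G - uu (μ * x) / 5) * g := by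
      have f1 := mul_le_mul_of_nonneg_left G3 u0
      have f2 := mul_le_mul_of_nonneg_right ul gp.le
      have f3 := mul_nonneg u0 gp.le
      linarith only [f1, f2, f3]
    have e2 : vv x * G ≤ Wt * (G - uu (μ * x) / 5) := by
      have f1 := mul_le_mul W3 e1 (mul_nonneg (by linarith only [a2, u0]) Gp.le)
        (by linarith only [W3, Wp])
      have f2 := mul_le_mul_of_nonneg_right a3 Gp.le
      have f3 := mul_nonneg (mul_nonneg v0 gp.le) Gp.le
      exact le_of_mul_le_mul_right (by linarith only [f1, f2, f3]) gp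
    have e3 : (1 - s) * vv (μ * x) ≤ s * vv x := by
      have f1 := mul_le_mul (show 1 - s ≤ 1 - 0.74 * μ by linarith only [s0]) vl' vp.le
        (by linarith only [μ1])
      have f2 : (1 - 0.74 * μ) * (0.6 + 0.6322 * μ) ≤ 0.74 := by
        linarith only [mul_nonneg μ0 μ0, μ1]
      have f3 := mul_le_mul_of_nonneg_right f2 (mul_nonneg μ0 v0)
      have f4 := mul_le_mul_of_nonneg_right s0 v0
      linarith only [f1, f3, f4]
    have e4 := mul_le_mul_of_nonneg_right e3 Gp.le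
    have e5 := mul_le_mul_of_nonneg_left e2 (show 0 ≤ s by linarith only [s0, μ0])
    have e6 : r * vv (μ * x) * (G - uu (μ * x) / 5) = s * Wt * (G - uu (μ * x) / 5) := by rw [hr]
    linarith only [e4, e5, e6]
  have u2 : uu (μ * x) ≤ G := by linarith only [ul, G3, a2, u0]
  have u3 : uu (μ * x) / 5 ≤ (1 - s) * G := by
    have := mul_le_mul_of_nonneg_right s1 Gp.le
    linarith only [this, u2, Gp]
  have vs := (vv_add a0 b0).trans (vv_mono (by linarith only [a0, b0])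
    (show (A.sz + B.sz : ℝ) ≤ μ * x by linarith only [hμ]))
  have vs' := mul_le_mul_of_nonneg_left vs (show 0 ≤ r by linarith only [r1])
  have q0 := mul_nonneg (show 0 ≤ r by linarith only [r1]) (vv_nonneg a0)
  have q1 := mul_nonneg (show 0 ≤ r by linarith only [r1]) (vv_nonneg b0)
  refine ⟨s, r * vv A.sz, by linarith only [s1], q0, by linarith only [vs', hr, q1],
    atr a0 a1 r1 (uu_mono a0 (by linarith only [hμ, b0])) u2 u3 r2, ?_, fun Γ c hΓ c1 c2 => ?_⟩
  · have := (atr b0 le_rfl r1 (uu_mono b0 (by linarith only [hμ, a0])) u2 u3 r2).mono b0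
      (show _ ≤ s * Wt - r * vv A.sz by linarith only [vs', hr])
    rwa [zero_add] at this
  · refine ih.F hΓ (by simp) (by rw [c1]; ring) kC ?_ C (by simp only [Sh.sz] at hn; omega) le_rfl
    have e1 := mul_le_mul_of_nonneg_left (show r * vv A.sz ≤ s * Wt by
      linarith only [vs', hr, q1]) a1
    have e2 := mul_nonneg (mul_nonneg (show 0 ≤ s by linarith only [s0, μ0])
      (show 0 ≤ Wt by linarith only [W3, Wp]))
      (mul_nonneg (show 0 ≤ 1 - s by linarith only [s1]) Gp.le)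
    rw [c2]
    linarith only [e1, e2]

lemma Fs (ih : IH n) {A B C : Sh} (hn : (Sh.add A B C).sz ≤ n) {x h g W : ℝ} (H : AF x h g W)
    (hx : (A.sz + B.sz + 1 : ℝ) + C.sz = x) (hC : C.Small (20000 * x / g)) :
    NF (.add A B C) h g W := by
  have a0 : (0 : ℝ) ≤ A.sz := Nat.cast_nonneg _
  have b0 : (0 : ℝ) ≤ B.sz := Nat.cast_nonneg _
  have c0 : (0 : ℝ) ≤ C.sz := Nat.cast_nonneg _
  have x1 : 1 ≤ x := by linarith
  have x0 : 0 < x := by linarith
  obtain ⟨g0, W0, W0'⟩ := H.pos x1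
  have gp : 0 < g := by linarith only [g0]
  have Wp : 0 < W := by linarith only [W0', x1]
  refine Fgen ih hn (ε := 0.0001) H.1 gp (by norm_num) (by linarith only [g0])
    (by linarith only [W0', x1]) Wp fun G Wt G1 G2 W1 => ?_
  obtain ⟨a1, a2, a3, a4⟩ := H
  have u0 := uu_nonneg x0.le
  have v0 := vv_nonneg x0.le
  have Gp : 0 < G := by linarith only [G1, gp]
  obtain ⟨s, hs⟩ : ∃ s, s * G = G - uu x / 5 := ⟨_, div_mul_cancel₀ _ Gp.ne'⟩
  have s1 : s ≤ 1 := le_of_mul_le_mul_right (by linarith only [hs, u0]) Gp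
  have Wtp : 0 < Wt := by linarith only [W1, Wp]
  have k1 : 1.0007 * vv x ≤ s * Wt := by
    have e1 : (1 - 0.0001) * ((g - uu x / 5) * G) ≤ (G - uu x / 5) * g := by
      have f1 := mul_le_mul_of_nonneg_left G1 u0
      have f2 := mul_nonneg gp.le (show 0 ≤ G - 2 * (uu x / 5) by linarith only [G1, a2, u0])
      have f3 := mul_nonneg u0 gp.le
      linarith only [f1, f2, f3]
    have e2 := mul_le_mul W1 e1 (mul_nonneg (by norm_num)
      (mul_nonneg (by linarith only [a2, u0]) Gp.le)) Wtp.le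
    have e3 := mul_le_mul_of_nonneg_right a3 Gp.le
    have e4 := mul_nonneg (mul_nonneg v0 gp.le) Gp.le
    have e5 : s * G * (Wt * g) = (G - uu x / 5) * (Wt * g) := by rw [hs]
    exact le_of_mul_le_mul_right (by linarith only [e2, e3, e4, e5]) (mul_pos gp Gp)
  have vs := (vv_add a0 b0).trans (vv_mono (by linarith only [a0, b0])
    (show (A.sz + B.sz : ℝ) ≤ x by linarith only [hx, c0]))
  have q0 := vv_nonneg a0
  have q1 := vv_nonneg b0
  have uA := uu_mono a0 (show _ ≤ x by linarith only [hx, b0, c0])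
  have uB := uu_mono b0 (show _ ≤ x by linarith only [hx, a0, c0])
  refine ⟨s, vv A.sz, s1, q0, by linarith only [k1, vs, q1, v0],
    AT.of_gaps a0 (by linarith only [uA, a1, G1, a2, u0]) (by linarith only [uA, a1, hs])
      (by linarith only [uA, G1, a2, u0, hs]) le_rfl,
    AT.of_gaps b0 (by linarith only [uB, G1, a2, u0]) (by linarith only [uB, hs])
      (by linarith only [uB, G1, a2, u0, hs]) (by linarith only [k1, vs, v0]),
    fun Γ c hΓ c1 c2 => ?_⟩
  have hm : ∀ m, 1 ≤ m → m < 20000 * x / g → uu m ≤ h / 2 - 1 ∧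
      5 / 4 * vv m + 2 ≤ 2 / 10 ^ 6 * vv x / x * m := fun m m1 m2 => by
    rw [lt_div_iff₀ gp] at m2
    have := mul_le_mul_of_nonneg_left g0 (show 0 ≤ m by linarith only [m1])
    exact ⟨by linarith only [a4 m m1 m2.le], vv_tiny m1 (by linarith only [this, m2, x0])⟩
  cases C with
  | leaf => exact D.leaf
  | add A' B' C' =>
  have m1 : (1 : ℝ) ≤ A'.sz + B'.sz + 1 := by
    linarith only [Nat.cast_nonneg (α := ℝ) A'.sz, Nat.cast_nonneg (α := ℝ) B'.sz]
  have h4 : 4 ≤ h := by linarith only [(hm _ m1 hC.1).1, uu_ge m1]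
  have hp : 0 < h := by linarith only [h4]
  generalize Sh.add A' B' C' = C at *
  have yc : (1 - s) * G = uu x / 5 := by linarith only [hs]
  rw [yc] at c1 c2
  obtain ⟨Z, hZ⟩ : ∃ Z, Z * h = cr (0, 0) (W, h) c := ⟨_, div_mul_cancel₀ _ hp.ne'⟩
  have k2 : 0.0007 * vv x * (h + uu x / 5) ≤ Z * h := by
    have e1 := mul_le_mul_of_nonneg_right s1 Wtp.le
    have e2 := mul_le_mul_of_nonneg_right (show 0.0007 * vv x ≤ Wt - vv A.sz by
      linarith only [e1, k1, vs, q1]) (show 0 ≤ h + uu x / 5 by linarith only [hp, u0])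
    have e3 := mul_nonneg q0 u0
    rw [hZ, c2]; linarith only [e2, e3]
  have vp : 0 < vv x * (h + uu x / 5) :=
    mul_pos (by linarith only [vv_ge x1, x1]) (by linarith only [hp, u0])
  have Zp : 0 < Z := (pos_iff_pos_of_mul_pos (show 0 < Z * h by linarith only [k2, vp])).2 hp
  refine ((bulk ih (C := C.flip) (E := h) (g := h + uu x / 5) (W := Z) (y0 := h / 2) hC.flip
    (by simp only [Sh.sz, Sh.sz_flip] at hn ⊢; omega) hm (by linarith only [h4])
    (by linarith only []) (by linarith only [hp, u0]) (by linarith only []) Zp ?_).left hΓ hp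
    (by simp) (by simpa using c1) hZ.symm).unflip
  rw [Sh.sz_flip]
  have e1 : 2 / 10 ^ 6 * vv x / x * C.sz ≤ 2 / 10 ^ 6 * vv x / x * x :=
    mul_le_mul_of_nonneg_left (by linarith only [hx, a0, b0]) (by positivity)
  rw [div_mul_cancel₀ _ x0.ne'] at e1
  have e2 := mul_le_mul_of_nonneg_right e1 (show 0 ≤ h + uu x / 5 by linarith only [hp, u0])
  have e3 := mul_le_mul_of_nonneg_left h4 Zp.le
  linarith only [e2, e3, k2, vp]

lemma Fstep (ih : IH n) {s : Sh} (hn : s.sz ≤ n) {x h g W : ℝ} (hx : s.sz ≤ x) (H : AF x h g W) :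
    NF s h g W := by
  rcases struct (20000 * s.sz / g) s with rfl | ⟨A, B, C, h1, h2⟩
  · exact fun _ _ => D.leaf
  have e : (A.sz + B.sz + 1 : ℝ) + C.sz = s.sz := by rw [h1.1, Sh.sz]; push_cast; ring
  have x1 : (1 : ℝ) ≤ s.sz := one_le (A := A) (B := B) (C := C) (by rw [h1.1])
  have H' : AF s.sz h g W := by
    obtain ⟨g0, -, W0⟩ := H.pos (x1.trans hx)
    obtain ⟨a1, a2, a3, a4⟩ := H
    have e1 := uu_mono (Nat.cast_nonneg _) hx
    have e2 := mul_le_mul_of_nonneg_right (vv_mono (Nat.cast_nonneg _) hx)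
      (show 0 ≤ g by linarith)
    have e3 := mul_le_mul_of_nonneg_left e1 (show 0 ≤ W by linarith)
    exact ⟨a1, by linarith, by linarith, fun m b1 b2 => a4 m b1 (by linarith)⟩
  intro Γ hΓ
  rcases h2 with h2 | h2
  · exact h1.D (Fpeel ih (h1.1 ▸ hn) H' e h2.1 h2.2 Γ hΓ)
  · exact h1.D (Fs ih (h1.1 ▸ hn) H' e h2 Γ hΓ)

end Pool.Agent.Lib.MP_68dca0_co.Up
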