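import Pool.Agent.Lib.MP_68dca0_co.UpD
import Pool.Agent.Lib.MP_68dca0_co.UpE

namespace Pool.Agent.Lib.MP_68dca0_co.Up

variable {n : ℕ}

def Rg (g1 g2 W : ℝ) (a b : P2) : Set P2 :=
  {x | 0 < cr a b x ∧ 0 < cr (0, 0) (W, g1) x ∧ 0 < cr (W, g1) (0, g1 + g2) x ∧
    b.2 ≤ x.2 ∧ x.2 ≤ a.2}

structure Inv (t xw : ℝ) (Γ : Set P2) (g1 g2 W yb yt : ℝ) (a b : P2) (X M : ℝ) : Prop where
  lat : Lat Γ
  rb : Row Γ yb
  rt : Row Γ yt
  g10 : 0 < g1
  g20 : 0 < g2
  W0 : 0 < W
  f1 : 4 * vv (2 * t) * g1 < W * yb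
  f2 : 4 * vv (2 * t) * g2 < W * (g1 + g2 - yt)
  f3 : uu xw / 5 ≤ g1 - yb
  f4 : uu xw / 5 ≤ yt - g1
  f5 : uu xw ≤ yt - yb
  f6 : vv xw ≤ W - 4 * vv (2 * t)
  f7 : 3 * uu t ≤ yt - yb
  f8 : 40000 * t < yt - yb
  ht1 : 20000 * xw ≤ t * uu xw
  ht2 : t ≤ xw / 10 ^ 30
  x1 : 1 ≤ xw
  ia : yt ≤ a.2
  ib : b.2 ≤ yb
  xa : a.1 ≤ X
  xb : b.1 ≤ X
  ca : 0 ≤ cr (W, g1) (0, g1 + g2) a
  cb : 0 ≤ cr (0, 0) (W, g1) b
  iX : X + 4 * vv M ≤ 4 * vv (2 * t)
  M0 : 0 ≤ M
  M1 : M ≤ 2 * t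

def RunP (n0 t xw : ℝ) (s : Sh) : Prop := ∀ Γ g1 g2 W yb yt a b X M,
  Inv t xw Γ g1 g2 W yb yt a b X M → s.sz + 2 * t ≤ n0 + M → D Γ s a b (Rg g1 g2 W a b)

section
variable {n0 t xw : ℝ} {Γ : Set P2} {g1 g2 W yb yt : ℝ} {a b : P2} {X M : ℝ}

lemma Inv.sides (I : Inv t xw Γ g1 g2 W yb yt a b X M) {p : P2} (hp : p.1 ≤ 4 * vv (2 * t)) :
    (yt ≤ p.2 → 0 < cr (0, 0) (W, g1) p) ∧ (p.2 ≤ yb → 0 < cr (W, g1) (0, g1 + g2) p) := by
  have u0 := uu_ge I.x1
  have v0 := vv_ge I.x1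
  have e0 : p.1 < W := by linarith only [hp, I.f6, v0, I.x1]
  have e1 := mul_lt_mul_of_pos_left e0 I.g10
  have e2 := mul_lt_mul_of_pos_left e0 I.g20
  refine ⟨fun h => ?_, fun h => ?_⟩
  · have e3 := mul_le_mul_of_nonneg_left (show g1 ≤ p.2 by linarith only [h, I.f4, u0]) I.W0.le
    simp only [cr]; linarith only [e1, e3]
  · have e3 := mul_le_mul_of_nonneg_left (show p.2 ≤ g1 by linarith only [h, I.f3, u0]) I.W0.le
    simp only [cr]; linarith only [e2, e3]

lemma Inv.exit (I : Inv t xw Γ g1 g2 W yb yt a b X M) {s : Sh}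
    (H : ∀ g1 g2 W, NT xw t g1 g2 W → N s (g1 + g2) g1 W) : D Γ s a b (Rg g1 g2 W a b) := by
  have u0 := uu_ge I.x1
  have vM := vv_nonneg I.M0
  have k1 : uu xw / 5 ≤ g1 - b.2 := by linarith only [I.f3, I.ib]
  have k2 : uu xw / 5 ≤ a.2 - g1 := by linarith only [I.f4, I.ia]
  have E0 : 0 < g1 - b.2 + (a.2 - g1) := by linarith only [k1, k2, u0]
  refine ((H (g1 - b.2) (a.2 - g1) (cr a b (W, g1) / (g1 - b.2 + (a.2 - g1)))
    ⟨by linarith only [I.f5, I.ia, I.ib], k1, k2, ?_, I.ht1, I.ht2, I.x1⟩).right I.lat E0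
    (z := (W, g1)) (by ring) rfl (by field_simp)).mono fun x hx => ?_
  · rw [le_div_iff₀ E0]
    have e1 := mul_le_mul_of_nonneg_left (show vv xw ≤ W - a.1 by
      linarith only [I.f6, I.iX, I.xa, vM]) (show 0 ≤ g1 - b.2 by linarith only [k1, u0])
    have e2 := mul_le_mul_of_nonneg_left (show vv xw ≤ W - b.1 by
      linarith only [I.f6, I.iX, I.xb, vM]) (show 0 ≤ a.2 - g1 by linarith only [k2, u0])
    simp only [cr]; linarith only [e1, e2]
  · have s1 := (I.sides (p := a) (by linarith only [I.iX, I.xa, vM])).1 I.ia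
    have s2 := (I.sides (p := b) (by linarith only [I.iX, I.xb, vM])).2 I.ib
    have s3 : 0 < cr b (b.1 + 1, b.2) x := by
      apply pos3 hx <;> simp only [cr] <;> linarith only [k1, k2, u0]
    have s4 : 0 < cr (a.1 + 1, a.2) a x := by
      apply pos3 hx <;> simp only [cr] <;> linarith only [k1, k2, u0]
    simp only [cr] at s3 s4
    exact ⟨hx.1, pos3 hx s1.le I.cb (by rw [cr_r]) (by rw [cr_r]; linarith only [s1, I.cb]),
      pos3 hx I.ca s2.le (by rw [cr_l]) (by rw [cr_l]; linarith only [s2, I.ca]),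
      by linarith only [s3], by linarith only [s4]⟩

lemma tiny (ih : IH n) {A B C : Sh} (hn : (Sh.add A B C).sz ≤ n) (hA : RunP n0 t xw A)
    (I : Inv t xw Γ g1 g2 W yb yt a b X M) (hl : (B.sz + C.sz + 1 : ℝ) ≤ t) (hM : t ≤ M)
    (hs : (Sh.add A B C).sz + 2 * t ≤ n0 + M) : D Γ (.add A B C) a b (Rg g1 g2 W a b) := by
  simp only [Sh.sz] at hn hs
  push_cast at hs
  have b0 : (0 : ℝ) ≤ B.sz := Nat.cast_nonneg _
  have c0 : (0 : ℝ) ≤ C.sz := Nat.cast_nonneg _
  obtain ⟨m, hm⟩ : ∃ m : ℝ, m = B.sz + C.sz + 1 := ⟨_, rfl⟩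
  have m1 : 1 ≤ m := by linarith only [hm, b0, c0]
  have m0 : 0 ≤ m := by linarith only [m1]
  have mt : m ≤ t := by linarith only [hm, hl]
  have v1 := vv_ge m1
  have v0 := vv_nonneg m0
  have u0 := uu_nonneg m0
  have um := uu_mono m0 mt
  have vs := vv_add m0 (show 0 ≤ M - m by linarith only [mt, hM])
  rw [add_sub_cancel] at vs
  have vM := vv_nonneg (show 0 ≤ M - m by linarith only [mt, hM])
  obtain ⟨Xw, w1, w2, w3⟩ := I.rb (X + 3 * vv m)
  have w4 : Xw ≤ 4 * vv (2 * t) := by linarith only [w2, v1, m1, vs, vM, I.iX]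
  have sa := (I.sides (p := a) (by linarith only [I.iX, I.xa, vs, vM, v0])).1 I.ia
  have sb := (I.sides (p := b) (by linarith only [I.iX, I.xb, vs, vM, v0])).2 I.ib
  have sw := (I.sides (p := (Xw, yb)) w4).2 le_rfl
  have sw' : 0 < cr (0, 0) (W, g1) (Xw, yb) := by
    have := mul_le_mul_of_nonneg_right w4 I.g10.le
    simp only [cr]; linarith only [this, I.f1]
  obtain ⟨p, hp⟩ : ∃ p, p = a.2 - yb := ⟨_, rfl⟩
  obtain ⟨h, hh⟩ : ∃ h, h = yb - b.2 := ⟨_, rfl⟩
  have h0 : 0 ≤ h := by linarith only [hh, I.ib]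
  have p1 : 3 * uu m ≤ p := by linarith only [hp, I.ia, I.f7, um]
  have p2 : 40000 * m < p := by linarith only [hp, I.ia, I.f8, mt]
  have p0 : 0 < p := by linarith only [p2, m0]
  have O : 3 * vv m * (p + h) ≤ cr a b (Xw, yb) := by
    have e1 := mul_le_mul_of_nonneg_left (show 3 * vv m ≤ Xw - b.1 by
      linarith only [w1, I.xb]) p0.le
    have e2 := mul_le_mul_of_nonneg_left (show 3 * vv m ≤ Xw - a.1 by
      linarith only [w1, I.xa]) h0
    rw [hp, hh] at *
    simp only [cr]; linarith only [e1, e2]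
  have vp := mul_pos (show 0 < vv m by linarith only [v1, m1]) p0
  have vh := mul_nonneg v0 h0
  have vu := mul_le_mul_of_nonneg_left p1 v0
  have O0 : 0 < cr a b (Xw, yb) := by linarith only [O, vp, vh]
  obtain ⟨c, c0', c1, c2, c3⟩ : ∃ c : P2, c.2 = yb + p / 2 ∧ cr a b c = cr a b (Xw, yb) / 2 ∧
      cr b (Xw, yb) c = cr a b (Xw, yb) / 2 ∧ cr (Xw, yb) a c = 0 := by
    refine ⟨((a.1 + Xw) / 2, (a.2 + yb) / 2), by rw [hp]; ring, ?_, ?_, ?_⟩ <;>
      simp only [cr] <;> ring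
  refine comp (c := c) w3 O0 (by linarith only [c1, O0]) (by linarith only [c2, O0]) c3.ge
    (hA Γ g1 g2 W yb yt a (Xw, yb) (X + 4 * vv m) (M - m)
      { I with
        ib := le_rfl
        xa := by linarith only [I.xa, v0]
        xb := by linarith only [w2, v1, m1]
        cb := sw'.le
        iX := by linarith only [I.iX, vs]
        M0 := by linarith only [mt, hM]
        M1 := by linarith only [I.M1, m0] } (by linarith only [hs, hm]))
    ((ih.F (x := m) (h := h) (g := p / 2) (W := 1.5 * vv m) I.lat hh.symm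
      (by rw [c0']; ring) ⟨h0, by linarith only [p1, u0], by linarith only [vu, vp],
        fun k k1 k2 => ?_⟩ (by linarith only [c2, O, vp])).symm B (by omega)
      (by linarith only [hm, c0]))
    (ih.Tr (x := m) (g1 := h + p / 2) (g2 := p / 2) (W := vv m) I.lat
      (by rw [c0', hh]; ring) (by rw [c0', hp]; ring)
      (AT.of_gaps m0 (by linarith only [p1, u0, h0]) (by linarith only [p1, u0, h0])
        (by linarith only [p1, u0]) le_rfl) (by linarith only [c1, O, vp, vh]) C (by omega)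
      (by linarith only [hm, b0]))
    (fun x hx => Or.inl ⟨⟨?_, hx.2.1, hx.2.2.1, I.ib.trans hx.2.2.2.1, hx.2.2.2.2⟩, hx.1⟩)
    (fun x e1 e2 e3 => ⟨e1, pos2 e1 e2 e3 sa.le I.cb sw', pos2 e1 e2 e3 I.ca sb.le sw, ?_, ?_⟩)
  · have := mul_le_mul_of_nonneg_right k1 p0.le
    linarith only [this, k2, p2]
  · have e : p * cr a b x = (p + h) * cr a (Xw, yb) x + cr a b (Xw, yb) * (a.2 - x.2) := by
      rw [hp, hh]; simp only [cr]; ring
    have e1 := mul_pos (show 0 < p + h by linarith only [p0, h0]) hx.1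
    have e2 := mul_nonneg O0.le (sub_nonneg.2 hx.2.2.2.2)
    exact (pos_iff_pos_of_mul_pos (show 0 < p * cr a b x by linarith only [e, e1, e2])).1 p0
  · have e : cr a b (Xw, yb) * (x.2 - b.2) = cr b (Xw, yb) x * (p + h) + cr a b x * h := by
      rw [hp, hh]; simp only [cr]; ring
    have f1 := mul_nonneg e2 (show 0 ≤ p + h by linarith only [p0, h0])
    have f2 := mul_nonneg e1.le h0
    exact sub_nonneg.1 (nonneg_of_mul_nonneg_right (by linarith only [e, f1, f2]) O0)
  · have s4 : 0 < cr (a.1 + 1, a.2) a x := by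
      apply pos2 e1 e2 e3 <;> simp only [cr] <;> linarith only [hp, hh, p0, h0]
    simp only [cr] at s4
    linarith only [s4]

lemma RunP.mirror {s : Sh} (H : RunP n0 t xw s.flip) : RunP n0 t xw s := by
  intro Γ g1 g2 W yb yt a b X M I hs
  have := (H (af 1 0 0 (-1) (g1 + g2) ⁻¹' Γ) g2 g1 W (g1 + g2 - yt) (g1 + g2 - yb)
    (b.1, g1 + g2 - b.2) (a.1, g1 + g2 - a.2) X M
    { I with
      lat := I.lat.pre (Or.inl rfl) (Or.inr rfl)
      rb := Row.pre (Or.inl rfl) (by convert I.rt using 1; ring)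
      rt := Row.pre (Or.inl rfl) (by convert I.rb using 1; ring)
      g10 := I.g20
      g20 := I.g10
      f1 := I.f2
      f2 := by linarith only [I.f1]
      f3 := by linarith only [I.f4]
      f4 := by linarith only [I.f3]
      f5 := by linarith only [I.f5]
      f7 := by linarith only [I.f7]
      f8 := by linarith only [I.f8]
      ia := by simp only; linarith only [I.ib]
      ib := by simp only; linarith only [I.ia]
      xa := I.xb
      xb := I.xa
      ca := by have := I.cb; simp only [cr] at this ⊢; linarith only [this]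
      cb := by have := I.ca; simp only [cr] at this ⊢; linarith only [this] }
    (by rwa [Sh.sz_flip])).af (K' := Rg g1 g2 W a b) one_ne_zero (by norm_num) (fun x hx => by
      obtain ⟨h1, h2, h3, h4, h5⟩ := hx
      simp only [cr] at h1 h2 h3 h4 h5
      refine ⟨?_, ?_, ?_, ?_, ?_⟩ <;> simp only [cr, af] <;> linarith only [h1, h2, h3, h4, h5])
  simp only [af] at this
  norm_num at this
  exact this.unflip

lemma run (ih : IH n) (h0 : n0 ≤ n) (h1 : n0 ≤ xw + t / 1000) (t0 : 0 < t) (k : ℕ) :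
    ∀ s : Sh, s.sz < k → RunP n0 t xw s := by
  induction k with
  | zero => intro s hs; omega
  | succ k ik =>
  have key : ∀ A B C : Sh, A.sz < k → B.sz ≤ A.sz → C.Small t → RunP n0 t xw (.add A B C) := by
    intro A B C hk hAB hC Γ g1 g2 W yb yt a b X M I hs
    have e0 : ((Sh.add A B C).sz : ℝ) ≤ n0 := by linarith only [hs, I.M1]
    have hn : (Sh.add A B C).sz ≤ n := by exact_mod_cast e0.trans h0
    by_cases e1 : t ≤ B.sz + C.sz + 1
    · refine I.exit fun _ _ _ H => Sstep ih hn H hC hAB e1 ?_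
      simp only [Sh.sz] at e0
      push_cast at e0
      linarith only [e0, e1, h1]
    by_cases e2 : t ≤ M
    · exact tiny ih hn (ik A hk) I (not_le.1 e1).le e2 hs
    · refine I.exit fun _ _ _ H => (ih _ ?_ xw (by linarith only [hs, e2, h1, t0])).1 _ _ _
        (AT.of_gaps (by linarith only [H.x1]) H.hu H.h1 H.h2 H.hW)
      exact_mod_cast (show ((Sh.add A B C).sz : ℝ) < n by linarith only [hs, e2, h0, t0])
  intro s hk
  rcases struct t s with rfl | ⟨A, B, C, r1, r2⟩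
  · intro Γ g1 g2 W yb yt a b X M I hs
    exact D.leaf
  have e := r1.1
  have : RunP n0 t xw (.add A B C) := by
    rcases r2 with r2 | r2
    · intro Γ g1 g2 W yb yt a b X M I hs
      have e0 : ((Sh.add A B C).sz : ℝ) ≤ n0 := by linarith only [hs, I.M1]
      refine I.exit fun _ _ _ H => peel ih (by exact_mod_cast e0.trans h0) H r2.1 r2.2 ?_
      simp only [Sh.sz] at e0
      push_cast at e0
      linarith only [e0, r2.1, h1]
    · simp only [Sh.sz] at e
      by_cases hAB : B.sz ≤ A.sz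
      · exact key A B C (by omega) hAB r2
      · exact RunP.mirror (key B.flip A.flip C.flip (by rw [Sh.sz_flip]; omega)
          (by simp only [Sh.sz_flip]; omega) r2.flip)
  intro Γ g1 g2 W yb yt a b X M I hs
  exact r1.D (this Γ g1 g2 W yb yt a b X M I (by rwa [← r1.1]))

end

lemma Tbig (ih : IH n) {s : Sh} (hn : s.sz ≤ n) {x g1 g2 W : ℝ} (hx : x = s.sz) (x2 : 2 ≤ x)
    (hu : uu x ≤ g1 + g2) (h1 : uu x / 5 ≤ g1) (h2 : uu x / 5 ≤ g2) (hW : vv x ≤ W) :
    N s (g1 + g2) g1 W := by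
  intro Γ hΓ
  have x1 : 1 ≤ x := by linarith only [x2]
  have x0 : 0 ≤ x := by linarith only [x2]
  have u0 := uu_ge x1
  have v0 := vv_ge x1
  have uq := uu_sq x1
  have up : 0 < uu x := by linarith only [u0]
  have vp : 0 < vv x := by linarith only [v0, x2]
  obtain ⟨θ, hθ⟩ : ∃ θ, θ * uu x = 20000 := ⟨_, div_mul_cancel₀ _ up.ne'⟩
  have θ0 : 0 < θ := (pos_iff_pos_of_mul_pos (show 0 < θ * uu x by linarith only [hθ])).2 up
  have θ1 : θ ≤ 1 / (2 * 10 ^ 30) := by
    have := mul_le_mul_of_nonneg_left u0 θ0.le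
    linarith only [this, hθ]
  have θx := mul_le_mul_of_nonneg_right θ1 x0
  have t0 : 0 < θ * x := mul_pos θ0 (by linarith only [x2])
  have q0 : 0 < 1 - θ / 1000 := by linarith only [θ1]
  have w0 : 0 ≤ (1 - θ / 1000) * x := mul_nonneg q0.le x0
  have k1 := uu_le (U := 1 - 0.00075 * θ) one_pos w0 x0 q0.le le_rfl (by linarith only [])
  have k2 := vv_le (U := 1) one_pos w0 x0 q0.le le_rfl (by linarith only [θ0])
  have k3 := vv_le (c := 1 / 10 ^ 6) (t := 2 * θ) (U := 1 / 10 ^ 6) (m := 2 * (θ * x))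
    (by norm_num) (by linarith only [t0]) x0 (by linarith only [θ0]) (by linarith only [])
    (by norm_num; linarith only [θ1])
  have k4 := uu_tiny (x := x) t0.le (by linarith only [θx, x0])
  have k5 := mul_le_mul_of_nonneg_left (uu_conc q0 (by linarith only [θ0]) x0) t0.le
  have k6 : θ * x * ((1 - θ / 1000) * uu x) = 20000 * ((1 - θ / 1000) * x) := by
    rw [← hθ]; ring
  have k7 : 80000 * (θ * x) ≤ uu x := by
    have : θ * uu x * x = 20000 * x := by rw [hθ]
    exact le_of_mul_le_mul_right (by linarith only [this, uq, x0]) up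
  have g10 : 0 < g1 := by linarith only [h1, up]
  have g20 : 0 < g2 := by linarith only [h2, up]
  have θv := mul_pos θ0 vp
  have θW := mul_le_mul_of_nonneg_left hW θ0.le
  have k8 : 4 * vv (2 * (θ * x)) < θ / 2000 * W := by linarith only [k3, θv, θW]
  obtain ⟨yb, b1, b2, b3⟩ := hΓ (θ / 2000 * g1)
  obtain ⟨yt, t1, t2, t3⟩ := hΓ (g1 + g2 - θ / 2000 * g2 - 1)
  have W0 : 0 < W := by linarith only [hW, vp]
  have q1 : 0 ≤ 1 - θ / 2000 := by linarith only [θ1]
  have j1 := mul_le_mul_of_nonneg_left h1 q1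
  have j2 := mul_le_mul_of_nonneg_left h2 q1
  have j3 := mul_le_mul_of_nonneg_left hu q1
  have j4 := mul_pos θ0 g10
  have j5 := mul_pos θ0 g20
  refine (run ih (n0 := x) (t := θ * x) (xw := (1 - θ / 1000) * x) (by rw [hx]; exact_mod_cast hn)
    (by linarith only []) t0 _ s (Nat.lt_succ_self _) Γ g1 g2 W yb yt (0, g1 + g2) (0, 0) 0
    (2 * (θ * x)) ⟨hΓ, b3, t3, g10, g20, W0, ?_, ?_, by linarith only [k1, hθ, j1, b2],
      by linarith only [k1, hθ, j2, t1], by linarith only [k1, hθ, j3, b2, t1],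
      by linarith only [k2, k3, hW, θv], by linarith only [k4, hθ, j3, b2, t1, u0],
      by linarith only [k7, hθ, j3, b2, t1, u0], by linarith only [k5, k6],
      by linarith only [θx, x0], by linarith only [θx, x2], by simp only; linarith only [t2, j5],
      by simp only; linarith only [b1, j4], le_rfl, le_rfl, by rw [cr_r], by rw [cr_l],
      by linarith only [], by linarith only [t0], le_rfl⟩ (by linarith only [hx])).mono
    fun p hp => ⟨hp.1, hp.2.1, hp.2.2.1⟩
  · have e1 := mul_lt_mul_of_pos_right k8 g10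
    have e2 := mul_le_mul_of_nonneg_left b1 W0.le
    linarith only [e1, e2]
  · have e1 := mul_lt_mul_of_pos_right k8 g20
    have e2 := mul_le_mul_of_nonneg_left t2 W0.le
    linarith only [e1, e2]

lemma Tgap (ih : IH n) {s : Sh} (hn : s.sz ≤ n) {x g1 g2 W : ℝ} (hx : s.sz ≤ x)
    (hu : uu x ≤ g1 + g2) (h1 : uu x / 5 ≤ g1) (h2 : uu x / 5 ≤ g2) (hW : vv x ≤ W) :
    N s (g1 + g2) g1 W := by
  by_cases h : 2 ≤ s.sz
  · have := uu_mono (Nat.cast_nonneg _) hx
    exact Tbig ih hn rfl (by exact_mod_cast h) (by linarith) (by linarith) (by linarith)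
      ((vv_mono (Nat.cast_nonneg _) hx).trans hW)
  intro Γ hΓ
  have lf : ∀ A : Sh, A.sz = 0 → ∀ a b K, D Γ A a b K := by
    intro A hA a b K
    cases A with
    | leaf => exact D.leaf
    | add => simp [Sh.sz] at hA
  cases s with
  | leaf => exact D.leaf
  | add A B C =>
    have x1 := one_le hx
    have u0 := uu_ge x1
    have v0 := vv_ge x1
    simp only [Sh.sz] at h
    obtain ⟨y, y1, y2, y3⟩ := hΓ (g1 - 1)
    obtain ⟨X, X1, X2, X3⟩ := y3 1
    have e1 := mul_le_mul_of_nonneg_right X2 (show 0 ≤ g1 by linarith)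
    have e2 := mul_le_mul y1 (show 10 ≤ W by linarith) (by norm_num) (by linarith)
    exact place (τ := 0) X3 (by linarith) (by linarith) (by linarith) (by linarith) (by linarith)
      le_rfl (by norm_num) (lf A (by omega) _ _ _) (lf B (by omega) _ _ _) (lf C (by omega) _ _ _)

lemma Tcut (ih : IH n) {s : Sh} (hn : s.sz ≤ n) {x g1 g2 W : ℝ} (hx : s.sz ≤ x) (x1 : 1 ≤ x)
    (H : AT x g1 g2 W) (h2 : uu x / 5 ≤ g2) : N s (g1 + g2) g1 W := by
  obtain ⟨a1, a2, a3, a4⟩ := H
  by_cases h1 : uu x / 5 ≤ g1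
  · exact Tgap ih hn hx a1 h1 h2 a2
  have u0 := uu_ge x1
  have v0 := vv_ge x1
  have g0 : 0 < g2 := by linarith
  obtain ⟨Z, hZ⟩ : ∃ Z, Z * g2 = W * (g1 + g2 - uu x / 5) := ⟨_, div_mul_cancel₀ _ g0.ne'⟩
  have := Tgap ih hn hx (g1 := uu x / 5) (g2 := g1 + g2 - uu x / 5) (W := Z) (by linarith) le_rfl
    (by linarith) (le_of_mul_le_mul_right (by linarith) g0)
  rw [add_sub_cancel] at this
  have e0 := mul_pos (show 0 < W by linarith) (show 0 < g1 + g2 by linarith)
  have e1 := mul_pos e0 (show 0 < uu x / 5 - g1 by linarith)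
  refine fun Γ hΓ => (this Γ hΓ).mono (tri_cut ?_ ?_ ?_)
  · simp only [cr]; linarith only [e0]
  · have e2 : g1 * (Z * g2) = g1 * (W * (g1 + g2 - uu x / 5)) := by rw [hZ]
    refine le_of_mul_le_mul_right ?_ g0
    simp only [cr]; linarith only [e1, e2]
  · simp only [cr]; linarith only [hZ]

theorem main (n : ℕ) : IH n := by
  induction n with
  | zero => intro s hs; omega
  | succ n ih =>
    intro s hs x hx
    refine ⟨fun g1 g2 W H => ?_, fun h g W H => Fstep ih (by omega) hx H⟩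
    cases s with
    | leaf => exact fun _ _ => D.leaf
    | add A B C =>
      have x1 := one_le hx
      by_cases h2 : uu x / 5 ≤ g2
      · exact Tcut ih (by omega) hx x1 H h2
      · apply N.up
        rw [show g1 + g2 - g1 = g2 by ring, add_comm]
        obtain ⟨a1, a2, a3, a4⟩ := H
        have := uu_ge x1
        exact Tcut ih (by rw [Sh.sz_flip]; omega) (by rwa [Sh.sz_flip]) x1
          ⟨by linarith, a2, by linarith, by linarith⟩ (by linarith)

end Pool.Agent.Lib.MP_68dca0_co.Up
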