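import Pool.Agent.Lib.MP_68dca0_co.UpF
import Pool.Agent.Lib.MP_68dca0_co.Tree
import Pool.Agent.Lib.MP_68dca0_co.StDefs

namespace Pool.Agent.Lib.MP_68dca0_co.Up

variable {V : Type}

def shape : LT V → Sh
  | .leaf => .leaf
  | .add _ l r t => .add (shape l) (shape r) (shape t)

lemma sz_shape (t : LT V) : (shape t).sz = t.verts.length := by
  induction t with
  | leaf => rfl
  | add z l r t i1 i2 i3 =>
    simp only [shape, Sh.sz, LT.verts, List.length_cons, List.length_append, i1, i2, i3]; omega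

lemma map_congr {t : LT V} {u v : V} {f g : V → P2} (h : ∀ x, x = u ∨ x = v ∨ x ∈ t.verts → f x = g x) :
    t.verts.map f = t.verts.map g ∧ (t.eo u v).map (Sym2.map f) = (t.eo u v).map (Sym2.map g) :=
  ⟨List.map_congr_left fun x hx => h x (Or.inr (Or.inr hx)),
    Multiset.map_congr rfl fun e he => Sym2.map_congr fun w hw => h w ((LT.mem_eo he).1 w hw)⟩

lemma bridge (t : LT V) : ∀ (u v : V) (l E) (f0 : V → P2), Lab (shape t) (f0 u) (f0 v) l E →
    (u :: v :: t.verts).Nodup → ∃ f : V → P2, (∀ x ∉ t.verts, f x = f0 x) ∧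
      (t.verts.map f : Multiset P2) = l ∧ (t.eo u v).map (Sym2.map f) = E := by
  classical
  induction t with
  | leaf => rintro u v l E f0 ⟨rfl, rfl⟩ _; exact ⟨f0, fun _ _ => rfl, rfl, rfl⟩
  | add z l r t i1 i2 i3 =>
    rintro u v _ _ f0 ⟨w, lA, EA, lB, EB, lC, EC, h1, h2, h3, rfl, rfl⟩ hn
    obtain ⟨n1, n2, n3, n4, n5, n6, n7, n8⟩ := LT.nodup_add hn
    have m1 := n1
    have m2 := n2
    have m3 := n3
    simp only [List.nodup_cons, List.mem_cons] at m1 m2 m3
    obtain ⟨f1, e1, e2⟩ : ∃ f1 : V → P2, f1 z = w ∧ ∀ x, x ≠ z → f1 x = f0 x :=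
      ⟨Function.update f0 z w, by simp, fun x hx => by simp [hx]⟩
    obtain ⟨f2, a1, a2, a3⟩ := i1 u z lA EA f1 (by rwa [e1, e2 u (by grind)]) n1
    obtain ⟨f3, b1, b2, b3⟩ := i2 z v lB EB f2
      (by rwa [a1 z (by grind), a1 v n4, e1, e2 v (by grind)]) n2
    obtain ⟨f4, c1, c2, c3⟩ := i3 u v lC EC f3 (by
      rwa [b1 u n5, b1 v (by grind), a1 u (by grind), a1 v n4, e2 u (by grind), e2 v (by grind)]) n3
    have k1 := map_congr (t := l) (u := u) (v := z) (f := f4) (g := f2) (by grind)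
    have k2 := map_congr (t := r) (u := z) (v := v) (f := f4) (g := f3) (by grind)
    have e3 : f4 z = w := by grind
    have e4 : f4 u = f0 u := by grind
    have e5 : f4 v = f0 v := by grind
    refine ⟨f4, ?_, ?_, ?_⟩
    · simp only [LT.verts, List.mem_cons, List.mem_append]; grind
    · simp only [LT.verts, List.map_cons, List.map_append, ← Multiset.cons_coe,
        ← Multiset.coe_add, k1.1, k2.1, a2, b2, c2, e3, ← Multiset.singleton_add]
      abel
    · simp only [LT.eo, Multiset.map_add, Multiset.map_cons, k1.2, k2.2, a3, b3, c3,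
        Sym2.map_mk, e3, e4, e5, ← Multiset.singleton_add, Multiset.map_singleton]
      abel

lemma lat_grid : Lat (Set.range pt) := fun y0 =>
  ⟨⌈y0⌉, Int.le_ceil _, (Int.ceil_lt_add_one _).le, fun X0 =>
    ⟨⌈X0⌉, Int.le_ceil _, (Int.ceil_lt_add_one _).le, (⌈X0⌉, ⌈y0⌉), rfl⟩⟩

lemma draw {n : ℕ} (G : SimpleGraph (Fin (n + 2))) (hG : ¬ HasK4Minor G) (W H : ℕ)
    (hW : vv (n + 2) ≤ W) (hH : uu (n + 2) ≤ H) : HasStraight G W H := by
  classical
  obtain ⟨u, v, t, h1, h2, h3⟩ := exists_tree n G Finset.univ (by simp)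
    (by rwa [Finset.coe_univ, ← hasK4Minor_iff])
  have n1 : (1 : ℝ) ≤ n + 2 := by linarith [Nat.cast_nonneg (α := ℝ) n]
  have u0 := uu_ge n1
  have v0 := vv_ge n1
  have hs : (shape t).sz ≤ n + 2 := by
    have := h1.length_le_card
    simp only [List.length_cons, Fintype.card_fin] at this
    rw [sz_shape]; omega
  have hD := (main (n + 3) (shape t) (by omega) (n + 2) (by exact_mod_cast hs)).1 (H / 2) (H / 2) W
    (AT.of_gaps (by linarith) (by linarith) (by linarith) (by linarith) hW) _ lat_grid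
  rw [add_halves] at hD
  obtain ⟨l, E, g0, g1, g2, g3, g4⟩ := hD
  have uv : u ≠ v := by simp only [List.nodup_cons, List.mem_cons] at h1; tauto
  obtain ⟨f, a1, a2, a3⟩ := bridge t u v l E (fun x => if x = u then (0, H) else (0, 0))
    (by simpa [uv.symm] using g0) h1
  have fu : f u = (0, (H : ℝ)) := by
    rw [a1 u (by simp only [List.nodup_cons, List.mem_cons] at h1; tauto)]; simp
  have fv : f v = (0, 0) := by
    rw [a1 v (by simp only [List.nodup_cons, List.mem_cons] at h1; tauto)]; simp [uv.symm]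
  have H0 : (0 : ℝ) < H := by linarith
  have W0 : (0 : ℝ) < W := by linarith
  have box : ∀ x ∈ Tri (0, (H : ℝ)) (0, 0) (W, H / 2), 0 < x.1 ∧ x.1 ≤ W ∧ 0 ≤ x.2 ∧ x.2 ≤ H := by
    rintro x ⟨b1, b2, b3⟩
    simp only [cr] at b1 b2 b3
    have e1 : 0 < x.1 := (pos_iff_pos_of_mul_pos (show 0 < H * x.1 by linarith)).1 H0
    exact ⟨e1, le_of_mul_le_mul_left (by linarith) H0, le_of_mul_le_mul_left (by linarith) W0,
      le_of_mul_le_mul_left (by linarith) W0⟩
  have ml : ∀ x ∈ t.verts, f x ∈ l := fun x hx => by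
    rw [← a2]; exact List.mem_map_of_mem hx
  have all : ∀ x, x = u ∨ x = v ∨ x ∈ t.verts := fun x => by simpa using (h2 x).1 (by simp)
  have inj : Function.Injective f := by
    have nd : ((u :: v :: t.verts).map f).Nodup := by
      have e : ∀ p ∈ t.verts.map f, 0 < p.1 := fun p hp =>
        (box p (g2 p (by rw [← a2]; exact hp)).1).1
      simp only [List.map_cons, List.nodup_cons, List.mem_cons, fu, fv]
      refine ⟨?_, fun h => by simpa using e _ h, by rw [← a2] at g1; exact g1⟩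
      rintro (h | h)
      · simp only [Prod.mk.injEq] at h; linarith [h.2]
      · simpa using e _ h
    exact fun x y h => List.inj_on_of_nodup_map nd ((h2 x).1 (by simp)) ((h2 y).1 (by simp)) h
  have gr : ∀ x, ∃ p : ℤ × ℤ, pt p = f x := fun x => by
    rcases all x with rfl | rfl | h
    · exact ⟨(0, H), by simp [pt, fu]⟩
    · exact ⟨(0, 0), by simp [pt, fv]⟩
    · exact (g2 _ (ml x h)).2
  choose pos hp using gr
  have ed : ∀ a b, s(a, b) ∈ t.em u v → s(f a, f b) = s((0, (H : ℝ)), (0, 0)) ∨ s(f a, f b) ∈ E := by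
    intro a b h
    rcases Multiset.mem_cons.1 h with h | h
    · left; rw [← fu, ← fv, ← Sym2.map_mk, h, Sym2.map_mk]
    · right; rw [← a3, ← Sym2.map_mk]; exact Multiset.mem_map_of_mem _ h
  have base : ∀ e ∈ E, ∀ x ∈ sg s(((0 : ℝ), (H : ℝ)), (0, 0)), x ∈ sg e →
      x ∈ s(((0 : ℝ), (H : ℝ)), (0, 0)) ∧ x ∈ e := by
    intro e he x hx hx'
    rcases g3 e he x hx' with h | h
    · obtain ⟨r, -, -, -, -, hr⟩ := seg_cr hx
      have := h.1
      rw [hr, cr_l, cr_r] at this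
      simp at this
    · exact ⟨by simpa using h.2, h.1⟩
  have key : ∀ a b c d, s(a, b) ∈ t.em u v → s(c, d) ∈ t.em u v → ∀ x ∈ segment ℝ (f a) (f b),
      x ∈ segment ℝ (f c) (f d) →
      s(f a, f b) = s(f c, f d) ∨ (x ∈ s(f a, f b) ∧ x ∈ s(f c, f d)) := by
    intro a b c d e1 e2 x
    rw [← sg_mk, ← sg_mk]
    rcases ed a b e1 with e1 | e1 <;> rcases ed c d e2 with e2 | e2
    · exact fun _ _ => Or.inl (e1.trans e2.symm)
    · rw [e1]; exact fun x1 x2 => Or.inr (base _ e2 x x1 x2)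
    · rw [e2]; exact fun x1 x2 => Or.inr (base _ e1 x x2 x1).symm
    · exact g4 _ e1 _ e2 x
  have h4 : ∀ a b, G.Adj a b → s(a, b) ∈ t.em u v := fun a b h => h3 a (by simp) b (by simp) h
  refine ⟨pos, fun x y h => inj (by rw [← hp, ← hp, h]), fun x => ?_, fun a b w h => ?_,
    fun a b c d e1 e2 k1 k2 k3 k4 => ?_⟩
  · have : 0 ≤ (f x).1 ∧ (f x).1 ≤ W ∧ 0 ≤ (f x).2 ∧ (f x).2 ≤ H := by
      rcases all x with rfl | rfl | h
      · simp [fu]
      · simp [fv]
      · exact (box _ (g2 _ (ml x h)).1).imp_left le_of_lt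
    rw [← hp] at this
    simp only [pt] at this
    exact ⟨⟨by exact_mod_cast this.1, by exact_mod_cast this.2.1⟩, by exact_mod_cast this.2.2.1,
      by exact_mod_cast this.2.2.2⟩
  · simp only [hp]
    intro hw
    obtain ⟨y, hy⟩ := t.covered u v w ((h2 w).1 (by simp))
    have : f w ∈ s(f a, f b) := by
      rcases key a b w y (h4 a b h) hy _ hw (left_mem_segment ℝ _ _) with e | e
      · rw [e]; simp
      · exact e.1
    simpa only [Sym2.mem_iff, inj.eq_iff] using this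
  · simp only [hp]
    refine Set.disjoint_left.2 fun x x1 x2 => ?_
    rcases key a b c d (h4 a b e1) (h4 c d e2) x x1 x2 with e | e
    · simp only [Sym2.eq_iff, inj.eq_iff] at e; tauto
    · simp only [Sym2.mem_iff] at e
      obtain ⟨rfl | rfl, e | e⟩ := e <;> simp only [inj.eq_iff] at e <;> tauto

theorem straight_upper : ∃ c : ℝ, ∀ n ≥ 1, ∀ G : SimpleGraph (Fin n), ¬ HasK4Minor G →
    ∃ W H : ℕ, HasStraight G W H ∧ (W : ℝ) ≤ c * (n : ℝ) ^ (6 / 5 : ℝ) ∧
      (H : ℝ) ≤ c * (n : ℝ) ^ (3 / 4 : ℝ) ∧ (W * H : ℝ) ≤ c * (n : ℝ) ^ (39 / 20 : ℝ) := by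
  refine ⟨16 * 10 ^ 40, fun n hn G hG => ?_⟩
  obtain rfl | ⟨n, rfl⟩ : n = 1 ∨ ∃ m, n = m + 2 := by
    rcases hn.eq_or_lt with h | h
    · exact Or.inl h.symm
    · exact Or.inr ⟨n - 2, by omega⟩
  · refine ⟨0, 0, ⟨fun _ => (0, 0), fun _ _ _ => Subsingleton.elim _ _, by simp,
      fun _ _ _ _ _ => Or.inl (Subsingleton.elim _ _),
      fun _ _ _ _ _ _ h => absurd (Subsingleton.elim _ _) h⟩, ?_, ?_, ?_⟩ <;> simp
  have n1 : (1 : ℝ) ≤ n + 2 := by linarith [Nat.cast_nonneg (α := ℝ) n]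
  have u0 := uu_ge n1
  have v0 := vv_ge n1
  have e1 := Nat.ceil_lt_add_one (show 0 ≤ uu (n + 2) by linarith)
  have e2 := Nat.ceil_lt_add_one (show 0 ≤ vv (n + 2) by linarith)
  have e3 : (⌈uu (n + 2)⌉₊ : ℝ) ≤ 2 * uu (n + 2) := by linarith
  have e4 : (⌈vv (n + 2)⌉₊ : ℝ) ≤ 2 * vv (n + 2) := by linarith
  have e5 := mul_le_mul e4 e3 (Nat.cast_nonneg _) (by linarith)
  refine ⟨⌈vv (n + 2)⌉₊, ⌈uu (n + 2)⌉₊, draw G hG _ _ (Nat.le_ceil _) (Nat.le_ceil _), ?_, ?_, ?_⟩
  · push_cast; unfold vv at v0; rw [vv] at e4 ⊢; linarith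
  · push_cast; unfold uu at u0; rw [uu] at e3 ⊢; linarith
  · refine e5.trans (le_of_eq ?_)
    push_cast
    rw [show (39 / 20 : ℝ) = 6 / 5 + 3 / 4 by norm_num, Real.rpow_add (by linarith), uu, vv]
    ring

end Pool.Agent.Lib.MP_68dca0_co.Up
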