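import Pool.Agent.Lib.MP_68dca0_co.VR
import Pool.Agent.Lib.MP_68dca0_co.Skel

namespace Pool.Agent.Lib.MP_68dca0_co

variable {V : Type} [DecidableEq V]

/-- closed drawings of height `h`: the terminals are the extreme spanning bars -/
def Cl (h : ℤ) (t : LT V) : Prop :=
  ∀ (u v : V) (ρ0 : V → ℤ), (u :: v :: t.verts).Nodup → h ≤ |ρ0 u - ρ0 v| →
    OP ρ0 (min (ρ0 u) (ρ0 v)) (max (ρ0 u) (ρ0 v)) [u, v] [u, v] [u, v] t.verts (t.eo u v)

/-- all trees with fewer than `N` inner vertices have closed drawings of height `h` -/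
def All (V : Type) (N : ℕ) (h : ℤ) : Prop := ∀ t : LT V, t.verts.length < N → Cl h t

omit [DecidableEq V] in
lemma All.mono {N N' : ℕ} {h h' : ℤ} (H : All V N h) (h1 : N' ≤ N) (h2 : h ≤ h') : All V N' h' :=
  fun t ht u v ρ0 hn h3 => H t (by omega) u v ρ0 hn (h2.trans h3)

omit [DecidableEq V] in
lemma Cl.em {h : ℤ} {t : LT V} (H : Cl h t) (h1 : 1 ≤ h) {u v : V} {ρ0 : V → ℤ}
    (hn : (u :: v :: t.verts).Nodup) (h2 : h ≤ |ρ0 u - ρ0 v|) {lo hi : ℤ}
    (h3 : lo ≤ ρ0 u ∧ lo ≤ ρ0 v) (h4 : ρ0 u ≤ hi ∧ ρ0 v ≤ hi) :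
    OP ρ0 lo hi [u, v] [u, v] [u, v] t.verts (t.em u v) := by
  have h5 : ρ0 u ≠ ρ0 v := fun e => by simp [e] at h2; omega
  have := (OP.single h5).append (H u v ρ0 hn h2) (by simp) (by simp) (by
    simp only [List.nodup_cons, List.mem_cons] at hn ⊢; grind)
  exact this.mono (by simp) (by simp) (by simp) (by simp) (by omega) (by omega)

omit [DecidableEq V] in
lemma all_one : All V 1 1 := by
  intro t ht u v ρ0 _ _
  cases t with
  | leaf => exact OP.nil
  | add z l r t => simp [LT.verts] at ht

lemma semi {m N : ℕ} {d H : ℤ} (hd : All V m d) (hH : All V N H) (H1 : 1 ≤ H) {s y : V}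
    {ρ0 : V → ℤ} {lo : ℤ} (hs : lo ≤ ρ0 s ∧ ρ0 s ≤ lo + d + 1) (hy : lo ≤ ρ0 y ∧ ρ0 y ≤ lo + d + 1)
    (hsy : d ≤ |ρ0 s - ρ0 y|) (t : LT V) : ∀ (I : List V) (E : Multiset (Sym2 V)),
    t.verts.length < N → (s :: y :: t.verts).Nodup → (∀ w ∈ I, w ≠ s ∧ w ≠ y ∧ w ∉ t.verts) →
    OP ρ0 lo (lo + d + 1) [s, y] [s, y] [s, y] I E →
    ∃ q : ℕ, q * m ≤ t.verts.length ∧
      OP ρ0 lo (lo + d + 1 + H + q) [s] [y] [s, y] (I ++ t.verts) (E + t.eo s y) := by
  induction t with
  | leaf =>
    intro I E _ _ _ h
    refine ⟨0, by simp, ?_⟩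
    simp only [LT.eo, add_zero]
    exact h.mono (by simp) (by simp) (by simp) (by simp [LT.verts]) le_rfl (by omega)
  | add z l r t _ _ ih =>
    intro I E hN hn hI h
    obtain ⟨n1, n2, n3, n4, n5, n6, n7, n8⟩ := LT.nodup_add hn
    have n1' := n1
    have n2' := n2
    have n3' := n3
    simp only [LT.verts, List.length_cons, List.length_append, List.mem_cons, List.mem_append,
      List.nodup_cons] at hN hI n1' n2' n3' ⊢
    by_cases hl : (LT.add z l r .leaf).verts.length < m
    · have h1 := (hd _ hl s y ρ0 (hn.sublist (by simp [LT.verts])) hsy).mono (fun _ h => h)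
        (fun _ h => h) (fun _ h => h) (fun _ => Iff.rfl) (lo' := lo) (hi' := lo + d + 1) (by omega)
        (by omega)
      have h2 := h.append h1 (by simp) (by
        simp only [LT.verts, List.mem_cons, List.mem_append]; grind) (by
        simp only [LT.verts, List.mem_cons, List.mem_append]; grind)
      obtain ⟨q, q1, q2⟩ := ih _ _ (by omega) n3 (by
        simp only [LT.verts, List.mem_cons, List.mem_append]; grind)
        (h2.mono (W' := [s, y]) (fun _ h => h) (fun _ h => h) (by simp) (fun _ => Iff.rfl) le_rfl le_rfl)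
      refine ⟨q, by omega, ?_⟩
      rw [show E + (LT.add z l r t).eo s y = E + (LT.add z l r .leaf).eo s y + t.eo s y by
        simp only [LT.eo]; abel]
      exact q2.mono (fun _ h => h) (fun _ h => h) (fun _ h => h)
        (by simp [LT.verts]) le_rfl le_rfl
    · obtain ⟨q, q1, q2⟩ := ih I E (by omega) n3 (by grind) h
      simp only [LT.verts, List.length_cons, List.length_append, List.length_nil] at hl
      refine ⟨q + 1, by nlinarith, ?_⟩
      set ρ1 := Function.update ρ0 z (lo + d + 1 + H + q) with hρ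
      have r1 : ρ1 s = ρ0 s := Function.update_of_ne (by grind) _ _
      have r2 : ρ1 y = ρ0 y := Function.update_of_ne (by grind) _ _
      have r3 : ρ1 z = lo + d + 1 + H + q := Function.update_self _ _ _
      have A := (hH l (by omega)).em H1 (ρ0 := ρ1) n1 (by rw [le_abs]; omega) (lo := lo)
        (hi := lo + d + 1 + H + q) (by omega) (by omega)
      have C := (hH r (by omega)).em H1 (ρ0 := ρ1) n2 (by rw [le_abs]; omega) (lo := lo)
        (hi := lo + d + 1 + H + q) (by omega) (by omega)
      have B := (q2.congr (ρ1 := ρ1) (by simp only [List.mem_cons]; grind)).ext (z := z)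
        (by simp only [List.mem_append]; grind) (Or.inr ⟨by omega, by
          simp only [List.mem_cons]; grind⟩)
      have D := ((A.mono (X' := [s]) (by simp) (fun _ h => h) (fun _ h => h) (fun _ => Iff.rfl)
        le_rfl le_rfl).append B (by simp only [List.mem_cons]; grind)
        (by simp only [List.mem_cons, List.mem_append]; grind)
        (by simp only [List.mem_cons, List.mem_append]; grind)).append
        (C.mono (Y' := [y]) (fun _ h => h) (by simp) (fun _ h => h) (fun _ => Iff.rfl) le_rfl le_rfl)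
        (by simp only [List.mem_cons, List.mem_append]; grind)
        (by simp only [List.mem_cons, List.mem_append]; grind)
        (by simp only [List.mem_cons, List.mem_append]; grind)
      rw [show E + (LT.add z l r t).eo s y = l.em s z + (E + t.eo s y) + r.em z y by
        rw [LT.eo_add]; abel]
      exact ((D.mono (W' := [z, s, y]) (hi' := lo + d + 1 + H + (q + 1 : ℕ)) (fun _ h => h)
        (fun _ h => h) (by simp) (fun _ => Iff.rfl) le_rfl (by omega)).new
        (by simp only [List.mem_append]; grind) (by omega) (by omega)).mono (fun _ h => h)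
        (fun _ h => h) (fun _ h => h) (by simp only [List.mem_cons, List.mem_append]; grind)
        le_rfl le_rfl

/-- reversing the roles of the terminals -/
def LT.flip : LT V → LT V
  | .leaf => .leaf
  | .add z l r t => .add z r.flip l.flip t.flip

omit [DecidableEq V] in
lemma LT.verts_flip (t : LT V) : t.flip.verts.Perm t.verts := by
  induction t with
  | leaf => exact List.Perm.refl _
  | add z l r t i1 i2 i3 =>
    simp only [LT.flip, LT.verts, ← List.append_assoc]
    exact ((List.perm_append_comm.trans (i1.append i2)).append i3).cons z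

omit [DecidableEq V] in
lemma LT.eo_flip (t : LT V) : ∀ u v, t.flip.eo v u = t.eo u v := by
  induction t with
  | leaf => intro u v; rfl
  | add z l r t i1 i2 i3 =>
    intro u v
    simp only [LT.flip, LT.eo, i1, i2, i3, Sym2.eq_swap (a := z) (b := u), Sym2.eq_swap (a := v) (b := z)]
    abel

/-- open drawings: the terminals enter from the left in the top and bottom zones -/
def Op (d g : ℤ) (t : LT V) : Prop :=
  ∀ (s u : V) (ρ0 : V → ℤ) (lo hi : ℤ), (s :: u :: t.verts).Nodup → lo + g ≤ hi →
    (ρ0 s = lo ∨ ρ0 s = lo + 1 ∨ ρ0 s = lo + d + 1) → (ρ0 u = hi ∨ ρ0 u = hi - 1 ∨ ρ0 u = hi - d - 1) →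
    OP ρ0 lo hi [s, u] [] [s, u] t.verts (t.em s u)

omit [DecidableEq V] in
lemma Op.of_flip {d g : ℤ} {t : LT V} (h : Op d g t.flip) : Op d g t := by
  intro s u ρ0 lo hi hn h1 h2 h3
  have := (h u s (fun w => lo + hi - ρ0 w) lo hi
    ((((t.verts_flip.cons _).cons _).trans (List.Perm.swap _ _ _)).nodup_iff.2 hn) h1
    (by omega) (by omega)).refl (lo + hi)
  simp only [sub_sub_cancel, add_sub_cancel_left, add_sub_cancel_right, LT.em, LT.eo_flip] at this
  rw [LT.em, Sym2.eq_swap]
  exact this.mono (by simp) (by simp) (by simp) (fun _ => t.verts_flip.mem_iff) le_rfl le_rfl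

lemma op_big {m Q : ℕ} {d H : ℤ} (hd : All V m d) (hH : All V (Q * m) H) (d1 : 1 ≤ d) (H1 : 1 ≤ H)
    {z : V} {l r t : LT V} (hl : l.verts.length < Q * m) (ht : t.verts.length < Q * m)
    (hr : Op d (H + 2 * d + 2 + Q) r) : Op d (H + 2 * d + 2 + Q) (.add z l r t) := by
  intro s u ρ0 lo hi hn h1 h2 h3
  obtain ⟨n1, n2, n3, n4, n5, n6, n7, n8⟩ := LT.nodup_add hn
  have n1' := n1
  have n2' := n2
  have n3' := n3
  simp only [List.mem_cons, List.nodup_cons] at n1' n2' n3'
  obtain ⟨c, c1, c2⟩ : ∃ c, (c = lo + 1 ∨ c = lo + d + 1) ∧ d ≤ |ρ0 s - c| := by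
    rcases h2 with h | h | h
    · exact ⟨lo + d + 1, Or.inr rfl, by rw [le_abs]; omega⟩
    · exact ⟨lo + d + 1, Or.inr rfl, by rw [le_abs]; omega⟩
    · exact ⟨lo + 1, Or.inl rfl, by rw [le_abs]; omega⟩
  set ρ1 := Function.update ρ0 z c with hρ
  have r1 : ρ1 s = ρ0 s := Function.update_of_ne (by grind) _ _
  have r2 : ρ1 u = ρ0 u := Function.update_of_ne (by grind) _ _
  have r3 : ρ1 z = c := Function.update_self _ _ _
  have A := (hH t ht).em H1 (ρ0 := ρ1) n3 (by rw [le_abs]; omega) (lo := lo) (hi := hi)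
    (by omega) (by omega)
  obtain ⟨q, q1, q2⟩ := semi hd hH H1 (s := s) (y := z) (ρ0 := ρ1) (lo := lo) (by omega) (by omega)
    (by rwa [r1, r3]) l [] _ hl n1 (by simp) (OP.single (by
      rw [r1, r3]; intro e; simp [e] at c2; omega))
  have q3 : q < Q := lt_of_mul_lt_mul_right (q1.trans_lt hl) (Nat.zero_le _)
  have B := (q2.ext (z := u) (by simpa using n4) (Or.inr ⟨by omega, by
    simp only [List.mem_cons]; grind⟩)).mono (hi' := hi) (fun _ h => h) (fun _ h => h)
    (fun _ h => h) (fun _ => Iff.rfl) le_rfl (by omega)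
  have C := hr z u ρ1 lo hi n2 h1 (by omega) (by omega)
  have D := (A.append B (by simp only [List.mem_cons]; grind)
    (by simp only [List.mem_cons, List.mem_append]; grind)
    (by simp only [List.mem_cons, List.mem_append]; grind)).append C
    (by simp only [List.mem_cons, List.mem_append]; grind)
    (by simp only [List.mem_cons, List.mem_append]; grind)
    (by simp only [List.mem_cons, List.mem_append]; grind)
  rw [show (LT.add z l r t).em s u = t.em s u + ({s(s, z)} + l.eo s z) + r.em z u by
    rw [LT.em_add, LT.em, ← Multiset.singleton_add]; abel]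
  exact ((D.mono (W' := [z, s, u]) (fun _ h => h) (fun _ h => h) (by simp) (fun _ => Iff.rfl)
    le_rfl le_rfl).new (by simp only [List.mem_append]; grind) (by omega) (by omega)).mono
    (fun _ h => h) (fun _ h => h) (fun _ h => h)
    (by simp only [LT.verts, List.mem_cons, List.mem_append]; grind) le_rfl le_rfl

lemma op_all {m Q : ℕ} {d H : ℤ} (hd : All V m d) (hH : All V (Q * m) H) (d1 : 1 ≤ d) (H1 : 1 ≤ H)
    (n : ℕ) : ∀ t : LT V, t.verts.length < n → t.verts.length < 2 * (Q * m) →
      Op d (H + 2 * d + 2 + Q) t := by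
  induction n with
  | zero => intro t h; omega
  | succ n ih =>
    intro t h1 h2
    cases t with
    | leaf =>
      intro s u ρ0 lo hi hn h1 h2 h3
      exact (OP.single (by omega)).mono (fun _ h => h) (by simp) (fun _ h => h) (fun _ => Iff.rfl)
        le_rfl le_rfl
    | add z l r t =>
      simp only [LT.verts, List.length_cons, List.length_append] at h1 h2
      by_cases ht : t.verts.length < Q * m
      · rcases le_total l.verts.length r.verts.length with h3 | h3
        · exact op_big hd hH d1 H1 (by omega) ht (ih r (by omega) (by omega))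
        · have e1 := l.verts_flip.length_eq
          have e2 := r.verts_flip.length_eq
          have e3 := t.verts_flip.length_eq
          exact Op.of_flip (op_big hd hH d1 H1 (by omega) (by omega) (ih _ (by omega) (by omega)))
      · intro s u ρ0 lo hi hn g1 g2 g3
        obtain ⟨n1, n2, n3, n4, n5, n6, n7, n8⟩ := LT.nodup_add hn
        have n1' := n1
        have n2' := n2
        have n3' := n3
        simp only [List.mem_cons, List.nodup_cons] at n1' n2' n3'
        have A := (hH (.add z l r .leaf) (by simp [LT.verts]; omega) s u ρ0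
          (hn.sublist (by simp [LT.verts])) (by rw [le_abs]; omega)).mono (fun _ h => h)
          (fun _ h => h) (fun _ h => h) (fun _ => Iff.rfl) (lo' := lo) (hi' := hi) (by omega) (by omega)
        have D := A.append (ih t (by omega) (by omega) s u ρ0 lo hi n3 g1 g2 g3) (by simp)
          (by simp only [LT.verts, List.mem_cons, List.mem_append]; grind)
          (by simp only [List.mem_cons]; grind)
        rw [show (LT.add z l r t).em s u = (LT.add z l r .leaf).eo s u + t.em s u by
          rw [LT.em_add, LT.eo_add]; simp only [LT.eo, add_zero]]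
        exact D.mono (fun _ h => h) (fun _ h => h) (by simp) (by simp [LT.verts])
          le_rfl le_rfl

omit [DecidableEq V] in
lemma Op.cl {d g : ℤ} (hg : 1 ≤ g) {t : LT V} (h : Op d g t) : Cl g t := by
  have key : ∀ (u v : V) (ρ0 : V → ℤ), (u :: v :: t.verts).Nodup → ρ0 u + g ≤ ρ0 v →
      OP ρ0 (ρ0 u) (ρ0 v) [u, v] [u, v] [u, v] t.verts (t.eo u v) := by
    intro u v ρ0 hn h1
    have h2 := h u v ρ0 _ _ hn h1 (Or.inl rfl) (Or.inl rfl)
    simp only [List.mem_cons, List.nodup_cons] at hn
    exact ((h2.erase.ext (z := u) (by grind) (Or.inl ⟨le_rfl, by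
      simp only [List.mem_cons]; grind⟩)).ext (z := v) (by grind) (Or.inr ⟨le_rfl, by
      simp only [List.mem_cons]; grind⟩)).mono (by simp) (by simp) (fun _ h => h)
      (fun _ => Iff.rfl) le_rfl le_rfl
  intro u v ρ0 hn h1
  rcases le_abs.1 h1 with h2 | h2
  · have := (key u v (fun w => 0 - ρ0 w) hn (by omega)).refl 0
    simp only [zero_sub, neg_neg] at this
    rwa [min_eq_right (by omega), max_eq_left (by omega)]
  · rw [min_eq_left (by omega), max_eq_right (by omega)]
    exact key u v ρ0 hn (by omega)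

lemma All.pow {m : ℕ} {d : ℤ} (hd : All V m d) (d1 : 1 ≤ d) (k : ℕ) :
    All V (2 ^ k * m) ((2 * k + 1) * d + 2 * k + 2 ^ k) := by
  induction k with
  | zero => exact hd.mono (by simp) (by simp)
  | succ k ih =>
    have h1 : (1 : ℤ) ≤ (2 * k + 1) * d + 2 * k + 2 ^ k := by
      have : (0 : ℤ) < 2 ^ k := by positivity
      nlinarith
    intro t ht
    have := (op_all hd ih d1 h1 _ t (Nat.lt_succ_self _) (by rw [pow_succ] at ht; linarith)).cl
      (by have : (0 : ℤ) ≤ (2 ^ k : ℕ) := by positivity
          omega)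
    refine fun u v ρ0 hn h => this u v ρ0 hn (le_trans (le_of_eq ?_) h)
    push_cast; ring

lemma all_levels (b J : ℕ) : ∀ j ≤ J, All V (2 ^ (b * tri j)) ((4 * J * b + 1 + 2 ^ b) ^ j) := by
  intro j
  induction j with
  | zero => intro _; simpa [tri] using all_one
  | succ j ih =>
    intro hj
    set F : ℤ := 4 * J * b + 1 + 2 ^ b with hF
    have b0 : (0 : ℤ) ≤ J * b := by positivity
    have p0 : (0 : ℤ) < 2 ^ b := by positivity
    have F1 : (1 : ℤ) ≤ F ^ j := one_le_pow₀ (by linarith)
    have F2 : ((2 : ℤ) ^ b) ^ j ≤ F ^ j := pow_le_pow_left₀ p0.le (by linarith) j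
    refine ((ih (by omega)).pow F1 (b * (j + 1))).mono (le_of_eq ?_) ?_
    · rw [← pow_add]; congr 1; simp only [tri]; ring
    · have h1 : ((b * (j + 1) : ℕ) : ℤ) ≤ J * b := by
        exact_mod_cast (by nlinarith : b * (j + 1) ≤ J * b)
      rw [pow_mul, pow_succ, pow_succ]
      nlinarith

end Pool.Agent.Lib.MP_68dca0_co
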