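import Pool.Agent.Lib.MP_68dca0_co.Tree

namespace Pool.Agent.Lib.MP_68dca0_co

variable {V : Type}

/-- a column of a visibility representation: bars `A`, vertical edge `e` -/
def Col (ρ : V → ℤ) (A : V → Prop) (e : Sym2 V) : Prop :=
  (∀ x y, A x → A y → ρ x = ρ y → x = y) ∧ ∀ a b, e = s(a, b) → ∀ w, A w → ρ a < ρ w → ρ b ≤ ρ w

/-- a list of columns; `X` are the bars entering from the left, `Y` those leaving to the right -/
def Val (ρ : V → ℤ) (X Y : List V) (L : List (Sym2 V)) : Prop :=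
  ∀ L1 e L2, L = L1 ++ e :: L2 →
    Col ρ (fun w => (w ∈ X ∨ w ∈ e ∨ ∃ f ∈ L1, w ∈ f) ∧ (w ∈ Y ∨ w ∈ e ∨ ∃ f ∈ L2, w ∈ f)) e

variable {ρ ρ0 : V → ℤ} {X Y Z Z' W I : List V} {lo hi : ℤ} {E : Multiset (Sym2 V)}

lemma Col.mono {A B : V → Prop} {e : Sym2 V} (h : Col ρ A e) (hA : ∀ w, B w → A w) : Col ρ B e :=
  ⟨fun x y hx hy => h.1 x y (hA x hx) (hA y hy), fun a b e w hw => h.2 a b e w (hA w hw)⟩

lemma Val.append {L1 L2 : List (Sym2 V)} (h1 : Val ρ X Z L1) (h2 : Val ρ Z' Y L2)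
    (h : ∀ w, (w ∈ X ∨ ∃ f ∈ L1, w ∈ f) → (w ∈ Y ∨ ∃ f ∈ L2, w ∈ f) → w ∈ Z ∧ w ∈ Z') :
    Val ρ X Y (L1 ++ L2) := by
  intro A e B hL
  have k2 : ∀ C, A = L1 ++ C → L2 = C ++ e :: B → Col ρ (fun w =>
      (w ∈ X ∨ w ∈ e ∨ ∃ f ∈ A, w ∈ f) ∧ (w ∈ Y ∨ w ∈ e ∨ ∃ f ∈ B, w ∈ f)) e := by
    rintro C rfl rfl
    refine (h2 C e B rfl).mono fun w hw => ⟨?_, hw.2⟩
    have := h w
    simp only [List.mem_append, List.mem_cons, or_and_right, exists_or, exists_eq_left] at this hw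
    generalize (∃ x ∈ L1, w ∈ x) = p1 at *
    generalize (∃ x ∈ C, w ∈ x) = p2 at *
    generalize (∃ x ∈ B, w ∈ x) = p3 at *
    grind
  rcases List.append_eq_append_iff.1 hL with ⟨C, h3, h4⟩ | ⟨C, h3, h4⟩
  · exact k2 C h3 h4
  · cases C with
    | nil => exact k2 [] (by simpa using h3.symm) (by simpa using h4.symm)
    | cons f C =>
      simp only [List.cons_append, List.cons.injEq] at h4
      obtain ⟨rfl, rfl⟩ := h4
      subst h3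
      refine (h1 A e C rfl).mono fun w hw => ⟨hw.1, ?_⟩
      have := h w
      simp only [List.mem_append, List.mem_cons, or_and_right, exists_or, exists_eq_left] at this hw
      clear k2
      generalize (∃ x ∈ L2, w ∈ x) = p1 at *
      generalize (∃ x ∈ C, w ∈ x) = p2 at *
      generalize (∃ x ∈ A, w ∈ x) = p3 at *
      grind

lemma Val.sublist {L L' : List (Sym2 V)} (h : Val ρ X Y L) (hs : L'.Sublist L) : Val ρ X Y L' := by
  rintro A e B rfl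
  obtain ⟨A', C, rfl, h1, h2⟩ := List.append_sublist_iff.1 hs
  obtain ⟨D, B', rfl, h3, h4⟩ := List.cons_sublist_iff.1 h2
  obtain ⟨D1, D2, rfl⟩ := List.append_of_mem h3
  refine (h (A' ++ D1) e (D2 ++ B') (by simp)).mono fun w hw => ?_
  have e1 := h1.subset
  have e2 := h4.subset
  simp only [List.mem_append]
  grind

/-- an open piece of a visibility representation: terminals `W`, new vertices `I` -/
def OP (ρ0 : V → ℤ) (lo hi : ℤ) (X Y W I : List V) (E : Multiset (Sym2 V)) : Prop :=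
  (∀ e ∈ E, ∀ w ∈ e, w ∈ W ∨ w ∈ I) ∧ ∃ ρ : V → ℤ, (∀ w, w ∉ I → ρ w = ρ0 w) ∧
    (∀ w ∈ I, lo < ρ w ∧ ρ w < hi) ∧ ∃ L : List (Sym2 V), (L : Multiset (Sym2 V)) = E ∧ Val ρ X Y L

lemma Val.congr {L : List (Sym2 V)} {ρ' : V → ℤ} (h : Val ρ X Y L)
    (h1 : ∀ w, (w ∈ X ∧ w ∈ Y) ∨ (∃ f ∈ L, w ∈ f) → ρ' w = ρ w) : Val ρ' X Y L := by
  rintro A e B rfl
  obtain ⟨c1, c2⟩ := h A e B rfl
  have h2 : ∀ w, (w ∈ X ∨ w ∈ e ∨ ∃ f ∈ A, w ∈ f) ∧ (w ∈ Y ∨ w ∈ e ∨ ∃ f ∈ B, w ∈ f) →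
      ρ' w = ρ w := fun w hw => h1 w (by
    simp only [List.mem_append, List.mem_cons]
    grind)
  refine ⟨fun x y hx hy => ?_, fun a b he w hw => ?_⟩
  · rw [h2 x hx, h2 y hy]; exact c1 x y hx hy
  · rw [h2 w hw, h2 a (by simp [he]), h2 b (by simp [he])]; exact c2 a b he w hw

lemma OP.mono {X' Y' W' I' : List V} {lo' hi' : ℤ} (h : OP ρ0 lo hi X Y W I E)
    (hX : ∀ w ∈ X', w ∈ X) (hY : ∀ w ∈ Y', w ∈ Y) (hW : ∀ w ∈ W, w ∈ W') (hI : ∀ w, w ∈ I ↔ w ∈ I')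
    (h1 : lo' ≤ lo) (h2 : hi ≤ hi') : OP ρ0 lo' hi' X' Y' W' I' E := by
  obtain ⟨g1, ρ, g2, g3, L, g4, g5⟩ := h
  refine ⟨fun e he w hw => (g1 e he w hw).imp (hW w) (hI w).1, ρ, fun w hw => g2 w (mt (hI w).1 hw),
    fun w hw => ?_, L, g4, fun A e B h => (g5 A e B h).mono fun w hw =>
      ⟨hw.1.imp_left (hX w), hw.2.imp_left (hY w)⟩⟩
  have := g3 w ((hI w).2 hw)
  omega

lemma OP.nil : OP ρ0 lo hi X Y W [] 0 :=
  ⟨by simp, ρ0, by simp, by simp, [], rfl, fun A e B h => by simp at h⟩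

lemma OP.single {a b : V} (h : ρ0 a ≠ ρ0 b) : OP ρ0 lo hi [a, b] [a, b] [a, b] [] {s(a, b)} := by
  refine ⟨by simp, ρ0, by simp, by simp, [s(a, b)], rfl, fun A e B h1 => ?_⟩
  obtain ⟨rfl, rfl, rfl⟩ : A = [] ∧ e = s(a, b) ∧ B = [] := by
    cases A with
    | nil => simp at h1; simp [h1]
    | cons f A => simp at h1
  constructor
  · simp only [List.mem_cons, Sym2.mem_iff]; grind
  · simp only [List.mem_cons, Sym2.mem_iff, Sym2.eq_iff]; grind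

lemma OP.append {W' I' : List V} {E' : Multiset (Sym2 V)} (h1 : OP ρ0 lo hi X Z W I E)
    (h2 : OP ρ0 lo hi Z' Y W' I' E')
    (c1 : ∀ w, (w ∈ X ∨ w ∈ W) → (w ∈ Y ∨ w ∈ W') → w ∈ Z ∧ w ∈ Z')
    (c2 : ∀ w ∈ I, w ∉ Y ∧ w ∉ W' ∧ w ∉ I') (c3 : ∀ w ∈ I', w ∉ X ∧ w ∉ W) :
    OP ρ0 lo hi X Y (W ++ W') (I ++ I') (E + E') := by
  classical
  obtain ⟨a1, ρ1, a2, a3, L1, rfl, a5⟩ := h1
  obtain ⟨b1, ρ2, b2, b3, L2, rfl, b5⟩ := h2
  simp only [Multiset.mem_coe] at a1 b1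
  refine ⟨?_, fun w => if w ∈ I then ρ1 w else ρ2 w, fun w hw => ?_, fun w hw => ?_, L1 ++ L2,
    rfl, Val.append (Z := Z) (Z' := Z') (a5.congr fun w hw => ?_) (b5.congr fun w hw => ?_)
      fun w g1 g2 => ?_⟩
  · simp only [Multiset.coe_add, Multiset.mem_coe, List.mem_append]
    grind
  · simp only [List.mem_append, not_or] at hw
    simp only [if_neg hw.1, b2 w hw.2]
  · simp only [List.mem_append] at hw
    grind
  · grind
  · grind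
  · grind

lemma OP.new [DecidableEq V] {z : V} {c : ℤ} (h : OP (Function.update ρ0 z c) lo hi X Y (z :: W) I E)
    (hz : z ∉ I) (h1 : lo < c) (h2 : c < hi) : OP ρ0 lo hi X Y W (z :: I) E := by
  obtain ⟨g1, ρ, g2, g3, L, g4, g5⟩ := h
  refine ⟨fun e he w hw => ?_, ρ, fun w hw => ?_, fun w hw => ?_, L, g4, g5⟩
  · have := g1 e he w hw
    simp only [List.mem_cons] at this ⊢
    tauto
  · simp only [List.mem_cons, not_or] at hw
    rw [g2 w hw.2, Function.update_of_ne hw.1]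
  · rcases List.mem_cons.1 hw with rfl | hw
    · rw [g2 w hz, Function.update_self]; exact ⟨h1, h2⟩
    · exact g3 w hw

lemma OP.congr {ρ1 : V → ℤ} (h : OP ρ0 lo hi X Y W I E)
    (h1 : ∀ w, (w ∈ X ∧ w ∈ Y) ∨ w ∈ W → ρ1 w = ρ0 w) : OP ρ1 lo hi X Y W I E := by
  classical
  obtain ⟨g1, ρ, g2, g3, L, rfl, g5⟩ := h
  refine ⟨g1, fun w => if w ∈ I then ρ w else ρ1 w, fun w hw => if_neg hw,
    fun w hw => by simpa [hw] using g3 w hw, L, rfl, g5.congr fun w hw => ?_⟩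
  simp only [Multiset.mem_coe] at g1
  grind

lemma OP.refl (c : ℤ) (h : OP ρ0 lo hi X Y W I E) :
    OP (fun w => c - ρ0 w) (c - hi) (c - lo) X Y W I E := by
  obtain ⟨g1, ρ, g2, g3, L, g4, g5⟩ := h
  refine ⟨g1, fun w => c - ρ w, fun w hw => by simp only [g2 w hw], fun w hw => ?_, L, g4,
    fun A e B h => ?_⟩
  · have := g3 w hw
    simp only
    omega
  · obtain ⟨c1, c2⟩ := g5 A e B h
    refine ⟨fun x y hx hy h => c1 x y hx hy (by simpa using h), fun a b he w hw h => ?_⟩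
    have := c2 b a (he.trans Sym2.eq_swap) w hw
    simp only at h ⊢
    omega

lemma OP.ext {z : V} (h : OP ρ0 lo hi X Y W I E) (hz : z ∉ I)
    (h1 : (ρ0 z ≤ lo ∧ ∀ w, (w ∈ X ∧ w ∈ Y) ∨ w ∈ W → w ≠ z → ρ0 z < ρ0 w) ∨
      (hi ≤ ρ0 z ∧ ∀ w, (w ∈ X ∧ w ∈ Y) ∨ w ∈ W → w ≠ z → ρ0 w < ρ0 z)) :
    OP ρ0 lo hi (z :: X) (z :: Y) W I E := by
  obtain ⟨g1, ρ, g2, g3, L, rfl, g5⟩ := h
  refine ⟨g1, ρ, g2, g3, L, rfl, ?_⟩
  rintro A e B rfl
  obtain ⟨c1, c2⟩ := g5 A e B rfl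
  simp only [Multiset.mem_coe, List.mem_append, List.mem_cons] at g1
  have h2 : (∀ w, (w ∈ X ∨ w ∈ e ∨ ∃ f ∈ A, w ∈ f) ∧ (w ∈ Y ∨ w ∈ e ∨ ∃ f ∈ B, w ∈ f) → w ≠ z →
      ρ z < ρ w) ∨ ∀ w, (w ∈ X ∨ w ∈ e ∨ ∃ f ∈ A, w ∈ f) ∧ (w ∈ Y ∨ w ∈ e ∨ ∃ f ∈ B, w ∈ f) →
      w ≠ z → ρ w < ρ z := by
    refine h1.imp (fun h w hw hwz => ?_) (fun h w hw hwz => ?_) <;>
    · have e1 := g2 w
      have e2 := g3 w
      have e3 := h.2 w
      have e4 := g2 z hz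
      grind
  refine ⟨fun x y hx hy h => ?_, fun a b he w hw h => ?_⟩
  · simp only [List.mem_cons] at hx hy
    have e1 := c1 x y
    rcases h2 with h2 | h2 <;>
    · have e2 := h2 x
      have e3 := h2 y
      grind
  · simp only [List.mem_cons] at hw
    have e1 := c2 a b he w
    have ea : a ∈ e := by simp [he]
    have eb : b ∈ e := by simp [he]
    rcases h2 with h2 | h2 <;>
    · have e2 := h2 a
      have e3 := h2 b
      grind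

lemma OP.erase {e : Sym2 V} (h : OP ρ0 lo hi X Y W I (e ::ₘ E)) : OP ρ0 lo hi X Y W I E := by
  obtain ⟨g1, ρ, g2, g3, L, g4, g5⟩ := h
  obtain ⟨A, B, rfl⟩ := List.append_of_mem (show e ∈ L by rw [← Multiset.mem_coe, g4]; simp)
  refine ⟨fun f hf => g1 f (Multiset.mem_cons_of_mem hf), ρ, g2, g3, A ++ B, ?_,
    g5.sublist ((List.sublist_cons_self _ _).append_left _)⟩
  rw [← Multiset.cons_inj_right e, ← g4, Multiset.cons_coe, Multiset.coe_eq_coe]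
  exact List.perm_middle.symm

end Pool.Agent.Lib.MP_68dca0_co
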